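import Pool.Agent.LHf.Defs

/-! MODULE BESS: the large sieve inequality, general form. -/

set_option autoImplicit false

namespace Pool.Agent.LHf

open Finset

/-- PROOF. The left side is `‖∑ m ∈ T, s m‖ ^ 2` with `s m = ∑ ω ∈ Ω, n ω = m, a ω`; by
Cauchy - Schwarz it is at most `card T * ∑ m ∈ T, ‖s m‖ ^ 2 ≤ card T * ∑ m ∈ n(Ω), ‖s m‖ ^ 2`, and
`∑ m, ‖s m‖ ^ 2 = ∑ m, s m conj (s m)` is the double sum (a nonnegative real number). -/
theorem bess {ι : Type} (Ω : Finset ι) (n : ι → ℤ) (a : ι → ℂ) (T : Finset ℤ) :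
    ‖∑ ω ∈ Ω, if n ω ∈ T then a ω else 0‖ ^ 2 ≤
      T.card * ‖∑ ω ∈ Ω, ∑ ω' ∈ Ω, if n ω = n ω' then a ω * (starRingEnd ℂ) (a ω') else 0‖ := by
  classical
  set s : ℤ → ℂ := fun m => ∑ ω ∈ Ω, if n ω = m then a ω else 0 with hs
  have h1 : ∑ ω ∈ Ω, (if n ω ∈ T then a ω else 0) = ∑ m ∈ T, s m := by
    simp only [hs]
    rw [Finset.sum_comm]
    refine Finset.sum_congr rfl fun ω _ => ?_
    rw [Finset.sum_ite_eq T (n ω) (fun _ => a ω)]
  have h2 : ‖∑ m ∈ T, s m‖ ^ 2 ≤ T.card * ∑ m ∈ T, ‖s m‖ ^ 2 := by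
    calc ‖∑ m ∈ T, s m‖ ^ 2 ≤ (∑ m ∈ T, ‖s m‖) ^ 2 := by
          gcongr
          exact norm_sum_le _ _
      _ ≤ T.card * ∑ m ∈ T, ‖s m‖ ^ 2 := by
          have := sq_sum_le_card_mul_sum_sq (s := T) (f := fun m => ‖s m‖)
          exact_mod_cast this
  have h3 : ∑ ω ∈ Ω, ∑ ω' ∈ Ω,
      (if n ω = n ω' then a ω * (starRingEnd ℂ) (a ω') else 0) =
      ((∑ m ∈ Ω.image n, ‖s m‖ ^ 2 : ℝ) : ℂ) := by
    have h4 : ∀ m, ((‖s m‖ ^ 2 : ℝ) : ℂ) = ∑ ω ∈ Ω, ∑ ω' ∈ Ω,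
        (if n ω = m then (if n ω' = m then a ω * (starRingEnd ℂ) (a ω') else 0) else 0) := by
      intro m
      have h5 : ((‖s m‖ ^ 2 : ℝ) : ℂ) = s m * (starRingEnd ℂ) (s m) := by
        rw [Complex.mul_conj, Complex.normSq_eq_norm_sq]
      rw [h5]
      simp only [hs]
      rw [map_sum, Finset.sum_mul_sum]
      refine Finset.sum_congr rfl fun ω _ => Finset.sum_congr rfl fun ω' _ => ?_
      split_ifs <;> simp
    have h4' : ((∑ m ∈ Ω.image n, ‖s m‖ ^ 2 : ℝ) : ℂ) = ∑ m ∈ Ω.image n, ∑ ω ∈ Ω, ∑ ω' ∈ Ω,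
        (if n ω = m then (if n ω' = m then a ω * (starRingEnd ℂ) (a ω') else 0) else 0) := by
      rw [Complex.ofReal_sum]
      exact Finset.sum_congr rfl (fun m _ => h4 m)
    rw [h4']
    symm
    rw [Finset.sum_comm]
    refine Finset.sum_congr rfl fun ω hω => ?_
    rw [Finset.sum_comm]
    refine Finset.sum_congr rfl fun ω' _ => ?_
    rw [Finset.sum_eq_single (n ω)]
    · rw [if_pos rfl]
      by_cases h : n ω = n ω'
      · rw [if_pos h, if_pos h.symm]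
      · rw [if_neg h, if_neg (fun h' => h h'.symm)]
    · intro m _ hm
      rw [if_neg (fun h => hm h.symm)]
    · intro h
      exact absurd (Finset.mem_image_of_mem n hω) h
  have h6 : ∑ m ∈ T, ‖s m‖ ^ 2 ≤ ∑ m ∈ Ω.image n, ‖s m‖ ^ 2 := by
    have h7 : ∑ m ∈ T, ‖s m‖ ^ 2 = ∑ m ∈ T ∩ Ω.image n, ‖s m‖ ^ 2 := by
      symm
      apply Finset.sum_subset Finset.inter_subset_left
      intro m hm hm'
      have : s m = 0 := by
        simp only [hs]
        refine Finset.sum_eq_zero fun ω hω => ?_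
        rw [if_neg]
        intro h
        exact hm' (Finset.mem_inter.2 ⟨hm, Finset.mem_image.2 ⟨ω, hω, h⟩⟩)
      rw [this]
      simp
    rw [h7]
    exact Finset.sum_le_sum_of_subset_of_nonneg Finset.inter_subset_right
      (fun _ _ _ => sq_nonneg _)
  rw [h1, h3, Complex.norm_real, Real.norm_of_nonneg (Finset.sum_nonneg fun _ _ => sq_nonneg _)]
  exact h2.trans (mul_le_mul_of_nonneg_left h6 (Nat.cast_nonneg _))

end Pool.Agent.LHf
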