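import Pool.Agent.LHf.Defs

/-! MODULE CDIV: counting divisors and contents. -/

set_option autoImplicit false

namespace Pool.Agent.LHf

open Finset

/-- the number of integers `A ≠ 0` in `[-X, X]` dividing `n ≠ 0` is at most `2 * d(|n|)` -/
theorem card_div (X : ℕ) (n : ℤ) (hn : n ≠ 0) :
    (((Icc (-(X : ℤ)) X).erase 0).filter (fun A => A ∣ n)).card ≤ 2 * n.natAbs.divisors.card := by
  refine Finset.card_le_mul_card_image_of_maps_to (f := fun A : ℤ => A.natAbs)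
    (t := n.natAbs.divisors) ?_ _ ?_
  · intro A hA
    rw [Nat.mem_divisors]
    exact ⟨Int.natAbs_dvd_natAbs.2 (mem_filter.1 hA).2, Int.natAbs_ne_zero.2 hn⟩
  · intro b _
    have : (Finset.filter (fun A : ℤ => A.natAbs = b)
        (((Icc (-(X : ℤ)) X).erase 0).filter (fun A => A ∣ n))) ⊆ {(b : ℤ), -(b : ℤ)} := by
      intro A hA
      have h := (mem_filter.1 hA).2
      rw [mem_insert, mem_singleton]
      omega
    exact (Finset.card_le_card this).trans (Finset.card_le_two)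

/-- PROOF. A vector counted here has `g = cont v > G`, and `g` divides both coordinates, which are in
`[1, 3 Z1]`, `[1, 3 Z2]`: at most `(3 Z1 / g) (3 Z2 / g) ≤ 9 Z1 Z2 / g ^ 2` vectors for each `g`
(`g ≤ 3 Z1`), and `∑ g > G, 1 / g ^ 2 ≤ 1 / G` (telescoping,
`1 / g ^ 2 ≤ 1 / (g - 1) - 1 / g`). -/
theorem cont_card (Z1 Z2 G : ℕ) (hG : 1 ≤ G) :
    ((((pbx (3 * Z1) (3 * Z2)).filter (fun v => G < cont v)).card : ℕ) : ℝ) ≤
      9 * Z1 * Z2 / G := by
  have hsub : (pbx (3 * Z1) (3 * Z2)).filter (fun v => G < cont v) ⊆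
      (Ioc G (3 * Z1)).biUnion fun g => (pbx (3 * Z1) (3 * Z2)).filter
        (fun v => (g : ℤ) ∣ v.1 ∧ (g : ℤ) ∣ v.2) := by
    intro v hv
    rw [mem_filter] at hv
    rw [mem_biUnion]
    have hv1 := hv.1
    unfold pbx at hv1
    rw [mem_product, mem_Icc, mem_Icc] at hv1
    have d1 : (cont v : ℤ) ∣ v.1 := Int.gcd_dvd_left _ _
    have d2 : (cont v : ℤ) ∣ v.2 := Int.gcd_dvd_right _ _
    refine ⟨cont v, ?_, ?_⟩
    · rw [mem_Ioc]
      refine ⟨hv.2, ?_⟩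
      have h1 := Int.le_of_dvd (by omega) d1
      have h2 := hv1.1.2
      exact_mod_cast h1.trans h2
    · rw [mem_filter]
      exact ⟨hv.1, d1, d2⟩
  have hone : ∀ g ∈ Ioc G (3 * Z1), ((((pbx (3 * Z1) (3 * Z2)).filter
        (fun v => (g : ℤ) ∣ v.1 ∧ (g : ℤ) ∣ v.2)).card : ℕ) : ℝ) ≤
          9 * Z1 * Z2 * ((g : ℝ) ^ 2)⁻¹ := by
    intro g hg
    rw [mem_Ioc] at hg
    have hg0 : 0 < g := by omega
    have hgz : (0 : ℤ) < g := by exact_mod_cast hg0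
    have hcard : ((pbx (3 * Z1) (3 * Z2)).filter
        (fun v => (g : ℤ) ∣ v.1 ∧ (g : ℤ) ∣ v.2)).card ≤
          (Icc (1 : ℤ) ((3 * Z1 / g : ℕ) : ℤ) ×ˢ Icc (1 : ℤ) ((3 * Z2 / g : ℕ) : ℤ)).card := by
      refine Finset.card_le_card_of_injOn (fun v => ((v.1 / g, v.2 / g) : ℤ × ℤ)) ?_ ?_
      · intro v hv
        have hv := mem_filter.1 (mem_coe.1 hv)
        have hv1 := hv.1
        unfold pbx at hv1
        rw [mem_product, mem_Icc, mem_Icc] at hv1
        obtain ⟨⟨b1, b2⟩, b3, b4⟩ := hv1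
        have c1 := Int.le_of_dvd (by omega) hv.2.1
        have c2 := Int.le_of_dvd (by omega) hv.2.2
        simp only [coe_product, coe_Icc, Set.mem_prod, Set.mem_Icc]
        refine ⟨⟨?_, ?_⟩, ?_, ?_⟩
        · exact (Int.le_ediv_iff_mul_le hgz).2 (by omega)
        · rw [Int.natCast_div]
          exact Int.ediv_le_ediv hgz (by exact_mod_cast b2)
        · exact (Int.le_ediv_iff_mul_le hgz).2 (by omega)
        · rw [Int.natCast_div]
          exact Int.ediv_le_ediv hgz (by exact_mod_cast b4)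
      · intro v hv w hw he
        have hv := (mem_filter.1 (mem_coe.1 hv)).2
        have hw := (mem_filter.1 (mem_coe.1 hw)).2
        have he1 : v.1 / (g : ℤ) = w.1 / g := congrArg Prod.fst he
        have he2 : v.2 / (g : ℤ) = w.2 / g := congrArg Prod.snd he
        refine Prod.ext ?_ ?_
        · rw [← Int.mul_ediv_cancel' hv.1, ← Int.mul_ediv_cancel' hw.1, he1]
        · rw [← Int.mul_ediv_cancel' hv.2, ← Int.mul_ediv_cancel' hw.2, he2]
    rw [card_product, Int.card_Icc, Int.card_Icc] at hcard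
    have e1 : (((3 * Z1 / g : ℕ) : ℤ) + 1 - 1).toNat = 3 * Z1 / g := by
      generalize 3 * Z1 / g = k
      omega
    have e2 : (((3 * Z2 / g : ℕ) : ℤ) + 1 - 1).toNat = 3 * Z2 / g := by
      generalize 3 * Z2 / g = k
      omega
    rw [e1, e2] at hcard
    have hgr : (0 : ℝ) < g := by exact_mod_cast hg0
    have f1 : ((3 * Z1 / g : ℕ) : ℝ) ≤ 3 * Z1 / g := by
      have := @Nat.cast_div_le ℝ _ _ _ (3 * Z1) g
      push_cast at this
      exact this
    have f2 : ((3 * Z2 / g : ℕ) : ℝ) ≤ 3 * Z2 / g := by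
      have := @Nat.cast_div_le ℝ _ _ _ (3 * Z2) g
      push_cast at this
      exact this
    calc ((((pbx (3 * Z1) (3 * Z2)).filter
        (fun v => (g : ℤ) ∣ v.1 ∧ (g : ℤ) ∣ v.2)).card : ℕ) : ℝ)
        ≤ ((3 * Z1 / g * (3 * Z2 / g) : ℕ) : ℝ) := by exact_mod_cast hcard
      _ = ((3 * Z1 / g : ℕ) : ℝ) * ((3 * Z2 / g : ℕ) : ℝ) := by push_cast; ring
      _ ≤ (3 * Z1 / g) * (3 * Z2 / g) := by gcongr
      _ = 9 * Z1 * Z2 * ((g : ℝ) ^ 2)⁻¹ := by field_simp; ring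
  have hGr : (0 : ℝ) < G := by exact_mod_cast hG
  calc ((((pbx (3 * Z1) (3 * Z2)).filter (fun v => G < cont v)).card : ℕ) : ℝ)
      ≤ ((∑ g ∈ Ioc G (3 * Z1), ((pbx (3 * Z1) (3 * Z2)).filter
        (fun v => (g : ℤ) ∣ v.1 ∧ (g : ℤ) ∣ v.2)).card : ℕ) : ℝ) := by
        exact_mod_cast (Finset.card_le_card hsub).trans Finset.card_biUnion_le
    _ = ∑ g ∈ Ioc G (3 * Z1), ((((pbx (3 * Z1) (3 * Z2)).filter
        (fun v => (g : ℤ) ∣ v.1 ∧ (g : ℤ) ∣ v.2)).card : ℕ) : ℝ) := by push_cast; rfl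
    _ ≤ ∑ g ∈ Ioc G (3 * Z1), 9 * Z1 * Z2 * ((g : ℝ) ^ 2)⁻¹ := Finset.sum_le_sum hone
    _ = 9 * Z1 * Z2 * ∑ g ∈ Ioc G (3 * Z1), ((g : ℝ) ^ 2)⁻¹ := by rw [Finset.mul_sum]
    _ ≤ 9 * Z1 * Z2 * (G : ℝ)⁻¹ := by
        gcongr
        rcases le_or_gt G (3 * Z1) with hle | hlt
        · have h := @sum_Ioc_inv_sq_le_sub ℝ _ _ _ G (3 * Z1) (by omega) hle
          refine h.trans ?_
          have : (0 : ℝ) ≤ ((3 * Z1 : ℕ) : ℝ)⁻¹ := by positivity
          linarith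
        · rw [Finset.Ioc_eq_empty (by omega), Finset.sum_empty]
          positivity
    _ = 9 * Z1 * Z2 / G := by rw [div_eq_mul_inv]

end Pool.Agent.LHf
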