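import Pool.Agent.LHf.Defs

/-! MODULE CHEB: primes in `(n / 8, n]`. -/

set_option autoImplicit false

namespace Pool.Agent.LHf

open Finset

private theorem cheb_card (n : ℕ) :
    Nat.primeCounting n ≤ (prw n).card + Nat.primeCounting (n / 8) := by
  unfold Nat.primeCounting Nat.primeCounting' 
  rw [Nat.count_eq_card_filter_range, Nat.count_eq_card_filter_range]
  refine le_trans (Finset.card_le_card ?_) (Finset.card_union_le _ _)
  intro q hq
  rw [mem_filter, mem_range] at hq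
  rw [mem_union]
  by_cases h : n < 8 * q
  · left
    unfold prw
    rw [mem_filter, mem_range]
    exact ⟨hq.1, hq.2, h⟩
  · right
    rw [mem_filter, mem_range]
    exact ⟨by omega, hq.2⟩

/-- PROOF. Mathlib: `Chebyshev.pi_ge : (n log 2 - log (n + 1)) / log n ≤ π n` and
`Chebyshev.pi_le_log4_mul_div : π ⌊x⌋₊ ≤ log 4 * x / log √x + √x` with `x = n / 8`:
the number is `π n - π ⌊n / 8⌋ ≥ 0.69 n / log n - log (n + 1) / log n - 0.3466 n / log (n / 8)
- sqrt (n / 8) ≥ n / (4 log n)` for large `n`. -/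
theorem cheb : ∃ n0 : ℕ, ∀ n : ℕ, n0 ≤ n → (n : ℝ) / (4 * Real.log n) ≤ (prw n).card := by
  have e1 : ∀ᶠ x : ℝ in Filter.atTop, Real.log x ≤ (1 / 100) * √x := by
    have h := (isLittleO_log_rpow_atTop (by norm_num : (0 : ℝ) < 1 / 2)).bound
      (by norm_num : (0 : ℝ) < 1 / 100)
    filter_upwards [h, Filter.eventually_ge_atTop 1] with x hx hx1
    rw [Real.norm_eq_abs, Real.norm_eq_abs, abs_of_nonneg (Real.log_nonneg hx1),
      abs_of_nonneg (by positivity)] at hx
    rwa [Real.sqrt_eq_rpow]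
  have e2 : ∀ᶠ x : ℝ in Filter.atTop, 11 * Real.log 8 ≤ Real.log x :=
    Real.tendsto_log_atTop.eventually_ge_atTop _
  have e3 := (tendsto_natCast_atTop_atTop (R := ℝ)).eventually
    (e1.and (e2.and (Filter.eventually_ge_atTop 9)))
  obtain ⟨n0, hn0⟩ := Filter.eventually_atTop.1 e3
  refine ⟨n0, fun n hn => ?_⟩
  obtain ⟨h1, h2, h3⟩ := hn0 n hn
  have hn0' : (0 : ℝ) < n := by linarith
  have hn9 : 9 ≤ n := by exact_mod_cast h3
  have hl2 : 0.6931471803 < Real.log 2 := Real.log_two_gt_d9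
  have hl2' : Real.log 2 < 0.6931471808 := Real.log_two_lt_d9
  have hl8 : Real.log 8 = 3 * Real.log 2 := by
    rw [show (8 : ℝ) = 2 ^ 3 by norm_num, Real.log_pow]; norm_num
  have hl4 : Real.log 4 = 2 * Real.log 2 := by
    rw [show (4 : ℝ) = 2 ^ 2 by norm_num, Real.log_pow]; norm_num
  set L := Real.log n with hL
  have hL1 : 1 ≤ L := by rw [hl8] at h2; linarith
  have hL0 : 0 < L := by linarith
  have hsq : √(n : ℝ) * √(n : ℝ) = n := Real.mul_self_sqrt hn0'.le
  have hs1 : 1 ≤ √(n : ℝ) := by rw [Real.one_le_sqrt]; linarith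
  have hsn : √(n : ℝ) ≤ n := by nlinarith
  have hln1 : Real.log (n + 1) ≤ 2 * L := by
    have : Real.log (n + 1) ≤ Real.log (2 * n) := Real.log_le_log (by linarith) (by linarith)
    rw [Real.log_mul (by norm_num) hn0'.ne'] at this
    rw [← hL] at this
    linarith
  have hpi1 := Chebyshev.pi_ge n
  have hpi2 := @Chebyshev.pi_le_log4_mul_div ((n : ℝ) / 8) (by linarith)
  have hfl : ⌊(n : ℝ) / 8⌋₊ = n / 8 := by
    have := Nat.floor_div_eq_div (K := ℝ) n 8
    exact_mod_cast this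
  rw [hfl] at hpi2
  have hlog8 : Real.log ((n : ℝ) / 8) = L - Real.log 8 := Real.log_div hn0'.ne' (by norm_num)
  rw [Real.log_sqrt (by positivity), hlog8] at hpi2
  have hcard := cheb_card n
  have hcard' : (Nat.primeCounting n : ℝ) ≤ (prw n).card + (Nat.primeCounting (n / 8) : ℝ) := by
    exact_mod_cast hcard
  -- first bound
  have b1 : ((n : ℝ) * Real.log 2 - 0.02 * n) / L ≤ (Nat.primeCounting n : ℝ) := by
    refine le_trans ?_ hpi1
    gcongr
    nlinarith
  have b2 : Real.log 4 * (n / 8) / ((L - Real.log 8) / 2) ≤ (0.55 * Real.log 2 * n) / L := by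
    rw [hl4]
    have hpos : 0 < L - Real.log 8 := by
      rw [hl8] at h2 ⊢; linarith
    rw [div_le_div_iff₀ (by linarith) hL0]
    have : 10 / 11 * L ≤ L - Real.log 8 := by linarith
    have hc : 0 ≤ Real.log 2 * n := by positivity
    nlinarith [mul_le_mul_of_nonneg_left this hc]
  have b3 : √((n : ℝ) / 8) ≤ 0.01 * n / L := by
    have : √((n : ℝ) / 8) ≤ √(n : ℝ) := Real.sqrt_le_sqrt (by linarith)
    refine this.trans ?_
    rw [le_div_iff₀ hL0]
    nlinarith
  have b4 : (n : ℝ) / (4 * L) = (0.25 * n) / L := by field_simp; norm_num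
  rw [b4]
  have b5 : (0.25 * n) / L ≤ ((n : ℝ) * Real.log 2 - 0.02 * n) / L - (0.55 * Real.log 2 * n) / L
      - 0.01 * n / L := by
    rw [← sub_div, ← sub_div]
    gcongr
    nlinarith
  linarith

end Pool.Agent.LHf
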