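import Pool.Agent.LHf.Defs

/-! MODULE DIVM: divisors of smooth numbers. -/

set_option autoImplicit false

namespace Pool.Agent.LHf

open Finset

/-- PROOF. Induction on `n`. Let `l` be a prime factor of `n` (`n > X ≥ 1`) and
`n = l n'`. If `n' ≤ X` then `M = n` works (`n = l n' ≤ B X`); otherwise take the `M` of `n'`. -/
theorem divm {B X n : ℕ} (hB : 1 ≤ B) (hX : 1 ≤ X) (hn : X < n)
    (hs : ∀ l : ℕ, l.Prime → l ∣ n → l ≤ B) : ∃ M, M ∣ n ∧ X < M ∧ M ≤ X * B := by
  induction n using Nat.strong_induction_on with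
  | _ n ih =>
    have hn1 : n ≠ 1 := by omega
    have hl := Nat.minFac_prime hn1
    obtain ⟨n', hn'⟩ := Nat.minFac_dvd n
    have hlB : n.minFac ≤ B := hs _ hl (Nat.minFac_dvd n)
    by_cases h : n' ≤ X
    · refine ⟨n, dvd_rfl, hn, ?_⟩
      calc n = n.minFac * n' := hn'
        _ ≤ B * X := Nat.mul_le_mul hlB h
        _ = X * B := mul_comm _ _
    · push Not at h
      have hd : n' ∣ n := ⟨n.minFac, by rw [mul_comm]; exact hn'⟩
      have hlt : n' < n := by
        have h2 := hl.two_le
        have h3 : n.minFac * n' = n := hn'.symm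
        nlinarith
      obtain ⟨M, h1, h2, h3⟩ := ih n' hlt h (fun l hl' hd' => hs l hl' (hd'.trans hd))
      exact ⟨M, h1.trans hd, h2, h3⟩

/-- PROOF. Strong induction. If `g ≤ B ^ 2` take `[g]`. Otherwise `divm` with `X = B` gives
`M ∣ g`, `B < M ≤ B ^ 2`; use the list of `g / M` and `M`:
`2 + log (g / M) / log B ≤ 2 + log g / log B - 1`. -/
theorem smp {B : ℕ} (hB : 2 ≤ B) (g : ℕ) (hg : 1 ≤ g) (hs : ∀ l : ℕ, l.Prime → l ∣ g → l ≤ B) :
    ∃ L : List ℕ, L.prod = g ∧ (∀ x ∈ L, x ≤ B ^ 2) ∧
      (L.length : ℝ) ≤ 1 + Real.log g / Real.log B := by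
  have hB1 : (1 : ℝ) < B := by exact_mod_cast (show 1 < B by omega)
  have hlB : 0 < Real.log B := Real.log_pos hB1
  induction g using Nat.strong_induction_on with
  | _ g ih =>
    by_cases h : g ≤ B ^ 2
    · refine ⟨[g], by simp, by simpa using h, ?_⟩
      have : 0 ≤ Real.log g / Real.log B :=
        div_nonneg (Real.log_nonneg (by exact_mod_cast hg)) hlB.le
      simp only [List.length_singleton, Nat.cast_one]
      linarith
    · push Not at h
      have hBg : B < g := by nlinarith
      obtain ⟨M, h1, h2, h3⟩ := divm (show 1 ≤ B by omega) (show 1 ≤ B by omega) hBg hs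
      obtain ⟨g', hg'⟩ := h1
      have hg'1 : 1 ≤ g' := by
        rcases Nat.eq_zero_or_pos g' with h0 | h0
        · rw [h0, mul_zero] at hg'
          omega
        · exact h0
      have hlt : g' < g := by nlinarith
      obtain ⟨L, hL1, hL2, hL3⟩ := ih g' hlt hg'1
        (fun l hl hd => hs l hl (hg' ▸ (hd.trans (Dvd.intro_left M rfl))))
      refine ⟨M :: L, by rw [List.prod_cons, hL1, hg'], ?_, ?_⟩
      · intro x hx
        rcases List.mem_cons.1 hx with rfl | hx
        · rw [pow_two]
          exact h3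
        · exact hL2 x hx
      · have hM0 : (0 : ℝ) < M := by exact_mod_cast (show 0 < M by omega)
        have hg0 : (0 : ℝ) < g' := by exact_mod_cast hg'1
        have e1 : Real.log g = Real.log M + Real.log g' := by
          rw [hg', Nat.cast_mul, Real.log_mul hM0.ne' hg0.ne']
        have e2 : Real.log B ≤ Real.log M :=
          Real.log_le_log (by linarith) (by exact_mod_cast h2.le)
        rw [List.length_cons, Nat.cast_add, Nat.cast_one, e1, add_div]
        have e3 : 1 ≤ Real.log M / Real.log B := by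
          rw [le_div_iff₀ hlB]
          linarith
        linarith

end Pool.Agent.LHf
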