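import Pool.Agent.LHf.Defs

/-! MODULE SKEW: the skew pigeonhole box. -/

set_option autoImplicit false

namespace Pool.Agent.LHf

open Finset

/-- the pigeonhole box -/
private theorem sk_pigeon (s : ℝ) (M x z : ℤ) (V b0 : ℕ) (hM : 0 < M)
    (hVb : M < (b0 + 1) * V) :
    ∃ a b : ℤ, (a ≠ 0 ∨ b ≠ 0) ∧ M ∣ x * b + z * a ∧ |(a : ℝ) + b * s| ≤ V ∧ |b| ≤ b0 := by
  classical
  set F : ℕ × ℕ → ℤ := fun q => x * (q.2 : ℤ) + z * ((q.1 : ℤ) - ⌊(q.2 : ℝ) * s⌋) with hF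
  have hcard : (Finset.Ico (0 : ℤ) M).card < (Finset.range V ×ˢ Finset.range (b0 + 1)).card := by
    rw [Int.card_Ico, Finset.card_product, Finset.card_range, Finset.card_range]
    have h1 : (M - 0).toNat < V * (b0 + 1) := by
      rw [sub_zero]
      have h2 : ((M.toNat : ℕ) : ℤ) = M := Int.toNat_of_nonneg hM.le
      have h3 : ((M.toNat : ℕ) : ℤ) < ((V * (b0 + 1) : ℕ) : ℤ) := by
        rw [h2]; push_cast; linarith
      exact_mod_cast h3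
    exact h1
  obtain ⟨q, hq, q', hq', hne, heq⟩ := Finset.exists_ne_map_eq_of_card_lt_of_maps_to hcard
    (f := fun q => (F q) % M) (by
      intro q _
      rw [Finset.coe_Ico, Set.mem_Ico]
      exact ⟨Int.emod_nonneg _ hM.ne', Int.emod_lt_of_pos _ hM⟩)
  rw [Finset.mem_product, Finset.mem_range, Finset.mem_range] at hq hq'
  refine ⟨((q.1 : ℤ) - ⌊(q.2 : ℝ) * s⌋) - ((q'.1 : ℤ) - ⌊(q'.2 : ℝ) * s⌋), (q.2 : ℤ) - q'.2,
    ?_, ?_, ?_, ?_⟩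
  · by_contra hcon
    push Not at hcon
    obtain ⟨h1, h2⟩ := hcon
    have h3 : q.2 = q'.2 := by
      have : (q.2 : ℤ) = q'.2 := by linarith
      exact_mod_cast this
    rw [h3] at h1
    have h4 : q.1 = q'.1 := by
      have : (q.1 : ℤ) = q'.1 := by linarith
      exact_mod_cast this
    exact hne (Prod.ext h4 h3)
  · have heq' : F q' % M = F q % M := heq.symm
    have h1 : M ∣ F q - F q' := Int.ModEq.dvd heq'
    have h2 : x * ((q.2 : ℤ) - q'.2) +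
        z * (((q.1 : ℤ) - ⌊(q.2 : ℝ) * s⌋) - ((q'.1 : ℤ) - ⌊(q'.2 : ℝ) * s⌋)) = F q - F q' := by
      simp only [hF]; ring
    rw [h2]
    exact h1
  · push_cast
    have a1 := Int.floor_le ((q.2 : ℝ) * s)
    have a2 := Int.lt_floor_add_one ((q.2 : ℝ) * s)
    have a3 := Int.floor_le ((q'.2 : ℝ) * s)
    have a4 := Int.lt_floor_add_one ((q'.2 : ℝ) * s)
    have b1 : (q.1 : ℝ) + 1 ≤ V := by exact_mod_cast hq.1
    have b2 : (q'.1 : ℝ) + 1 ≤ V := by exact_mod_cast hq'.1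
    have b3 : (0 : ℝ) ≤ q.1 := Nat.cast_nonneg _
    have b4 : (0 : ℝ) ≤ q'.1 := Nat.cast_nonneg _
    have e0 : (q.1 : ℝ) - ⌊(q.2 : ℝ) * s⌋ - ((q'.1 : ℝ) - ⌊(q'.2 : ℝ) * s⌋) +
        ((q.2 : ℝ) - q'.2) * s = ((q.1 : ℝ) + ((q.2 : ℝ) * s - ⌊(q.2 : ℝ) * s⌋)) -
        ((q'.1 : ℝ) + ((q'.2 : ℝ) * s - ⌊(q'.2 : ℝ) * s⌋)) := by ring
    rw [e0, abs_le]
    constructor
    · linarith
    · linarith
  · rw [abs_le]
    have c1 : (q.2 : ℤ) ≤ b0 := by exact_mod_cast (Nat.lt_succ_iff.1 hq.2)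
    have c2 : (q'.2 : ℤ) ≤ b0 := by exact_mod_cast (Nat.lt_succ_iff.1 hq'.2)
    have c3 : (0 : ℤ) ≤ q.2 := Int.natCast_nonneg _
    have c4 : (0 : ℤ) ≤ q'.2 := Int.natCast_nonneg _
    constructor <;> linarith

/-- the divisibilities -/
private theorem sk_dvd {D x z M a b : ℤ} (hg : Int.gcd x z = 1) (hdvd : M ∣ x ^ 2 - D * z ^ 2)
    (h : M ∣ x * b + z * a) : M ∣ x * a + D * z * b ∧ M ∣ a ^ 2 - D * b ^ 2 := by
  have hcop : IsCoprime x z := Int.isCoprime_iff_gcd_eq_one.2 hg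
  obtain ⟨u, v, huv⟩ := hcop
  obtain ⟨k, hk⟩ := hdvd
  obtain ⟨l, hl⟩ := h
  have h1 : M ∣ x * a + D * z * b := by
    refine ⟨u * (k * a + D * z * l) + v * (x * l - k * b), ?_⟩
    have e1 : x * (x * a + D * z * b) = M * (k * a + D * z * l) := by
      linear_combination a * hk + D * z * hl
    have e2 : z * (x * a + D * z * b) = M * (x * l - k * b) := by
      linear_combination x * hl - b * hk
    calc x * a + D * z * b = (u * x + v * z) * (x * a + D * z * b) := by rw [huv, one_mul]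
      _ = u * (x * (x * a + D * z * b)) + v * (z * (x * a + D * z * b)) := by ring
      _ = _ := by rw [e1, e2]; ring
  refine ⟨h1, ?_⟩
  obtain ⟨m, hm⟩ := h1
  refine ⟨u * (a * m - D * b * l) + v * (a * l - b * m), ?_⟩
  have e1 : x * (a ^ 2 - D * b ^ 2) = M * (a * m - D * b * l) := by
    linear_combination a * hm - D * b * hl
  have e2 : z * (a ^ 2 - D * b ^ 2) = M * (a * l - b * m) := by
    linear_combination a * hl - b * hm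
  calc a ^ 2 - D * b ^ 2 = (u * x + v * z) * (a ^ 2 - D * b ^ 2) := by rw [huv, one_mul]
    _ = u * (x * (a ^ 2 - D * b ^ 2)) + v * (z * (a ^ 2 - D * b ^ 2)) := by ring
    _ = _ := by rw [e1, e2]; ring

/-- the case `x z ≥ 0` -/
private theorem sk_core {D x z : ℤ} (hD : 4 ≤ D) (hn : x ^ 2 - D * z ^ 2 ≠ 0)
    (hg : Int.gcd x z = 1)
    (hb : x ^ 2 + D * z ^ 2 ≤ 16 * D * |x ^ 2 - D * z ^ 2|) {M : ℤ} (hM : 32 * D ≤ M)
    (hdvd : M ∣ x ^ 2 - D * z ^ 2) (hxz : 0 ≤ x * z) :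
    ∃ a b : ℤ, (a ≠ 0 ∨ b ≠ 0) ∧ M ∣ x * a + D * z * b ∧ M ∣ x * b + z * a ∧
      M ∣ a ^ 2 - D * b ^ 2 ∧ a ^ 2 + D * b ^ 2 ≤ 134 * D ^ 2 * M ∧
      (x * a + D * z * b) ^ 2 + D * (x * b + z * a) ^ 2 ≤ 16 * D * M * |x ^ 2 - D * z ^ 2| := by
  have hMpos : 0 < M := by linarith
  have hDR : (4 : ℝ) ≤ D := by exact_mod_cast hD
  have hMR : (32 : ℝ) * D ≤ M := by exact_mod_cast hM
  have hMR0 : (0 : ℝ) < M := by linarith
  set s : ℝ := Real.sqrt D with hs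
  have hs2 : s ^ 2 = D := Real.sq_sqrt (by linarith)
  have hs0 : 0 < s := Real.sqrt_pos.2 (by linarith)
  set σ1 : ℝ := |(x : ℝ) + z * s| with hσ1
  set σ2 : ℝ := |(x : ℝ) - z * s| with hσ2
  have hnR : σ1 * σ2 = |((x ^ 2 - D * z ^ 2 : ℤ) : ℝ)| := by
    rw [hσ1, hσ2, ← abs_mul]
    congr 1
    push_cast
    linear_combination (-(z : ℝ) ^ 2) * hs2
  have hnpos : 0 < |((x ^ 2 - D * z ^ 2 : ℤ) : ℝ)| := abs_pos.2 (by exact_mod_cast hn)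
  have hσ1p : 0 < σ1 := by
    rcases (abs_nonneg ((x : ℝ) + z * s)).lt_or_eq with h | h
    · exact h
    · rw [hσ1, ← h, zero_mul] at hnR
      linarith
  have hσ2p : 0 < σ2 := by
    rcases (abs_nonneg ((x : ℝ) - z * s)).lt_or_eq with h | h
    · exact h
    · rw [hσ2, ← h, mul_zero] at hnR
      linarith
  have hle : σ2 ≤ σ1 := by
    have h1 : σ2 ^ 2 ≤ σ1 ^ 2 := by
      rw [hσ1, hσ2, sq_abs, sq_abs]
      have h2 : (0 : ℝ) ≤ (x : ℝ) * z := by exact_mod_cast hxz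
      have h3 := mul_nonneg h2 hs0.le
      have h4 : ((x : ℝ) + z * s) ^ 2 - ((x : ℝ) - z * s) ^ 2 = 4 * ((x : ℝ) * z * s) := by ring
      linarith
    exact (sq_le_sq₀ hσ2p.le hσ1p.le).1 h1
  have hsum : σ1 ^ 2 + σ2 ^ 2 = 2 * ((x : ℝ) ^ 2 + D * z ^ 2) := by
    rw [hσ1, hσ2, sq_abs, sq_abs]
    linear_combination (2 * (z : ℝ) ^ 2) * hs2
  have hbR : ((x : ℝ) ^ 2 + D * z ^ 2) ≤ 16 * D * (σ1 * σ2) := by
    rw [hnR]
    have : ((x ^ 2 + D * z ^ 2 : ℤ) : ℝ) ≤ ((16 * D * |x ^ 2 - D * z ^ 2| : ℤ) : ℝ) := by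
      exact_mod_cast hb
    rw [Int.cast_mul, Int.cast_abs] at this
    push_cast at this ⊢
    exact this
  have h12 : σ1 ≤ 32 * D * σ2 := by
    have h1 : σ1 * σ1 ≤ (32 * D * σ2) * σ1 := by
      have h0 := sq_nonneg σ2
      have h00 : σ1 * σ1 = σ1 ^ 2 := by ring
      have h01 : (32 * D * σ2) * σ1 = 2 * (16 * D * (σ1 * σ2)) := by ring
      rw [h00, h01]
      linarith
    exact le_of_mul_le_mul_right h1 hσ1p
  -- the parameters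
  set θ : ℝ := M * σ2 / σ1 with hθ
  have hθσ : θ * σ1 = M * σ2 := by rw [hθ]; field_simp
  have hθ0 : 0 < θ := by rw [hθ]; positivity
  have hθM : θ ≤ M := by
    rw [hθ, div_le_iff₀ hσ1p]
    exact mul_le_mul_of_nonneg_left hle hMR0.le
  have hθ1 : 1 ≤ θ := by
    rw [hθ, le_div_iff₀ hσ1p, one_mul]
    exact h12.trans (mul_le_mul_of_nonneg_right hMR hσ2p.le)
  have hMθ : (M : ℝ) ≤ 32 * D * θ := by
    have h1 : M * σ1 ≤ (32 * D * θ) * σ1 := by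
      calc M * σ1 ≤ M * (32 * D * σ2) := mul_le_mul_of_nonneg_left h12 hMR0.le
        _ = 32 * D * (θ * σ1) := by rw [hθσ]; ring
        _ = _ := by ring
    exact le_of_mul_le_mul_right h1 hσ1p
  set V : ℕ := ⌈Real.sqrt θ⌉₊ with hV
  have hV1 : Real.sqrt θ ≤ V := Nat.le_ceil _
  have hV2 : (V : ℝ) < Real.sqrt θ + 1 := Nat.ceil_lt_add_one (Real.sqrt_nonneg _)
  have hsq1 : 1 ≤ Real.sqrt θ := Real.one_le_sqrt.2 hθ1
  have hsqq : Real.sqrt θ ^ 2 = θ := Real.sq_sqrt hθ0.le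
  have hVlo : θ ≤ (V : ℝ) ^ 2 := by
    rw [← hsqq]
    exact pow_le_pow_left₀ (Real.sqrt_nonneg _) hV1 2
  have hVhi : (V : ℝ) ^ 2 ≤ 4 * θ := by
    have h1 : (V : ℝ) ≤ 2 * Real.sqrt θ := by linarith
    calc (V : ℝ) ^ 2 ≤ (2 * Real.sqrt θ) ^ 2 := pow_le_pow_left₀ (Nat.cast_nonneg _) h1 2
      _ = 4 * θ := by rw [mul_pow, hsqq]; norm_num
  have hVpos : (0 : ℝ) < V := lt_of_lt_of_le (by linarith) hV1
  set b0 : ℕ := ⌊(M : ℝ) / V⌋₊ with hb0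
  have hb01 : (b0 : ℝ) ≤ M / V := Nat.floor_le (by positivity)
  have hb02 : (M : ℝ) / V < b0 + 1 := Nat.lt_floor_add_one _
  have hVb : M < (b0 + 1) * V := by
    have h1 : (M : ℝ) < (b0 + 1) * V := by
      rw [div_lt_iff₀ hVpos] at hb02
      exact hb02
    exact_mod_cast h1
  have hb0sq : (b0 : ℝ) ^ 2 * θ ≤ (M : ℝ) ^ 2 := by
    have h1 : (b0 : ℝ) * V ≤ M := by
      rw [le_div_iff₀ hVpos] at hb01
      exact hb01
    calc (b0 : ℝ) ^ 2 * θ ≤ (b0 : ℝ) ^ 2 * (V : ℝ) ^ 2 :=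
          mul_le_mul_of_nonneg_left hVlo (sq_nonneg _)
      _ = ((b0 : ℝ) * V) ^ 2 := by ring
      _ ≤ (M : ℝ) ^ 2 := pow_le_pow_left₀ (by positivity) h1 2
  obtain ⟨a, b, hab, h1, hτ, hbb⟩ := sk_pigeon s M x z V b0 hMpos hVb
  obtain ⟨h2, h3⟩ := sk_dvd hg hdvd h1
  have hbR2 : |(b : ℝ)| ≤ b0 := by
    have : ((|b| : ℤ) : ℝ) ≤ ((b0 : ℤ) : ℝ) := by exact_mod_cast hbb
    rw [Int.cast_abs] at this
    exact_mod_cast this
  have hτ1 : ((a : ℝ) + b * s) ^ 2 ≤ (V : ℝ) ^ 2 := by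
    rw [← sq_abs]
    exact pow_le_pow_left₀ (abs_nonneg _) hτ 2
  have hbsq : (b : ℝ) ^ 2 ≤ (b0 : ℝ) ^ 2 := by
    rw [← sq_abs]
    exact pow_le_pow_left₀ (abs_nonneg _) hbR2 2
  have hτ2 : ((a : ℝ) - b * s) ^ 2 ≤ 2 * (V : ℝ) ^ 2 + 8 * (b0 : ℝ) ^ 2 * D := by
    have h4 : ((a : ℝ) - b * s) ^ 2 ≤ 2 * ((a : ℝ) + b * s) ^ 2 + 8 * (b : ℝ) ^ 2 * D := by
      have h5 : 2 * ((a : ℝ) + b * s) ^ 2 + 8 * (b : ℝ) ^ 2 * s ^ 2 - ((a : ℝ) - b * s) ^ 2 =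
          ((a : ℝ) + b * s + (2 * b * s)) ^ 2 := by ring
      rw [hs2] at h5
      have h6 := sq_nonneg ((a : ℝ) + b * s + (2 * b * s))
      linarith
    have h5 : 8 * (b : ℝ) ^ 2 * D ≤ 8 * (b0 : ℝ) ^ 2 * D := by
      have h0 : (0 : ℝ) ≤ D := by linarith
      have h00 := mul_le_mul_of_nonneg_right hbsq h0
      linarith
    linarith
  have hMM : (b0 : ℝ) ^ 2 * D ≤ 32 * D ^ 2 * M := by
    -- b0^2 θ ≤ M^2 ≤ M * 32 D θ
    have h4 : ((b0 : ℝ) ^ 2 * D) * θ ≤ (32 * D ^ 2 * M) * θ := by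
      calc ((b0 : ℝ) ^ 2 * D) * θ = ((b0 : ℝ) ^ 2 * θ) * D := by ring
        _ ≤ (M : ℝ) ^ 2 * D := mul_le_mul_of_nonneg_right hb0sq (by linarith)
        _ = (M * D) * M := by ring
        _ ≤ (M * D) * (32 * D * θ) := mul_le_mul_of_nonneg_left hMθ (by positivity)
        _ = _ := by ring
    exact le_of_mul_le_mul_right h4 hθ0
  refine ⟨a, b, hab, h2, h1, h3, ?_, ?_⟩
  · have h4 : (a : ℝ) ^ 2 + D * b ^ 2 ≤ 134 * D ^ 2 * M := by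
      have e1 : (a : ℝ) ^ 2 + D * b ^ 2 =
          (((a : ℝ) + b * s) ^ 2 + ((a : ℝ) - b * s) ^ 2) / 2 := by
        linear_combination (-(b : ℝ) ^ 2) * hs2
      rw [e1]
      have h5 : (1 : ℝ) ≤ D ^ 2 := one_le_pow₀ (by linarith)
      have h6 : (M : ℝ) ≤ D ^ 2 * M := le_mul_of_one_le_left hMR0.le h5
      linarith
    exact_mod_cast h4
  · have h4 : ((x : ℝ) * a + D * z * b) ^ 2 + D * (x * b + z * a) ^ 2 ≤
        16 * D * M * (σ1 * σ2) := by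
      have e1 : ((x : ℝ) * a + D * z * b) ^ 2 + D * (x * b + z * a) ^ 2 =
          (σ1 ^ 2 * ((a : ℝ) + b * s) ^ 2 + σ2 ^ 2 * ((a : ℝ) - b * s) ^ 2) / 2 := by
        rw [hσ1, hσ2, sq_abs, sq_abs]
        have e2 : ((x : ℝ) + z * s) ^ 2 * ((a : ℝ) + b * s) ^ 2 =
            (((x : ℝ) * a + D * z * b) + (x * b + z * a) * s) ^ 2 := by
          rw [← mul_pow]
          congr 1
          linear_combination ((z : ℝ) * b) * hs2
        have e3 : ((x : ℝ) - z * s) ^ 2 * ((a : ℝ) - b * s) ^ 2 =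
            (((x : ℝ) * a + D * z * b) - (x * b + z * a) * s) ^ 2 := by
          rw [← mul_pow]
          congr 1
          linear_combination ((z : ℝ) * b) * hs2
        rw [e2, e3]
        linear_combination (-((x : ℝ) * b + z * a) ^ 2) * hs2
      rw [e1]
      have f1 : σ1 ^ 2 * ((a : ℝ) + b * s) ^ 2 ≤ 4 * M * (σ1 * σ2) := by
        calc σ1 ^ 2 * ((a : ℝ) + b * s) ^ 2 ≤ σ1 ^ 2 * (4 * θ) :=
              mul_le_mul_of_nonneg_left (hτ1.trans hVhi) (sq_nonneg _)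
          _ = 4 * σ1 * (θ * σ1) := by ring
          _ = _ := by rw [hθσ]; ring
      have f2 : σ2 ^ 2 * ((a : ℝ) - b * s) ^ 2 ≤ 8 * M * (σ1 * σ2) + 8 * D * M * (σ1 * σ2) := by
        have g1 : σ2 ^ 2 * (8 * θ) ≤ 8 * M * (σ1 * σ2) := by
          have : σ2 ^ 2 * (8 * θ) ≤ 8 * (σ1 * σ2) * θ := by
            calc σ2 ^ 2 * (8 * θ) = σ2 * (σ2 * (8 * θ)) := by ring
              _ ≤ σ1 * (σ2 * (8 * θ)) := mul_le_mul_of_nonneg_right hle (by positivity)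
              _ = _ := by ring
          calc σ2 ^ 2 * (8 * θ) ≤ 8 * (σ1 * σ2) * θ := this
            _ ≤ 8 * (σ1 * σ2) * M :=
              mul_le_mul_of_nonneg_left hθM (by positivity)
            _ = _ := by ring
        have g2 : σ2 ^ 2 * ((b0 : ℝ) ^ 2 * D) ≤ D * M * (σ1 * σ2) := by
          -- b0^2 θ ≤ M^2, σ2 M = θ σ1
          have g3 : (σ2 ^ 2 * ((b0 : ℝ) ^ 2 * D)) * θ ≤ (D * M * (σ1 * σ2)) * θ := by
            calc (σ2 ^ 2 * ((b0 : ℝ) ^ 2 * D)) * θ = (σ2 ^ 2 * D) * ((b0 : ℝ) ^ 2 * θ) := by ring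
              _ ≤ (σ2 ^ 2 * D) * (M : ℝ) ^ 2 :=
                mul_le_mul_of_nonneg_left hb0sq (by positivity)
              _ = (D * M * σ2) * (M * σ2) := by ring
              _ = (D * M * σ2) * (θ * σ1) := by rw [hθσ]
              _ = _ := by ring
          exact le_of_mul_le_mul_right g3 hθ0
        calc σ2 ^ 2 * ((a : ℝ) - b * s) ^ 2 ≤ σ2 ^ 2 * (2 * (V : ℝ) ^ 2 + 8 * (b0 : ℝ) ^ 2 * D) :=
              mul_le_mul_of_nonneg_left hτ2 (sq_nonneg _)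
          _ = 2 * (σ2 ^ 2 * (V : ℝ) ^ 2) + 8 * (σ2 ^ 2 * ((b0 : ℝ) ^ 2 * D)) := by ring
          _ ≤ 2 * (σ2 ^ 2 * (4 * θ)) + 8 * (D * M * (σ1 * σ2)) := by
              have := mul_le_mul_of_nonneg_left hVhi (sq_nonneg σ2)
              linarith
          _ ≤ _ := by linarith
      have hpos : 0 < M * (σ1 * σ2) := by positivity
      have h7 := mul_le_mul_of_nonneg_right hDR hpos.le
      have h8 : (D : ℝ) * (M * (σ1 * σ2)) = D * M * (σ1 * σ2) := by ring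
      linarith
    rw [hnR] at h4
    have h5 : (((x * a + D * z * b) ^ 2 + D * (x * b + z * a) ^ 2 : ℤ) : ℝ) ≤
        ((16 * D * M * |x ^ 2 - D * z ^ 2| : ℤ) : ℝ) := by
      rw [Int.cast_mul (16 * D * M) |x ^ 2 - D * z ^ 2|, Int.cast_abs]
      push_cast at h4 ⊢
      exact h4
    exact_mod_cast h5

/-- PROOF. Let `s = sqrt D`, `σ1 = |x + z s|`, `σ2 = |x - z s|`, `n = x ^ 2 - D z ^ 2`, so
`σ1 σ2 = |n| > 0` and `σ1 ^ 2 + σ2 ^ 2 = 2 (x ^ 2 + D z ^ 2) ≤ 32 D σ1 σ2`; so `σ1 ≤ 32 D σ2` and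
`σ2 ≤ 32 D σ1`. We may assume `σ1 ≥ σ2` (otherwise replace `z` by `- z` and, at the end, `b` by `- b`).
Let `θ = M σ2 / σ1`, so `1 ≤ M / (32 D) ≤ θ ≤ M`, and `V = ⌈sqrt θ⌉`: `θ ≤ V ^ 2 ≤ 4 θ`. Let
`b0 = ⌊M / V⌋`, so `(b0 + 1) V > M`. Consider the pairs `(a, b)` with `0 ≤ b ≤ b0` and
`a = - ⌊b s⌋ + i`, `0 ≤ i < V`: `(b0 + 1) V > M` pairs, with `0 ≤ a + b s < V + 1 - ...`: precisely
`a + b s ∈ [i, i + 1)`, so in `[0, V)`. Two of them have the same residue `x b + z a` modulo `M`; the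
difference `(a, b) ≠ 0` satisfies `|a + b s| ≤ V`, `|b| ≤ b0`, `M ∣ x b + z a`. As
`gcd (x, z) = 1` and `M ∣ x ^ 2 - D z ^ 2` also `M ∣ x a + D z b`: `x (x a + D z b) ≡ D z (z a + x b)`
and `z (x a + D z b) ≡ x (z a + x b)` modulo `M`. Bounds: with `τ1 = |a + b s| ≤ V`,
`τ2 = |a - b s| ≤ V + 2 b0 s`, `τ2 ^ 2 ≤ 2 V ^ 2 + 8 b0 ^ 2 D`, `b0 ^ 2 ≤ M ^ 2 / V ^ 2 ≤ M ^ 2 / θ`:
`a ^ 2 + D b ^ 2 = (τ1 ^ 2 + τ2 ^ 2) / 2 ≤ 6 θ + 4 D M ^ 2 / θ ≤ 6 M + 128 D ^ 2 M ≤ 134 D ^ 2 M`;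
`(x a + D z b) ^ 2 + D (x b + z a) ^ 2 = (σ1 ^ 2 τ1 ^ 2 + σ2 ^ 2 τ2 ^ 2) / 2` and
`σ1 ^ 2 τ1 ^ 2 ≤ σ1 ^ 2 4 θ = 4 M |n|`,
`σ2 ^ 2 τ2 ^ 2 ≤ σ2 ^ 2 (8 θ + 8 D M ^ 2 / θ) ≤ 8 M |n| + 8 D M |n|`; so it is at most
`(6 + 4 D) M |n| ≤ 16 D M |n|`. Finally `M ∣ a ^ 2 - D b ^ 2`, because `x (a ^ 2 - D b ^ 2) =
a (x a + D z b) - D b (z a + x b)` and `z (a ^ 2 - D b ^ 2) = a (z a + x b) - b (x a + D z b)`. -/
theorem skew {D x z : ℤ} (hD : 4 ≤ D) (hsq : ¬ IsSquare D) (hg : Int.gcd x z = 1)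
    (hb : x ^ 2 + D * z ^ 2 ≤ 16 * D * |x ^ 2 - D * z ^ 2|) {M : ℤ} (hM : 32 * D ≤ M)
    (hdvd : M ∣ x ^ 2 - D * z ^ 2) :
    ∃ a b : ℤ, (a ≠ 0 ∨ b ≠ 0) ∧ M ∣ x * a + D * z * b ∧ M ∣ x * b + z * a ∧
      M ∣ a ^ 2 - D * b ^ 2 ∧ a ^ 2 + D * b ^ 2 ≤ 134 * D ^ 2 * M ∧
      (x * a + D * z * b) ^ 2 + D * (x * b + z * a) ^ 2 ≤ 16 * D * M * |x ^ 2 - D * z ^ 2| := by
  have hn : x ^ 2 - D * z ^ 2 ≠ 0 := by
    intro h
    rcases eq_or_ne z 0 with hz | hz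
    · rw [hz] at h
      have hx : x = 0 := by
        have : x ^ 2 = 0 := by linarith [h]
        exact pow_eq_zero_iff (two_ne_zero) |>.1 this
      rw [hx, hz] at hg
      simp at hg
    · have h1 : z ^ 2 ∣ x ^ 2 := ⟨D, by linarith⟩
      have h2 : z ∣ x := (Int.pow_dvd_pow_iff two_ne_zero).1 h1
      obtain ⟨k, hk⟩ := h2
      apply hsq
      refine ⟨k, ?_⟩
      have h3 : z ^ 2 * D = z ^ 2 * (k * k) := by
        rw [hk] at h; linarith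
      exact mul_left_cancel₀ (pow_ne_zero 2 hz) h3
  rcases le_total 0 (x * z) with hxz | hxz
  · exact sk_core hD hn hg hb hM hdvd hxz
  · have e1 : x ^ 2 - D * (-z) ^ 2 = x ^ 2 - D * z ^ 2 := by ring
    obtain ⟨a, b, hab, h1, h2, h3, h4, h5⟩ := sk_core (x := x) (z := -z) hD (by rw [e1]; exact hn)
      (by rw [Int.gcd_neg]; exact hg) (by rw [e1]; linarith [hb]) hM (by rw [e1]; exact hdvd)
      (by linarith)
    refine ⟨a, -b, ?_, ?_, ?_, ?_, ?_, ?_⟩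
    · rcases hab with h | h
      · exact Or.inl h
      · exact Or.inr (neg_ne_zero.2 h)
    · have : x * a + D * z * -b = x * a + D * -z * b := by ring
      rw [this]; exact h1
    · have : x * -b + z * a = -(x * b + -z * a) := by ring
      rw [this]; exact (dvd_neg).2 h2
    · have : a ^ 2 - D * (-b) ^ 2 = a ^ 2 - D * b ^ 2 := by ring
      rw [this]; exact h3
    · have : a ^ 2 + D * (-b) ^ 2 = a ^ 2 + D * b ^ 2 := by ring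
      rw [this]; exact h4
    · have : (x * a + D * z * -b) ^ 2 + D * (x * -b + z * a) ^ 2 =
          (x * a + D * -z * b) ^ 2 + D * (x * b + -z * a) ^ 2 := by ring
      rw [this, ← e1]
      exact h5

end Pool.Agent.LHf
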