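import Pool.Agent.LHf.Quo
import Pool.Agent.LHf.Divm
import Pool.Agent.LHf.Skew

/-! MODULE DESC: elements with smooth norm are quotients of products of few small elements. -/

set_option autoImplicit false

namespace Pool.Agent.LHf

open Finset

private theorem ds_one_mem {p : ℕ} [Fact p.Prime] {B : ℕ} {r : ZMod p} (hB : 1 ≤ B) :
    (1 : (ZMod p)ˣ) ∈ Sr p B r :=
  ⟨1, 0, by simpa using hB, by simp, by simp⟩

private theorem ds_nat_mem {p : ℕ} [Fact p.Prime] {B : ℕ} {r : ZMod p} (x : ℕ) (hx : x ≤ B)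
    (u : (ZMod p)ˣ) (hu : (u : ZMod p) = (x : ZMod p)) : u ∈ Sr p B r :=
  ⟨(x : ℤ), 0, by simpa using hx, by simp, by rw [hu]; simp⟩

private theorem ds_zero {G : Type} [CommGroup G] (S : Set G) : Quo S 0 (1 : G) :=
  ⟨fun i => i.elim0, fun i => i.elim0, fun i => i.elim0, fun i => i.elim0, by simp⟩

private theorem ds_list {p : ℕ} [Fact p.Prime] {B : ℕ} {r : ZMod p} (hB : 1 ≤ B) (L : List ℕ) :
    (∀ x ∈ L, x ≤ B) → ∀ g : (ZMod p)ˣ, (g : ZMod p) = ((L.prod : ℕ) : ZMod p) →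
      Quo (Sr p B r) L.length g := by
  induction L with
  | nil =>
    intro _ g hg
    have h1 : g = 1 := by
      apply Units.ext
      rw [hg]; simp
    rw [h1]
    exact ds_zero _
  | cons x L ih =>
    intro hL g hg
    rw [List.prod_cons, Nat.cast_mul] at hg
    have hx0 : (x : ZMod p) ≠ 0 := by
      intro h
      rw [h, zero_mul] at hg
      exact g.ne_zero hg
    have hp0 : ((L.prod : ℕ) : ZMod p) ≠ 0 := by
      intro h
      rw [h, mul_zero] at hg
      exact g.ne_zero hg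
    have h1 : Quo (Sr p B r) 1 (Units.mk0 _ hx0) :=
      Quo.of_mem (ds_one_mem hB) (ds_nat_mem x (hL x (List.mem_cons_self ..)) _ rfl)
    have h2 : Quo (Sr p B r) L.length (Units.mk0 _ hp0) :=
      ih (fun y hy => hL y (List.mem_cons_of_mem _ hy)) _ rfl
    have h3 : g = Units.mk0 _ hx0 * Units.mk0 _ hp0 := by
      apply Units.ext
      rw [hg]; rfl
    rw [h3, List.length_cons, Nat.add_comm]
    exact h1.mul h2

private theorem ds_two {D b : ℤ} (hD : 4 ≤ D) (hb : 1 ≤ b) : 2 * b ≤ D * b ^ 2 := by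
  have h1 : 4 * b ^ 2 ≤ D * b ^ 2 := mul_le_mul_of_nonneg_right hD (sq_nonneg b)
  nlinarith

private theorem ds_abs_le {x B : ℤ} (h : x ^ 2 ≤ B) : |x| ≤ B := by
  have h1 : |x| ≤ x ^ 2 := by
    rw [← sq_abs]
    rcases (abs_nonneg x).eq_or_lt with h0 | h0
    · rw [← h0]; norm_num
    · nlinarith
  exact h1.trans h

private theorem ds_natAbs {x : ℤ} {B : ℕ} (h : |x| ≤ B) : x.natAbs ≤ B := by
  have h1 : (x.natAbs : ℤ) ≤ B := by rw [Int.natCast_natAbs]; exact h
  exact_mod_cast h1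

private theorem ds_sq {d : ℕ} (hsq : ¬ IsSquare d) : ¬ IsSquare (4 * (d : ℤ)) := by
  rintro ⟨k, hk⟩
  have h1 : (2 : ℤ) ∣ k := by
    have h2 : (2 : ℤ) ∣ k * k := ⟨2 * d, by linarith⟩
    rcases Int.Prime.dvd_mul' Nat.prime_two h2 with h | h <;> exact_mod_cast h
  obtain ⟨m, hm⟩ := h1
  apply hsq
  refine ⟨m.natAbs, ?_⟩
  have h3 : (d : ℤ) = m * m := by
    rw [hm] at hk; linarith
  have h4 : ((m.natAbs * m.natAbs : ℕ) : ℤ) = m * m := Int.natAbs_mul_self
  exact_mod_cast h3.trans h4.symm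

/-- a nonzero vector has nonzero norm -/
private theorem ds_norm_ne {D α β : ℤ} (hD : ¬ IsSquare D) (h : α ≠ 0 ∨ β ≠ 0) :
    α ^ 2 - D * β ^ 2 ≠ 0 := by
  intro h0
  rcases eq_or_ne β 0 with hz | hz
  · rw [hz] at h0
    have hx : α = 0 := by
      have : α ^ 2 = 0 := by linarith [h0]
      exact pow_eq_zero_iff (two_ne_zero) |>.1 this
    rcases h with h | h
    · exact h hx
    · exact h hz
  · have h1 : β ^ 2 ∣ α ^ 2 := ⟨D, by linarith⟩
    have h2 : β ∣ α := (Int.pow_dvd_pow_iff two_ne_zero).1 h1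
    obtain ⟨k, hk⟩ := h2
    apply hD
    refine ⟨k, ?_⟩
    have h3 : β ^ 2 * D = β ^ 2 * (k * k) := by
      rw [hk] at h0; linarith
    exact mul_left_cancel₀ (pow_ne_zero 2 hz) h3

/-- one step for a primitive vector with large norm -/
private theorem ds_step {p : ℕ} [Fact p.Prime] {d B1 B : ℕ} (hd : 1 ≤ d) (hsq : ¬ IsSquare d)
    {r : ZMod p} (hr : r ^ 2 = (d : ZMod p)) (hB1 : 134 * (4 * d) ^ 2 ≤ B1)
    (hB : 17956 * (4 * d) ^ 4 * B1 ^ 2 ≤ B) (hBp : B < p) (x z : ℤ) (hg : Int.gcd x z = 1)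
    (hs : Sm B1 (x ^ 2 - 4 * d * z ^ 2))
    (hb : x ^ 2 + 4 * d * z ^ 2 ≤ 16 * (4 * d) * |x ^ 2 - 4 * d * z ^ 2|)
    (hX : 134 * (4 * (d : ℤ)) ^ 2 * B1 < |x ^ 2 - 4 * d * z ^ 2|) (u : (ZMod p)ˣ)
    (hu : (u : ZMod p) = x + 2 * z * r) :
    ∃ (x' z' : ℤ) (u' : (ZMod p)ˣ), (u' : ZMod p) = x' + 2 * z' * r ∧
      Sm B1 (x' ^ 2 - 4 * d * z' ^ 2) ∧
      x' ^ 2 + 4 * d * z' ^ 2 ≤ 16 * (4 * d) * |x' ^ 2 - 4 * d * z' ^ 2| ∧
      |x' ^ 2 - 4 * d * z' ^ 2| * (B1 : ℤ) < |x ^ 2 - 4 * d * z ^ 2| ∧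
      Quo (Sr p B r) 1 (u * u'⁻¹) := by
  set D : ℤ := 4 * d with hD
  set n : ℤ := x ^ 2 - D * z ^ 2 with hn
  have hd' : (1 : ℤ) ≤ d := by exact_mod_cast hd
  have hD4 : 4 ≤ D := by linarith
  have hB1' : 134 * D ^ 2 ≤ B1 := by rw [hD]; exact_mod_cast hB1
  have hB' : 17956 * D ^ 4 * B1 ^ 2 ≤ B := by rw [hD]; exact_mod_cast hB
  have hD2 : (1 : ℤ) ≤ D ^ 2 := one_le_pow₀ (by linarith)
  have hB1pos : (1 : ℤ) ≤ B1 := by linarith
  have hXpos : (0 : ℤ) < 134 * D ^ 2 * B1 := by positivity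
  -- the divisor
  have hXn : 134 * (4 * d) ^ 2 * B1 < n.natAbs := by
    have : ((134 * (4 * d) ^ 2 * B1 : ℕ) : ℤ) < (n.natAbs : ℤ) := by
      rw [Int.natCast_natAbs]; push_cast; exact hX
    exact_mod_cast this
  have hX1 : 1 ≤ 134 * (4 * d) ^ 2 * B1 := by
    have : (1 : ℤ) ≤ ((134 * (4 * d) ^ 2 * B1 : ℕ) : ℤ) := by push_cast; linarith
    exact_mod_cast this
  obtain ⟨M', hM1, hM2, hM3⟩ := divm (B := B1) (by exact_mod_cast hB1pos) hX1 hXn (by
    intro l hl hln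
    exact hs.2 l hl (Int.natCast_dvd.2 hln))
  set M : ℤ := (M' : ℤ) with hM
  have hMn : M ∣ n := Int.natCast_dvd.2 hM1
  have hMlo : 134 * D ^ 2 * B1 < M := by rw [hD, hM]; exact_mod_cast hM2
  have hMhi : M ≤ 134 * D ^ 2 * B1 * B1 := by rw [hD, hM]; exact_mod_cast hM3
  have hMpos : 0 < M := hXpos.trans hMlo
  have hM32 : 32 * D ≤ M := by
    have h1 : 32 * D ≤ 134 * D ^ 2 * 1 := by
      clear * - hD4
      nlinarith
    have h2 : 134 * D ^ 2 * 1 ≤ 134 * D ^ 2 * B1 := mul_le_mul_of_nonneg_left hB1pos (by positivity)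
    linarith
  have hDsq : ¬ IsSquare D := ds_sq hsq
  obtain ⟨α, β, hαβ, h1, h2, h3, h4, h5⟩ := skew hD4 hDsq hg hb hM32 hMn
  obtain ⟨x', hx'⟩ := h1
  obtain ⟨z', hz'⟩ := h2
  obtain ⟨e, he⟩ := h3
  have hne := ds_norm_ne hDsq hαβ
  have hn0 : n ≠ 0 := hs.1
  have he0 : e ≠ 0 := by
    intro h; rw [h, mul_zero] at he; exact hne he
  have habs : |α ^ 2 - D * β ^ 2| ≤ α ^ 2 + D * β ^ 2 := by
    rw [abs_le]
    have : 0 ≤ D * β ^ 2 := by positivity
    have h6 : 0 ≤ α ^ 2 := sq_nonneg α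
    constructor <;> linarith
  have heabs : |e| ≤ 134 * D ^ 2 := by
    have h6 : M * |e| ≤ M * (134 * D ^ 2) := by
      have h7 : |M * e| ≤ 134 * D ^ 2 * M := by rw [← he]; exact habs.trans h4
      rw [abs_mul, abs_of_pos hMpos] at h7
      linarith
    exact le_of_mul_le_mul_left h6 hMpos
  have he1 : 1 ≤ |e| := Int.one_le_abs he0
  -- the new norm
  set n' : ℤ := x' ^ 2 - D * z' ^ 2 with hn'
  have hMn' : M * n' = n * e := by
    have h6 : M * (M * n') = M * (n * e) := by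
      calc M * (M * n') = (M * x') ^ 2 - D * (M * z') ^ 2 := by rw [hn']; ring
        _ = (x * α + D * z * β) ^ 2 - D * (x * β + z * α) ^ 2 := by rw [hx', hz']
        _ = n * (α ^ 2 - D * β ^ 2) := by rw [hn]; ring
        _ = n * (M * e) := by rw [he]
        _ = _ := by ring
    exact mul_left_cancel₀ hMpos.ne' h6
  have hn'0 : n' ≠ 0 := by
    intro h
    rw [h, mul_zero] at hMn'
    rcases mul_eq_zero.1 hMn'.symm with h6 | h6
    · exact hn0 h6
    · exact he0 h6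
  have hMabs : M * |n'| = |n| * |e| := by
    have h6 := congrArg abs hMn'
    rwa [abs_mul, abs_mul, abs_of_pos hMpos] at h6
  have hn'pos : 0 < |n'| := abs_pos.2 hn'0
  have hnpos : 0 < |n| := abs_pos.2 hn0
  have hlow : |n| ≤ M * |n'| := by
    rw [hMabs]
    exact le_mul_of_one_le_right (abs_nonneg _) he1
  have hbnd : x' ^ 2 + D * z' ^ 2 ≤ 16 * D * |n'| := by
    have h6 : M * (M * (x' ^ 2 + D * z' ^ 2)) ≤ M * (M * (16 * D * |n'|)) := by
      calc M * (M * (x' ^ 2 + D * z' ^ 2)) = (M * x') ^ 2 + D * (M * z') ^ 2 := by ring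
        _ = (x * α + D * z * β) ^ 2 + D * (x * β + z * α) ^ 2 := by rw [hx', hz']
        _ ≤ 16 * D * M * |n| := h5
        _ ≤ 16 * D * M * (M * |n'|) := mul_le_mul_of_nonneg_left hlow (by positivity)
        _ = _ := by ring
    exact le_of_mul_le_mul_left (le_of_mul_le_mul_left h6 hMpos) hMpos
  have hdec : |n'| * B1 < |n| := by
    have h6 : (134 * D ^ 2) * (|n'| * B1) < (134 * D ^ 2) * |n| := by
      calc (134 * D ^ 2) * (|n'| * B1) = (134 * D ^ 2 * B1) * |n'| := by ring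
        _ < M * |n'| := mul_lt_mul_of_pos_right hMlo hn'pos
        _ = |n| * |e| := hMabs
        _ ≤ |n| * (134 * D ^ 2) := mul_le_mul_of_nonneg_left heabs (abs_nonneg _)
        _ = _ := by ring
    exact lt_of_mul_lt_mul_left h6 (by positivity)
  have hsm : Sm B1 n' := by
    refine ⟨hn'0, ?_⟩
    intro l hl hln
    have h6 : (l : ℤ) ∣ n * e := by
      rw [← hMn']; exact Dvd.dvd.mul_left hln M
    rcases (Nat.prime_iff_prime_int.1 hl).dvd_or_dvd h6 with h7 | h7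
    · exact hs.2 l hl h7
    · have h8 : (l : ℤ) ≤ |e| := Int.le_of_dvd (by linarith) ((dvd_abs _ _).2 h7)
      have h9 : (l : ℤ) ≤ B1 := by linarith
      exact_mod_cast h9
  -- the units
  have hBpZ : (B : ℤ) < p := by exact_mod_cast hBp
  have hD2B : D ^ 2 ≤ D ^ 4 := pow_le_pow_right₀ (by linarith) (by norm_num)
  have hMB' : 134 * D ^ 2 * M ≤ B := by
    calc 134 * D ^ 2 * M ≤ 134 * D ^ 2 * (134 * D ^ 2 * B1 * B1) :=
          mul_le_mul_of_nonneg_left hMhi (by positivity)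
      _ = 17956 * D ^ 4 * B1 ^ 2 := by ring
      _ ≤ B := hB'
  have hMB : M ≤ B := by
    have : M ≤ 134 * D ^ 2 * M := le_mul_of_one_le_left hMpos.le (by linarith)
    linarith
  have hMunit : (M' : ZMod p) ≠ 0 := by
    rw [Ne, ZMod.natCast_eq_zero_iff]
    intro h
    have hMp' : 0 < M' := by
      rw [hM] at hMpos
      exact_mod_cast hMpos
    have h6 := Nat.le_of_dvd hMp' h
    have h7 : (p : ℤ) ≤ M := by rw [hM]; exact_mod_cast h6
    linarith
  have hr4 : (D : ZMod p) = 4 * r ^ 2 := by rw [hr, hD]; push_cast; ring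
  have hwunit : ((α : ZMod p) + 2 * β * r) ≠ 0 := by
    intro h
    have h6 : (((α ^ 2 - D * β ^ 2 : ℤ)) : ZMod p) = 0 := by
      push_cast
      rw [hr4]
      have : (α : ZMod p) ^ 2 - 4 * r ^ 2 * β ^ 2 = (α + 2 * β * r) * (α - 2 * β * r) := by ring
      rw [this, h, zero_mul]
    rw [ZMod.intCast_zmod_eq_zero_iff_dvd] at h6
    have h7 : (p : ℤ) ≤ |α ^ 2 - D * β ^ 2| :=
      Int.le_of_dvd (abs_pos.2 hne) ((dvd_abs _ _).2 h6)
    linarith
  set w : (ZMod p)ˣ := Units.mk0 _ hwunit with hw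
  set m : (ZMod p)ˣ := Units.mk0 _ hMunit with hm
  have hkey : ((u : ZMod p)) * (α + 2 * β * r) = (M' : ZMod p) * (x' + 2 * z' * r) := by
    rw [hu]
    have h6 : ((x * α + D * z * β : ℤ) : ZMod p) = ((M * x' : ℤ) : ZMod p) := by rw [hx']
    have h7 : ((x * β + z * α : ℤ) : ZMod p) = ((M * z' : ℤ) : ZMod p) := by rw [hz']
    push_cast at h6 h7
    rw [hr4] at h6
    have h8 : ((M : ℤ) : ZMod p) = (M' : ZMod p) := by rw [hM]; simp
    rw [← h8]
    linear_combination h6 + 2 * r * h7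
  have hu'0 : ((x' : ZMod p) + 2 * z' * r) ≠ 0 := by
    intro h
    rw [h, mul_zero] at hkey
    rcases mul_eq_zero.1 hkey with h6 | h6
    · exact u.ne_zero h6
    · exact hwunit h6
  refine ⟨x', z', Units.mk0 _ hu'0, rfl, hsm, hbnd, hdec, ?_⟩
  have h10 : u * (Units.mk0 _ hu'0)⁻¹ = m * w⁻¹ := by
    rw [mul_inv_eq_iff_eq_mul, mul_assoc, mul_comm w⁻¹, ← mul_assoc, eq_mul_inv_iff_mul_eq]
    apply Units.ext
    exact hkey
  rw [h10]
  have hα : α ^ 2 ≤ B := by
    have : 0 ≤ D * β ^ 2 := by positivity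
    linarith
  have hβ : |2 * β| ≤ B := by
    have h11 : |2 * β| ≤ D * β ^ 2 := by
      rw [abs_mul, abs_two, ← sq_abs β]
      rcases (abs_nonneg β).eq_or_lt with h0 | h0
      · rw [← h0]; norm_num
      · have h12 : 1 ≤ |β| := h0
        exact ds_two hD4 h12
    have : 0 ≤ α ^ 2 := sq_nonneg _
    linarith
  have hMB2 : M' ≤ B := by
    rw [hM] at hMB
    exact_mod_cast hMB
  refine Quo.div_mem (ds_nat_mem M' hMB2 m rfl) ?_
  refine ⟨α, 2 * β, ds_natAbs (ds_abs_le hα), ds_natAbs hβ, ?_⟩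
  rw [hw]
  push_cast
  rfl

/-- PROOF. `D = 4 d`, `N a = nd d a = a.1 ^ 2 - D a.2 ^ 2`. Strong induction on `|N a|`.
Let `g = gcd (a.1, a.2)`, `a = g a0`, `N a = g ^ 2 N a0`; `g` is `B1`-smooth, so by `smp` it is a
product of at most `1 + log g / log B1` naturals `≤ B1 ^ 2 ≤ B` (units modulo `p`: `g` is not divisible
by `p` because `u` is a unit); so `Quo` of that length (0 elements are needed if `g = 1`, but it does not
matter). The value of `a0` is again a unit `u0`, `u = g u0`, and `a0` satisfies the hypotheses.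
Let `n = |N a0|`, `X = 134 D ^ 2 B1`.
If `n ≤ X`: `a0.1 ^ 2 + D a0.2 ^ 2 ≤ 16 D n ≤ 2144 D ^ 3 B1 ≤ B`, so `u0 ∈ Sr`: total length
`≤ 2 + log g / log B1`.
If `n > X`: `divm` gives `M ∣ n`, `X < M ≤ X B1`; `skew` gives `(a, b)`; put
`x' = (x a + D z b) / M`, `z' = (x b + z a) / M` with `a0 = (x, z)`. Then in `ZMod p`
`(x + 2 z r) (a + 2 b r) = M (x' + 2 z' r)` (`(2 r) ^ 2 = D`), `a ^ 2 - D b ^ 2 ≠ 0` (`d` is not a
square), it is at most `134 D ^ 2 M ≤ B < p` in absolute value, so `a + 2 b r` is a unit (its product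
with `a - 2 b r` is not zero modulo `p`), `M < p` is a unit, so `x' + 2 z' r` is a unit `u'` and
`u0 = u' * (M * (a + 2 b r)⁻¹)`, where `M ≤ B`, `|a|, |2 b| ≤ B`: the second factor is
`Quo (Sr p B r) 1`. The vector `(x', z')`: `N' = N a0 (a ^ 2 - D b ^ 2) / M ^ 2`, nonzero,
`|a ^ 2 - D b ^ 2| ≥ M`, so `|N'| ≥ n / M` and `x' ^ 2 + D z' ^ 2 ≤ 16 D n / M ≤ 16 D |N'|`; a prime
dividing `N'` divides `N a0` or `(a ^ 2 - D b ^ 2) / M`, which is at most `134 D ^ 2 ≤ B1` in absolute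
value; and `|N'| ≤ n * 134 D ^ 2 / M < n / B1`. By induction `u'` has a representation of length
`k' ≤ 3 + 4 log |N'| / log B1 ≤ 3 + 4 (log n / log B1 - 1)`. Total length (real)
`≤ (1 + log g / log B1) + 1 + k' ≤ 1 + log g / log B1 + 4 log n / log B1 ≤ 3 + 4 log |N a| / log B1`.
Note `1 ∈ Sr` (`B ≥ 1`). -/
theorem desc {p : ℕ} [Fact p.Prime] {d B1 B : ℕ} (hd : 1 ≤ d) (hsq : ¬ IsSquare d) {r : ZMod p}
    (hr : r ^ 2 = (d : ZMod p)) (hB1 : 134 * (4 * d) ^ 2 ≤ B1) (hB : 17956 * (4 * d) ^ 4 * B1 ^ 2 ≤ B)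
    (hBp : B < p) (a : ℤ × ℤ) (hs : Sm B1 (nd d a))
    (hb : a.1 ^ 2 + 4 * d * a.2 ^ 2 ≤ 64 * d * |nd d a|) (u : (ZMod p)ˣ)
    (hu : (u : ZMod p) = a.1 + 2 * a.2 * r) :
    ∃ k : ℕ, (k : ℝ) ≤ 3 + 4 * Real.log |(nd d a : ℝ)| / Real.log B1 ∧ Quo (Sr p B r) k u := by
  have hd' : (1 : ℤ) ≤ d := by exact_mod_cast hd
  set D : ℤ := 4 * d with hD
  have hD4 : 4 ≤ D := by linarith
  have hD2 : (16 : ℤ) ≤ D ^ 2 := by
    clear * - hD4
    nlinarith
  have hB1' : 134 * D ^ 2 ≤ B1 := by rw [hD]; exact_mod_cast hB1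
  have hB' : 17956 * D ^ 4 * B1 ^ 2 ≤ B := by rw [hD]; exact_mod_cast hB
  have hB1big : (2144 : ℤ) ≤ B1 := by linarith
  have hB1two : 2 ≤ B1 := by
    have : (2 : ℤ) ≤ B1 := by linarith
    exact_mod_cast this
  have hD4p : (1 : ℤ) ≤ D ^ 4 := one_le_pow₀ (by linarith)
  have hB1sqB : B1 ^ 2 ≤ B := by
    have h1 : (B1 : ℤ) ^ 2 ≤ B := by
      have h2 : (B1 : ℤ) ^ 2 ≤ (17956 * D ^ 4) * B1 ^ 2 :=
        le_mul_of_one_le_left (by positivity) (by linarith)
      linarith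
    exact_mod_cast h1
  have hB1le : 1 ≤ B := le_trans (Nat.one_le_pow _ _ (by omega)) hB1sqB
  have hlogB1 : 0 < Real.log B1 := Real.log_pos (by exact_mod_cast (show 1 < B1 by omega))
  -- strong induction
  have main : ∀ (m : ℕ) (a : ℤ × ℤ), (nd d a).natAbs = m → Sm B1 (nd d a) →
      a.1 ^ 2 + 4 * d * a.2 ^ 2 ≤ 64 * d * |nd d a| → ∀ u : (ZMod p)ˣ,
      (u : ZMod p) = a.1 + 2 * a.2 * r →
      ∃ k : ℕ, (k : ℝ) ≤ 3 + 4 * Real.log |(nd d a : ℝ)| / Real.log B1 ∧
        Quo (Sr p B r) k u := by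
    intro m
    induction m using Nat.strong_induction_on with
    | _ m ih =>
    intro a hm hs hb u hu
    have hN0 : nd d a ≠ 0 := hs.1
    obtain ⟨g, hg⟩ : ∃ g : ℕ, g = Int.gcd a.1 a.2 := ⟨_, rfl⟩
    have hg0 : g ≠ 0 := by
      intro h
      rw [hg] at h
      obtain ⟨h1, h2⟩ := Int.gcd_eq_zero_iff.1 h
      apply hN0
      unfold nd
      rw [h1, h2]; ring
    have hgpos : 0 < g := Nat.pos_of_ne_zero hg0
    have hgd1 : (g : ℤ) ∣ a.1 := by rw [hg]; exact Int.gcd_dvd_left ..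
    have hgd2 : (g : ℤ) ∣ a.2 := by rw [hg]; exact Int.gcd_dvd_right ..
    obtain ⟨x, hx⟩ := hgd1
    obtain ⟨z, hz⟩ := hgd2
    have hgZ : (0 : ℤ) < g := by exact_mod_cast hgpos
    have hprim : Int.gcd x z = 1 := by
      have h1 := Int.gcd_ediv_gcd_ediv_gcd (i := a.1) (j := a.2) (by rw [← hg]; exact hgpos)
      have h2 : a.1 / ((g : ℕ) : ℤ) = x := Int.ediv_eq_of_eq_mul_right hgZ.ne' hx
      have h3 : a.2 / ((g : ℕ) : ℤ) = z := Int.ediv_eq_of_eq_mul_right hgZ.ne' hz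
      rw [← hg, h2, h3] at h1
      exact h1
    set n : ℤ := x ^ 2 - 4 * d * z ^ 2 with hn
    have hNn : nd d a = g ^ 2 * n := by
      unfold nd
      rw [hx, hz, hn]; ring
    have hn0 : n ≠ 0 := by
      intro h; rw [h, mul_zero] at hNn; exact hN0 hNn
    have hsn : Sm B1 n := ⟨hn0, fun l hl hln => hs.2 l hl (by rw [hNn]; exact Dvd.dvd.mul_left hln _)⟩
    have hbn : x ^ 2 + 4 * d * z ^ 2 ≤ 16 * (4 * d) * |x ^ 2 - 4 * d * z ^ 2| := by
      have h1 : (g : ℤ) ^ 2 * (x ^ 2 + 4 * d * z ^ 2) ≤ (g : ℤ) ^ 2 * (16 * (4 * d) * |n|) := by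
        calc (g : ℤ) ^ 2 * (x ^ 2 + 4 * d * z ^ 2) = a.1 ^ 2 + 4 * d * a.2 ^ 2 := by
              rw [hx, hz]; ring
          _ ≤ 64 * d * |nd d a| := hb
          _ = _ := by
              rw [hNn, abs_mul, abs_of_pos (by positivity : (0 : ℤ) < (g : ℤ) ^ 2)]; ring
      exact le_of_mul_le_mul_left h1 (by positivity)
    -- the units
    have hug : (u : ZMod p) = (g : ZMod p) * (x + 2 * z * r) := by
      rw [hu, hx, hz]; push_cast; ring
    have hg0' : (g : ZMod p) ≠ 0 := by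
      intro h; rw [h, zero_mul] at hug; exact u.ne_zero hug
    have hu00 : ((x : ZMod p) + 2 * z * r) ≠ 0 := by
      intro h; rw [h, mul_zero] at hug; exact u.ne_zero hug
    set ug : (ZMod p)ˣ := Units.mk0 _ hg0' with hugd
    set u0 : (ZMod p)ˣ := Units.mk0 _ hu00 with hu0d
    have huu : u = ug * u0 := Units.ext hug
    obtain ⟨L, hL1, hL2, hL3⟩ := smp hB1two g hgpos (by
      intro l hl hlg
      refine hs.2 l hl ?_
      rw [hNn]
      exact Dvd.dvd.mul_right ((Int.natCast_dvd_natCast.2 hlg).trans (dvd_pow_self _ two_ne_zero)) _)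
    have hLq : Quo (Sr p B r) L.length ug :=
      ds_list hB1le L (fun y hy => (hL2 y hy).trans hB1sqB) ug (by rw [hL1]; rfl)
    -- the logarithms
    have hlog : Real.log |(nd d a : ℝ)| = 2 * Real.log g + Real.log |(n : ℝ)| := by
      rw [hNn]
      push_cast
      rw [abs_mul, abs_of_pos (by positivity : (0 : ℝ) < (g : ℝ) ^ 2),
        Real.log_mul (by positivity) (by exact_mod_cast (abs_ne_zero.2 hn0)), Real.log_pow]
      norm_num
    have hlogg : 0 ≤ Real.log g := Real.log_natCast_nonneg g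
    have hn1 : (1 : ℝ) ≤ |(n : ℝ)| := by exact_mod_cast Int.one_le_abs hn0
    have hlogn : 0 ≤ Real.log |(n : ℝ)| := Real.log_nonneg hn1
    rcases le_or_gt |n| (134 * D ^ 2 * B1) with hcase | hcase
    · -- small norm
      refine ⟨L.length + 1, ?_, ?_⟩
      · push_cast
        rw [hlog]
        have h1 : 4 * (2 * Real.log g + Real.log |(n : ℝ)|) / Real.log B1 =
            8 * (Real.log g / Real.log B1) + 4 * (Real.log |(n : ℝ)| / Real.log B1) := by
          field_simp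
          ring
        rw [h1]
        have h2 : 0 ≤ Real.log g / Real.log B1 := div_nonneg hlogg hlogB1.le
        have h3 : 0 ≤ Real.log |(n : ℝ)| / Real.log B1 := div_nonneg hlogn hlogB1.le
        linarith
      · rw [huu]
        refine hLq.mul (Quo.of_mem (ds_one_mem hB1le) ?_)
        have h1 : x ^ 2 + D * z ^ 2 ≤ B := by
          calc x ^ 2 + D * z ^ 2 ≤ 16 * D * |n| := hbn
            _ ≤ 16 * D * (134 * D ^ 2 * B1) := mul_le_mul_of_nonneg_left hcase (by linarith)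
            _ = (2144 * D ^ 3) * B1 := by ring
            _ ≤ (17956 * D ^ 4) * (B1 ^ 2) := by
                have e1 : (2144 : ℤ) * D ^ 3 ≤ 17956 * D ^ 4 := by
                  have : D ^ 3 ≤ D ^ 4 := pow_le_pow_right₀ (by linarith) (by norm_num)
                  have : (0 : ℤ) < D ^ 3 := by positivity
                  linarith
                have e2 : (B1 : ℤ) ≤ B1 ^ 2 := le_self_pow₀ (by linarith) (by norm_num)
                exact mul_le_mul e1 e2 (by positivity) (by positivity)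
            _ ≤ B := hB'
        have h2 : x ^ 2 ≤ B := by
          have : 0 ≤ D * z ^ 2 := by positivity
          linarith
        have h3 : |2 * z| ≤ B := by
          have h11 : |2 * z| ≤ D * z ^ 2 := by
            rw [abs_mul, abs_two, ← sq_abs z]
            rcases (abs_nonneg z).eq_or_lt with h0 | h0
            · rw [← h0]; norm_num
            · have h12 : 1 ≤ |z| := h0
              exact ds_two hD4 h12
          have : 0 ≤ x ^ 2 := sq_nonneg _
          linarith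
        refine ⟨x, 2 * z, ds_natAbs (ds_abs_le h2), ds_natAbs h3, ?_⟩
        rw [hu0d]
        push_cast
        rfl
    · -- large norm
      obtain ⟨x', z', u', hu', hs', hb', hdec, hq⟩ :=
        ds_step hd hsq hr hB1 hB hBp x z hprim hsn hbn hcase u0 rfl
      have hnd' : nd d (x', z') = x' ^ 2 - 4 * d * z' ^ 2 := rfl
      have hn'0 : x' ^ 2 - 4 * (d : ℤ) * z' ^ 2 ≠ 0 := hs'.1
      have hn'1 : 1 ≤ |x' ^ 2 - 4 * (d : ℤ) * z' ^ 2| := Int.one_le_abs hn'0
      have hlt : (nd d (x', z')).natAbs < m := by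
        have h1 : ((nd d (x', z')).natAbs : ℤ) < (m : ℤ) := by
          rw [← hm, Int.natCast_natAbs, Int.natCast_natAbs, hnd', hNn, abs_mul,
            abs_of_pos (by positivity : (0 : ℤ) < (g : ℤ) ^ 2)]
          have h2 : |x' ^ 2 - 4 * (d : ℤ) * z' ^ 2| * 1 ≤
              |x' ^ 2 - 4 * (d : ℤ) * z' ^ 2| * (B1 : ℤ) :=
            mul_le_mul_of_nonneg_left (by linarith) (abs_nonneg _)
          have h3 : |n| ≤ (g : ℤ) ^ 2 * |n| := by
            refine le_mul_of_one_le_left (abs_nonneg _) ?_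
            exact one_le_pow₀ hgZ
          linarith
        exact_mod_cast h1
      obtain ⟨k', hk1, hk2⟩ := ih _ hlt (x', z') rfl hs' (by
        show x' ^ 2 + 4 * d * z' ^ 2 ≤ 64 * d * |nd d (x', z')|
        rw [hnd']
        linarith [hb']) u' hu'
      refine ⟨L.length + (1 + k'), ?_, ?_⟩
      · push_cast
        rw [hlog]
        have h1 : 4 * (2 * Real.log g + Real.log |(n : ℝ)|) / Real.log B1 =
            8 * (Real.log g / Real.log B1) + 4 * (Real.log |(n : ℝ)| / Real.log B1) := by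
          field_simp
          ring
        rw [h1]
        have h2 : 0 ≤ Real.log g / Real.log B1 := div_nonneg hlogg hlogB1.le
        have h4 : Real.log |(nd d (x', z') : ℝ)| + Real.log B1 ≤ Real.log |(n : ℝ)| := by
          rw [← Real.log_mul (by exact_mod_cast (abs_ne_zero.2 hn'0))
            (by exact_mod_cast (show B1 ≠ 0 by omega))]
          apply Real.log_le_log
          · have h5 : (0 : ℝ) < |(nd d (x', z') : ℝ)| := by
              exact_mod_cast (abs_pos.2 hn'0)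
            have h6 : (0 : ℝ) < B1 := by exact_mod_cast (show 0 < B1 by omega)
            positivity
          · have h5 : ((|x' ^ 2 - 4 * (d : ℤ) * z' ^ 2| * B1 : ℤ) : ℝ) ≤ ((|n| : ℤ) : ℝ) := by
              exact_mod_cast hdec.le
            rw [Int.cast_mul, Int.cast_abs, Int.cast_abs, Int.cast_natCast] at h5
            exact h5
        have h5 : Real.log |(nd d (x', z') : ℝ)| / Real.log B1 + 1 ≤
            Real.log |(n : ℝ)| / Real.log B1 := by
          rw [div_add_one hlogB1.ne']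
          exact div_le_div_of_nonneg_right h4 hlogB1.le
        have h6 : 4 * Real.log |(nd d (x', z') : ℝ)| / Real.log B1 =
            4 * (Real.log |(nd d (x', z') : ℝ)| / Real.log B1) := by ring
        rw [h6] at hk1
        linarith
      · have h1 : u = ug * ((u0 * u'⁻¹) * u') := by
          rw [inv_mul_cancel_right]; exact huu
        rw [h1]
        exact hLq.mul (hq.mul hk2)
  exact main _ a rfl hs hb u hu

end Pool.Agent.LHf
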