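import Pool.Agent.LHf.Defs

/-! MODULE SPLIT: primes which split. -/

set_option autoImplicit false

namespace Pool.Agent.LHf

open Finset

open scoped Pointwise in
private theorem Split_card {q1 q2 : ℕ} (h1 : q1.Prime) (h2 : q2.Prime) :
    (q1 * q2).divisors.card ≤ 4 := by
  rw [Nat.divisors_mul, h1.divisors, h2.divisors]
  refine (card_mul_le).trans ?_
  calc ({1, q1} : Finset ℕ).card * ({1, q2} : Finset ℕ).card ≤ 2 * 2 :=
        Nat.mul_le_mul card_le_two card_le_two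
    _ = 4 := rfl

private theorem Split_sq {a b : ℕ} (ha : Squarefree a) (hb : Squarefree b) (h : IsSquare (a * b)) :
    a = b := by
  obtain ⟨s, hs⟩ := h
  have ha0 := ha.ne_zero
  have hb0 := hb.ne_zero
  have hs0 : s ≠ 0 := by
    rintro rfl
    rw [mul_zero] at hs
    exact mul_ne_zero ha0 hb0 hs
  apply Nat.eq_of_factorization_eq ha0 hb0
  intro p
  have h1 := ha.natFactorization_le_one p
  have h2 := hb.natFactorization_le_one p
  have h3 := congrArg (fun n => n.factorization p) hs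
  simp only [Nat.factorization_mul ha0 hb0, Nat.factorization_mul hs0 hs0, Finsupp.add_apply] at h3
  omega

private theorem Split_sf {q1 q2 : ℕ} (h1 : q1.Prime) (h2 : q2.Prime) (h12 : q1 ≠ q2) :
    Squarefree (q1 * q2) :=
  (Nat.squarefree_mul ((Nat.coprime_primes h1 h2).2 h12)).2 ⟨h1.squarefree, h2.squarefree⟩

/-- Legendre symbols: `v q l = legendreSym l q` (write it as
`(jacobiSym q l : ℝ)`, defined for all `l`). PROOF. For a prime `l ∈ Λ` (odd, `l > q, q'`, so `l` does not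
divide `q q'`) `v q l v q' l = ± 1`, and it is `1` iff `q q'` is a square modulo `l`, iff there is
`n` with `l ∣ n ^ 2 - q q'` (then `l ∣ (2 n) ^ 2 - 4 q q'`). If the sum over `Λ` is `≥ - N / 2`, then
the number of the `l` with value `1` is at least `N / 4`. -/
theorem split (Λ : Finset ℕ) (q q' : ℕ) (hq : q.Prime) (hq' : q'.Prime)
    (hΛ : ∀ l ∈ Λ, l.Prime ∧ 2 < l ∧ q < l ∧ q' < l)
    (h : -((Λ.card : ℝ) / 2) ≤ ∑ l ∈ Λ, (jacobiSym q l : ℝ) * (jacobiSym q' l : ℝ)) :
    ∃ Λ' ⊆ Λ, (Λ.card : ℝ) / 4 ≤ Λ'.card ∧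
      ∀ l ∈ Λ', ∃ n : ℤ, (l : ℤ) ∣ n ^ 2 - 4 * ((q * q' : ℕ) : ℤ) := by
  classical
  have hne : ∀ l ∈ Λ, ((q * q' : ℕ) : ZMod l) ≠ 0 := by
    intro l hl
    obtain ⟨hlp, h2l, hql, hq'l⟩ := hΛ l hl
    rw [Ne, ZMod.natCast_eq_zero_iff]
    intro hd
    rcases (hlp.dvd_mul).1 hd with h1 | h1
    · exact absurd (Nat.le_of_dvd hq.pos h1) (by omega)
    · exact absurd (Nat.le_of_dvd hq'.pos h1) (by omega)
  have hval : ∀ l ∈ Λ, ¬ (jacobiSym ((q * q' : ℕ) : ℤ) l = 1) →
      jacobiSym ((q * q' : ℕ) : ℤ) l = -1 := by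
    intro l hl h1
    have hlp : Fact l.Prime := ⟨(hΛ l hl).1⟩
    rw [← jacobiSym.legendreSym.to_jacobiSym] at h1 ⊢
    have h2 : (((q * q' : ℕ) : ℤ) : ZMod l) ≠ 0 := by
      have := hne l hl
      exact_mod_cast this
    rcases legendreSym.eq_one_or_neg_one l h2 with h3 | h3
    · exact absurd h3 h1
    · exact h3
  refine ⟨Λ.filter (fun l => jacobiSym ((q * q' : ℕ) : ℤ) l = 1), filter_subset _ _, ?_, ?_⟩
  · have h1 : ∑ l ∈ Λ, (jacobiSym q l : ℝ) * (jacobiSym q' l : ℝ) =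
        ∑ l ∈ Λ, if jacobiSym ((q * q' : ℕ) : ℤ) l = 1 then (1 : ℝ) else -1 := by
      refine sum_congr rfl fun l hl => ?_
      have h2 : (jacobiSym q l : ℝ) * (jacobiSym q' l : ℝ) =
          ((jacobiSym ((q * q' : ℕ) : ℤ) l : ℤ) : ℝ) := by
        rw [Nat.cast_mul, jacobiSym.mul_left]
        push_cast
        rfl
      rw [h2]
      split_ifs with h3
      · rw [h3]
        simp
      · rw [hval l hl h3]
        simp
    rw [h1, sum_ite, sum_const, sum_const, nsmul_eq_mul, nsmul_eq_mul] at h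
    have h4 := card_filter_add_card_filter_not (s := Λ)
      (fun l => jacobiSym ((q * q' : ℕ) : ℤ) l = 1)
    have h5 : ((Λ.filter (fun l => jacobiSym ((q * q' : ℕ) : ℤ) l = 1)).card : ℝ) +
        ((Λ.filter (fun l => ¬ jacobiSym ((q * q' : ℕ) : ℤ) l = 1)).card : ℝ) = Λ.card := by
      exact_mod_cast h4
    linarith
  · intro l hl
    rw [mem_filter] at hl
    obtain ⟨hl1, hl2⟩ := hl
    have hlp : Fact l.Prime := ⟨(hΛ l hl1).1⟩
    rw [← jacobiSym.legendreSym.to_jacobiSym] at hl2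
    have h2 : (((q * q' : ℕ) : ℤ) : ZMod l) ≠ 0 := by
      have := hne l hl1
      exact_mod_cast this
    obtain ⟨y, hy⟩ := (legendreSym.eq_one_iff l h2).1 hl2
    obtain ⟨n, rfl⟩ := ZMod.intCast_surjective y
    refine ⟨2 * n, ?_⟩
    rw [← ZMod.intCast_zmod_eq_zero_iff_dvd]
    push_cast
    push_cast at hy
    rw [hy]
    ring

/-- products of two different primes: not squares, and their products are not squares -/
theorem not_square_pair {q1 q2 q3 q4 : ℕ} (h1 : q1.Prime) (h2 : q2.Prime) (h3 : q3.Prime)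
    (h4 : q4.Prime) (h12 : q1 ≠ q2) (h34 : q3 ≠ q4) (h : q1 * q2 ≠ q3 * q4) :
    ¬ IsSquare (q1 * q2) ∧ ¬ IsSquare ((q1 * q2) * (q3 * q4)) := by
  constructor
  · intro hs
    have h5 := Split_sq (Split_sf h1 h2 h12) squarefree_one (by rwa [mul_one])
    have h6 := h1.two_le
    have h7 := h2.two_le
    nlinarith
  · intro hs
    exact h (Split_sq (Split_sf h1 h2 h12) (Split_sf h3 h4 h34) hs)

/-- the divisors of a product of two primes -/
theorem card_divisors_pair {q1 q2 : ℕ} (h1 : q1.Prime) (h2 : q2.Prime) :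
    (q1 * q2).divisors.card ≤ 4 := Split_card h1 h2

end Pool.Agent.LHf
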