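import Pool.Agent.LHf.Pairs
import Pool.Agent.LHf.Split

/-! MODULE FAM: the family of discriminants. -/

set_option autoImplicit false

namespace Pool.Agent.LHf

open Finset

private theorem fam_uf {a b q q' : ℕ} (ha : a.Prime) (hb : b.Prime) (hq : q.Prime)
    (h : a * b = q * q') : (a = q ∧ b = q') ∨ (a = q' ∧ b = q) := by
  have h1 : q ∣ a * b := ⟨q', h⟩
  rcases (Nat.Prime.dvd_mul hq).1 h1 with h2 | h2
  · have h3 : q = a := (Nat.prime_dvd_prime_iff_eq hq ha).1 h2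
    subst h3
    exact Or.inl ⟨rfl, Nat.eq_of_mul_eq_mul_left hq.pos h⟩
  · have h3 : q = b := (Nat.prime_dvd_prime_iff_eq hq hb).1 h2
    subst h3
    refine Or.inr ⟨Nat.eq_of_mul_eq_mul_right hq.pos ?_, rfl⟩
    rw [h, mul_comm]

private theorem fam_ns {a b : ℕ} (ha : a.Prime) (hb : b.Prime) (hab : a ≠ b) :
    ¬ IsSquare (a * b) := by
  by_cases h : a * b = 2 * 3
  · exact (not_square_pair ha hb Nat.prime_two Nat.prime_five hab (by norm_num)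
      (by rw [h]; norm_num)).1
  · exact (not_square_pair ha hb Nat.prime_two Nat.prime_three hab (by norm_num) h).1

private theorem fam_js (q l : ℕ) : |((jacobiSym q l : ℤ) : ℝ)| ≤ 1 := by
  rcases jacobiSym.trichotomy (q : ℤ) l with h | h | h <;> rw [h] <;> norm_num

/-- PROOF. `pairs` for `v q l = jacobiSym q l` and `Λ = prw B`: at least `card Q ^ 2 / 4`
good ordered pairs `(q, q')`. `D` = the set of the products `q q'` of the good pairs; a product comes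
from at most two ordered pairs (unique factorisation), so `card D ≥ card Q ^ 2 / 8`. For `d ∈ D` choose
a good pair `(q, q')` with `q q' = d` and put `r' d = r q q'`. `Fam`: `P < 8 q`, `q ≤ P` for
`q ∈ prw P`; `not_square_pair`, `card_divisors_pair`. The last clause is `split` (`l ∈ prw B` satisfies
`8 l > B ≥ 8 P`, so `l > P ≥ q, q'`, and `l > 2`). -/
theorem fam_exists {p t P B : ℕ} (hP : 1 ≤ P) (hPt : P ^ 2 ≤ t) (hPB : 8 * P ≤ B) (hB : 24 ≤ B)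
    (Q : Finset ℕ) (hQ : Q ⊆ prw P) (hQ2 : 12 ≤ Q.card) (r : ℕ → ℕ → ZMod p)
    (hr : ∀ q ∈ Q, ∀ q' ∈ Q, q ≠ q' → r q q' ^ 2 = ((q * q' : ℕ) : ZMod p)) :
    ∃ (D : Finset ℕ) (r' : ℕ → ZMod p), Fam p t P D r' ∧ (Q.card : ℝ) ^ 2 / 8 ≤ D.card ∧
      (∀ d ∈ D, ∃ q ∈ Q, ∃ q' ∈ Q, q ≠ q' ∧ d = q * q' ∧ r' d = r q q') ∧
      ∀ d ∈ D, ∃ Λ ⊆ prw B, ((prw B).card : ℝ) / 4 ≤ Λ.card ∧
        ∀ l ∈ Λ, ∃ n : ℤ, (l : ℤ) ∣ n ^ 2 - 4 * d := by
  classical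
  set G : Finset (ℕ × ℕ) := (Q ×ˢ Q).filter (fun x => x.1 ≠ x.2 ∧
      -(((prw B).card : ℝ) / 2) ≤ ∑ l ∈ prw B, ((jacobiSym x.1 l : ℤ) : ℝ) *
        ((jacobiSym x.2 l : ℤ) : ℝ)) with hG
  have hGc : (Q.card : ℝ) ^ 2 / 4 ≤ G.card :=
    pairs Q (prw B) (fun q l => ((jacobiSym q l : ℤ) : ℝ)) fam_js hQ2
  have hQp : ∀ q ∈ Q, q.Prime ∧ P < 8 * q ∧ q ≤ P := by
    intro q hq
    have h := hQ hq
    unfold prw at h
    rw [mem_filter, mem_range] at h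
    exact ⟨h.2.1, h.2.2, by omega⟩
  have hGm : ∀ x ∈ G, (x.1 ∈ Q ∧ x.2 ∈ Q) ∧ x.1 ≠ x.2 ∧
      -(((prw B).card : ℝ) / 2) ≤ ∑ l ∈ prw B, ((jacobiSym x.1 l : ℤ) : ℝ) *
        ((jacobiSym x.2 l : ℤ) : ℝ) := by
    intro x hx
    rw [hG, mem_filter, mem_product] at hx
    exact hx
  set D : Finset ℕ := G.image (fun x => x.1 * x.2) with hD
  have hDx : ∀ d : ℕ, ∃ x : ℕ × ℕ, d ∈ D → x ∈ G ∧ x.1 * x.2 = d := by
    intro d
    by_cases hd : d ∈ D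
    · rw [hD, mem_image] at hd
      obtain ⟨x, hx, hx2⟩ := hd
      exact ⟨x, fun _ => ⟨hx, hx2⟩⟩
    · exact ⟨(0, 0), fun h => absurd h hd⟩
  choose f hf using hDx
  have hcard : G.card ≤ 2 * D.card := by
    rw [hD]
    refine Finset.card_le_mul_card_image G 2 ?_
    intro d hd
    obtain ⟨hx, hx2⟩ := hf d hd
    obtain ⟨⟨m1, m2⟩, -, -⟩ := hGm _ hx
    have hsub : (G.filter fun x => x.1 * x.2 = d) ⊆ {((f d).1, (f d).2), ((f d).2, (f d).1)} := by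
      intro y hy
      rw [mem_filter] at hy
      obtain ⟨hy1, hy2⟩ := hy
      obtain ⟨⟨n1, n2⟩, -, -⟩ := hGm _ hy1
      rw [mem_insert, mem_singleton]
      rcases fam_uf (hQp _ n1).1 (hQp _ n2).1 (hQp _ m1).1 (hy2.trans hx2.symm) with h | h
      · exact Or.inl (Prod.ext h.1 h.2)
      · exact Or.inr (Prod.ext h.1 h.2)
    exact (card_le_card hsub).trans card_le_two
  have hDc : (Q.card : ℝ) ^ 2 / 8 ≤ D.card := by
    have h1 : (G.card : ℝ) ≤ 2 * D.card := by exact_mod_cast hcard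
    linarith
  refine ⟨D, fun d => r (f d).1 (f d).2, ?_, hDc, ?_, ?_⟩
  · refine ⟨hP, hPt, ?_, ?_, ?_, ?_, ?_, ?_⟩
    · intro d hd
      obtain ⟨hx, hx2⟩ := hf d hd
      obtain ⟨⟨m1, m2⟩, -, -⟩ := hGm _ hx
      have a1 := (hQp _ m1).2.1
      have a2 := (hQp _ m2).2.1
      rw [← hx2]
      nlinarith
    · intro d hd
      obtain ⟨hx, hx2⟩ := hf d hd
      obtain ⟨⟨m1, m2⟩, -, -⟩ := hGm _ hx
      have a1 := (hQp _ m1).2.2
      have a2 := (hQp _ m2).2.2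
      rw [← hx2, pow_two]
      exact Nat.mul_le_mul a1 a2
    · intro d hd
      obtain ⟨hx, hx2⟩ := hf d hd
      obtain ⟨⟨m1, m2⟩, m3, -⟩ := hGm _ hx
      have h := hr _ m1 _ m2 m3
      rw [hx2] at h
      exact h
    · intro d hd
      obtain ⟨hx, hx2⟩ := hf d hd
      obtain ⟨⟨m1, m2⟩, m3, -⟩ := hGm _ hx
      rw [← hx2]
      exact fam_ns (hQp _ m1).1 (hQp _ m2).1 m3
    · intro d hd d' hd' hne
      obtain ⟨hx, hx2⟩ := hf d hd
      obtain ⟨⟨m1, m2⟩, m3, -⟩ := hGm _ hx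
      obtain ⟨hy, hy2⟩ := hf d' hd'
      obtain ⟨⟨n1, n2⟩, n3, -⟩ := hGm _ hy
      have h := (not_square_pair (hQp _ m1).1 (hQp _ m2).1 (hQp _ n1).1 (hQp _ n2).1 m3 n3
        (by rw [hx2, hy2]; exact hne)).2
      rwa [hx2, hy2] at h
    · intro d hd
      obtain ⟨hx, hx2⟩ := hf d hd
      obtain ⟨⟨m1, m2⟩, m3, -⟩ := hGm _ hx
      have h := card_divisors_pair (hQp _ m1).1 (hQp _ m2).1
      rwa [hx2] at h
  · intro d hd
    obtain ⟨hx, hx2⟩ := hf d hd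
    obtain ⟨⟨m1, m2⟩, m3, -⟩ := hGm _ hx
    exact ⟨_, m1, _, m2, m3, hx2.symm, rfl⟩
  · intro d hd
    obtain ⟨hx, hx2⟩ := hf d hd
    obtain ⟨⟨m1, m2⟩, m3, m4⟩ := hGm _ hx
    obtain ⟨Λ, h1, h2, h3⟩ := split (prw B) _ _ (hQp _ m1).1 (hQp _ m2).1 (fun l hl => by
      unfold prw at hl
      rw [mem_filter, mem_range] at hl
      obtain ⟨l1, l2, l3⟩ := hl
      have a1 := (hQp _ m1).2.2
      have a2 := (hQp _ m2).2.2
      exact ⟨l2, by omega, by omega, by omega⟩) m4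
    rw [hx2] at h3
    exact ⟨Λ, h1, h2, h3⟩

end Pool.Agent.LHf
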