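import Pool.Agent.LHf.Defs

/-! MODULE NUM: the parameters. -/

set_option autoImplicit false

namespace Pool.Agent.LHf

open Finset

private theorem num_log_le {x : ℝ} (hx : 0 < x) (n : ℕ) (h : x ≤ 2 ^ n) :
    Real.log x ≤ n * 0.7 := by
  have h1 : Real.log x ≤ Real.log (2 ^ n) := Real.log_le_log hx h
  rw [Real.log_pow] at h1
  have h2 := Real.log_two_lt_d9
  have h3 : (n : ℝ) * Real.log 2 ≤ n * 0.7 :=
    mul_le_mul_of_nonneg_left (by linarith) (Nat.cast_nonneg n)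
  linarith

/-- PROOF. Let `l = log p`, `ll = log (log p)`, `λ = log P`, `h = ⌈5 l / (10 λ)⌉₊`. Then
`(P ^ 10) ^ h ≥ p ^ 5` and `≤ p ^ 5 P ^ 10`, `h ≤ l / (2 λ) + 1 ≤ l / λ` as `l ≥ 2001 λ`. From
`λ ≥ C sqrt (l ll)`: `l / λ ≤ λ / (C ^ 2 ll)`. So `64 ^ h ≤ exp (4.2 l / λ) ≤ exp (λ)` for `C ≥ 3`,
`ll ≥ 1`; `h log P ≤ l`, so `(640 h log P) ^ (8 h) ≤ exp (8 h (ll + 6.5))` and
`8 h (ll + 6.5) ≤ (4 l / λ + 8) (ll + 6.5) ≤ (4 / C ^ 2) λ (1 + 6.5 / ll) + 8 (ll + 6.5) ≤ λ / 2` for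
`C ≥ 10` and large `p`; all the other factors are at most `exp (λ / 2)` (powers of `l`; `λ ≥ sqrt l`
for large `p`). -/
theorem num (n0 : ℕ) : ∃ C : ℝ, 1 ≤ C ∧ ∃ p0 : ℕ, ∀ p : ℕ, p0 ≤ p → ∀ P : ℕ,
    C * Real.sqrt (Real.log p * Real.log (Real.log p)) ≤ Real.log P → P ^ 2001 ≤ p →
    ∃ h : ℕ, 1 ≤ h ∧ p ^ 5 ≤ (P ^ 10) ^ h ∧ (P ^ 10) ^ h ≤ p ^ 5 * P ^ 10 ∧
      (h : ℝ) * Real.log P ≤ Real.log p ∧ 36000000 * 64 ^ h ≤ P ^ 4 ∧
      90 * (1 + 6 * Real.log p) ^ 2 ≤ P ∧ n0 ≤ P ∧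
      (10 : ℝ) ^ 18 * Real.log P ^ 2 * (2 * h + 1) ^ 4 * (640 * h * Real.log P) ^ (8 * h) < P := by
  refine ⟨10, by norm_num, ⌈Real.exp (((1000 : ℝ) + n0) ^ 4)⌉₊, ?_⟩
  intro p hp P hC hP
  have hn0 : (0 : ℝ) ≤ n0 := Nat.cast_nonneg n0
  have hp1 : Real.exp (((1000 : ℝ) + n0) ^ 4) ≤ p := Nat.ceil_le.1 hp
  have hp0 : (0 : ℝ) < p := lt_of_lt_of_le (Real.exp_pos _) hp1
  have hl : ((1000 : ℝ) + n0) ^ 4 ≤ Real.log p := (Real.le_log_iff_exp_le hp0).2 hp1
  have hPp : (P : ℝ) ^ 2001 ≤ p := by exact_mod_cast hP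
  obtain ⟨l, hldef⟩ : ∃ l : ℝ, l = Real.log p := ⟨_, rfl⟩
  obtain ⟨lam, hlam⟩ : ∃ lam : ℝ, lam = Real.log P := ⟨_, rfl⟩
  rw [← hldef] at hl hC
  rw [← hlam] at hC
  rw [← hldef, ← hlam]
  have hl0 : 0 < l := lt_of_lt_of_le (by positivity) hl
  -- the fourth root
  obtain ⟨t, htdef⟩ : ∃ t : ℝ, t = Real.sqrt (Real.sqrt l) := ⟨_, rfl⟩
  have ht : (1000 : ℝ) + n0 ≤ t := by
    rw [htdef]
    apply Real.le_sqrt_of_sq_le
    apply Real.le_sqrt_of_sq_le
    rw [← pow_mul]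
    exact hl
  have ht0 : 0 < t := by linarith
  have ht4 : l = t ^ 4 := by
    have h1 : t ^ 2 = Real.sqrt l := by rw [htdef, Real.sq_sqrt (Real.sqrt_nonneg l)]
    have h2 : t ^ 4 = (t ^ 2) ^ 2 := by ring
    rw [h2, h1, Real.sq_sqrt hl0.le]
  have hll : Real.log l = 4 * Real.log t := by
    rw [ht4, Real.log_pow]
    norm_num
  have hlogt : 2 ≤ Real.log t := by
    rw [Real.le_log_iff_exp_le ht0]
    have h1 : Real.exp 2 = Real.exp 1 * Real.exp 1 := by rw [← Real.exp_add]; norm_num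
    have h2 := Real.exp_one_lt_d9
    have h3 := Real.exp_pos 1
    rw [h1]
    nlinarith
  have hll1 : 8 ≤ Real.log l := by rw [hll]; linarith
  have hll2 : Real.log l ≤ 4 * t := by
    rw [hll]
    have := Real.log_le_self ht0.le
    linarith
  have hs : t ^ 2 ≤ Real.sqrt (l * Real.log l) := by
    apply Real.le_sqrt_of_sq_le
    have h1 : (t ^ 2) ^ 2 = l := by rw [ht4]; ring
    rw [h1]
    exact le_mul_of_one_le_right hl0.le (by linarith)
  have hlam1 : 10 * t ^ 2 ≤ lam := by linarith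
  have hlam0 : 0 < lam := lt_of_lt_of_le (by positivity) hlam1
  have hlam2 : 100 * (l * Real.log l) ≤ lam ^ 2 := by
    have h1 : 0 ≤ l * Real.log l := by positivity
    have h2 := Real.sq_sqrt h1
    have h3 := Real.sqrt_nonneg (l * Real.log l)
    have h4 : (10 * Real.sqrt (l * Real.log l)) ^ 2 ≤ lam ^ 2 :=
      pow_le_pow_left₀ (by positivity) hC 2
    have h5 : (10 * Real.sqrt (l * Real.log l)) ^ 2 = 100 * Real.sqrt (l * Real.log l) ^ 2 := by ring
    rw [h5, h2] at h4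
    exact h4
  have hP0 : (0 : ℝ) < P := by
    rcases Nat.eq_zero_or_pos P with h | h
    · rw [h, Nat.cast_zero, Real.log_zero] at hlam
      linarith
    · exact_mod_cast h
  have hPexp : Real.exp lam = P := by rw [hlam, Real.exp_log hP0]
  have hpexp : Real.exp l = p := by rw [hldef, Real.exp_log hp0]
  have hl2 : 2001 * lam ≤ l := by
    have h1 := Real.log_le_log (by positivity) hPp
    rw [Real.log_pow, ← hlam, ← hldef] at h1
    exact_mod_cast h1
  -- large parameters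
  have ht1000 : 1000 ≤ t := by linarith
  have hlamt : 10000 * t ≤ lam := by
    have h1 : 1000 * t ≤ t * t := mul_le_mul_of_nonneg_right ht1000 ht0.le
    have h2 : t ^ 2 = t * t := sq t
    linarith
  -- the number `h`
  obtain ⟨h, hh⟩ : ∃ h : ℕ, h = ⌈l / (2 * lam)⌉₊ := ⟨_, rfl⟩
  have hh1 : l / (2 * lam) ≤ h := by rw [hh]; exact Nat.le_ceil _
  have hh2 : (h : ℝ) < l / (2 * lam) + 1 := by rw [hh]; exact Nat.ceil_lt_add_one (by positivity)
  have hh3 : l ≤ 2 * (h * lam) := by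
    rw [div_le_iff₀ (by positivity)] at hh1
    linarith
  have hh4 : 2 * (h * lam) ≤ l + 2 * lam := by
    have h1 : (h : ℝ) * (2 * lam) ≤ (l / (2 * lam) + 1) * (2 * lam) :=
      mul_le_mul_of_nonneg_right hh2.le (by positivity)
    have h2 : (l / (2 * lam) + 1) * (2 * lam) = l + 2 * lam := by field_simp
    linarith
  have hh5 : (h : ℝ) * lam ≤ l := by linarith
  have hh0 : 1 ≤ h := by
    rw [Nat.one_le_iff_ne_zero]
    intro h0
    rw [h0, Nat.cast_zero, zero_mul, mul_zero] at hh3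
    linarith
  have hh0' : (1 : ℝ) ≤ h := by exact_mod_cast hh0
  -- `h ll ≤ lam / 100`
  have hh6 : (h : ℝ) * Real.log l ≤ lam / 100 := by
    have h1 : (h : ℝ) * lam * (100 * Real.log l) ≤ l * (100 * Real.log l) :=
      mul_le_mul_of_nonneg_right hh5 (by linarith)
    have h2 : (h : ℝ) * Real.log l * 100 * lam ≤ lam * lam := by
      have e1 : (h : ℝ) * Real.log l * 100 * lam = (h : ℝ) * lam * (100 * Real.log l) := by ring
      have e2 : l * (100 * Real.log l) = 100 * (l * Real.log l) := by ring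
      have e3 : lam ^ 2 = lam * lam := sq lam
      linarith
    have h3 := le_of_mul_le_mul_right h2 hlam0
    linarith
  have hh7 : (h : ℝ) ≤ lam / 800 := by
    have h1 : (h : ℝ) * 8 ≤ h * Real.log l := mul_le_mul_of_nonneg_left hll1 (by linarith)
    linarith
  have key : ∀ x : ℝ, 0 < x → Real.log x ≤ lam → x ≤ P := by
    intro x hx h1
    rw [← hPexp]
    exact (Real.log_le_iff_le_exp hx).1 h1
  refine ⟨h, hh0, ?_, ?_, hh5, ?_, ?_, ?_, ?_⟩
  · have h1 : (p : ℝ) ^ 5 ≤ ((P : ℝ) ^ 10) ^ h := by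
      rw [← hPexp, ← hpexp, ← Real.exp_nat_mul, ← Real.exp_nat_mul, ← Real.exp_nat_mul]
      apply Real.exp_le_exp.2
      push_cast
      linarith
    exact_mod_cast h1
  · have h1 : ((P : ℝ) ^ 10) ^ h ≤ (p : ℝ) ^ 5 * (P : ℝ) ^ 10 := by
      rw [← hPexp, ← hpexp, ← Real.exp_nat_mul, ← Real.exp_nat_mul, ← Real.exp_nat_mul,
        ← Real.exp_add]
      apply Real.exp_le_exp.2
      push_cast
      linarith
    exact_mod_cast h1
  · have h1 : (36000000 : ℝ) * 64 ^ h ≤ (P : ℝ) ^ 4 := by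
      rw [← hPexp, ← Real.exp_nat_mul, ← Real.log_le_iff_le_exp (by positivity),
        Real.log_mul (by norm_num) (by positivity), Real.log_pow]
      have h2 := num_log_le (x := 36000000) (by norm_num) 26 (by norm_num)
      have h3 := num_log_le (x := 64) (by norm_num) 6 (by norm_num)
      push_cast at h2 h3 ⊢
      have h4 : (h : ℝ) * Real.log 64 ≤ h * (6 * 0.7) :=
        mul_le_mul_of_nonneg_left h3 (by linarith)
      linarith
    exact_mod_cast h1
  · have h3 := num_log_le (x := 4410) (by norm_num) 13 (by norm_num)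
    have h2 : 4410 * l ^ 2 ≤ P := by
      apply key _ (by positivity)
      rw [Real.log_mul (by norm_num) (by positivity), Real.log_pow]
      push_cast at h3 ⊢
      linarith
    have h4 : 1 ≤ l := by linarith
    have h5 : (1 + 6 * l) ^ 2 ≤ (7 * l) ^ 2 := pow_le_pow_left₀ (by linarith) (by linarith) 2
    have h6 : 90 * (7 * l) ^ 2 = 4410 * l ^ 2 := by ring
    linarith
  · have h1 : (n0 : ℝ) ≤ P := by
      rw [← hPexp]
      have := Real.add_one_le_exp lam
      linarith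
    exact_mod_cast h1
  · have h3 := num_log_le (x := 81000000000000000000) (by norm_num) 67 (by norm_num)
    have h4 := num_log_le (x := 640) (by norm_num) 10 (by norm_num)
    have h5 : lam ≤ l := by linarith
    have h6 : (1 : ℝ) ≤ lam := by linarith
    have h7 : (h : ℝ) ≤ l := by linarith
    have b1 : lam ^ 2 ≤ l ^ 2 := pow_le_pow_left₀ hlam0.le h5 2
    have b2 : (2 * (h : ℝ) + 1) ^ 4 ≤ (3 * l) ^ 4 :=
      pow_le_pow_left₀ (by linarith) (by linarith) 4
    have b3 : (640 * (h : ℝ) * lam) ^ (8 * h) ≤ (640 * l) ^ (8 * h) :=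
      pow_le_pow_left₀ (by positivity) (by linarith) _
    have b4 : (10 : ℝ) ^ 18 * lam ^ 2 * (2 * h + 1) ^ 4 * (640 * h * lam) ^ (8 * h) ≤
        (10 : ℝ) ^ 18 * l ^ 2 * (3 * l) ^ 4 * (640 * l) ^ (8 * h) := by
      apply mul_le_mul _ b3 (by positivity) (by positivity)
      apply mul_le_mul _ b2 (by positivity) (by positivity)
      exact mul_le_mul_of_nonneg_left b1 (by positivity)
    refine lt_of_le_of_lt b4 ?_
    have b5 : (10 : ℝ) ^ 18 * l ^ 2 * (3 * l) ^ 4 * (640 * l) ^ (8 * h) =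
        81000000000000000000 * l ^ 6 * (640 * l) ^ (8 * h) := by ring
    rw [b5, ← hPexp, ← Real.log_lt_iff_lt_exp (by positivity),
      Real.log_mul (by positivity) (by positivity), Real.log_mul (by norm_num) (by positivity),
      Real.log_pow, Real.log_pow, Real.log_mul (by norm_num) (by positivity)]
    push_cast at h3 h4 ⊢
    have b6 : 8 * (h : ℝ) * (Real.log 640 + Real.log l) ≤ 8 * (h : ℝ) * (2 * Real.log l) :=
      mul_le_mul_of_nonneg_left (by linarith) (by positivity)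
    linarith

end Pool.Agent.LHf
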