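import Pool.Agent.LHf.Defs
import Pool.Agent.GolS.DivA

/-! MODULE PARX: existence of the parameters. -/

set_option autoImplicit false

namespace Pool.Agent.LHf

open Finset

private theorem parx_lt (n : ℕ) (a b : ℝ) (hb : 0 ≤ b) (h : a ^ n < b ^ n) : a < b :=
  lt_of_pow_lt_pow_left₀ n hb h

private theorem parx_le (n : ℕ) (hn : n ≠ 0) (a b : ℝ) (hb : 0 ≤ b) (h : a ^ n ≤ b ^ n) : a ≤ b :=
  le_of_pow_le_pow_left₀ hn hb h

private theorem parx_t (t : ℕ) : (0 : ℝ) ≤ (t : ℝ) + 1 := by positivity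

private theorem parx_s (x t s : ℝ) (h : x < t + 1) (hs : 40001 ≤ s) (hsq : s ^ 2 = x) :
    40000 * s ≤ t := by nlinarith

/-- PROOF. The divisor bound is in the library of the team (`Pool.Agent.GolS.DivA`, theorem
`divisor_bound`); `t` is the integer part of `p ^ (1 / 1000)`; `log (p ^ 20) = 20 log p ≤ t` for large
`p`. For the divisors: `d(n) ≤ n ^ δ` for `n ≥ n0(δ)` with `δ = 1 / 40000`: `n ^ δ ≤ p ^ (20 δ) =
p ^ (1 / 2000) ≤ t` for large `p`; for `n < n0`: `d(n) ≤ n0 ≤ t`. -/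
theorem par_exists : ∃ p0 : ℕ, ∀ p : ℕ, p0 ≤ p → ∃ t : ℕ, t ^ 1000 ≤ p ∧ p < (t + 1) ^ 1000 ∧
    ∀ R : ℕ, p ^ 5 ≤ R → R ≤ p ^ 6 → Par p t R := by
  obtain ⟨n0, hn0⟩ := Pool.Agent.GolS.divisor_bound (1 / 40000) (by norm_num)
  obtain ⟨K, hK1, hK2, hK3⟩ : ∃ K : ℕ, 1001 ≤ K ∧ 40001 ^ 2 ≤ K ∧ n0 + 1 ≤ K :=
    ⟨1001 + 40001 ^ 2 + (n0 + 1), by omega, by omega, by omega⟩
  refine ⟨K ^ 1000, fun p hp => ?_⟩
  have hK0 : 1 ≤ K ^ 1000 := Nat.one_le_pow _ _ (by omega)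
  have hp1 : 1 ≤ p := hK0.trans hp
  -- the root
  obtain ⟨t, ht1, ht2⟩ : ∃ t : ℕ, t ^ 1000 ≤ p ∧ p < (t + 1) ^ 1000 := by
    have h1 : ∃ m : ℕ, p < m ^ 1000 := ⟨p + 1, by
      calc p < p + 1 := Nat.lt_succ_self p
        _ ≤ (p + 1) ^ 1000 := Nat.le_self_pow (by norm_num) _⟩
    have h2 := Nat.find_spec h1
    rcases Nat.eq_zero_or_pos (Nat.find h1) with h0 | h0
    · rw [h0, zero_pow (by norm_num)] at h2
      exact absurd h2 (Nat.not_lt_zero _)
    · refine ⟨Nat.find h1 - 1, ?_, ?_⟩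
      · have := Nat.find_min h1 (m := Nat.find h1 - 1) (by omega)
        exact not_lt.1 this
      · rw [Nat.sub_add_cancel h0]
        exact h2
  have hKt : K ≤ t := by
    by_contra hlt
    push Not at hlt
    have : (t + 1) ^ 1000 ≤ K ^ 1000 := Nat.pow_le_pow_left hlt _
    omega
  refine ⟨t, ht1, ht2, fun R hR1 hR2 => ?_⟩
  have hpR : (1 : ℝ) ≤ p := by exact_mod_cast hp1
  have hp0 : (0 : ℝ) < p := by linarith
  set x : ℝ := (p : ℝ) ^ ((1 : ℝ) / 1000) with hx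
  have hx0 : 0 < x := Real.rpow_pos_of_pos hp0 _
  have hxp : x ^ 1000 = p := by
    rw [hx, ← Real.rpow_natCast, ← Real.rpow_mul hp0.le]
    norm_num
  have hxt : x < t + 1 := by
    have h1 : x ^ 1000 < ((t : ℝ) + 1) ^ 1000 := by
      rw [hxp]
      exact_mod_cast ht2
    exact parx_lt 1000 _ _ (parx_t t) h1
  have hxK : (K : ℝ) ≤ x := by
    have h1 : (K : ℝ) ^ 1000 ≤ x ^ 1000 := by
      rw [hxp]
      exact_mod_cast hp
    exact parx_le 1000 (by norm_num) _ _ hx0.le h1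
  have hs : (40001 : ℝ) ≤ Real.sqrt x := by
    apply Real.le_sqrt_of_sq_le
    have : ((40001 ^ 2 : ℕ) : ℝ) ≤ K := by exact_mod_cast hK2
    push_cast at this
    linarith
  have hsq : Real.sqrt x ^ 2 = x := Real.sq_sqrt hx0.le
  have hsx : 40000 * Real.sqrt x ≤ t := parx_s x t _ hxt hs hsq
  refine ⟨by omega, ht1, hR1, hR2, ?_, ?_⟩
  · intro n hn1 hn2
    rcases Nat.lt_or_ge n n0 with h | h
    · have h1 : n.divisors.card ≤ n := Nat.card_divisors_le_self n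
      omega
    · have h1 := hn0 n h
      have h2 : ((n : ℝ)) ^ ((1 : ℝ) / 40000) ≤ ((p : ℝ) ^ 20) ^ ((1 : ℝ) / 40000) :=
        Real.rpow_le_rpow (Nat.cast_nonneg n) (by exact_mod_cast hn2) (by norm_num)
      have h3 : ((p : ℝ) ^ 20) ^ ((1 : ℝ) / 40000) = Real.sqrt x := by
        rw [Real.sqrt_eq_rpow, hx, ← Real.rpow_natCast, ← Real.rpow_mul hp0.le,
          ← Real.rpow_mul hp0.le]
        norm_num
      have h4 : (n.divisors.card : ℝ) ≤ t := by
        change ((n.divisors.card : ℕ) : ℝ) ≤ _ at h1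
        rw [h3] at h2
        have h5 := Real.sqrt_nonneg x
        linarith
      exact_mod_cast h4
  · have h1 : Real.log p = 1000 * Real.log x := by
      rw [← hxp, Real.log_pow]
      norm_num
    have h2 : Real.log x = 2 * Real.log (Real.sqrt x) := by
      conv_lhs => rw [← hsq]
      rw [Real.log_pow]
      norm_num
    have h3 : Real.log (Real.sqrt x) ≤ Real.sqrt x - 1 :=
      Real.log_le_sub_one_of_pos (by linarith)
    rw [Real.log_pow, h1, h2]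
    push_cast
    linarith

end Pool.Agent.LHf
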