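import Pool.Agent.LHf.Defs

/-! MODULE TENT: the weights. -/

set_option autoImplicit false

namespace Pool.Agent.LHf

open Finset

theorem tent_nonneg (K x : ℝ) : 0 ≤ tent K x := by
  unfold tent
  exact le_max_left _ _

theorem tent_le_one (K x : ℝ) : tent K x ≤ 1 := by
  unfold tent
  apply max_le (by norm_num)
  have := abs_nonneg (x / K - 2)
  linarith

theorem tent_lip {K : ℝ} (hK : 0 < K) (x y : ℝ) : |tent K x - tent K y| ≤ |x - y| / K := by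
  unfold tent
  have h1 : |max 0 (1 - |x / K - 2|) - max 0 (1 - |y / K - 2|)| ≤
      |(1 - |x / K - 2|) - (1 - |y / K - 2|)| := by
    rw [max_comm 0 (1 - |x / K - 2|), max_comm 0 (1 - |y / K - 2|)]
    exact abs_max_sub_max_le_abs _ _ _
  refine h1.trans ?_
  have h2 : (1 - |x / K - 2|) - (1 - |y / K - 2|) = |y / K - 2| - |x / K - 2| := by ring
  rw [h2]
  refine (abs_abs_sub_abs_le _ _).trans ?_
  have h3 : y / K - 2 - (x / K - 2) = (y - x) / K := by ring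
  rw [h3, abs_div, abs_of_pos hK, abs_sub_comm]

theorem tent_supp {K x : ℝ} (hK : 0 < K) (h : tent K x ≠ 0) : K < x ∧ x < 3 * K := by
  unfold tent at h
  have h1 : 0 < 1 - |x / K - 2| := by
    by_contra hcon
    push Not at hcon
    exact h (max_eq_left hcon)
  have h2 : |x / K - 2| < 1 := by linarith
  rw [abs_lt] at h2
  obtain ⟨h3, h4⟩ := h2
  constructor
  · have h5 : 1 < x / K := by linarith
    rwa [lt_div_iff₀ hK, one_mul] at h5
  · have h5 : x / K < 3 := by linarith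
    rwa [div_lt_iff₀ hK] at h5

theorem tent_ge {K x : ℝ} (hK : 0 < K) (h1 : 3 / 2 * K ≤ x) (h2 : x ≤ 5 / 2 * K) :
    1 / 2 ≤ tent K x := by
  unfold tent
  refine le_max_of_le_right ?_
  have h3 : 3 / 2 ≤ x / K := by rwa [le_div_iff₀ hK]
  have h4 : x / K ≤ 5 / 2 := by rwa [div_le_iff₀ hK]
  have h5 : |x / K - 2| ≤ 1 / 2 := by
    rw [abs_le]
    constructor <;> linarith
  linarith

theorem WA_nonneg (R Z1 Z2 d1 d2 : ℕ) (A : ℤ) (v : ℤ × ℤ) : 0 ≤ WA R Z1 Z2 d1 d2 A v := by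
  unfold WA
  exact mul_nonneg (mul_nonneg (tent_nonneg _ _) (tent_nonneg _ _))
    (mul_nonneg (tent_nonneg _ _) (tent_nonneg _ _))

theorem WA_le_one (R Z1 Z2 d1 d2 : ℕ) (A : ℤ) (v : ℤ × ℤ) : WA R Z1 Z2 d1 d2 A v ≤ 1 := by
  unfold WA
  exact mul_le_one₀ (mul_le_one₀ (tent_le_one _ _) (tent_nonneg _ _) (tent_le_one _ _))
    (mul_nonneg (tent_nonneg _ _) (tent_nonneg _ _))
    (mul_le_one₀ (tent_le_one _ _) (tent_nonneg _ _) (tent_le_one _ _))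

theorem WA_supp {R Z1 Z2 d1 d2 : ℕ} {A : ℤ} {v : ℤ × ℤ} (hR : 0 < R) (h1 : 0 < Z1) (h2 : 0 < Z2)
    (h : WA R Z1 Z2 d1 d2 A v ≠ 0) :
    ((Z1 : ℝ) < v.1 ∧ (v.1 : ℝ) < 3 * Z1) ∧ ((Z2 : ℝ) < v.2 ∧ (v.2 : ℝ) < 3 * Z2) ∧
      (R : ℝ) < A + (nf d1 d2 v : ℝ) / A ∧ A + (nf d1 d2 v : ℝ) / A < 3 * R ∧
      (R : ℝ) < (nf d1 d2 v : ℝ) / A - A ∧ (nf d1 d2 v : ℝ) / A - A < 3 * R := by
  unfold WA at h
  have hR' : (0 : ℝ) < R := by exact_mod_cast hR
  have h1' : (0 : ℝ) < Z1 := by exact_mod_cast h1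
  have h2' : (0 : ℝ) < Z2 := by exact_mod_cast h2
  have ha := left_ne_zero_of_mul h
  have hb := right_ne_zero_of_mul h
  have k1 := tent_supp hR' (left_ne_zero_of_mul ha)
  have k2 := tent_supp h1' (right_ne_zero_of_mul ha)
  have k3 := tent_supp hR' (left_ne_zero_of_mul hb)
  have k4 := tent_supp h2' (right_ne_zero_of_mul hb)
  exact ⟨k2, k4, k1.1, k1.2, k3.1, k3.2⟩

end Pool.Agent.LHf
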