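import Pool.Agent.LHf.Lb
import Pool.Agent.LHf.Tent

/-! MODULE WD: weighted count of smooth elements. -/

set_option autoImplicit false

namespace Pool.Agent.LHf

open Finset

open Classical in
/-- PROOF. `lb` and `tent ≥ 1 / 2` for both coordinates on the inner box (`tent_ge`). -/
theorem wd {d B h R : ℕ} (hd : ¬ IsSquare d) (hB : 64 < B) (Λ : Finset ℕ) (hΛ1 : Λ ⊆ prw B)
    (hΛ : ∀ l ∈ Λ, ∃ n : ℤ, (l : ℤ) ∣ n ^ 2 - 4 * d) (hZ : 1 ≤ Zd R d) (hR : 1 ≤ R)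
    (hR1 : 16 * ((1 + 4 * d) * B ^ h) ≤ Zd R d) (hR2 : 9 * R ^ 2 * 64 ^ h ≤ B * B ^ (2 * h)) :
    ((Λ.card.choose (2 * h) : ℕ) : ℝ) * (R * Zd R d) ≤
      16 * (2 * h + 1) * (B : ℝ) ^ (2 * h) *
        ∑ a ∈ (pbx (3 * R) (3 * Zd R d)).filter (fun a => Sm B (nd d a)),
          tent R a.1 * tent (Zd R d) a.2 := by
  have h1 := lb (d := d) (B := B) (h := h) (R := R) hd hB Λ (fun l hl => by
    have h2 := hΛ1 hl
    unfold prw at h2
    rw [mem_filter, mem_range] at h2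
    exact ⟨h2.2.1, h2.2.2, by omega, hΛ l hl⟩) hR1 hR2
  have hR0 : (0 : ℝ) < R := by exact_mod_cast hR
  have hZ0 : (0 : ℝ) < Zd R d := by exact_mod_cast hZ
  have h3 : ((((ibx R (Zd R d)).filter (fun a => Sm B (nd d a))).card : ℕ) : ℝ) ≤
      4 * ∑ a ∈ (pbx (3 * R) (3 * Zd R d)).filter (fun a => Sm B (nd d a)),
          tent R a.1 * tent (Zd R d) a.2 := by
    have h4 : ((((ibx R (Zd R d)).filter (fun a => Sm B (nd d a))).card : ℕ) : ℝ) ≤
        ∑ a ∈ (ibx R (Zd R d)).filter (fun a => Sm B (nd d a)),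
          4 * (tent R a.1 * tent (Zd R d) a.2) := by
      rw [Finset.cast_card]
      refine Finset.sum_le_sum fun a ha => ?_
      rw [mem_filter] at ha
      have ha1 := ha.1
      unfold ibx at ha1
      rw [mem_filter] at ha1
      obtain ⟨_, ⟨b1, b2⟩, b3, b4⟩ := ha1
      have c1 : 3 * (R : ℝ) ≤ 2 * (a.1 : ℝ) := by exact_mod_cast b1
      have c2 : 2 * (a.1 : ℝ) ≤ 5 * (R : ℝ) := by exact_mod_cast b2
      have c3 : 3 * (Zd R d : ℝ) ≤ 2 * (a.2 : ℝ) := by exact_mod_cast b3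
      have c4 : 2 * (a.2 : ℝ) ≤ 5 * (Zd R d : ℝ) := by exact_mod_cast b4
      have e1 := tent_ge hR0 (x := (a.1 : ℝ)) (by linarith) (by linarith)
      have e2 := tent_ge hZ0 (x := (a.2 : ℝ)) (by linarith) (by linarith)
      nlinarith
    rw [← Finset.mul_sum] at h4
    refine h4.trans (mul_le_mul_of_nonneg_left ?_ (by norm_num))
    refine Finset.sum_le_sum_of_subset_of_nonneg ?_ fun a _ _ =>
      mul_nonneg (tent_nonneg _ _) (tent_nonneg _ _)
    exact Finset.filter_subset_filter _ (Finset.filter_subset _ _)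
  refine h1.trans ?_
  have h5 : (0 : ℝ) ≤ 4 * (2 * h + 1) * (B : ℝ) ^ (2 * h) := by positivity
  calc 4 * (2 * h + 1) * (B : ℝ) ^ (2 * h) *
        ((((ibx R (Zd R d)).filter (fun a => Sm B (nd d a))).card : ℕ) : ℝ)
      ≤ 4 * (2 * h + 1) * (B : ℝ) ^ (2 * h) *
        (4 * ∑ a ∈ (pbx (3 * R) (3 * Zd R d)).filter (fun a => Sm B (nd d a)),
          tent R a.1 * tent (Zd R d) a.2) := mul_le_mul_of_nonneg_left h3 h5
    _ = _ := by ring

end Pool.Agent.LHf
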