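import Pool.Agent.LHf.Cov
import Pool.Agent.LHf.Wd
import Pool.Agent.LHf.Fam
import Pool.Agent.LHf.Desc
import Pool.Agent.LHf.Num
import Pool.Agent.LHf.Cheb
import Pool.Agent.LHf.Parx

/-! MODULE CORE: the core theorem. -/

set_option autoImplicit false

namespace Pool.Agent.LHf

open Finset

private theorem choose_lb (n m : ℕ) (hm : 1 ≤ m) (h : 2 * m ≤ n) :
    ((n : ℝ) / (2 * m)) ^ m ≤ (n.choose m : ℝ) := by
  refine le_trans ?_ (Nat.pow_le_choose (α := ℝ) m n)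
  have hm0 : (0 : ℝ) < m := by exact_mod_cast hm
  rw [le_div_iff₀ (by positivity), div_pow, div_mul_eq_mul_div, div_le_iff₀ (by positivity), mul_pow]
  have h1 : (Nat.factorial m : ℝ) ≤ (m : ℝ) ^ m := by exact_mod_cast Nat.factorial_le_pow m
  have h2 : (n : ℝ) ≤ 2 * ((n + 1 - m : ℕ) : ℝ) := by
    have : n ≤ 2 * (n + 1 - m) := by omega
    exact_mod_cast this
  have h3 : (n : ℝ) ^ m ≤ 2 ^ m * ((n + 1 - m : ℕ) : ℝ) ^ m := by
    rw [← mul_pow]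
    exact pow_le_pow_left₀ (Nat.cast_nonneg _) h2 m
  calc (n : ℝ) ^ m * (Nat.factorial m : ℝ) ≤ (2 ^ m * ((n + 1 - m : ℕ) : ℝ) ^ m) * (m : ℝ) ^ m :=
        mul_le_mul h3 h1 (by positivity) (by positivity)
    _ = ((n + 1 - m : ℕ) : ℝ) ^ m * (2 ^ m * (m : ℝ) ^ m) := by ring

/-- the weighted count -/
private theorem hW_aux {n h : ℕ} {B1 L RZ S : ℝ} (hh : 1 ≤ h) (hB1 : 0 < B1) (hL : 0 < L)
    (hRZ : 0 ≤ RZ) (hn : B1 / (16 * L) ≤ n) (h4 : 4 * h ≤ n)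
    (hwd : ((n.choose (2 * h) : ℕ) : ℝ) * RZ ≤ 16 * (2 * h + 1) * B1 ^ (2 * h) * S) :
    1 / (16 * (2 * h + 1) * (64 * h * L) ^ (2 * h)) * RZ ≤ S := by
  have hh0 : (0 : ℝ) < h := by exact_mod_cast hh
  have h1 := choose_lb n (2 * h) (by omega) (by omega)
  have h2 : (B1 / (64 * h * L)) ^ (2 * h) ≤ (n.choose (2 * h) : ℝ) := by
    refine le_trans (pow_le_pow_left₀ (by positivity) ?_ _) h1
    rw [div_le_iff₀ (by positivity)] at hn ⊢
    push_cast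
    have : (n : ℝ) / (2 * (2 * h)) * (64 * h * L) = n * (16 * L) := by
      field_simp
      ring
    rw [this]
    exact hn
  have h3 : (B1 / (64 * h * L)) ^ (2 * h) * RZ ≤ 16 * (2 * h + 1) * B1 ^ (2 * h) * S :=
    le_trans (mul_le_mul_of_nonneg_right h2 hRZ) hwd
  rw [div_pow] at h3
  have hp1 : 0 < B1 ^ (2 * h) := by positivity
  have hp2 : 0 < (64 * h * L) ^ (2 * h) := by positivity
  have hp3 : (0 : ℝ) < 16 * (2 * h + 1) := by positivity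
  rw [div_mul_eq_mul_div, one_mul, div_le_iff₀ (by positivity)]
  rw [div_mul_eq_mul_div, div_le_iff₀ hp2] at h3
  have h4 : B1 ^ (2 * h) * RZ ≤ B1 ^ (2 * h) * (S * (16 * (2 * h + 1) * (64 * h * L) ^ (2 * h))) := by
    refine h3.trans (le_of_eq ?_)
    ring
  exact le_of_mul_le_mul_left h4 hp1

private theorem log9 {p R : ℕ} (hp : 10000 ≤ p) (hR : R ≤ p ^ 6) (hR1 : 1 ≤ R) :
    Real.log (9 * (R : ℝ) ^ 2) ≤ 13 * Real.log p := by
  have hp0 : (0 : ℝ) < p := by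
    have : 0 < p := by omega
    exact_mod_cast this
  have hR0 : (0 : ℝ) < R := by exact_mod_cast hR1
  have h1 : 9 * (R : ℝ) ^ 2 ≤ (p : ℝ) ^ 13 := by
    have h2 : (R : ℝ) ≤ (p : ℝ) ^ 6 := by exact_mod_cast hR
    have h3 : (9 : ℝ) ≤ p := by
      have : 9 ≤ p := by omega
      exact_mod_cast this
    calc 9 * (R : ℝ) ^ 2 ≤ p * ((p : ℝ) ^ 6) ^ 2 :=
          mul_le_mul h3 (pow_le_pow_left₀ hR0.le h2 2) (by positivity) (by positivity)
      _ = (p : ℝ) ^ 13 := by ring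
  calc Real.log (9 * (R : ℝ) ^ 2) ≤ Real.log ((p : ℝ) ^ 13) := Real.log_le_log (by positivity) h1
    _ = 13 * Real.log p := by rw [Real.log_pow]; push_cast; ring

private theorem pow_facts {P p t : ℕ} (hP : 2 ≤ P) (h : P ^ 2001 ≤ p) (ht : p < (t + 1) ^ 1000) :
    P ≤ p ∧ P ^ 14 ≤ p ∧ P ^ 10 < p ∧ P ^ 30 < p ∧ P ^ 2 ≤ t ∧
      2001 * Real.log P ≤ Real.log p := by
  have hP0 : 0 < P := by omega
  have hmono : ∀ k : ℕ, k ≤ 2001 → P ^ k ≤ p := fun k hk => (Nat.pow_le_pow_right hP0 hk).trans h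
  have hlt : ∀ k : ℕ, k < 2001 → P ^ k < p := fun k hk =>
    (Nat.pow_lt_pow_right (by omega) hk).trans_le h
  refine ⟨?_, hmono 14 (by norm_num), hlt 10 (by norm_num), hlt 30 (by norm_num), ?_, ?_⟩
  · have := hmono 1 (by norm_num)
    rwa [pow_one] at this
  · have h1 : (P ^ 2) ^ 1000 < (t + 1) ^ 1000 := by
      refine lt_of_le_of_lt ?_ ht
      rw [← pow_mul]
      exact hmono _ (by norm_num)
    have h2 := lt_of_pow_lt_pow_left₀ 1000 (Nat.zero_le _) h1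
    exact Nat.lt_succ_iff.1 h2
  · have hPR : (0 : ℝ) < P := by exact_mod_cast hP0
    have h1 : Real.log ((P : ℝ) ^ 2001) ≤ Real.log p :=
      Real.log_le_log (pow_pos hPR _) (by exact_mod_cast h)
    rw [Real.log_pow] at h1
    exact_mod_cast h1

/-- PROOF. Take `n0` so large that `prw P` has at least `P / (4 log P)` elements for
`P ≥ n0` and `P / (16 log P) ≥ 12`, `P ≥ 1000` etc.; `C` and `p0` from `num` (and `par_exists`). Let
`t` be as in `par_exists`; `P ^ 2 ≤ t` because `(P ^ 2) ^ 1000 ≤ P ^ 2001 ≤ p < (t + 1) ^ 1000`.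
`B1 = P ^ 10`, `R = 2000 P ^ 3 B1 ^ h`: `p ^ 5 ≤ R ≤ 2000 P ^ 13 p ^ 5 ≤ p ^ 6`. `fam_exists` with
`B = B1` gives `D, r', Λ_d`. For `d ∈ D`: `R ≤ 25 P Zd R d` (`le_Zd`), so
`Zd R d ≥ 80 P ^ 2 B1 ^ h ≥ 16 (1 + 4 d) B1 ^ h`; `9 R ^ 2 64 ^ h = 36000000 P ^ 6 64 ^ h B1 ^ (2 h)
≤ P ^ 10 B1 ^ (2 h)`. `wd` gives `hW` of `cov` with
`ρ = min over d of choose(card Λ_d, 2 h) / (16 (2 h + 1) B1 ^ (2 h))`; precisely with
`n = card Λ_d ≥ B1 / (16 log B1) = B1 / (160 log P)`, `choose n (2 h) ≥ (n / (4 h)) ^ (2 h)`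
(`Nat.pow_le_choose`, `n ≥ 4 h`), take `ρ = 1 / (16 (2 h + 1) (640 h log P) ^ (2 h))`. `hbig`:
`card D ≥ card Q ^ 2 / 8 ≥ P ^ 2 / (2048 log P ^ 2)`, and
`300 ^ 2 * 72 * 2048 * 16 ^ 4 < 10 ^ 18`. `cov` gives the three elements; each value is a unit
and by `desc` (with `B1`, `B = P ^ 30`; `17956 * 4 ^ 4 * P ^ 8 * P ^ 20 ≤ P ^ 30`,
`134 * 16 P ^ 4 ≤ P ^ 10`; `a.1 ^ 2 + 4 d a.2 ^ 2 ≤ 9 R ^ 2 + R ^ 2 / 4` and
`nd d a ≥ R ^ 2 - R ^ 2 / 4`, so the ratio is `≤ 64 d`) it has a representation of length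
`≤ 3 + 4 log (9 R ^ 2) / log (P ^ 10) ≤ 3 + 6 log p / log P` (`log (9 R ^ 2) ≤ 15 log p`). -/
theorem core : ∃ C : ℝ, 1 ≤ C ∧ ∃ p0 : ℕ, ∀ (p : ℕ) [Fact p.Prime], p0 ≤ p → ∀ P : ℕ,
    C * Real.sqrt (Real.log p * Real.log (Real.log p)) ≤ Real.log P → P ^ 2001 ≤ p →
    ∀ Q : Finset ℕ, Q ⊆ prw P → (P : ℝ) / (16 * Real.log P) ≤ Q.card →
    ∀ r : ℕ → ℕ → ZMod p, (∀ q ∈ Q, ∀ q' ∈ Q, q ≠ q' → r q q' ^ 2 = ((q * q' : ℕ) : ZMod p)) →
    ∀ g : (ZMod p)ˣ, ∃ k : ℕ, (k : ℝ) ≤ C * (Real.log p / Real.log P) ∧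
      Quo {u : (ZMod p)ˣ | ∃ q ∈ Q, ∃ q' ∈ Q, q ≠ q' ∧ u ∈ Sr p (P ^ 30) (r q q')} k g := by
  classical
  obtain ⟨n1, hn1⟩ := cheb
  obtain ⟨p1, hp1⟩ := par_exists
  obtain ⟨C, hC, p0, hnum⟩ := num (max n1 10000)
  refine ⟨max C 27, le_max_of_le_left hC, max p0 (max p1 10000), ?_⟩
  intro p hpf hp P hPC hPp Q hQ hQc r hr g
  have hpp0 : p0 ≤ p := (le_max_left _ _).trans hp
  have hpp1 : p1 ≤ p := ((le_max_left _ _).trans (le_max_right _ _)).trans hp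
  have hp10 : 10000 ≤ p := ((le_max_right _ _).trans (le_max_right _ _)).trans hp
  have hPC' : C * Real.sqrt (Real.log p * Real.log (Real.log p)) ≤ Real.log P :=
    le_trans (mul_le_mul_of_nonneg_right (le_max_left _ _) (Real.sqrt_nonneg _)) hPC
  obtain ⟨h, hh1, hh2, hh3, hh4, hh5, hh6, hh7, hh8⟩ := hnum p hpp0 P hPC' hPp
  have hPn1 : n1 ≤ P := (le_max_left _ _).trans hh7
  have hP4 : 10000 ≤ P := (le_max_right _ _).trans hh7
  have hP1 : 1 ≤ P := by omega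
  have hP0 : 0 < P := by omega
  have hPR : (10000 : ℝ) ≤ P := by exact_mod_cast hP4
  have hPR0 : (0 : ℝ) < P := by linarith
  have hpR0 : (0 : ℝ) < p := by
    have : 0 < p := by omega
    exact_mod_cast this
  obtain ⟨t, ht1, ht2, hPar⟩ := hp1 p hpp1
  obtain ⟨hPlep, hP14, hP10, hP30, hPt, hlog2001⟩ := pow_facts (by omega) hPp ht2
  clear hPp ht1 ht2
  -- logarithms
  have hlogP0 : 0 < Real.log P := Real.log_pos (by linarith)
  have hlogPp : Real.log P ≤ Real.log p := Real.log_le_log hPR0 (by exact_mod_cast hPlep)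
  have hlogp1 : 1 ≤ Real.log p := by
    rw [Real.le_log_iff_exp_le hpR0]
    have := Real.exp_one_lt_d9
    have h3 : (10000 : ℝ) ≤ p := by exact_mod_cast hp10
    linarith
  have hPbig : 640 * Real.log p ≤ P := by
    clear * - hh6 hlogp1
    nlinarith [hh6, hlogp1]
  -- the parameters
  obtain ⟨B1, hB1⟩ : ∃ B1, B1 = P ^ 10 := ⟨_, rfl⟩
  have hB1R : (B1 : ℝ) = (P : ℝ) ^ 10 := by rw [hB1]; push_cast; rfl
  obtain ⟨R, hR⟩ : ∃ R, R = 2000 * P ^ 3 * B1 ^ h := ⟨_, rfl⟩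
  rw [← hB1] at hh2 hh3
  have hB1h : 1 ≤ B1 ^ h := Nat.one_le_pow _ _ (by rw [hB1]; positivity)
  have hR1 : p ^ 5 ≤ R := by
    refine hh2.trans ?_
    rw [hR]
    have : 1 ≤ 2000 * P ^ 3 := by
      have := Nat.one_le_pow 3 P hP0
      omega
    exact Nat.le_mul_of_pos_left _ this
  have hR2 : R ≤ p ^ 6 := by
    have h1 : 2000 * P ^ 13 ≤ p := by
      have h2 : 2000 * P ^ 13 ≤ P ^ 14 := by
        calc 2000 * P ^ 13 ≤ P * P ^ 13 := Nat.mul_le_mul_right _ (by omega)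
          _ = P ^ 14 := by ring
      exact h2.trans hP14
    calc R = 2000 * P ^ 3 * B1 ^ h := hR
      _ ≤ 2000 * P ^ 3 * (p ^ 5 * P ^ 10) := Nat.mul_le_mul_left _ (by rw [← hB1]; exact hh3)
      _ = (2000 * P ^ 13) * p ^ 5 := by ring
      _ ≤ p * p ^ 5 := Nat.mul_le_mul_right _ h1
      _ = p ^ 6 := by ring
  have hpar := hPar R hR1 hR2
  have hR0 : 1 ≤ R := le_trans (Nat.one_le_pow _ _ (by omega)) hR1
  have hRR0 : (0 : ℝ) < R := by exact_mod_cast hR0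
  have hlogR : Real.log R ≤ 6 * Real.log p := by
    have h1 : Real.log R ≤ Real.log ((p : ℝ) ^ 6) :=
      Real.log_le_log hRR0 (by exact_mod_cast hR2)
    rw [Real.log_pow] at h1
    push_cast at h1
    exact h1
  have hlogR0 : 0 ≤ Real.log R := Real.log_nonneg (by exact_mod_cast hR0)
  have hlogP' : 90 * (1 + Real.log R) ^ 2 ≤ P := by
    refine le_trans ?_ hh6
    have : (1 + Real.log R) ^ 2 ≤ (1 + 6 * Real.log p) ^ 2 :=
      pow_le_pow_left₀ (by linarith) (by linarith) 2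
    linarith
  -- the family
  have hB1big : P ^ 10 ≤ B1 := le_of_eq hB1.symm
  have hPB : 8 * P ≤ B1 := by
    rw [hB1]
    calc 8 * P ≤ P ^ 9 * P := Nat.mul_le_mul_right _ (by
          calc 8 ≤ P := by omega
            _ ≤ P ^ 9 := Nat.le_self_pow (by norm_num) P)
      _ = P ^ 10 := by ring
  have hQcard : 12 ≤ Q.card := by
    have h1 : (12 : ℝ) ≤ Q.card := by
      refine le_trans ?_ hQc
      rw [le_div_iff₀ (by positivity)]
      linarith [hPbig, hlogPp, hlogp1]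
    exact_mod_cast h1
  obtain ⟨D, r', hF, hDc, hDp, hDΛ⟩ := fam_exists (p := p) (t := t) (P := P) (B := B1) hP1 hPt hPB
    (by omega) Q hQ hQcard r hr
  have hZ : ∀ d ∈ D, R ≤ 25 * P * Zd R d := by
    intro d hd
    refine le_Zd hP1 (hF.hhi d hd) ?_
    rw [hR]
    have hP3 : P ≤ P ^ 3 := Nat.le_self_pow (by norm_num) P
    calc 1200 * P ≤ 2000 * P ^ 3 := Nat.mul_le_mul (by norm_num) hP3
      _ ≤ 2000 * P ^ 3 * B1 ^ h := Nat.le_mul_of_pos_right _ hB1h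
  have hZ2 : ∀ d ∈ D, 80 * P ^ 2 * B1 ^ h ≤ Zd R d := by
    intro d hd
    have h1 := hZ d hd
    rw [hR] at h1
    have h2 : 25 * P * (80 * P ^ 2 * B1 ^ h) ≤ 25 * P * Zd R d := by
      rw [hR]
      calc 25 * P * (80 * P ^ 2 * B1 ^ h) = 2000 * P ^ 3 * B1 ^ h := by ring
        _ ≤ _ := h1
    exact Nat.le_of_mul_le_mul_left h2 (by positivity)
  have hZ1 : ∀ d ∈ D, 1 ≤ Zd R d := by
    intro d hd
    refine le_trans ?_ (hZ2 d hd)
    exact Nat.one_le_iff_ne_zero.2 (by positivity)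
  have hLh : (0 : ℝ) < 10 * Real.log P := by linarith
  have hlogB1 : Real.log B1 = 10 * Real.log P := by
    rw [hB1R, Real.log_pow]; push_cast; ring
  have hW : ∀ d ∈ D, 1 / (16 * (2 * h + 1) * (64 * h * (10 * Real.log P)) ^ (2 * h)) * (R * Zd R d) ≤
      ∑ a ∈ (pbx (3 * R) (3 * Zd R d)).filter (fun a => Sm B1 (nd d a)),
        tent R a.1 * tent (Zd R d) a.2 := by
    intro d hd
    obtain ⟨Λ, hΛ1, hΛ2, hΛ3⟩ := hDΛ d hd
    have hd4 : 16 * ((1 + 4 * d) * B1 ^ h) ≤ Zd R d := by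
      refine le_trans ?_ (hZ2 d hd)
      have h1 := hF.hhi d hd
      have h2 : 16 * (1 + 4 * d) ≤ 80 * P ^ 2 := by
        have := Nat.one_le_pow 2 P hP0
        omega
      calc 16 * ((1 + 4 * d) * B1 ^ h) = 16 * (1 + 4 * d) * B1 ^ h := by ring
        _ ≤ _ := Nat.mul_le_mul_right _ h2
    have hR9 : 9 * R ^ 2 * 64 ^ h ≤ B1 * B1 ^ (2 * h) := by
      calc 9 * R ^ 2 * 64 ^ h = (36000000 * 64 ^ h) * P ^ 6 * B1 ^ (2 * h) := by rw [hR]; ring
        _ ≤ P ^ 4 * P ^ 6 * B1 ^ (2 * h) := by gcongr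
        _ = B1 * B1 ^ (2 * h) := by rw [hB1]; ring
    have hw := wd (hF.hns1 d hd) (B := B1) (by omega) Λ hΛ1 hΛ3 (hZ1 d hd) hR0 hd4 hR9
    have hcard : (B1 : ℝ) / (16 * (10 * Real.log P)) ≤ Λ.card := by
      refine le_trans ?_ hΛ2
      have h1 := hn1 B1 (le_trans hPn1 (by rw [hB1]; exact Nat.le_self_pow (by norm_num) P))
      rw [hlogB1] at h1
      have h2 : (B1 : ℝ) / (16 * (10 * Real.log P)) = (B1 : ℝ) / (4 * (10 * Real.log P)) / 4 := by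
        field_simp
        ring
      rw [h2]
      linarith
    have h4n : 4 * h ≤ Λ.card := by
      have h1 : (4 * h : ℝ) ≤ Λ.card := by
        refine le_trans ?_ hcard
        rw [le_div_iff₀ (by positivity), hB1R]
        have h5 : (P : ℝ) ≤ (P : ℝ) ^ 10 := le_self_pow₀ (by linarith) (by norm_num)
        have h6 : (4 * h : ℝ) * (16 * (10 * Real.log P)) = 640 * (h * Real.log P) := by ring
        rw [h6]
        linarith [hh4, hPbig]
      exact_mod_cast h1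
    refine hW_aux hh1 (by rw [hB1R]; positivity) hLh (by positivity) hcard h4n ?_
    exact hw
  obtain ⟨M, hM⟩ : ∃ M : ℝ, M = (64 * h * (10 * Real.log P)) ^ (2 * h) := ⟨_, rfl⟩
  have hh0 : (0 : ℝ) < h := by exact_mod_cast hh1
  have hM0 : 0 < M := by rw [hM]; positivity
  have hbig : 300 ^ 2 * 72 * (P : ℝ) <
      (1 / (16 * (2 * h + 1) * (64 * h * (10 * Real.log P)) ^ (2 * h))) ^ 4 * D.card := by
    rw [← hM]
    have hM4 : M ^ 4 = (640 * h * Real.log P) ^ (8 * h) := by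
      rw [hM, ← pow_mul]
      congr 1 <;> ring
    rw [← hM4] at hh8
    have hD2 : (P : ℝ) ^ 2 / (2048 * Real.log P ^ 2) ≤ D.card := by
      refine le_trans ?_ hDc
      have h1 : ((P : ℝ) / (16 * Real.log P)) ^ 2 ≤ (Q.card : ℝ) ^ 2 :=
        pow_le_pow_left₀ (by positivity) hQc 2
      have h2 : (P : ℝ) ^ 2 / (2048 * Real.log P ^ 2) = ((P : ℝ) / (16 * Real.log P)) ^ 2 / 8 := by
        field_simp
        ring
      rw [h2]
      linarith
    rw [one_div, inv_pow]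
    rw [lt_inv_mul_iff₀ (by positivity)]
    refine lt_of_lt_of_le ?_ hD2
    rw [lt_div_iff₀ (by positivity)]
    have h5 : (P : ℝ) * ((10 : ℝ) ^ 18 * Real.log P ^ 2 * (2 * h + 1) ^ 4 * M ^ 4) < P * P :=
      mul_lt_mul_of_pos_left hh8 hPR0
    have h6 : 0 ≤ (P : ℝ) * (Real.log P ^ 2 * (2 * h + 1) ^ 4 * M ^ 4) := by positivity
    calc (16 * (2 * (h : ℝ) + 1) * M) ^ 4 * (300 ^ 2 * 72 * P) * (2048 * Real.log P ^ 2)
        = (16 ^ 4 * (300 ^ 2 * 72) * 2048) * (P * (Real.log P ^ 2 * (2 * h + 1) ^ 4 * M ^ 4)) := by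
          ring
      _ ≤ (10 : ℝ) ^ 18 * (P * (Real.log P ^ 2 * (2 * h + 1) ^ 4 * M ^ 4)) :=
          mul_le_mul_of_nonneg_right (by norm_num) h6
      _ = (P : ℝ) * ((10 : ℝ) ^ 18 * Real.log P ^ 2 * (2 * h + 1) ^ 4 * M ^ 4) := by ring
      _ < P * P := h5
      _ = (P : ℝ) ^ 2 := by ring
  have hB1p : B1 < p := by
    rw [hB1]
    exact hP10
  obtain ⟨x, hx, hxg⟩ := cov hpar hF hlogP' hB1p _ (by positivity) hW hbig g
  -- the three units
  have hne : ∀ i, (((x i).2.1 : ZMod p) + 2 * ((x i).2.2 : ZMod p) * r' (x i).1) ≠ 0 := by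
    intro i h0
    have : (g : ZMod p) = 0 := by
      rw [← hxg]
      exact Finset.prod_eq_zero (Finset.mem_univ i) h0
    exact g.ne_zero this
  set S : Set (ZMod p)ˣ := {u : (ZMod p)ˣ | ∃ q ∈ Q, ∃ q' ∈ Q, q ≠ q' ∧ u ∈ Sr p (P ^ 30) (r q q')}
    with hS
  have key : ∀ i, ∃ k : ℕ, (k : ℝ) ≤ 9 * (Real.log p / Real.log P) ∧
      Quo S k (Units.mk0 _ (hne i)) := by
    intro i
    obtain ⟨hxD, hxS, ⟨hx1, hx2⟩, hx3, hx4⟩ := hx i
    set d := (x i).1 with hd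
    set a := (x i).2 with ha
    have hd1 : 1 ≤ d := by
      have h1 := hF.hlo d hxD
      have h2 := Nat.one_le_pow 2 P hP0
      omega
    have hdP := hF.hhi d hxD
    have hZs := Zd_sq R d
    -- balance
    have hZs' : 144 * (d : ℤ) * (Zd R d : ℤ) ^ 2 ≤ (R : ℤ) ^ 2 := by exact_mod_cast hZs
    have ha2 : a.2 ^ 2 ≤ 9 * (Zd R d : ℤ) ^ 2 := by
      have h1 : 0 ≤ a.2 := by omega
      have h2 : a.2 ≤ 3 * (Zd R d : ℤ) := by omega
      calc a.2 ^ 2 ≤ (3 * (Zd R d : ℤ)) ^ 2 := pow_le_pow_left₀ h1 h2 2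
        _ = 9 * (Zd R d : ℤ) ^ 2 := by ring
    have hda : 4 * (d : ℤ) * a.2 ^ 2 ≤ 36 * d * (Zd R d : ℤ) ^ 2 := by
      have hd0 : (0 : ℤ) ≤ 4 * d := by positivity
      calc 4 * (d : ℤ) * a.2 ^ 2 ≤ 4 * (d : ℤ) * (9 * (Zd R d : ℤ) ^ 2) :=
            mul_le_mul_of_nonneg_left ha2 hd0
        _ = 36 * d * (Zd R d : ℤ) ^ 2 := by ring
    have hda2 : 16 * (d : ℤ) * a.2 ^ 2 ≤ (R : ℤ) ^ 2 := by linarith
    have hR0' : (0 : ℤ) ≤ R := Int.natCast_nonneg _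
    have ha1 : (R : ℤ) ^ 2 ≤ a.1 ^ 2 := pow_le_pow_left₀ hR0' hx1.le 2
    have hnd : nd d a = a.1 ^ 2 - 4 * d * a.2 ^ 2 := rfl
    have hRsq : 0 ≤ (R : ℤ) ^ 2 := sq_nonneg _
    have hndpos : 0 ≤ nd d a := by rw [hnd]; linarith
    have hnd34 : 3 * a.1 ^ 2 ≤ 4 * nd d a := by rw [hnd]; linarith
    have hbal : a.1 ^ 2 + 4 * d * a.2 ^ 2 ≤ 64 * d * |nd d a| := by
      rw [abs_of_nonneg hndpos]
      have h1 : a.1 ^ 2 + 4 * (d : ℤ) * a.2 ^ 2 ≤ 2 * a.1 ^ 2 := by linarith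
      have h2 : 2 * a.1 ^ 2 ≤ 64 * nd d a := by linarith
      have h3 : 64 * nd d a ≤ 64 * d * nd d a := by
        have h4 : (1 : ℤ) ≤ d := by exact_mod_cast hd1
        refine mul_le_mul_of_nonneg_right ?_ hndpos
        linarith
      linarith
    have hdB1 : 134 * (4 * d) ^ 2 ≤ B1 := by
      rw [hB1]
      calc 134 * (4 * d) ^ 2 = 2144 * d ^ 2 := by ring
        _ ≤ P * (P ^ 2) ^ 2 := Nat.mul_le_mul (by omega) (Nat.pow_le_pow_left hdP 2)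
        _ = P ^ 5 := by ring
        _ ≤ P ^ 10 := Nat.pow_le_pow_right hP0 (by norm_num)
    have hdB : 17956 * (4 * d) ^ 4 * B1 ^ 2 ≤ P ^ 30 := by
      rw [hB1]
      have h1 : 4596736 ≤ P ^ 2 := le_trans (by norm_num) (Nat.pow_le_pow_left hP4 2)
      calc 17956 * (4 * d) ^ 4 * (P ^ 10) ^ 2 = 4596736 * d ^ 4 * P ^ 20 := by ring
        _ ≤ P ^ 2 * (P ^ 2) ^ 4 * P ^ 20 := by gcongr
        _ = P ^ 30 := by ring
    obtain ⟨k, hk1, hk2⟩ := desc hd1 (hF.hns1 d hxD) (hF.hr d hxD) hdB1 hdB hP30 a hxS hbal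
      (Units.mk0 _ (hne i)) (by rw [Units.val_mk0])
    refine ⟨k, hk1.trans ?_, hk2.subset ?_⟩
    · rw [hlogB1]
      have h1 : |(nd d a : ℝ)| ≤ 9 * (R : ℝ) ^ 2 := by
        rw [← Int.cast_abs, abs_of_nonneg hndpos]
        have h2 : nd d a ≤ 9 * (R : ℤ) ^ 2 := by
          rw [hnd]
          have hd0 : (0 : ℤ) ≤ d := Int.natCast_nonneg _
          have h3 : 0 ≤ 4 * (d : ℤ) * a.2 ^ 2 := by positivity
          have h4 : a.1 ^ 2 ≤ (3 * (R : ℤ)) ^ 2 := pow_le_pow_left₀ (by omega) (by omega) 2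
          have h5 : (3 * (R : ℤ)) ^ 2 = 9 * (R : ℤ) ^ 2 := by ring
          linarith
        exact_mod_cast h2
      have h0 : (0 : ℝ) < |(nd d a : ℝ)| := by
        rw [abs_pos]
        exact_mod_cast hxS.1
      have h2 : Real.log |(nd d a : ℝ)| ≤ 13 * Real.log p :=
        (Real.log_le_log h0 h1).trans (log9 hp10 hR2 hR0)
      have h3 : 4 * Real.log |(nd d a : ℝ)| / (10 * Real.log P) ≤ 5.2 * (Real.log p / Real.log P) := by
        rw [div_le_iff₀ hLh]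
        have : 5.2 * (Real.log p / Real.log P) * (10 * Real.log P) = 52 * Real.log p := by
          field_simp
          ring
        rw [this]
        linarith
      have h4 : 1 ≤ Real.log p / Real.log P := by
        rw [le_div_iff₀ hlogP0]
        linarith
      linarith
    · intro u hu
      obtain ⟨q, hq, q', hq', hqq, hdq, hrq⟩ := hDp d hxD
      refine ⟨q, hq, q', hq', hqq, ?_⟩
      rw [← hrq]
      exact hu
  choose k hk1 hk2 using key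
  refine ⟨k 0 + k 1 + k 2, ?_, ?_⟩
  · push_cast
    have h1 := hk1 0
    have h2 := hk1 1
    have h3 := hk1 2
    have h4 : 0 ≤ Real.log p / Real.log P := by positivity
    have h5 : 27 * (Real.log p / Real.log P) ≤ max C 27 * (Real.log p / Real.log P) :=
      mul_le_mul_of_nonneg_right (le_max_right _ _) h4
    linarith
  · have hg : g = Units.mk0 _ (hne 0) * Units.mk0 _ (hne 1) * Units.mk0 _ (hne 2) := by
      apply Units.ext
      rw [← hxg, Fin.prod_univ_three]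
      simp only [Units.val_mul, Units.val_mk0]
    rw [hg]
    exact ((hk2 0).mul (hk2 1)).mul (hk2 2)

end Pool.Agent.LHf
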