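import Pool.Agent.LHf.Defs

/-! MODULE FIB: each residue has few preimages in the box. -/

set_option autoImplicit false

namespace Pool.Agent.LHf

open Finset

/-- the number of integers of `[1, N]` in a residue class -/
private theorem fib_one {p : ℕ} [Fact p.Prime] (N : ℕ) (c : ZMod p) :
    ((Icc (1 : ℤ) (N : ℤ)).filter fun x : ℤ => (x : ZMod p) = c).card ≤ N / p + 1 := by
  have hp : 0 < p := (Fact.out : p.Prime).pos
  have h1 : ((Icc (1 : ℤ) (N : ℤ)).filter fun x : ℤ => (x : ZMod p) = c).card ≤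
      (range (N / p + 1)).card := by
    refine card_le_card_of_injOn (fun x : ℤ => (x / (p : ℤ)).toNat) ?_ ?_
    · intro x hx
      have hx' := mem_filter.1 (mem_coe.1 hx)
      have hx1 := mem_Icc.1 hx'.1
      refine mem_coe.2 (mem_range.2 ?_)
      have h2 : x / (p : ℤ) ≤ ((N / p : ℕ) : ℤ) := by
        rw [Int.natCast_div]
        exact Int.ediv_le_ediv (by exact_mod_cast hp) hx1.2
      have h3 : 0 ≤ x / (p : ℤ) := Int.ediv_nonneg (by omega) (by omega)
      show (x / (p : ℤ)).toNat < N / p + 1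
      omega
    · intro x hx y hy hxy
      have hx' := mem_filter.1 (mem_coe.1 hx)
      have hy' := mem_filter.1 (mem_coe.1 hy)
      have hx1 := mem_Icc.1 hx'.1
      have hy1 := mem_Icc.1 hy'.1
      have hx3 : 0 ≤ x / (p : ℤ) := Int.ediv_nonneg (by omega) (by omega)
      have hy3 : 0 ≤ y / (p : ℤ) := Int.ediv_nonneg (by omega) (by omega)
      have h4 : x / (p : ℤ) = y / (p : ℤ) := by
        have h5 : (x / (p : ℤ)).toNat = (y / (p : ℤ)).toNat := hxy
        omega
      have h6 : (x : ZMod p) = (y : ZMod p) := hx'.2.trans hy'.2.symm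
      have h7 : x % p = y % p := by
        have := (ZMod.intCast_eq_intCast_iff x y p).1 h6
        exact this
      have h8 := Int.emod_add_mul_ediv x p
      have h9 := Int.emod_add_mul_ediv y p
      rw [← h8, ← h9, h4, h7]
  rwa [card_range] at h1

/-- MODULE FIB: each residue has few preimages in the box. PROOF. For each `z ∈ [1, 3 Z]` the number of
`x ∈ [1, 3 R]` in a given class modulo `p` is at most `3 R / p + 1 ≤ 4 R / p`. -/
theorem fib {p R Z : ℕ} [Fact p.Prime] (hR : p ≤ R) (r c : ZMod p) :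
    ((((pbx (3 * R) (3 * Z)).filter
      (fun a => (a.1 : ZMod p) + 2 * (a.2 : ZMod p) * r = c)).card : ℕ) : ℝ) * p ≤
        12 * (R * Z) := by
  have hp : 0 < p := (Fact.out : p.Prime).pos
  have h1 : ((pbx (3 * R) (3 * Z)).filter
      (fun a => (a.1 : ZMod p) + 2 * (a.2 : ZMod p) * r = c)).card ≤
        (3 * R / p + 1) * (3 * Z) := by
    have h2 : ((pbx (3 * R) (3 * Z)).filter
      (fun a => (a.1 : ZMod p) + 2 * (a.2 : ZMod p) * r = c)).card ≤
        ∑ z ∈ Icc (1 : ℤ) ((3 * Z : ℕ) : ℤ), (3 * R / p + 1) := by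
      have hmap : ∀ a ∈ (pbx (3 * R) (3 * Z)).filter
          (fun a => (a.1 : ZMod p) + 2 * (a.2 : ZMod p) * r = c),
          a.2 ∈ Icc (1 : ℤ) ((3 * Z : ℕ) : ℤ) := by
        intro a ha
        exact (mem_product.1 (mem_filter.1 ha).1).2
      rw [card_eq_sum_card_fiberwise hmap]
      refine sum_le_sum fun z hz => ?_
      refine le_trans ?_ (fib_one (p := p) (3 * R) (c - 2 * (z : ZMod p) * r))
      refine card_le_card_of_injOn (fun a : ℤ × ℤ => a.1) ?_ ?_
      · intro a ha
        have ha' := mem_filter.1 (mem_coe.1 ha)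
        have ha1 := mem_filter.1 ha'.1
        refine mem_coe.2 (mem_filter.2 ⟨(mem_product.1 ha1.1).1, ?_⟩)
        rw [← ha1.2, ← ha'.2]
        ring
      · intro a ha b hb hab
        have ha' := mem_filter.1 (mem_coe.1 ha)
        have hb' := mem_filter.1 (mem_coe.1 hb)
        exact Prod.ext hab (ha'.2.trans hb'.2.symm)
    rw [sum_const, Int.card_Icc, smul_eq_mul] at h2
    have h3 : (((3 * Z : ℕ) : ℤ) + 1 - 1).toNat = 3 * Z := by omega
    rw [h3] at h2
    exact h2.trans (le_of_eq (mul_comm _ _))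
  have h4 : (3 * R / p + 1) * p ≤ 4 * R := by
    have h5 : 3 * R / p * p ≤ 3 * R := Nat.div_mul_le_self _ _
    nlinarith
  have h6 : ((pbx (3 * R) (3 * Z)).filter
      (fun a => (a.1 : ZMod p) + 2 * (a.2 : ZMod p) * r = c)).card * p ≤ 12 * (R * Z) := by
    calc _ ≤ (3 * R / p + 1) * (3 * Z) * p := Nat.mul_le_mul_right _ h1
      _ = ((3 * R / p + 1) * p) * (3 * Z) := by ring
      _ ≤ (4 * R) * (3 * Z) := Nat.mul_le_mul_right _ h4
      _ = 12 * (R * Z) := by ring
  exact_mod_cast h6

end Pool.Agent.LHf
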