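import Pool.Agent.LHf.Defs

/-! MODULE ZDB: the heights `Zd R d`. -/

set_option autoImplicit false

namespace Pool.Agent.LHf

open Finset

/-- PROOF. `Zd R d * 12 * (sqrt d + 1) ≤ R` and `d ≤ (sqrt d + 1) ^ 2`. -/
theorem Zd_sq (R d : ℕ) : 144 * d * Zd R d ^ 2 ≤ R ^ 2 := by
  have h1 : 12 * (Nat.sqrt d + 1) * Zd R d ≤ R := by
    unfold Zd
    exact Nat.mul_div_le R _
  have h2 : d ≤ (Nat.sqrt d + 1) ^ 2 := by
    have := Nat.lt_succ_sqrt d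
    rw [Nat.succ_eq_add_one] at this
    nlinarith
  calc 144 * d * Zd R d ^ 2 ≤ 144 * (Nat.sqrt d + 1) ^ 2 * Zd R d ^ 2 := by gcongr
    _ = (12 * (Nat.sqrt d + 1) * Zd R d) ^ 2 := by ring
    _ ≤ R ^ 2 := Nat.pow_le_pow_left h1 2

theorem Zd_le (R d : ℕ) : 12 * Zd R d ≤ R := by
  have h1 : 12 * (Nat.sqrt d + 1) * Zd R d ≤ R := by
    unfold Zd
    exact Nat.mul_div_le R _
  refine le_trans ?_ h1
  have : 12 * 1 ≤ 12 * (Nat.sqrt d + 1) := by omega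
  calc 12 * Zd R d = 12 * 1 * Zd R d := by ring
    _ ≤ 12 * (Nat.sqrt d + 1) * Zd R d := Nat.mul_le_mul_right _ this

/-- PROOF. `R < 12 (sqrt d + 1) (Zd R d + 1)`, and `sqrt d ≤ P`, so
`R < 12 (P + 1) (Zd + 1) = 12 (P + 1) Zd + 12 (P + 1) ≤ 12 (P + 1) Zd + R / 50`, so
`(49 / 50) R < 12 (P + 1) Zd ≤ 24 P Zd`. -/
theorem le_Zd {R d P : ℕ} (hP : 1 ≤ P) (hd : d ≤ P ^ 2) (hR : 1200 * P ≤ R) :
    R ≤ 25 * P * Zd R d := by
  have hs : Nat.sqrt d ≤ P := by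
    have h := Nat.sqrt_le_sqrt hd
    have h' : Nat.sqrt (P ^ 2) = P := by
      rw [sq]
      exact Nat.sqrt_eq P
    omega
  have h1 : R < 12 * (Nat.sqrt d + 1) * (Zd R d + 1) := by
    unfold Zd
    have := Nat.lt_mul_div_succ R (show 0 < 12 * (Nat.sqrt d + 1) by omega)
    exact this
  have h2 : R < 12 * (P + 1) * (Zd R d + 1) := by
    refine lt_of_lt_of_le h1 ?_
    apply Nat.mul_le_mul_right
    omega
  -- `R < 12 (P + 1) Z + 12 (P + 1) ≤ 24 P Z + 24 P`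
  have h3 : 12 * (P + 1) ≤ 24 * P := by omega
  have h4 : R < 24 * P * (Zd R d + 1) := lt_of_lt_of_le h2 (Nat.mul_le_mul_right _ h3)
  have h5 : 24 * P * (Zd R d + 1) = 24 * (P * Zd R d) + 24 * P := by ring
  have h6 : 25 * P * Zd R d = 25 * (P * Zd R d) := by ring
  rw [h5] at h4
  rw [h6]
  omega

/-- PROOF. `P ≤ 8 (sqrt d + 1)`, because `P ^ 2 ≤ 64 d < (8 (sqrt d + 1)) ^ 2`; and
`12 (sqrt d + 1) Zd ≤ R`. -/
theorem Zd_le' {R d P : ℕ} (hd : P ^ 2 ≤ 64 * d) : 3 * P * Zd R d ≤ 2 * R := by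
  have h1 : 12 * (Nat.sqrt d + 1) * Zd R d ≤ R := by
    unfold Zd
    exact Nat.mul_div_le R _
  have h2 : P ≤ 8 * (Nat.sqrt d + 1) := by
    have h3 := Nat.lt_succ_sqrt d
    rw [Nat.succ_eq_add_one] at h3
    by_contra hcon
    push Not at hcon
    have : (8 * (Nat.sqrt d + 1)) ^ 2 < P ^ 2 := Nat.pow_lt_pow_left hcon (by norm_num)
    nlinarith
  calc 3 * P * Zd R d ≤ 3 * (8 * (Nat.sqrt d + 1)) * Zd R d := by gcongr
    _ = 2 * (12 * (Nat.sqrt d + 1) * Zd R d) := by ring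
    _ ≤ 2 * R := by omega

end Pool.Agent.LHf
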