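import Pool.Agent.LHf.Mainm
import Pool.Agent.LHf.Fib
import Pool.Agent.LHf.Tent
import Pool.Agent.LHf.Zdb
import Pool.Agent.GenB.Four

/-! MODULE COV: every residue is a product of three smooth elements. -/

set_option autoImplicit false

namespace Pool.Agent.LHf

open Finset

/-- the weight -/
private noncomputable def cvw (R d : ℕ) (a : ℤ × ℤ) : ℝ := tent R a.1 * tent (Zd R d) a.2

private theorem cvw_nonneg (R d : ℕ) (a : ℤ × ℤ) : 0 ≤ cvw R d a :=
  mul_nonneg (tent_nonneg _ _) (tent_nonneg _ _)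

private theorem cvw_le_one (R d : ℕ) (a : ℤ × ℤ) : cvw R d a ≤ 1 :=
  mul_le_one₀ (tent_le_one _ _) (tent_nonneg _ _) (tent_le_one _ _)

private theorem cvw_supp {R d : ℕ} {a : ℤ × ℤ} (hR : 0 < R) (hZ : 0 < Zd R d)
    (h : cvw R d a ≠ 0) : ((R : ℤ) < a.1 ∧ a.1 < 3 * R) ∧ (0 < a.2 ∧ a.2 < 3 * Zd R d) := by
  unfold cvw at h
  obtain ⟨h1, h2⟩ := mul_ne_zero_iff.1 h
  obtain ⟨a1, a2⟩ := tent_supp (by exact_mod_cast hR) h1
  obtain ⟨a3, a4⟩ := tent_supp (by exact_mod_cast hZ) h2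
  have b1 : (R : ℤ) < a.1 := by exact_mod_cast a1
  have b2 : a.1 < 3 * (R : ℤ) := by exact_mod_cast a2
  have b3 : (Zd R d : ℤ) < a.2 := by exact_mod_cast a3
  have b4 : a.2 < 3 * (Zd R d : ℤ) := by exact_mod_cast a4
  exact ⟨⟨b1, b2⟩, by omega, b4⟩

private theorem cv_nd {R d : ℕ} {a : ℤ × ℤ} (h : ((R : ℤ) < a.1 ∧ a.1 < 3 * R) ∧
    (0 < a.2 ∧ a.2 < 3 * Zd R d)) : 1 ≤ nd d a ∧ nd d a ≤ 9 * (R : ℤ) ^ 2 := by
  obtain ⟨⟨h1, h2⟩, h3, h4⟩ := h
  have h5 : 144 * (d : ℤ) * (Zd R d : ℤ) ^ 2 ≤ (R : ℤ) ^ 2 := by exact_mod_cast Zd_sq R d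
  have hR0 : (0 : ℤ) ≤ R := Int.natCast_nonneg _
  have hd0 : (0 : ℤ) ≤ d := Int.natCast_nonneg _
  have h6 : a.2 ^ 2 ≤ 9 * (Zd R d : ℤ) ^ 2 := by nlinarith
  have h7 : (d : ℤ) * a.2 ^ 2 ≤ d * (9 * (Zd R d : ℤ) ^ 2) := mul_le_mul_of_nonneg_left h6 hd0
  have h8 : 0 ≤ (d : ℤ) * a.2 ^ 2 := mul_nonneg hd0 (sq_nonneg _)
  have h9 : (R : ℤ) ^ 2 < a.1 ^ 2 := by nlinarith
  have h10 : a.1 ^ 2 ≤ 9 * (R : ℤ) ^ 2 := by nlinarith
  unfold nd
  constructor
  · nlinarith
  · nlinarith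

private theorem cv_unit {p B d : ℕ} [Fact p.Prime] {r : ZMod p} (hr : r ^ 2 = (d : ZMod p))
    (hBp : B < p) {a : ℤ × ℤ} (h : Sm B (nd d a)) :
    (a.1 : ZMod p) + 2 * (a.2 : ZMod p) * r ≠ 0 := by
  intro h0
  have h1 : ((nd d a : ℤ) : ZMod p) = 0 := by
    have h2 : ((nd d a : ℤ) : ZMod p) = ((a.1 : ZMod p) + 2 * (a.2 : ZMod p) * r) *
        ((a.1 : ZMod p) - 2 * (a.2 : ZMod p) * r) := by
      unfold nd
      push_cast
      rw [← hr]; ring
    rw [h2, h0, zero_mul]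
  rw [ZMod.intCast_zmod_eq_zero_iff_dvd] at h1
  have h3 := h.2 p Fact.out h1
  omega

open Classical in
/-- PROOF. Let `T` be the set of the `B`-smooth `m ∈ [1, 9 R ^ 2]` (integers). For a unit `c`
let `u c` be the sum of `tent R a.1 * tent Z_d a.2` over `d ∈ D` and the `a` in the box of `d` with
`nd d a ∈ T` and value `a.1 + 2 a.2 r d = c`. (If `nd d a` is `B`-smooth and the weight is not zero then
`R < a.1 < 3 R`, `0 < a.2 < 3 Z_d`, so `0 < nd d a ≤ 9 R ^ 2` by `Zd_sq`, so `nd d a ∈ T`; and the value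
is a unit because it divides `nd d a`, which is not divisible by `p > B`.) Then
`∑ c, u c = W := ∑ d, W_d ≥ ρ R ∑ Z_d`; `u c ≤ A := ∑ d, 12 R Z_d / p` (`fib`, weights `≤ 1`);
for `χ ≠ 1`: `‖∑ c, u c χ c‖ ≤ K := sqrt (72 R ^ 4 card D / P)` by `mainM`. With
`K * (p * A * W) < W ^ 3`: `p A = 12 R ∑ Z_d`, so it is enough that `12 K < ρ ^ 2 R ∑ Z_d` (as
`W ≥ ρ R ∑ Z_d`); `∑ Z_d ≥ card D * R / (25 P)` (`le_Zd`), so it is enough that
`300 P K < ρ ^ 2 R ^ 2 card D`, i.e. `300 ^ 2 * 72 * P < ρ ^ 4 card D`. `GenB.triple_cover` gives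
`g = a b c` with `u a, u b, u c > 0`. (`MulChar (ZMod p) ℂ` and `DirichletCharacter ℂ p` are the same
type.) -/
theorem cov {p t R P B : ℕ} [Fact p.Prime] (hPar : Par p t R) {D : Finset ℕ} {r : ℕ → ZMod p}
    (hF : Fam p t P D r) (hlogP : 90 * (1 + Real.log R) ^ 2 ≤ P) (hBp : B < p) (ρ : ℝ) (hρ : 0 < ρ)
    (hW : ∀ d ∈ D, ρ * (R * Zd R d) ≤
      ∑ a ∈ (pbx (3 * R) (3 * Zd R d)).filter (fun a => Sm B (nd d a)),
        tent R a.1 * tent (Zd R d) a.2)
    (hbig : 300 ^ 2 * 72 * (P : ℝ) < ρ ^ 4 * D.card) (g : (ZMod p)ˣ) :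
    ∃ x : Fin 3 → ℕ × (ℤ × ℤ), (∀ i, (x i).1 ∈ D ∧ Sm B (nd (x i).1 (x i).2) ∧
      ((R : ℤ) < (x i).2.1 ∧ (x i).2.1 < 3 * R) ∧
      (0 < (x i).2.2 ∧ (x i).2.2 < 3 * Zd R (x i).1)) ∧
      ∏ i, (((x i).2.1 : ZMod p) + 2 * ((x i).2.2 : ZMod p) * r (x i).1) = (g : ZMod p) := by
  have hp : p.Prime := Fact.out
  -- sizes
  have hpR : p ≤ R := (Nat.le_self_pow (by norm_num) p).trans hPar.hR1
  have hR0 : 0 < R := hp.pos.trans_le hpR
  have hPt : P ≤ t := (Nat.le_self_pow (by norm_num) P).trans hF.hPt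
  have ht3 : t ^ 3 ≤ t ^ 1000 := Nat.pow_le_pow_right (by have := hPar.ht; omega) (by norm_num)
  have hR1200 : 1200 * P ≤ R := by
    have h1 := hPar.ht
    have h2 : 1200 * P ≤ t ^ 3 := by
      have h3 : 1200 * P ≤ 1200 * t := Nat.mul_le_mul_left _ hPt
      have h4 : 1200 ≤ t * t := le_trans (by norm_num) (Nat.mul_le_mul h1 h1)
      have h5 : 1200 * t ≤ t * t * t := Nat.mul_le_mul_right _ h4
      calc 1200 * P ≤ t * t * t := h3.trans h5
        _ = t ^ 3 := by ring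
    exact h2.trans (ht3.trans (hPar.htp.trans hpR))
  have hZ : ∀ d ∈ D, R ≤ 25 * P * Zd R d := fun d hd => le_Zd hF.hP (hF.hhi d hd) hR1200
  have hZ0 : ∀ d ∈ D, 0 < Zd R d := by
    intro d hd
    rcases Nat.eq_zero_or_pos (Zd R d) with h | h
    · have := hZ d hd
      rw [h, mul_zero] at this
      omega
    · exact h
  set T : Finset ℤ := (Icc 1 (9 * (R : ℤ) ^ 2)).filter (fun m => Sm B m) with hT
  set val : ℕ → ℤ × ℤ → ZMod p := fun d a => (a.1 : ZMod p) + 2 * (a.2 : ZMod p) * r d with hval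
  set u : (ZMod p)ˣ → ℝ := fun c => ∑ d ∈ D, ∑ a ∈ pbx (3 * R) (3 * Zd R d),
    if nd d a ∈ T ∧ val d a = c then cvw R d a else 0 with hu
  have hu0 : ∀ c, 0 ≤ u c := by
    intro c
    refine sum_nonneg fun d _ => sum_nonneg fun a _ => ?_
    split_ifs
    · exact cvw_nonneg _ _ _
    · exact le_rfl
  set sZ : ℝ := ∑ d ∈ D, (Zd R d : ℝ) with hsZ
  -- the upper bound
  have hp0 : (0 : ℝ) < p := by exact_mod_cast hp.pos
  have hA : ∀ c, u c ≤ 12 * (R * sZ) / p := by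
    intro c
    rw [hsZ, mul_sum, mul_sum, Finset.sum_div]
    refine sum_le_sum fun d _ => ?_
    rw [le_div_iff₀ hp0]
    refine le_trans ?_ (fib hpR (r d) (c : ZMod p))
    refine mul_le_mul_of_nonneg_right ?_ hp0.le
    rw [cast_card, sum_filter]
    refine sum_le_sum fun a _ => ?_
    by_cases h : val d a = c
    · have h' : (a.1 : ZMod p) + 2 * (a.2 : ZMod p) * r d = c := h
      rw [if_pos h']
      split_ifs
      · exact cvw_le_one _ _ _
      · exact zero_le_one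
    · have h' : ¬ (a.1 : ZMod p) + 2 * (a.2 : ZMod p) * r d = c := h
      rw [if_neg h', if_neg (fun k => h k.2)]
  -- the total mass
  have hS : ρ * (R * sZ) ≤ ∑ c, u c := by
    have h1 : ∑ c, u c = ∑ d ∈ D, ∑ a ∈ pbx (3 * R) (3 * Zd R d),
        ∑ c : (ZMod p)ˣ, if nd d a ∈ T ∧ val d a = c then cvw R d a else 0 := by
      rw [hu, sum_comm]
      refine sum_congr rfl fun d _ => ?_
      rw [sum_comm]
    rw [h1, hsZ, mul_sum, mul_sum]
    refine sum_le_sum fun d hd => (hW d hd).trans ?_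
    rw [sum_filter]
    refine sum_le_sum fun a _ => ?_
    split_ifs with hsm
    · by_cases hw : cvw R d a = 0
      · have hw' : tent R a.1 * tent (Zd R d) a.2 = 0 := hw
        rw [hw', hw]
        exact sum_nonneg fun c _ => by split_ifs <;> exact le_rfl
      · have hne := cv_unit (hF.hr d hd) hBp hsm
        have hmem : nd d a ∈ T := by
          rw [hT, mem_filter, mem_Icc]
          exact ⟨cv_nd (cvw_supp hR0 (hZ0 d hd) hw), hsm⟩
        have h2 := single_le_sum (f := fun c : (ZMod p)ˣ =>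
          if nd d a ∈ T ∧ val d a = c then cvw R d a else 0) (s := univ) (fun c _ => by
            split_ifs
            · exact cvw_nonneg _ _ _
            · exact le_rfl) (mem_univ (Units.mk0 (val d a) hne))
        rw [if_pos ⟨hmem, by rw [Units.val_mk0]⟩] at h2
        exact h2
    · refine sum_nonneg fun c _ => ?_
      split_ifs
      · exact cvw_nonneg _ _ _
      · exact le_rfl
  -- the characters
  set K : ℝ := Real.sqrt (72 * (R : ℝ) ^ 4 * D.card / P) with hKdef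
  have hK : ∀ χ : DirichletCharacter ℂ p, χ ≠ 1 →
      ‖∑ c : (ZMod p)ˣ, (u c : ℂ) * χ (c : ZMod p)‖ ≤ K := by
    intro χ hχ
    have h1 : ∑ c : (ZMod p)ˣ, (u c : ℂ) * χ (c : ZMod p) =
        ∑ d ∈ D, ∑ a ∈ pbx (3 * R) (3 * Zd R d),
          if nd d a ∈ T then tm χ R (Zd R d) (r d) a else 0 := by
      have h2 : ∀ c : (ZMod p)ˣ, (u c : ℂ) * χ (c : ZMod p) =
          ∑ d ∈ D, ∑ a ∈ pbx (3 * R) (3 * Zd R d),
            if nd d a ∈ T ∧ val d a = c then (cvw R d a : ℂ) * χ (c : ZMod p) else 0 := by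
        intro c
        rw [hu]
        push_cast
        rw [sum_mul]
        refine sum_congr rfl fun d _ => ?_
        rw [sum_mul]
        refine sum_congr rfl fun a _ => ?_
        split_ifs
        · rfl
        · rw [Complex.ofReal_zero, zero_mul]
      rw [sum_congr rfl fun c _ => h2 c, sum_comm]
      refine sum_congr rfl fun d _ => ?_
      rw [sum_comm]
      refine sum_congr rfl fun a _ => ?_
      by_cases hm : nd d a ∈ T
      · rw [if_pos hm]
        by_cases hv : val d a = 0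
        · have h3 : tm χ R (Zd R d) (r d) a = 0 := by
            have h4 : (a.1 : ZMod p) + 2 * (a.2 : ZMod p) * r d = 0 := hv
            unfold tm
            rw [h4, MulChar.map_zero, mul_zero]
          rw [h3]
          refine sum_eq_zero fun c _ => ?_
          rw [if_neg]
          rintro ⟨-, h5⟩
          exact c.ne_zero (h5.symm.trans hv)
        · rw [sum_eq_single (Units.mk0 (val d a) hv)]
          · rw [if_pos ⟨hm, by rw [Units.val_mk0]⟩, Units.val_mk0]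
            rfl
          · intro c _ hc
            rw [if_neg]
            rintro ⟨-, h5⟩
            refine hc (Units.ext ?_)
            rw [Units.val_mk0, h5]
          · intro h6
            exact absurd (mem_univ _) h6
      · rw [if_neg hm]
        exact sum_eq_zero fun c _ => if_neg fun k => hm k.1
    rw [h1]
    refine Real.le_sqrt_of_sq_le ?_
    refine mainM hPar hF hlogP χ hχ T fun m hm => ?_
    rw [hT, mem_filter, mem_Icc] at hm
    exact hm.1
  -- numbers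
  have hR0' : (0 : ℝ) < R := by exact_mod_cast hR0
  have hP0 : (0 : ℝ) < P := by exact_mod_cast hF.hP
  have hDc : (0 : ℝ) < D.card := by
    have h1 : (0 : ℝ) < ρ ^ 4 * D.card := lt_trans (by positivity) hbig
    exact pos_of_mul_pos_right h1 (by positivity)
  have hsZ1 : D.card * R ≤ 25 * P * sZ := by
    rw [hsZ, mul_sum, ← nsmul_eq_mul]
    refine card_nsmul_le_sum _ _ _ fun d hd => ?_
    exact_mod_cast hZ d hd
  have hsZ0 : 0 < sZ := by
    have h1 : (0 : ℝ) < 25 * P * sZ := lt_of_lt_of_le (by positivity) hsZ1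
    exact pos_of_mul_pos_right h1 (by positivity)
  have hK0 : 0 ≤ K := Real.sqrt_nonneg _
  have hKsq : K ^ 2 = 72 * (R : ℝ) ^ 4 * D.card / P := Real.sq_sqrt (by positivity)
  have hKb : 12 * K < ρ ^ 2 * (R * sZ) := by
    have h1 : ρ ^ 2 * (R * (D.card * R / (25 * P))) ≤ ρ ^ 2 * (R * sZ) := by
      refine mul_le_mul_of_nonneg_left (mul_le_mul_of_nonneg_left ?_ hR0'.le) (by positivity)
      rw [div_le_iff₀ (by positivity)]
      linarith
    refine lt_of_lt_of_le ?_ h1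
    refine lt_of_pow_lt_pow_left₀ 2 (by positivity) ?_
    have h2 : (12 * K) ^ 2 = 144 * (72 * (R : ℝ) ^ 4 * D.card / P) := by
      rw [mul_pow, hKsq]; norm_num
    rw [h2]
    have h3 : (ρ ^ 2 * (R * (D.card * R / (25 * P)))) ^ 2 =
        (ρ ^ 4 * D.card) * ((R : ℝ) ^ 4 * D.card / (625 * P ^ 2)) := by
      field_simp
      ring
    rw [h3]
    have h4 : 144 * (72 * (R : ℝ) ^ 4 * D.card / P) =
        (300 ^ 2 * 72 * (P : ℝ)) * ((R : ℝ) ^ 4 * D.card / (625 * P ^ 2)) := by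
      field_simp
      ring
    rw [h4]
    exact mul_lt_mul_of_pos_right hbig (by positivity)
  have hfin : K * (p * (12 * (R * sZ) / p) * ∑ c, u c) < (∑ c, u c) ^ 3 := by
    set S : ℝ := ∑ c, u c with hSdef
    have hS0 : 0 < S := lt_of_lt_of_le (by positivity) hS
    have h1 : (p : ℝ) * (12 * (R * sZ) / p) = 12 * (R * sZ) := by
      field_simp
    rw [h1]
    have h2 : 0 < (R : ℝ) * sZ := by positivity
    have h3 : (ρ * (R * sZ)) ^ 2 ≤ S ^ 2 := pow_le_pow_left₀ (by positivity) hS 2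
    have h4 : K * (12 * (R * sZ)) < (ρ * (R * sZ)) ^ 2 := by
      calc K * (12 * (R * sZ)) = (12 * K) * (R * sZ) := by ring
        _ < (ρ ^ 2 * (R * sZ)) * (R * sZ) := mul_lt_mul_of_pos_right hKb h2
        _ = _ := by ring
    calc K * (12 * (R * sZ) * S) = (K * (12 * (R * sZ))) * S := by ring
      _ < S ^ 2 * S := mul_lt_mul_of_pos_right (h4.trans_le h3) hS0
      _ = S ^ 3 := by ring
  obtain ⟨a, b, c, habc, ha, hb, hc⟩ := GenB.triple_cover p u hu0 _ K hA hK hK0 hfin g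
  have hex : ∀ c : (ZMod p)ˣ, 0 < u c → ∃ x : ℕ × (ℤ × ℤ), (x.1 ∈ D ∧ Sm B (nd x.1 x.2) ∧
      ((R : ℤ) < x.2.1 ∧ x.2.1 < 3 * R) ∧ (0 < x.2.2 ∧ x.2.2 < 3 * Zd R x.1)) ∧
      (x.2.1 : ZMod p) + 2 * (x.2.2 : ZMod p) * r x.1 = c := by
    intro c hc
    by_contra hno
    push Not at hno
    refine hc.ne' ?_
    rw [hu]
    refine sum_eq_zero fun d hd => sum_eq_zero fun a _ => ?_
    split_ifs with h
    · by_contra hw
      obtain ⟨h1, h2⟩ := h
      rw [hT, mem_filter] at h1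
      exact hno (d, a) ⟨hd, h1.2, cvw_supp hR0 (hZ0 d hd) hw⟩ h2
    · rfl
  obtain ⟨x1, h1, e1⟩ := hex a ha
  obtain ⟨x2, h2, e2⟩ := hex b hb
  obtain ⟨x3, h3, e3⟩ := hex c hc
  refine ⟨![x1, x2, x3], ?_, ?_⟩
  · intro i
    fin_cases i
    · exact h1
    · exact h2
    · exact h3
  · rw [Fin.prod_univ_three]
    simp only [Matrix.cons_val_zero, Matrix.cons_val_one, Matrix.cons_val]
    rw [e1, e2, e3, ← habc, Units.val_mul, Units.val_mul]

end Pool.Agent.LHf
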