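import Pool.Agent.LHf.Defs

/-! MODULE COVER: reduction modulo two independent vectors. -/

set_option autoImplicit false

namespace Pool.Agent.LHf

open Finset

private theorem cover_aux (x y : ℤ) (f g : ℚ) (hf0 : 0 ≤ f) (hf1 : f ≤ 1) (hg0 : 0 ≤ g)
    (hg1 : g ≤ 1) (w : ℤ) (h : (w : ℚ) = f * x + g * y) : w.natAbs ≤ x.natAbs + y.natAbs := by
  have h1 : |(w : ℚ)| ≤ |(x : ℚ)| + |(y : ℚ)| := by
    rw [h]
    refine (abs_add_le _ _).trans ?_
    rw [abs_mul, abs_mul, abs_of_nonneg hf0, abs_of_nonneg hg0]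
    have h2 := abs_nonneg (x : ℚ)
    have h3 := abs_nonneg (y : ℚ)
    nlinarith
  have h4 : |w| ≤ |x| + |y| := by exact_mod_cast h1
  rw [Int.abs_eq_natAbs, Int.abs_eq_natAbs, Int.abs_eq_natAbs] at h4
  omega

/-- PROOF. By Cramer's rule `v = α b1 + β b2` with `α = (v1 b2.2 - v2 b2.1) / det`,
`β = (b1.1 v2 - b1.2 v1) / det` real (or rational). Take `m1 = ⌊α⌋`, `m2 = ⌊β⌋`: each coordinate of
`v - m1 b1 - m2 b2` is `fract α * b1.i + fract β * b2.i`, in absolute value at most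
`|b1.i| + |b2.i|`. -/
theorem cover (b1 b2 v : ℤ × ℤ) (h : b1.1 * b2.2 - b1.2 * b2.1 ≠ 0) :
    ∃ m1 m2 : ℤ, sn (v - m1 • b1 - m2 • b2) ≤ sn b1 + sn b2 := by
  obtain ⟨a, b⟩ := b1
  obtain ⟨c, d⟩ := b2
  obtain ⟨x, y⟩ := v
  simp only at h
  have hd : ((a : ℚ) * d - b * c) ≠ 0 := by exact_mod_cast h
  set α : ℚ := (x * d - y * c) / (a * d - b * c) with hα
  set β : ℚ := (a * y - b * x) / (a * d - b * c) with hβ
  have e1 : (x : ℚ) = α * a + β * c := by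
    rw [hα, hβ, div_mul_eq_mul_div, div_mul_eq_mul_div, ← add_div, eq_div_iff hd]; ring
  have e2 : (y : ℚ) = α * b + β * d := by
    rw [hα, hβ, div_mul_eq_mul_div, div_mul_eq_mul_div, ← add_div, eq_div_iff hd]; ring
  refine ⟨⌊α⌋, ⌊β⌋, ?_⟩
  have k1 : (x - ⌊α⌋ * a - ⌊β⌋ * c).natAbs ≤ a.natAbs + c.natAbs := by
    refine cover_aux a c (Int.fract α) (Int.fract β) (Int.fract_nonneg _) (Int.fract_lt_one _).le
      (Int.fract_nonneg _) (Int.fract_lt_one _).le _ ?_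
    push_cast
    unfold Int.fract
    rw [e1]; ring
  have k2 : (y - ⌊α⌋ * b - ⌊β⌋ * d).natAbs ≤ b.natAbs + d.natAbs := by
    refine cover_aux b d (Int.fract α) (Int.fract β) (Int.fract_nonneg _) (Int.fract_lt_one _).le
      (Int.fract_nonneg _) (Int.fract_lt_one _).le _ ?_
    push_cast
    unfold Int.fract
    rw [e2]; ring
  simp only [sn, Prod.smul_mk, Prod.mk_sub_mk, smul_eq_mul]
  omega

end Pool.Agent.LHf
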