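import Mathlib

/-!
# Small generating sets from many quadratic fields: definitions
-/

set_option autoImplicit false

namespace Pool.Agent.LHf

open Finset

/-- the tent function: support `(K, 3K)`, value `1` at `2K` -/
noncomputable def tent (K x : ℝ) : ℝ := max 0 (1 - |x / K - 2|)

/-- sup norm of a pair of integers -/
def sn (v : ℤ × ℤ) : ℕ := max v.1.natAbs v.2.natAbs

/-- the form `d1 z1 ^ 2 - d2 z2 ^ 2` -/
def nf (d1 d2 : ℕ) (v : ℤ × ℤ) : ℤ := d1 * v.1 ^ 2 - d2 * v.2 ^ 2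

/-- the operator `J (z1, z2) = (d2 z2, d1 z1)` -/
def jop (d1 d2 : ℕ) (v : ℤ × ℤ) : ℤ × ℤ := (d2 * v.2, d1 * v.1)

/-- the content -/
def cont (v : ℤ × ℤ) : ℕ := Int.gcd v.1 v.2

/-- the square roots of `d1 d2` modulo `a` -/
def rts (d1 d2 a : ℕ) : Finset ℕ := (range a).filter fun m => (a : ℤ) ∣ (m : ℤ) ^ 2 - d1 * d2

/-- `v` is an eigenvector of `J` modulo `a`, with eigenvalue `m` -/
abbrev inL (d1 d2 a m : ℕ) (v : ℤ × ℤ) : Prop :=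
  (a : ℤ) ∣ d1 * v.1 - m * v.2 ∧ (a : ℤ) ∣ d2 * v.2 - m * v.1

/-- the lattice of these `v` -/
def lam (d1 d2 a m : ℕ) : AddSubgroup (ℤ × ℤ) where
  carrier := {v | inL d1 d2 a m v}
  zero_mem' := by simp [inL]
  add_mem' := by
    rintro v w ⟨h1, h2⟩ ⟨h3, h4⟩
    refine ⟨?_, ?_⟩
    · have h5 : (d1 : ℤ) * (v + w).1 - m * (v + w).2 = (d1 * v.1 - m * v.2) + (d1 * w.1 - m * w.2) := by
        rw [Prod.fst_add, Prod.snd_add]; ring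
      rw [h5]
      exact dvd_add h1 h3
    · have h5 : (d2 : ℤ) * (v + w).2 - m * (v + w).1 = (d2 * v.2 - m * v.1) + (d2 * w.2 - m * w.1) := by
        rw [Prod.fst_add, Prod.snd_add]; ring
      rw [h5]
      exact dvd_add h2 h4
  neg_mem' := by
    rintro v ⟨h1, h2⟩
    refine ⟨?_, ?_⟩
    · have h5 : (d1 : ℤ) * (-v).1 - m * (-v).2 = -(d1 * v.1 - m * v.2) := by
        rw [Prod.fst_neg, Prod.snd_neg]; ring
      rw [h5]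
      exact (dvd_neg).2 h1
    · have h5 : (d2 : ℤ) * (-v).2 - m * (-v).1 = -(d2 * v.2 - m * v.1) := by
        rw [Prod.fst_neg, Prod.snd_neg]; ring
      rw [h5]
      exact (dvd_neg).2 h2

theorem mem_lam {d1 d2 a m : ℕ} {v : ℤ × ℤ} : v ∈ lam d1 d2 a m ↔ inL d1 d2 a m v := Iff.rfl

/-- coordinates divided by `g` -/
def dv (g : ℕ) (v : ℤ × ℤ) : ℤ × ℤ := (v.1 / g, v.2 / g)

/-- `a / gcd(a, g ^ 2)` -/
def apr (a g : ℕ) : ℕ := a / Nat.gcd a (g ^ 2)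

/-- the number of eigenvalues modulo `a / gcd(a, g ^ 2)` of the vector `v / g` -/
def rho (d1 d2 a g : ℕ) (v : ℤ × ℤ) : ℕ :=
  ((rts d1 d2 (apr a g)).filter fun m => inL d1 d2 (apr a g) m (dv g v)).card

/-- the box `[-K, K] ^ 2` -/
noncomputable def bx (K : ℕ) : Finset (ℤ × ℤ) := Icc (-(K : ℤ)) K ×ˢ Icc (-(K : ℤ)) K

theorem mem_bx {K : ℕ} {v : ℤ × ℤ} : v ∈ bx K ↔ sn v ≤ K := by
  unfold bx sn
  rw [mem_product, mem_Icc, mem_Icc]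
  constructor
  · rintro ⟨⟨h1, h2⟩, h3, h4⟩
    exact max_le (by omega) (by omega)
  · intro h
    have h1 := (le_max_left _ _).trans h
    have h2 := (le_max_right _ _).trans h
    refine ⟨⟨by omega, by omega⟩, by omega, by omega⟩

/-- the positive box -/
noncomputable def pbx (X Z : ℕ) : Finset (ℤ × ℤ) := Icc (1 : ℤ) X ×ˢ Icc (1 : ℤ) Z

/-- half of the height of the box for `d` -/
def Zd (R d : ℕ) : ℕ := R / (12 * (Nat.sqrt d + 1))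

/-- the parameters: `t` is a small power of `p`, larger than the number of divisors of every number
up to `p ^ 20`; `R` is between `p ^ 5` and `p ^ 6` -/
structure Par (p t R : ℕ) : Prop where
  ht : 1000 ≤ t
  htp : t ^ 1000 ≤ p
  hR1 : p ^ 5 ≤ R
  hR2 : R ≤ p ^ 6
  hdiv : ∀ n : ℕ, 1 ≤ n → n ≤ p ^ 20 → n.divisors.card ≤ t
  hlog : Real.log ((p : ℝ) ^ 20) ≤ t

/-- the weighted value of the character at `x + 2 z r` -/
noncomputable def tm {p : ℕ} (χ : MulChar (ZMod p) ℂ) (R Z : ℕ) (r : ZMod p) (a : ℤ × ℤ) : ℂ :=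
  ((tent R a.1 * tent Z a.2 : ℝ) : ℂ) * χ ((a.1 : ZMod p) + 2 * (a.2 : ZMod p) * r)

/-- the norm of `x + 2 z sqrt d` -/
def nd (d : ℕ) (a : ℤ × ℤ) : ℤ := a.1 ^ 2 - 4 * d * a.2 ^ 2

/-- the inner product of the functions of `d1` and `d2` -/
noncomputable def Gram {p : ℕ} (χ : MulChar (ZMod p) ℂ) (R d1 d2 : ℕ) (r1 r2 : ZMod p) : ℂ :=
  ∑ a ∈ pbx (3 * R) (3 * Zd R d1), ∑ b ∈ pbx (3 * R) (3 * Zd R d2),
    if nd d1 a = nd d2 b then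
      tm χ R (Zd R d1) r1 a * (starRingEnd ℂ) (tm χ R (Zd R d2) r2 b) else 0

/-- the weight, as a function of `A = (x1 - x2) / 2` and `v = (z1, z2)`; here
`C = (x1 + x2) / 2 = nf v / A` -/
noncomputable def WA (R Z1 Z2 d1 d2 : ℕ) (A : ℤ) (v : ℤ × ℤ) : ℝ :=
  (tent R ((A : ℝ) + (nf d1 d2 v : ℝ) / A) * tent Z1 v.1) *
    (tent R ((nf d1 d2 v : ℝ) / A - A) * tent Z2 v.2)

/-- the product of the two values of the character, as a function of the residues of `z1, z2` -/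
noncomputable def FA {p : ℕ} (χ : MulChar (ZMod p) ℂ) (r1 r2 A : ZMod p) (c : ZMod p × ZMod p) : ℂ :=
  χ (A + (r1 ^ 2 * c.1 ^ 2 - r2 ^ 2 * c.2 ^ 2) * A⁻¹ + 2 * c.1 * r1) *
    (starRingEnd ℂ) (χ ((r1 ^ 2 * c.1 ^ 2 - r2 ^ 2 * c.2 ^ 2) * A⁻¹ - A + 2 * c.2 * r2))

/-- the full summand for `A` and `v` (without the condition `A ∣ nf v`) -/
noncomputable def EA {p : ℕ} (χ : MulChar (ZMod p) ℂ) (R d1 d2 : ℕ) (r1 r2 : ZMod p) (A : ℤ)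
    (v : ℤ × ℤ) : ℂ :=
  (WA R (Zd R d1) (Zd R d2) d1 d2 A v : ℂ) *
    FA χ r1 r2 (A : ZMod p) ((v.1 : ZMod p), (v.2 : ZMod p))

/-- `A` is in the main range -/
structure GoodA (p R : ℕ) (A : ℤ) : Prop where
  lo : (p : ℤ) ^ 3 ≤ |A|
  hi : |A| ≤ 3 * R
  nd : ¬ (p : ℤ) ∣ A

/-- the standing assumptions on `d1, d2` and their square roots -/
structure DD (p t : ℕ) (d1 d2 : ℕ) (r1 r2 : ZMod p) : Prop where
  h1 : 1 ≤ d1
  h2 : 1 ≤ d2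
  ht1 : d1 ≤ t
  ht2 : d2 ≤ t
  hns : ¬ IsSquare (d1 * d2)
  hr1 : r1 ^ 2 = (d1 : ZMod p)
  hr2 : r2 ^ 2 = (d2 : ZMod p)

/-- the true summand: `x1 = A + C`, `x2 = C - A` with the integer `C = nf v / A` -/
noncomputable def TA {p : ℕ} (χ : MulChar (ZMod p) ℂ) (R d1 d2 : ℕ) (r1 r2 : ZMod p) (A : ℤ)
    (v : ℤ × ℤ) : ℂ :=
  if A ∣ nf d1 d2 v then
    (WA R (Zd R d1) (Zd R d2) d1 d2 A v : ℂ) *
      (χ (((A + nf d1 d2 v / A : ℤ) : ZMod p) + 2 * (v.1 : ZMod p) * r1) *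
        (starRingEnd ℂ) (χ (((nf d1 d2 v / A - A : ℤ) : ZMod p) + 2 * (v.2 : ZMod p) * r2)))
  else 0

/-- smooth integers -/
def Sm (B : ℕ) (n : ℤ) : Prop := n ≠ 0 ∧ ∀ l : ℕ, l.Prime → (l : ℤ) ∣ n → l ≤ B

/-- the inner box -/
noncomputable def ibx (R Z : ℕ) : Finset (ℤ × ℤ) :=
  (pbx (3 * R) (3 * Z)).filter fun a =>
    (3 * (R : ℤ) ≤ 2 * a.1 ∧ 2 * a.1 ≤ 5 * R) ∧ (3 * (Z : ℤ) ≤ 2 * a.2 ∧ 2 * a.2 ≤ 5 * Z)

/-- the elements of the inner box whose norm is divisible by all `l ∈ U`, with `x ≡ n_l z` modulo `l` -/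
noncomputable def ubx (R Z : ℕ) (ν : ℕ → ℤ) (U : Finset ℕ) : Finset (ℤ × ℤ) :=
  (ibx R Z).filter fun a => ∀ l ∈ U, (l : ℤ) ∣ a.1 - ν l * a.2

/-- a family of discriminants of size about `P ^ 2` with square roots modulo `p` -/
structure Fam (p t P : ℕ) (D : Finset ℕ) (r : ℕ → ZMod p) : Prop where
  hP : 1 ≤ P
  hPt : P ^ 2 ≤ t
  hlo : ∀ d ∈ D, P ^ 2 ≤ 64 * d
  hhi : ∀ d ∈ D, d ≤ P ^ 2
  hr : ∀ d ∈ D, r d ^ 2 = (d : ZMod p)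
  hns1 : ∀ d ∈ D, ¬ IsSquare d
  hns : ∀ d ∈ D, ∀ d' ∈ D, d ≠ d' → ¬ IsSquare (d * d')
  hdiv : ∀ d ∈ D, d.divisors.card ≤ 4

/-- `g` is a quotient of two products of `k` elements of `S` -/
def Quo {G : Type} [CommGroup G] (S : Set G) (k : ℕ) (g : G) : Prop :=
  ∃ s t : Fin k → G, (∀ i, s i ∈ S) ∧ (∀ i, t i ∈ S) ∧ g = (∏ i, s i) * (∏ i, t i)⁻¹

/-- the small elements for one square root `r` -/
def Sr (p B : ℕ) (r : ZMod p) : Set (ZMod p)ˣ :=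
  {u | ∃ x y : ℤ, x.natAbs ≤ B ∧ y.natAbs ≤ B ∧ (u : ZMod p) = x + y * r}

/-- the primes in `(n / 8, n]` -/
def prw (n : ℕ) : Finset ℕ := (range (n + 1)).filter fun q => q.Prime ∧ n < 8 * q

/-- the set of all nonzero `x + y r`, `|x|, |y| ≤ B`, `r ^ 2 = d`, `1 ≤ d ≤ B` -/
def SB (p B : ℕ) : Set (ZMod p)ˣ :=
  {u | ∃ (d : ℕ) (r : ZMod p) (x y : ℤ), (1 ≤ d ∧ d ≤ B) ∧ r ^ 2 = (d : ZMod p) ∧
    x.natAbs ≤ B ∧ y.natAbs ≤ B ∧ (u : ZMod p) = x + y * r}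

end Pool.Agent.LHf
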