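import Pool.Agent.LHf.Defs

/-! MODULE DIAG1: sums of the divisor function. -/

set_option autoImplicit false

namespace Pool.Agent.LHf

open Finset

/-- `∑ n ≤ N, d(n) ≤ N (1 + log N)`. PROOF. `∑ n ≤ N, d(n) = ∑ k ≤ N, ⌊N / k⌋ ≤
N ∑ k ≤ N, 1 / k ≤ N (1 + log N)` (`harmonic_le_one_add_log`). -/
theorem sum_div (N : ℕ) :
    ((∑ n ∈ Icc 1 N, n.divisors.card : ℕ) : ℝ) ≤ N * (1 + Real.log N) := by
  have h1 : ∑ n ∈ Icc 1 N, n.divisors.card = ∑ k ∈ Icc 1 N, N / k := by
    have e : ∀ n ∈ Icc 1 N, n.divisors.card = ∑ k ∈ Icc 1 N, if k ∣ n then 1 else 0 := by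
      intro n hn
      rw [mem_Icc] at hn
      rw [Finset.sum_ite, Finset.sum_const_zero, add_zero, Finset.sum_const, smul_eq_mul, mul_one]
      congr 1
      ext k
      rw [Nat.mem_divisors, mem_filter, mem_Icc]
      constructor
      · rintro ⟨hk, hn0⟩
        exact ⟨⟨Nat.pos_of_dvd_of_pos hk (by omega), (Nat.le_of_dvd (by omega) hk).trans hn.2⟩, hk⟩
      · rintro ⟨_, hk⟩
        exact ⟨hk, by omega⟩
    rw [Finset.sum_congr rfl e, Finset.sum_comm]
    refine Finset.sum_congr rfl (fun k hk => ?_)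
    rw [mem_Icc] at hk
    rw [Finset.sum_ite, Finset.sum_const_zero, add_zero, Finset.sum_const, smul_eq_mul, mul_one]
    have := Nat.card_multiples N k
    rw [← this]
    apply Finset.card_bij (fun n _ => n - 1)
    · intro n hn
      rw [mem_filter, mem_Icc] at hn
      rw [mem_filter, mem_range]
      refine ⟨by omega, ?_⟩
      rw [Nat.sub_add_cancel hn.1.1]
      exact hn.2
    · intro a ha b hb hab
      rw [mem_filter, mem_Icc] at ha hb
      omega
    · intro b hb
      rw [mem_filter, mem_range] at hb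
      exact ⟨b + 1, by rw [mem_filter, mem_Icc]; exact ⟨by omega, hb.2⟩, by simp⟩
  rw [h1]
  push_cast
  have h2 : ∑ k ∈ Icc 1 N, ((N / k : ℕ) : ℝ) ≤ ∑ k ∈ Icc 1 N, (N : ℝ) * ((k : ℝ))⁻¹ := by
    refine Finset.sum_le_sum (fun k _ => ?_)
    rw [← div_eq_mul_inv]
    exact Nat.cast_div_le
  refine h2.trans ?_
  rw [← Finset.mul_sum]
  apply mul_le_mul_of_nonneg_left _ (Nat.cast_nonneg N)
  have h3 := harmonic_le_one_add_log N
  rw [harmonic_eq_sum_Icc] at h3
  push_cast at h3
  exact h3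

/-- PROOF. `Nat.divisors_mul`: the divisors of `m n` are the products of divisors. -/
theorem card_divisors_mul_le (m n : ℕ) : (m * n).divisors.card ≤ m.divisors.card * n.divisors.card := by
  rw [Nat.divisors_mul]
  exact Finset.card_mul_le

end Pool.Agent.LHf
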