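import Pool.Agent.LHf.Defs

/-! MODULE LAT: elementary facts on the lattices. -/

set_option autoImplicit false

namespace Pool.Agent.LHf

open Finset

private theorem lat_fst (k : ℤ) (v : ℤ × ℤ) : (k • v).1 = k * v.1 := rfl

private theorem lat_snd (k : ℤ) (v : ℤ × ℤ) : (k • v).2 = k * v.2 := rfl

theorem dvd_nf_of_inL {d1 d2 a m : ℕ} {v : ℤ × ℤ} (h : inL d1 d2 a m v) :
    (a : ℤ) ∣ nf d1 d2 v := by
  have e : nf d1 d2 v = v.1 * (d1 * v.1 - m * v.2) - v.2 * (d2 * v.2 - m * v.1) := by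
    unfold nf
    ring
  rw [e]
  exact dvd_sub (h.1.mul_left _) (h.2.mul_left _)

theorem inL_jop {d1 d2 a m : ℕ} {v : ℤ × ℤ} (h : inL d1 d2 a m v) :
    inL d1 d2 a m (jop d1 d2 v) := by
  refine ⟨?_, ?_⟩
  · have e : (d1 : ℤ) * (jop d1 d2 v).1 - m * (jop d1 d2 v).2 = d1 * (d2 * v.2 - m * v.1) := by
      unfold jop
      ring
    rw [e]
    exact h.2.mul_left _
  · have e : (d2 : ℤ) * (jop d1 d2 v).2 - m * (jop d1 d2 v).1 = d2 * (d1 * v.1 - m * v.2) := by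
      unfold jop
      ring
    rw [e]
    exact h.1.mul_left _

theorem inL_smul {d1 d2 a m : ℕ} {v : ℤ × ℤ} (k : ℤ) (h : inL d1 d2 a m v) :
    inL d1 d2 a m (k • v) := by
  refine ⟨?_, ?_⟩
  · have e : (d1 : ℤ) * (k • v).1 - m * (k • v).2 = k * (d1 * v.1 - m * v.2) := by
      rw [lat_fst, lat_snd]
      ring
    rw [e]
    exact h.1.mul_left _
  · have e : (d2 : ℤ) * (k • v).2 - m * (k • v).1 = k * (d2 * v.2 - m * v.1) := by
      rw [lat_fst, lat_snd]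
      ring
    rw [e]
    exact h.2.mul_left _

theorem inL_self_smul {d1 d2 a m : ℕ} (v : ℤ × ℤ) : inL d1 d2 a m ((a : ℤ) • v) := by
  refine ⟨⟨d1 * v.1 - m * v.2, ?_⟩, ⟨d2 * v.2 - m * v.1, ?_⟩⟩
  · rw [lat_fst, lat_snd]
    ring
  · rw [lat_fst, lat_snd]
    ring

theorem nf_smul (d1 d2 : ℕ) (k : ℤ) (v : ℤ × ℤ) : nf d1 d2 (k • v) = k ^ 2 * nf d1 d2 v := by
  unfold nf
  rw [lat_fst, lat_snd]
  ring

theorem jop_smul (d1 d2 : ℕ) (k : ℤ) (v : ℤ × ℤ) : jop d1 d2 (k • v) = k • jop d1 d2 v := by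
  refine Prod.ext ?_ ?_
  · rw [lat_fst]
    show (d2 : ℤ) * (k • v).2 = k * (d2 * v.2)
    rw [lat_snd]
    ring
  · rw [lat_snd]
    show (d1 : ℤ) * (k • v).1 = k * (d1 * v.1)
    rw [lat_fst]
    ring

/-- `v` and `J v` are independent -/
theorem det_jop (d1 d2 : ℕ) (v : ℤ × ℤ) :
    v.1 * (jop d1 d2 v).2 - v.2 * (jop d1 d2 v).1 = nf d1 d2 v := by
  unfold jop nf
  ring

/-- PROOF. If `nf v = 0` then `(d1 v1) ^ 2 = d1 d2 v2 ^ 2`. If `v2 = 0` then `v1 = 0`. If `v2 ≠ 0`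
then `v2 ^ 2` divides `(d1 v1) ^ 2`, so `v2 ∣ d1 v1` (`Int.pow_dvd_pow_iff`) and `d1 d2` is a
square. -/
theorem nf_ne_zero {d1 d2 : ℕ} (h1 : 1 ≤ d1) (h : ¬ IsSquare (d1 * d2)) {v : ℤ × ℤ} (hv : v ≠ 0) :
    nf d1 d2 v ≠ 0 := by
  intro h0
  have h2 : (d1 : ℤ) * v.1 ^ 2 = d2 * v.2 ^ 2 := by
    unfold nf at h0
    linarith
  have hd1 : (d1 : ℤ) ≠ 0 := by
    intro h3
    omega
  by_cases hz : v.2 = 0
  · apply hv
    rw [hz] at h2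
    have h3 : (d1 : ℤ) * v.1 ^ 2 = 0 := by
      rw [h2]
      ring
    rcases mul_eq_zero.1 h3 with h4 | h4
    · exact absurd h4 hd1
    · exact Prod.ext (by simpa using h4) hz
  · have h3 : ((d1 : ℤ) * v.1) ^ 2 = v.2 ^ 2 * (d1 * d2) := by
      have : ((d1 : ℤ) * v.1) ^ 2 = d1 * (d1 * v.1 ^ 2) := by ring
      rw [this, h2]
      ring
    have h4 : v.2 ^ 2 ∣ ((d1 : ℤ) * v.1) ^ 2 := ⟨_, h3⟩
    rw [Int.pow_dvd_pow_iff two_ne_zero] at h4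
    obtain ⟨c, hc⟩ := h4
    have h5 : c ^ 2 = (d1 : ℤ) * d2 := by
      have h6 : v.2 ^ 2 * c ^ 2 = v.2 ^ 2 * (d1 * d2) := by
        rw [← h3, hc]
        ring
      exact mul_left_cancel₀ (pow_ne_zero 2 hz) h6
    apply h
    refine ⟨c.natAbs, ?_⟩
    have h7 : ((c.natAbs * c.natAbs : ℕ) : ℤ) = ((d1 * d2 : ℕ) : ℤ) := by
      rw [Int.natAbs_mul_self, Nat.cast_mul, ← h5]
      ring
    exact (Int.natCast_inj.1 h7).symm

private theorem lat_sq (v : ℤ × ℤ) : v.1 ^ 2 ≤ (sn v : ℤ) ^ 2 ∧ v.2 ^ 2 ≤ (sn v : ℤ) ^ 2 := by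
  have h1 : v.1.natAbs ≤ sn v := le_max_left _ _
  have h2 : v.2.natAbs ≤ sn v := le_max_right _ _
  constructor
  · exact sq_le_sq' (by omega) (by omega)
  · exact sq_le_sq' (by omega) (by omega)

/-- both terms of `nf` are nonnegative with opposite signs -/
theorem nf_le {d1 d2 Y : ℕ} (h1 : d1 ≤ Y) (h2 : d2 ≤ Y) (v : ℤ × ℤ) :
    (nf d1 d2 v).natAbs ≤ Y * sn v ^ 2 := by
  obtain ⟨h3, h4⟩ := lat_sq v
  have h5 : (d1 : ℤ) * v.1 ^ 2 ≤ Y * (sn v : ℤ) ^ 2 :=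
    mul_le_mul (by exact_mod_cast h1) h3 (sq_nonneg _) (by positivity)
  have h6 : (d2 : ℤ) * v.2 ^ 2 ≤ Y * (sn v : ℤ) ^ 2 :=
    mul_le_mul (by exact_mod_cast h2) h4 (sq_nonneg _) (by positivity)
  have h7 : 0 ≤ (d1 : ℤ) * v.1 ^ 2 := by positivity
  have h8 : 0 ≤ (d2 : ℤ) * v.2 ^ 2 := by positivity
  have h9 : |nf d1 d2 v| ≤ ((Y * sn v ^ 2 : ℕ) : ℤ) := by
    push_cast
    unfold nf
    rw [abs_le]
    constructor <;> linarith
  rw [Int.abs_eq_natAbs] at h9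
  exact_mod_cast h9

theorem sn_jop_le {d1 d2 Y : ℕ} (h1 : d1 ≤ Y) (h2 : d2 ≤ Y) (v : ℤ × ℤ) :
    sn (jop d1 d2 v) ≤ Y * sn v := by
  have h3 : v.1.natAbs ≤ sn v := le_max_left _ _
  have h4 : v.2.natAbs ≤ sn v := le_max_right _ _
  refine max_le ?_ ?_
  · show ((d2 : ℤ) * v.2).natAbs ≤ Y * sn v
    rw [Int.natAbs_mul, Int.natAbs_natCast]
    exact Nat.mul_le_mul h2 h4
  · show ((d1 : ℤ) * v.1).natAbs ≤ Y * sn v
    rw [Int.natAbs_mul, Int.natAbs_natCast]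
    exact Nat.mul_le_mul h1 h3

theorem sn_smul (k : ℤ) (v : ℤ × ℤ) : sn (k • v) = k.natAbs * sn v := by
  unfold sn
  rw [lat_fst, lat_snd, Int.natAbs_mul, Int.natAbs_mul, Nat.mul_max_mul_left]

theorem sn_add_le (v w : ℤ × ℤ) : sn (v + w) ≤ sn v + sn w := by
  have h1 : v.1.natAbs ≤ sn v := le_max_left _ _
  have h2 : v.2.natAbs ≤ sn v := le_max_right _ _
  have h3 : w.1.natAbs ≤ sn w := le_max_left _ _
  have h4 : w.2.natAbs ≤ sn w := le_max_right _ _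
  refine max_le ?_ ?_
  · show (v.1 + w.1).natAbs ≤ _
    omega
  · show (v.2 + w.2).natAbs ≤ _
    omega

theorem sn_eq_zero {v : ℤ × ℤ} : sn v = 0 ↔ v = 0 := by
  have h1 : v.1.natAbs ≤ sn v := le_max_left _ _
  have h2 : v.2.natAbs ≤ sn v := le_max_right _ _
  constructor
  · intro h
    refine Prod.ext ?_ ?_
    · show v.1 = 0
      omega
    · show v.2 = 0
      omega
  · rintro rfl
    rfl

/-- PROOF. Let `D = Nat.sqrt a`, so `(D + 1) ^ 2 > a` (`Nat.lt_succ_sqrt`). The `(D + 1) ^ 2` pairs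
`w` with coordinates in `[0, D]` have at most `a` values of `d1 w1 - m w2` modulo `a` (in `ZMod a`;
`Finset.exists_ne_map_eq_of_card_lt_of_maps_to`), so two of them have the same value; their
difference `w` is not zero, `sn w ≤ D` and `a ∣ d1 w1 - m w2`. Put `b = d1 w`. Then
`d1 (d1 w1) - m (d1 w2) = d1 (d1 w1 - m w2)` and
`d2 (d1 w2) - m (d1 w1) = (d1 d2 - m ^ 2) w2 - m (d1 w1 - m w2)`, both divisible by `a`. -/
theorem short_vec {d1 d2 a m : ℕ} (h1 : 1 ≤ d1) (ha : 1 ≤ a) (hm : m ∈ rts d1 d2 a) :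
    ∃ b : ℤ × ℤ, inL d1 d2 a m b ∧ b ≠ 0 ∧ sn b ≤ d1 * Nat.sqrt a := by
  have : NeZero a := ⟨by omega⟩
  obtain ⟨D, hD⟩ : ∃ D, D = Nat.sqrt a := ⟨_, rfl⟩
  have hm2 : (a : ℤ) ∣ (m : ℤ) ^ 2 - d1 * d2 := (mem_filter.1 hm).2
  have hcard : (univ : Finset (ZMod a)).card < (range (D + 1) ×ˢ range (D + 1)).card := by
    rw [card_univ, ZMod.card, card_product, card_range, hD]
    exact Nat.lt_succ_sqrt a
  obtain ⟨w, hw, w', hw', hne, heq⟩ := exists_ne_map_eq_of_card_lt_of_maps_to hcard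
    (f := fun w : ℕ × ℕ => (((d1 : ℤ) * w.1 - m * w.2 : ℤ) : ZMod a)) (fun w _ => mem_univ _)
  rw [mem_product, mem_range, mem_range] at hw hw'
  obtain ⟨u, hu⟩ : ∃ u : ℤ × ℤ, u = ((w.1 : ℤ) - w'.1, (w.2 : ℤ) - w'.2) := ⟨_, rfl⟩
  have hu1 : u.1 = (w.1 : ℤ) - w'.1 := by rw [hu]
  have hu2 : u.2 = (w.2 : ℤ) - w'.2 := by rw [hu]
  have hdv : (a : ℤ) ∣ d1 * u.1 - m * u.2 := by
    have h2 : (((d1 : ℤ) * w'.1 - m * w'.2 : ℤ) : ZMod a) =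
      (((d1 : ℤ) * w.1 - m * w.2 : ℤ) : ZMod a) := heq.symm
    rw [ZMod.intCast_eq_intCast_iff_dvd_sub] at h2
    have e : (d1 : ℤ) * u.1 - m * u.2 =
        ((d1 : ℤ) * w.1 - m * w.2) - (d1 * w'.1 - m * w'.2) := by
      rw [hu1, hu2]
      ring
    rw [e]
    exact h2
  have hu0 : u ≠ 0 := by
    intro h0
    apply hne
    rw [h0] at hu1 hu2
    have h3 : (0 : ℤ) = (w.1 : ℤ) - w'.1 := hu1
    have h4 : (0 : ℤ) = (w.2 : ℤ) - w'.2 := hu2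
    exact Prod.ext (by omega) (by omega)
  have hsn : sn u ≤ D := max_le (by omega) (by omega)
  refine ⟨(d1 : ℤ) • u, ⟨?_, ?_⟩, ?_, ?_⟩
  · have e : (d1 : ℤ) * ((d1 : ℤ) • u).1 - m * ((d1 : ℤ) • u).2 = d1 * (d1 * u.1 - m * u.2) := by
      rw [lat_fst, lat_snd]
      ring
    rw [e]
    exact hdv.mul_left _
  · have e : (d2 : ℤ) * ((d1 : ℤ) • u).2 - m * ((d1 : ℤ) • u).1 =
        -(u.2 * ((m : ℤ) ^ 2 - d1 * d2)) - m * (d1 * u.1 - m * u.2) := by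
      rw [lat_fst, lat_snd]
      ring
    rw [e]
    exact dvd_sub ((dvd_neg).2 (hm2.mul_left _)) (hdv.mul_left _)
  · rw [Ne, ← sn_eq_zero, sn_smul, Int.natAbs_natCast]
    intro h0
    rcases Nat.mul_eq_zero.1 h0 with h2 | h2
    · omega
    · exact hu0 (sn_eq_zero.1 h2)
  · rw [sn_smul, Int.natAbs_natCast, ← hD]
    exact Nat.mul_le_mul_left _ hsn

end Pool.Agent.LHf
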