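import Pool.Agent.LHf.Diag1
import Pool.Agent.LHf.Lat
import Pool.Agent.LHf.Tent
import Pool.Agent.LHf.Zdb

/-! MODULE DIAG2: the diagonal terms. -/

set_option autoImplicit false

namespace Pool.Agent.LHf

open Finset

private theorem diag_tm {p : ℕ} (χ : MulChar (ZMod p) ℂ) (R Z : ℕ) (r : ZMod p) (a : ℤ × ℤ) :
    ‖tm χ R Z r a‖ ≤ 1 := by
  unfold tm
  rw [norm_mul, Complex.norm_real, Real.norm_eq_abs, abs_of_nonneg
    (mul_nonneg (tent_nonneg _ _) (tent_nonneg _ _))]
  have h1 : tent R a.1 * tent Z a.2 ≤ 1 :=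
    mul_le_one₀ (tent_le_one _ _) (tent_nonneg _ _) (tent_le_one _ _)
  have h2 : ‖χ ((a.1 : ZMod p) + 2 * (a.2 : ZMod p) * r)‖ ≤ 1 :=
    DirichletCharacter.norm_le_one χ _
  exact mul_le_one₀ h1 (norm_nonneg _) h2

/-- the arithmetic of one pair -/
private theorem diag_arith {d : ℕ} {x z x' z' : ℤ} (hx : 1 ≤ x) (hx' : 1 ≤ x')
    (h : x ^ 2 - 4 * d * z ^ 2 = x' ^ 2 - 4 * d * z' ^ 2) :
    ∃ A C : ℤ, x = A + C ∧ x' = C - A ∧ 0 < C ∧ A * C = d * (z - z') * (z + z') := by
  have h1 : (2 : ℤ) ∣ x - x' := by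
    have h2 : (2 : ℤ) ∣ (x - x') * (x + x') := ⟨2 * (d * z ^ 2 - d * z' ^ 2), by linear_combination h⟩
    rcases Int.prime_two.dvd_or_dvd h2 with h3 | h3
    · exact h3
    · have : x - x' = (x + x') - 2 * x' := by ring
      rw [this]
      exact dvd_sub h3 ⟨x', rfl⟩
  obtain ⟨A, hA⟩ := h1
  refine ⟨A, x - A, by ring, by linarith, by omega, ?_⟩
  have hx2 : x = x' + 2 * A := by linarith
  subst hx2
  have h4 : 4 * (A * (x' + 2 * A - A)) = 4 * (d * (z - z') * (z + z')) := by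
    linear_combination h
  linarith

/-- the number of pairs with `z ≠ z'` -/
private theorem diag_off {d N Z : ℕ} (hd : 1 ≤ d) :
    (((pbx N (3 * Z)) ×ˢ (pbx N (3 * Z))).filter fun ab : (ℤ × ℤ) × (ℤ × ℤ) =>
      nd d ab.1 = nd d ab.2 ∧ ab.1.2 ≠ ab.2.2).card ≤
        2 * (d.divisors.card * ((∑ u ∈ Icc 1 (3 * Z), u.divisors.card) *
          ∑ v ∈ Icc 1 (6 * Z), v.divisors.card)) := by
  classical
  have key : (((pbx N (3 * Z)) ×ˢ (pbx N (3 * Z))).filter fun ab : (ℤ × ℤ) × (ℤ × ℤ) =>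
      nd d ab.1 = nd d ab.2 ∧ ab.1.2 ≠ ab.2.2).card ≤
      ((univ : Finset Bool) ×ˢ ((Icc 1 (3 * Z) ×ˢ Icc 1 (6 * Z)).sigma
        fun uv : ℕ × ℕ => (d * uv.1 * uv.2).divisors)).card := by
    refine card_le_card_of_injOn (fun ab : (ℤ × ℤ) × (ℤ × ℤ) =>
      (decide (ab.2.2 < ab.1.2),
        (⟨((ab.1.2 - ab.2.2).natAbs, (ab.1.2 + ab.2.2).natAbs), ((ab.1.1 - ab.2.1) / 2).natAbs⟩ :
          Σ _ : ℕ × ℕ, ℕ))) ?_ ?_
    · rintro ⟨⟨x, z⟩, x', z'⟩ hab
      have h1 := mem_filter.1 (mem_coe.1 hab)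
      obtain ⟨h2, h3⟩ := mem_product.1 h1.1
      obtain ⟨h4, h5⟩ := mem_product.1 h2
      obtain ⟨h6, h7⟩ := mem_product.1 h3
      have hx := mem_Icc.1 h4
      have hz := mem_Icc.1 h5
      have hx' := mem_Icc.1 h6
      have hz' := mem_Icc.1 h7
      simp only at hx hz hx' hz'
      obtain ⟨A, C, e1, e2, hC, e3⟩ := diag_arith (d := d) (x := x) (x' := x') (z := z) (z' := z')
        hx.1 hx'.1 h1.2.1
      have hne : z ≠ z' := h1.2.2
      have hA : (x - x') / 2 = A := by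
        have : x - x' = A * 2 := by rw [e1, e2]; ring
        rw [this]
        exact Int.mul_ediv_cancel A two_ne_zero
      refine mem_coe.2 (mem_product.2 ⟨mem_univ _, mem_sigma.2 ⟨mem_product.2 ⟨?_, ?_⟩, ?_⟩⟩)
      · show (z - z').natAbs ∈ Icc 1 (3 * Z)
        rw [mem_Icc]
        push_cast at hz hz'
        omega
      · show (z + z').natAbs ∈ Icc 1 (6 * Z)
        rw [mem_Icc]
        push_cast at hz hz'
        omega
      · show ((x - x') / 2).natAbs ∈ (d * (z - z').natAbs * (z + z').natAbs).divisors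
        rw [hA, Nat.mem_divisors]
        constructor
        · refine ⟨C.natAbs, ?_⟩
          have h8 := congrArg Int.natAbs e3
          rw [Int.natAbs_mul, Int.natAbs_mul, Int.natAbs_mul, Int.natAbs_natCast] at h8
          exact h8.symm
        · refine Nat.mul_ne_zero (Nat.mul_ne_zero (by omega) ?_) ?_
          · rw [Int.natAbs_ne_zero]
            exact sub_ne_zero.2 hne
          · rw [Int.natAbs_ne_zero]
            omega
    · rintro ⟨⟨x, z⟩, x', z'⟩ hab ⟨⟨y, w⟩, y', w'⟩ hcd he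
      have h1 := mem_filter.1 (mem_coe.1 hab)
      obtain ⟨h2, h3⟩ := mem_product.1 h1.1
      obtain ⟨h4, h5⟩ := mem_product.1 h2
      obtain ⟨h6, h7⟩ := mem_product.1 h3
      have hx := mem_Icc.1 h4
      have hz := mem_Icc.1 h5
      have hx' := mem_Icc.1 h6
      have hz' := mem_Icc.1 h7
      have k1 := mem_filter.1 (mem_coe.1 hcd)
      obtain ⟨k2, k3⟩ := mem_product.1 k1.1
      obtain ⟨k4, k5⟩ := mem_product.1 k2
      obtain ⟨k6, k7⟩ := mem_product.1 k3
      have hy := mem_Icc.1 k4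
      have hw := mem_Icc.1 k5
      have hy' := mem_Icc.1 k6
      have hw' := mem_Icc.1 k7
      simp only at hx hz hx' hz' hy hw hy' hw'
      obtain ⟨A, C, e1, e2, hC, e3⟩ := diag_arith (d := d) (x := x) (x' := x') (z := z) (z' := z')
        hx.1 hx'.1 h1.2.1
      obtain ⟨A', C', f1, f2, hC', f3⟩ := diag_arith (d := d) (x := y) (x' := y') (z := w)
        (z' := w') hy.1 hy'.1 k1.2.1
      have hne : z ≠ z' := h1.2.2
      have hne' : w ≠ w' := k1.2.2
      have hA : (x - x') / 2 = A := by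
        have : x - x' = A * 2 := by rw [e1, e2]; ring
        rw [this]
        exact Int.mul_ediv_cancel A two_ne_zero
      have hA' : (y - y') / 2 = A' := by
        have : y - y' = A' * 2 := by rw [f1, f2]; ring
        rw [this]
        exact Int.mul_ediv_cancel A' two_ne_zero
      have he1 : decide (z' < z) = decide (w' < w) := (Prod.ext_iff.1 he).1
      have he2 := (Prod.ext_iff.1 he).2
      have he3 : ((z - z').natAbs, (z + z').natAbs) = ((w - w').natAbs, (w + w').natAbs) :=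
        congrArg Sigma.fst he2
      have he4 : ((x - x') / 2).natAbs = ((y - y') / 2).natAbs := by
        have := congrArg (fun q : Σ _ : ℕ × ℕ, ℕ => q.2) he2
        exact this
      rw [hA, hA'] at he4
      have he5 := (Prod.ext_iff.1 he3).1
      have he6 := (Prod.ext_iff.1 he3).2
      simp only at he5 he6
      have he7 : (z' < z) ↔ (w' < w) := by
        rw [← decide_eq_decide]
        exact he1
      have hzw : z = w ∧ z' = w' := by
        by_cases hlt : z' < z
        · have := he7.1 hlt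
          omega
        · have h9 : ¬ w' < w := fun h => hlt (he7.2 h)
          omega
      obtain ⟨rfl, rfl⟩ := hzw
      have hd' : (0 : ℤ) < d := by exact_mod_cast hd
      have hAA : A = A' := by
        by_cases hlt : z' < z
        · have p1 : 0 < A * C := by
            rw [e3]
            exact mul_pos (mul_pos hd' (by omega)) (by omega)
          have p2 : 0 < A' * C' := by
            rw [f3]
            exact mul_pos (mul_pos hd' (by omega)) (by omega)
          have p3 : 0 < A := pos_of_mul_pos_left p1 hC.le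
          have p4 : 0 < A' := pos_of_mul_pos_left p2 hC'.le
          omega
        · have p1 : A * C < 0 := by
            rw [e3]
            exact mul_neg_of_neg_of_pos (mul_neg_of_pos_of_neg hd' (by omega)) (by omega)
          have p2 : A' * C' < 0 := by
            rw [f3]
            exact mul_neg_of_neg_of_pos (mul_neg_of_pos_of_neg hd' (by omega)) (by omega)
          have p3 : A < 0 := by
            by_contra hcon
            push Not at hcon
            exact absurd (mul_nonneg hcon hC.le) (by omega)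
          have p4 : A' < 0 := by
            by_contra hcon
            push Not at hcon
            exact absurd (mul_nonneg hcon hC'.le) (by omega)
          omega
      subst hAA
      have hA0 : A ≠ 0 := by
        rintro rfl
        rw [zero_mul] at e3
        have := mul_ne_zero (mul_ne_zero hd'.ne' (sub_ne_zero.2 hne)) (by omega : z + z' ≠ 0)
        exact this e3.symm
      have hCC : C = C' := mul_left_cancel₀ hA0 (e3.trans f3.symm)
      subst hCC
      rw [e1, e2, f1, f2]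
  refine key.trans ?_
  rw [card_product, card_sigma, card_univ, Fintype.card_bool]
  refine Nat.mul_le_mul_left 2 ?_
  rw [sum_product, sum_mul_sum, mul_sum]
  refine sum_le_sum fun u hu => ?_
  rw [mul_sum]
  refine sum_le_sum fun v hv => ?_
  have h1 := card_divisors_mul_le (d * u) v
  have h2 := card_divisors_mul_le d u
  calc (d * u * v).divisors.card ≤ (d * u).divisors.card * v.divisors.card := h1
    _ ≤ (d.divisors.card * u.divisors.card) * v.divisors.card := Nat.mul_le_mul_right _ h2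
    _ = d.divisors.card * (u.divisors.card * v.divisors.card) := mul_assoc _ _ _

theorem diag {p R d : ℕ} [Fact p.Prime] (hd : 1 ≤ d) (hZ : 1 ≤ Zd R d) (χ : MulChar (ZMod p) ℂ)
    (r : ZMod p) :
    ‖Gram χ R d d r r‖ ≤ 9 * R * Zd R d +
      48 * d.divisors.card * (Zd R d : ℝ) ^ 2 * (1 + Real.log (6 * Zd R d)) ^ 2 := by
  classical
  set Z := Zd R d with hZdef
  set Bx := pbx (3 * R) (3 * Z) with hBx
  -- the norm is at most the number of pairs
  have h1 : ‖Gram χ R d d r r‖ ≤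
      ((((Bx ×ˢ Bx).filter fun ab : (ℤ × ℤ) × (ℤ × ℤ) => nd d ab.1 = nd d ab.2).card : ℕ) : ℝ) := by
    have h2 : Gram χ R d d r r = ∑ ab ∈ (Bx ×ˢ Bx).filter
        (fun ab : (ℤ × ℤ) × (ℤ × ℤ) => nd d ab.1 = nd d ab.2),
          tm χ R Z r ab.1 * (starRingEnd ℂ) (tm χ R Z r ab.2) := by
      rw [sum_filter, sum_product]
      rfl
    rw [h2]
    refine (norm_sum_le _ _).trans ?_
    rw [card_eq_sum_ones, Nat.cast_sum]
    refine sum_le_sum fun ab _ => ?_
    rw [norm_mul, RCLike.norm_conj, Nat.cast_one]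
    exact mul_le_one₀ (diag_tm χ R Z r ab.1) (norm_nonneg _) (diag_tm χ R Z r ab.2)
  -- the pairs with `z = z'`
  have h3 : ((Bx ×ˢ Bx).filter fun ab : (ℤ × ℤ) × (ℤ × ℤ) => nd d ab.1 = nd d ab.2).card ≤
      ((Bx ×ˢ Bx).filter fun ab : (ℤ × ℤ) × (ℤ × ℤ) => nd d ab.1 = nd d ab.2 ∧
        ab.1.2 = ab.2.2).card +
      ((Bx ×ˢ Bx).filter fun ab : (ℤ × ℤ) × (ℤ × ℤ) => nd d ab.1 = nd d ab.2 ∧
        ab.1.2 ≠ ab.2.2).card := by
    refine le_trans (card_le_card ?_) (card_union_le _ _)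
    intro ab hab
    obtain ⟨g1, g2⟩ := mem_filter.1 hab
    by_cases h : ab.1.2 = ab.2.2
    · exact mem_union_left _ (mem_filter.2 ⟨g1, g2, h⟩)
    · exact mem_union_right _ (mem_filter.2 ⟨g1, g2, h⟩)
  have hcard : Bx.card = 9 * R * Z := by
    rw [hBx]
    unfold pbx
    rw [card_product, Int.card_Icc, Int.card_Icc]
    have e1 : (((3 * R : ℕ) : ℤ) + 1 - 1).toNat = 3 * R := by omega
    have e2 : (((3 * Z : ℕ) : ℤ) + 1 - 1).toNat = 3 * Z := by omega
    rw [e1, e2]
    ring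
  have h4 : ((Bx ×ˢ Bx).filter fun ab : (ℤ × ℤ) × (ℤ × ℤ) => nd d ab.1 = nd d ab.2 ∧
        ab.1.2 = ab.2.2).card ≤ 9 * R * Z := by
    rw [← hcard]
    refine card_le_card_of_injOn (fun ab : (ℤ × ℤ) × (ℤ × ℤ) => ab.1) ?_ ?_
    · intro ab hab
      exact mem_coe.2 (mem_product.1 (mem_filter.1 (mem_coe.1 hab)).1).1
    · rintro ⟨⟨x, z⟩, x', z'⟩ hab ⟨⟨y, w⟩, y', w'⟩ hcd he
      have g1 := mem_filter.1 (mem_coe.1 hab)
      have g2 := mem_filter.1 (mem_coe.1 hcd)
      have b1 := mem_product.1 g1.1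
      have b2 := mem_product.1 g2.1
      have x1 := (mem_Icc.1 (mem_product.1 b1.1).1).1
      have x2 := (mem_Icc.1 (mem_product.1 b1.2).1).1
      have y1 := (mem_Icc.1 (mem_product.1 b2.1).1).1
      have y2 := (mem_Icc.1 (mem_product.1 b2.2).1).1
      simp only at x1 x2 y1 y2
      have q1 : x ^ 2 - 4 * d * z ^ 2 = x' ^ 2 - 4 * d * z' ^ 2 := g1.2.1
      have q2 : z = z' := g1.2.2
      have q3 : y ^ 2 - 4 * d * w ^ 2 = y' ^ 2 - 4 * d * w' ^ 2 := g2.2.1
      have q4 : w = w' := g2.2.2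
      have q5 : (x, z) = (y, w) := he
      obtain ⟨rfl, rfl⟩ := Prod.ext_iff.1 q5
      simp only at q3 q4 y1 y2
      subst q2
      subst q4
      have r1 : x ^ 2 = x' ^ 2 := by linarith
      have r2 : x ^ 2 = y' ^ 2 := by linarith
      have r3 : x = x' := by nlinarith
      have r4 : x = y' := by nlinarith
      rw [← r3, ← r4]
  have h5 := diag_off (d := d) (N := 3 * R) (Z := Z) hd
  have h6 := sum_div (3 * Z)
  have h7 := sum_div (6 * Z)
  have hZr : (1 : ℝ) ≤ Z := by exact_mod_cast hZ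
  have hl : 0 ≤ Real.log (6 * (Z : ℝ)) := Real.log_nonneg (by linarith)
  have hl3 : Real.log ((3 * Z : ℕ) : ℝ) ≤ Real.log (6 * (Z : ℝ)) := by
    push_cast
    exact Real.log_le_log (by linarith) (by linarith)
  have hl6 : Real.log ((6 * Z : ℕ) : ℝ) = Real.log (6 * (Z : ℝ)) := by push_cast; rfl
  set ℓ := Real.log (6 * (Z : ℝ)) with hℓ
  have h8 : ((∑ u ∈ Icc 1 (3 * Z), u.divisors.card : ℕ) : ℝ) ≤ 3 * Z * (1 + ℓ) := by
    refine h6.trans ?_
    have : ((3 * Z : ℕ) : ℝ) = 3 * Z := by push_cast; rfl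
    rw [this]
    rw [this] at hl3
    exact mul_le_mul_of_nonneg_left (by linarith) (by positivity)
  have h9 : ((∑ u ∈ Icc 1 (6 * Z), u.divisors.card : ℕ) : ℝ) ≤ 6 * Z * (1 + ℓ) := by
    refine h7.trans ?_
    have : ((6 * Z : ℕ) : ℝ) = 6 * Z := by push_cast; rfl
    rw [this]
  have hD : (0 : ℝ) ≤ d.divisors.card := Nat.cast_nonneg _
  have h10 : ((∑ u ∈ Icc 1 (3 * Z), u.divisors.card : ℕ) : ℝ) *
      ((∑ v ∈ Icc 1 (6 * Z), v.divisors.card : ℕ) : ℝ) ≤ (3 * Z * (1 + ℓ)) * (6 * Z * (1 + ℓ)) :=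
    mul_le_mul h8 h9 (Nat.cast_nonneg _) (by positivity)
  have h11 : ((2 * (d.divisors.card * ((∑ u ∈ Icc 1 (3 * Z), u.divisors.card) *
          ∑ v ∈ Icc 1 (6 * Z), v.divisors.card)) : ℕ) : ℝ) ≤
      48 * d.divisors.card * (Z : ℝ) ^ 2 * (1 + ℓ) ^ 2 := by
    rw [Nat.cast_mul, Nat.cast_mul, Nat.cast_mul]
    have h12 : (d.divisors.card : ℝ) * (((∑ u ∈ Icc 1 (3 * Z), u.divisors.card : ℕ) : ℝ) *
      ((∑ v ∈ Icc 1 (6 * Z), v.divisors.card : ℕ) : ℝ)) ≤
        d.divisors.card * ((3 * Z * (1 + ℓ)) * (6 * Z * (1 + ℓ))) :=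
      mul_le_mul_of_nonneg_left h10 hD
    have h13 : (0 : ℝ) ≤ d.divisors.card * (Z : ℝ) ^ 2 * (1 + ℓ) ^ 2 := by positivity
    push_cast at h12 ⊢
    nlinarith [h12, h13]
  calc ‖Gram χ R d d r r‖ ≤ _ := h1
    _ ≤ ((9 * R * Z + 2 * (d.divisors.card * ((∑ u ∈ Icc 1 (3 * Z), u.divisors.card) *
          ∑ v ∈ Icc 1 (6 * Z), v.divisors.card)) : ℕ) : ℝ) := by
        exact_mod_cast h3.trans (Nat.add_le_add h4 h5)
    _ ≤ _ := by
        rw [Nat.cast_add]
        have : ((9 * R * Z : ℕ) : ℝ) = 9 * R * Z := by push_cast; rfl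
        rw [this]
        linarith

end Pool.Agent.LHf
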