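import Pool.Agent.LHf.Core

/-! MODULE FIN: the final theorem. -/

set_option autoImplicit false

namespace Pool.Agent.LHf

open Finset

private theorem fin_quo_mono {G : Type} [CommGroup G] {S T : Set G} (h : S ⊆ T) {k : ℕ} {g : G}
    (hq : Quo S k g) : Quo T k g := by
  obtain ⟨s, t, hs, ht, e⟩ := hq
  exact ⟨s, t, fun i => h (hs i), fun i => h (ht i), e⟩

private theorem fin_big (p : ℕ) [Fact p.Prime] {B : ℕ} (hB : p ≤ B) (g : (ZMod p)ˣ) :
    Quo (SB p B) 1 g := by
  have hp : 2 ≤ p := (Fact.out : p.Prime).two_le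
  have hmem : ∀ u : (ZMod p)ˣ, u ∈ SB p B := by
    intro u
    refine ⟨1, 1, ((u : ZMod p).val : ℤ), 0, ⟨le_rfl, by omega⟩, by simp, ?_, by simp, ?_⟩
    · rw [Int.natAbs_natCast]
      exact (ZMod.val_lt _).le.trans hB
    · rw [Int.cast_natCast, ZMod.natCast_zmod_val]
      simp
  refine ⟨fun _ => g, fun _ => 1, fun _ => hmem g, fun _ => hmem 1, by simp⟩

/-- the largest `P` with `P ^ n ≤ B` -/
private theorem fin_root (n B : ℕ) (hn : n ≠ 0) (hB : 1 ≤ B) :
    ∃ P : ℕ, 1 ≤ P ∧ P ^ n ≤ B ∧ B < (P + 1) ^ n := by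
  classical
  have h1 : ∃ m : ℕ, B < m ^ n := ⟨B + 1, by
    calc B < B + 1 := Nat.lt_succ_self B
      _ ≤ (B + 1) ^ n := Nat.le_self_pow hn _⟩
  have h2 := Nat.find_spec h1
  have h3 : 2 ≤ Nat.find h1 := by
    by_contra hlt
    push Not at hlt
    have h4 : Nat.find h1 ^ n ≤ 1 ^ n := Nat.pow_le_pow_left (by omega) n
    rw [one_pow] at h4
    omega
  refine ⟨Nat.find h1 - 1, by omega, ?_, ?_⟩
  · exact not_lt.1 (Nat.find_min h1 (m := Nat.find h1 - 1) (by omega))
  · rw [Nat.sub_add_cancel (by omega)]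
    exact h2

private theorem fin_log (n P B : ℕ) (hP : 1 ≤ P) (hB : 1 ≤ B) (h : B < (P + 1) ^ n) :
    Real.log B ≤ n * (Real.log P + 1) := by
  have hP0 : (1 : ℝ) ≤ P := by exact_mod_cast hP
  have hB0 : (0 : ℝ) < B := by exact_mod_cast hB
  have h1 : Real.log B ≤ Real.log (((P : ℝ) + 1) ^ n) := by
    apply Real.log_le_log hB0
    exact_mod_cast h.le
  rw [Real.log_pow] at h1
  have h2 : Real.log ((P : ℝ) + 1) ≤ Real.log P + 1 := by
    have h3 : Real.log ((P : ℝ) + 1) ≤ Real.log (2 * P) :=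
      Real.log_le_log (by linarith) (by linarith)
    rw [Real.log_mul (by norm_num) (by linarith)] at h3
    have h4 : Real.log 2 ≤ 1 := by
      have := Real.log_le_sub_one_of_pos (show (0 : ℝ) < 2 by norm_num)
      linarith
    linarith
  calc Real.log B ≤ n * Real.log ((P : ℝ) + 1) := h1
    _ ≤ n * (Real.log P + 1) := mul_le_mul_of_nonneg_left h2 (Nat.cast_nonneg n)

private theorem fin_sq (p : ℕ) [Fact p.Prime] {a b : ZMod p} (ha : ¬ IsSquare a)
    (hb : ¬ IsSquare b) : IsSquare (a * b) := by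
  classical
  have hb0 : b ≠ 0 := fun h => hb (h ▸ IsSquare.zero)
  have ha0 : a ≠ 0 := fun h => ha (h ▸ IsSquare.zero)
  have h1 : quadraticChar (ZMod p) a = -1 := quadraticChar_neg_one_iff_not_isSquare.2 ha
  have h2 : quadraticChar (ZMod p) b = -1 := quadraticChar_neg_one_iff_not_isSquare.2 hb
  have h3 : quadraticChar (ZMod p) (a * b) = 1 := by
    rw [map_mul, h1, h2]
    norm_num
  exact (quadraticChar_one_iff_isSquare (mul_ne_zero ha0 hb0)).1 h3

private theorem fin_num (C C0 c L b lp x : ℝ) (hc : 0 < c) (hC0 : 1 ≤ C0) (h1 : 4000 * C0 ≤ C)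
    (h2 : 1000000000 / c ≤ C) (hL : c ≤ L) (hb : C * L ≤ b) (hlP : b ≤ 2002 * (lp + 1))
    (h3 : 4000 * x / c ≤ C) :
    b / 4000 ≤ lp ∧ C0 * L ≤ lp ∧ 0 < lp ∧ x ≤ lp ∧ 0 < b := by
  have hC : 0 < C := by linarith
  have e1 : 1000000000 ≤ C * c := by
    rw [div_le_iff₀ hc] at h2
    exact h2
  have e2 : C * c ≤ C * L := mul_le_mul_of_nonneg_left hL hC.le
  have e3 : 4000 * x ≤ C * c := by
    rw [div_le_iff₀ hc] at h3
    exact h3
  have e4 : 4000 * C0 * L ≤ C * L := mul_le_mul_of_nonneg_right h1 (by linarith)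
  refine ⟨by linarith, ?_, by linarith, by linarith, by linarith⟩
  have e5 : b / 4000 ≤ lp := by linarith
  linarith

private theorem fin_pos (n : ℕ) : (0 : ℝ) < (n : ℝ) + 1 := by positivity

private theorem fin_div (a b lp C C0 : ℝ) (h3 : 0 < lp) (hb : 0 < b) (ha : 0 < a)
    (h : b / 4000 ≤ lp) (hC0 : 1 ≤ C0) (h1 : 4000 * C0 ≤ C) :
    C0 * (a / lp) ≤ C * (1 + a / b) := by
  have e1 : a / lp ≤ 4000 * (a / b) := by
    rw [div_le_iff₀ h3]
    have e2 : a / b * b = a := by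
      field_simp
    have e3 : 0 ≤ a / b := div_nonneg ha.le hb.le
    nlinarith
  have e3 : 0 ≤ a / b := div_nonneg ha.le hb.le
  calc C0 * (a / lp) ≤ C0 * (4000 * (a / b)) :=
        mul_le_mul_of_nonneg_left e1 (by linarith)
    _ = 4000 * C0 * (a / b) := by ring
    _ ≤ C * (a / b) := mul_le_mul_of_nonneg_right h1 e3
    _ ≤ C * (1 + a / b) := by nlinarith

private theorem fin_loglog (p : ℕ) (hp : 3 ≤ p) :
    Real.log 3 * Real.log (Real.log 3) ≤ Real.log p * Real.log (Real.log p) ∧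
      0 < Real.log 3 * Real.log (Real.log 3) := by
  have h3 : (1 : ℝ) < Real.log 3 := by
    rw [Real.lt_log_iff_exp_lt (by norm_num)]
    have := Real.exp_one_lt_d9
    linarith
  have hp' : (3 : ℝ) ≤ p := by exact_mod_cast hp
  have h4 : Real.log 3 ≤ Real.log p := Real.log_le_log (by norm_num) hp'
  have h5 : 0 < Real.log (Real.log 3) := Real.log_pos h3
  have h6 : Real.log (Real.log 3) ≤ Real.log (Real.log p) :=
    Real.log_le_log (by linarith) h4
  exact ⟨mul_le_mul h4 h6 h5.le (by linarith), mul_pos (by linarith) h5⟩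

/-- PROOF. Let `C0, p0` be those of `core`. `C` large. If `B ≥ p`: every `g` is in `SB p B`
(`x` a representative of `g`, `y = 0`, `d = 1`, `r = 1`), `k = 1`. If `p < p0'` (any constant) and `C` is
so large that `C sqrt (log p log log p) ≥ log p` for `3 ≤ p < p0'`, then `B ≥ p`. So let `p` be large
and `B < p`. Let `P` be the largest natural with `P ^ 30 ≤ B` and `P ^ 2001 ≤ p`; then
`log P ≥ log B / 2002 - 1 ≥ log B / 4000 ≥ C0 sqrt (..)` (`B ≤ p`), and `P` is large. The set `prw P`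
is divided into the `q` which are squares modulo `p` and those which are not (`q < p` is a unit); one
of the two classes, `Q`, has at least half of the elements, so at least `P / (8 log P)` (`cheb`). For
`q, q' ∈ Q` the product is a square modulo `p` (`quadraticChar` is multiplicative): choose `r q q'`.
`core`; `Sr p (P ^ 30) (r q q') ⊆ SB p B` with `d = q q' ≤ P ^ 2 ≤ B`; length
`C0 log p / log P ≤ 4000 C0 log p / log B`. -/
theorem fin : ∃ C : ℝ, 0 < C ∧ ∀ (p : ℕ) [Fact p.Prime], 3 ≤ p → ∀ B : ℕ,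
    Real.exp (C * Real.sqrt (Real.log p * Real.log (Real.log p))) ≤ B →
    ∀ g : (ZMod p)ˣ, ∃ k : ℕ, (k : ℝ) ≤ C * (1 + Real.log p / Real.log B) ∧
      Quo (SB p B) k g := by
  classical
  obtain ⟨C0, hC0, p0, hcore⟩ := core
  obtain ⟨n0, hn0⟩ := cheb
  set c : ℝ := Real.sqrt (Real.log 3 * Real.log (Real.log 3)) with hc
  have hc0 : 0 < c := Real.sqrt_pos.2 (fin_loglog 3 le_rfl).2
  obtain ⟨C, h1, h2, h3, h4⟩ : ∃ C : ℝ, 4000 * C0 ≤ C ∧ 1000000000 / c ≤ C ∧
      4000 * Real.log (n0 + 1) / c ≤ C ∧ Real.log (p0 + 1) / c ≤ C :=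
    ⟨max (max (4000 * C0) (1000000000 / c)) (max (4000 * Real.log (n0 + 1) / c)
      (Real.log (p0 + 1) / c)), (le_max_left _ _).trans (le_max_left _ _),
      (le_max_right _ _).trans (le_max_left _ _), (le_max_left _ _).trans (le_max_right _ _),
      (le_max_right _ _).trans (le_max_right _ _)⟩
  have hC : 0 < C := by linarith
  refine ⟨C, hC, fun p _ hp3 B hB g => ?_⟩
  have hpp : p.Prime := Fact.out
  have hp3' : (3 : ℝ) ≤ p := by exact_mod_cast hp3
  set L : ℝ := Real.sqrt (Real.log p * Real.log (Real.log p)) with hL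
  have hcL : c ≤ L := Real.sqrt_le_sqrt (fin_loglog p hp3).1
  have hexp : 0 < Real.exp (C * L) := Real.exp_pos _
  have hB0 : (0 : ℝ) < B := hexp.trans_le hB
  have hB1 : 1 ≤ B := by exact_mod_cast Nat.one_le_iff_ne_zero.2 (by
    intro h
    rw [h, Nat.cast_zero] at hB0
    exact lt_irrefl _ hB0)
  have hlB : C * L ≤ Real.log B := by
    rw [Real.le_log_iff_exp_le hB0]
    exact hB
  have hlp : 0 < Real.log p := Real.log_pos (by linarith)
  rcases Nat.lt_or_ge B p with hBp | hBp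
  swap
  · -- `B ≥ p`
    refine ⟨1, ?_, fin_big p hBp g⟩
    have e1 : 0 ≤ Real.log p / Real.log B :=
      div_nonneg hlp.le (Real.log_nonneg (by exact_mod_cast hB1))
    rw [Nat.cast_one]
    nlinarith
  have hp0 : p0 ≤ p := by
    by_contra hlt
    push Not at hlt
    have e1 : Real.log p ≤ Real.log (p0 + 1) := by
      apply Real.log_le_log (by linarith)
      have : (p : ℝ) ≤ p0 := by exact_mod_cast hlt.le
      linarith
    have e2 : Real.log (p0 + 1) ≤ C * L := by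
      rw [div_le_iff₀ hc0] at h4
      exact h4.trans (mul_le_mul_of_nonneg_left hcL hC.le)
    have e3 : Real.log B < Real.log p := Real.log_lt_log hB0 (by exact_mod_cast hBp)
    linarith
  obtain ⟨P, hP1, hP2, hP3⟩ := fin_root 2002 B (by norm_num) hB1
  have hlog : Real.log B ≤ 2002 * (Real.log P + 1) := by
    have := fin_log 2002 P B hP1 hB1 hP3
    exact_mod_cast this
  obtain ⟨k1, k2, k3, k4, k5⟩ := fin_num C C0 c L (Real.log B) (Real.log P) (Real.log (n0 + 1))
    hc0 hC0 h1 h2 hcL hlB hlog h3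
  have hPR : (1 : ℝ) ≤ P := by exact_mod_cast hP1
  have hPn0 : n0 ≤ P := by
    have e1 : (n0 : ℝ) + 1 ≤ P := by
      rwa [Real.log_le_log_iff (fin_pos n0) (by linarith)] at k4
    have e2 : (n0 : ℝ) ≤ P := by linarith
    exact_mod_cast e2
  have hP30 : P ^ 30 ≤ B := (Nat.pow_le_pow_right hP1 (by norm_num)).trans hP2
  have hP2B : P ^ 2 ≤ B := (Nat.pow_le_pow_right hP1 (by norm_num)).trans hP2
  have hP2001 : P ^ 2001 ≤ p :=
    ((Nat.pow_le_pow_right hP1 (by norm_num)).trans hP2).trans hBp.le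
  have hPp : P < p := by
    have e1 : P ^ 1 ≤ P ^ 2002 := Nat.pow_le_pow_right hP1 (by norm_num)
    rw [pow_one] at e1
    omega
  -- the class
  have hch := hn0 P hPn0
  obtain ⟨Q, hQ1, hQ2, hQ3⟩ : ∃ Q : Finset ℕ, Q ⊆ prw P ∧
      (P : ℝ) / (16 * Real.log P) ≤ Q.card ∧
      ∀ q ∈ Q, ∀ q' ∈ Q, IsSquare (((q * q' : ℕ)) : ZMod p) := by
    have hsum := Finset.card_filter_add_card_filter_not (s := prw P)
      (fun q : ℕ => IsSquare ((q : ℕ) : ZMod p))
    have hsum' : (((prw P).filter fun q : ℕ => IsSquare ((q : ℕ) : ZMod p)).card : ℝ) +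
        ((prw P).filter fun q : ℕ => ¬ IsSquare ((q : ℕ) : ZMod p)).card = (prw P).card := by
      exact_mod_cast hsum
    have hhalf : (P : ℝ) / (4 * Real.log P) = 4 * ((P : ℝ) / (16 * Real.log P)) := by
      field_simp
      norm_num
    have hpos : 0 ≤ (P : ℝ) / (16 * Real.log P) := by positivity
    rcases le_total ((P : ℝ) / (16 * Real.log P))
      (((prw P).filter fun q : ℕ => IsSquare ((q : ℕ) : ZMod p)).card : ℝ) with h | h
    · refine ⟨_, Finset.filter_subset _ _, h, fun q hq q' hq' => ?_⟩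
      rw [Nat.cast_mul]
      exact (Finset.mem_filter.1 hq).2.mul (Finset.mem_filter.1 hq').2
    · refine ⟨(prw P).filter fun q : ℕ => ¬ IsSquare ((q : ℕ) : ZMod p),
        Finset.filter_subset _ _, by linarith, fun q hq q' hq' => ?_⟩
      rw [Nat.cast_mul]
      exact fin_sq p (Finset.mem_filter.1 hq).2 (Finset.mem_filter.1 hq').2
  let r : ℕ → ℕ → ZMod p := fun q q' =>
    if h : IsSquare (((q * q' : ℕ)) : ZMod p) then h.choose else 0
  have hr : ∀ q ∈ Q, ∀ q' ∈ Q, r q q' ^ 2 = ((q * q' : ℕ) : ZMod p) := by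
    intro q hq q' hq'
    have h := hQ3 q hq q' hq'
    simp only [r]
    rw [dif_pos h, pow_two]
    exact h.choose_spec.symm
  obtain ⟨k, hk1, hk2⟩ := hcore p hp0 P k2 hP2001 Q hQ1 hQ2 r
    (fun q hq q' hq' _ => hr q hq q' hq') g
  refine ⟨k, hk1.trans ?_, fin_quo_mono ?_ hk2⟩
  · exact fin_div _ _ _ C C0 k3 k5 hlp k1 hC0 h1
  · rintro u ⟨q, hq, q', hq', _, x, y, hx, hy, e⟩
    have hqm := Finset.mem_filter.1 (hQ1 hq)
    have hqm' := Finset.mem_filter.1 (hQ1 hq')
    have hqP : q ≤ P := Nat.lt_succ_iff.1 (Finset.mem_range.1 hqm.1)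
    have hqP' : q' ≤ P := Nat.lt_succ_iff.1 (Finset.mem_range.1 hqm'.1)
    have hq1 : 1 ≤ q := hqm.2.1.one_lt.le
    have hq1' : 1 ≤ q' := hqm'.2.1.one_lt.le
    refine ⟨q * q', r q q', x, y, ⟨Nat.mul_le_mul hq1 hq1', ?_⟩, hr q hq q' hq',
      hx.trans hP30, hy.trans hP30, e⟩
    calc q * q' ≤ P * P := Nat.mul_le_mul hqP hqP'
      _ = P ^ 2 := (pow_two P).symm
      _ ≤ B := hP2B

end Pool.Agent.LHf
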