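import Pool.Agent.LHf.Core

/-! MODULE GENE: the form of the theorem used for the machine. -/

set_option autoImplicit false

namespace Pool.Agent.LHf

open Finset

namespace gene

theorem size_small (K : ℕ) : ∀ s : ℕ, 2 ^ (4 * K + 4) ≤ s → K * Nat.size s ≤ s := by
  intro s hs
  obtain ⟨k, hk⟩ : ∃ k, k = Nat.size s := ⟨_, rfl⟩
  have hk1 : 4 * K + 4 < k := by
    rw [hk, Nat.lt_size]
    exact hs
  have h2 : 2 ^ (k - 1) ≤ s := by
    rw [← Nat.lt_size]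
    omega
  rw [← hk]
  refine le_trans ?_ h2
  have h3 : ∃ a b : ℕ, a + b = k - 1 ∧ k ≤ 2 * (b + 1) ∧ k ≤ 2 * (a + 2) :=
    ⟨(k - 1) / 2, (k - 1) - (k - 1) / 2, by omega, by omega, by omega⟩
  obtain ⟨a, b, hab, hb, ha⟩ := h3
  rw [← hab, pow_add]
  have ha2 : a + 1 ≤ 2 ^ a := Nat.lt_two_pow_self
  have hb2 : b + 1 ≤ 2 ^ b := Nat.lt_two_pow_self
  calc K * k ≤ (a + 1) * (b + 1) := by
        have h4 : 2 * K ≤ a + 1 := by omega
        nlinarith
    _ ≤ 2 ^ a * 2 ^ b := Nat.mul_le_mul ha2 hb2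

theorem small_exp (C1 : ℕ) : ∃ s0 : ℕ, ∀ s : ℕ, s0 ≤ s →
    2001 * (C1 * (Nat.sqrt (s * Nat.size s) + 1)) + 1 ≤ s := by
  obtain ⟨M, hM⟩ : ∃ M, M = 4002 * C1 := ⟨_, rfl⟩
  refine ⟨2 ^ (4 * M ^ 2 + 4) + 4002 * C1 + 2, fun s hs => ?_⟩
  have h1 := size_small (M ^ 2) s (by omega)
  have h2 : M * Nat.sqrt (s * Nat.size s) ≤ s := by
    have h3 : (M * Nat.sqrt (s * Nat.size s)) ^ 2 ≤ s ^ 2 := by
      calc (M * Nat.sqrt (s * Nat.size s)) ^ 2 = M ^ 2 * (Nat.sqrt (s * Nat.size s)) ^ 2 := by ring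
        _ ≤ M ^ 2 * (s * Nat.size s) := Nat.mul_le_mul_left _ (Nat.sqrt_le' _)
        _ = s * (M ^ 2 * Nat.size s) := by ring
        _ ≤ s * s := Nat.mul_le_mul_left _ h1
        _ = s ^ 2 := by ring
    exact (Nat.pow_le_pow_iff_left (by norm_num)).1 h3
  have h4 : 2 * (2001 * (C1 * Nat.sqrt (s * Nat.size s))) ≤ s := by
    calc 2 * (2001 * (C1 * Nat.sqrt (s * Nat.size s))) = M * Nat.sqrt (s * Nat.size s) := by
          rw [hM]; ring
      _ ≤ s := h2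
  have h5 : 2001 * (C1 * (Nat.sqrt (s * Nat.size s) + 1)) =
      2001 * (C1 * Nat.sqrt (s * Nat.size s)) + 2001 * C1 := by ring
  rw [h5]
  have h6 : 0 < 2 ^ (4 * M ^ 2 + 4) := by positivity
  omega

theorem log_bd {p : ℕ} (hp : 3 ≤ p) :
    Real.sqrt (Real.log p * Real.log (Real.log p)) ≤
      (Nat.sqrt (Nat.size p * Nat.size (Nat.size p)) : ℝ) + 1 := by
  have hp0 : (0 : ℝ) < p := by
    have : 0 < p := by omega
    exact_mod_cast this
  have h2 : Real.log 2 ≤ 1 := by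
    have := Real.log_two_lt_d9
    linarith
  have hgen : ∀ n : ℕ, 1 ≤ n → Real.log n ≤ Nat.size n := by
    intro n hn
    have hn0 : (0 : ℝ) < n := by exact_mod_cast hn
    have h1 : (n : ℝ) ≤ (2 : ℝ) ^ (Nat.size n) := by
      have := Nat.lt_size_self n
      exact_mod_cast this.le
    calc Real.log n ≤ Real.log ((2 : ℝ) ^ (Nat.size n)) := Real.log_le_log hn0 h1
      _ = Nat.size n * Real.log 2 := by rw [Real.log_pow]
      _ ≤ Nat.size n * 1 := mul_le_mul_of_nonneg_left h2 (Nat.cast_nonneg _)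
      _ = Nat.size n := mul_one _
  have hlp : 1 < Real.log p := by
    rw [Real.lt_log_iff_exp_lt hp0]
    have := Real.exp_one_lt_d9
    have h3 : (3 : ℝ) ≤ p := by exact_mod_cast hp
    linarith
  have hs1 : 1 ≤ Nat.size p := Nat.size_pos.2 (by omega)
  have hl1 : Real.log p ≤ Nat.size p := hgen p (by omega)
  have hl2 : Real.log (Real.log p) ≤ Nat.size (Nat.size p) := by
    refine le_trans ?_ (hgen (Nat.size p) hs1)
    exact Real.log_le_log (by linarith) hl1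
  have hl3 : 0 ≤ Real.log (Real.log p) := Real.log_nonneg hlp.le
  have h5 : Real.log p * Real.log (Real.log p) ≤ ((Nat.size p * Nat.size (Nat.size p) : ℕ) : ℝ) := by
    push_cast
    exact mul_le_mul hl1 hl2 hl3 (Nat.cast_nonneg _)
  refine (Real.sqrt_le_sqrt h5).trans ?_
  exact (Real.real_sqrt_lt_nat_sqrt_succ).le

end gene

theorem genE : ∃ C : ℕ, ∀ (p : ℕ) [Fact p.Prime], C ≤ p → ∀ N : ℕ,
    2 ^ (C * (Nat.sqrt (Nat.size p * Nat.size (Nat.size p)) + 1)) ≤ N →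
    ∀ (A : ℕ → Prop) (r : ℕ → ZMod p), (∀ q q' : ℕ, q.Prime → q'.Prime → q ≠ q' → q * q' ≤ N →
      (A q ↔ A q') → r (q * q') ^ 2 = ((q * q' : ℕ) : ZMod p)) →
    Subgroup.closure {u : (ZMod p)ˣ | ∃ (d : ℕ) (x y : ℤ), d ≤ N ∧ |x| ≤ N ∧ |y| ≤ N ∧
      (u : ZMod p) = x + y * r d} = ⊤ := by
  classical
  obtain ⟨C0, hC0, p0, hcore⟩ := core
  obtain ⟨n1, hn1⟩ := cheb
  obtain ⟨C1, hC1⟩ : ∃ C1 : ℕ, C1 = 2 * ⌈C0⌉₊ + n1 + 2 := ⟨_, rfl⟩
  obtain ⟨s0, hs0⟩ := gene.small_exp C1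
  refine ⟨30 * C1 + p0 + 2 ^ s0 + 3, ?_⟩
  intro p hpf hp N hN A r hr
  have h2s : 0 < 2 ^ s0 := by positivity
  have hp3 : 3 ≤ p := by omega
  have hp0 : p0 ≤ p := by omega
  have hs : s0 < Nat.size p := by
    rw [Nat.lt_size]
    omega
  obtain ⟨m, hm⟩ : ∃ m, m = C1 * (Nat.sqrt (Nat.size p * Nat.size (Nat.size p)) + 1) := ⟨_, rfl⟩
  obtain ⟨P, hP⟩ : ∃ P, P = 2 ^ m := ⟨_, rfl⟩
  have hm1 := hs0 (Nat.size p) hs.le
  rw [← hm] at hm1
  have hPp : P ^ 2001 ≤ p := by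
    rw [hP, ← pow_mul]
    have h1 : 2 ^ (m * 2001) ≤ 2 ^ (Nat.size p - 1) :=
      Nat.pow_le_pow_right (by norm_num) (by omega)
    refine h1.trans ?_
    rw [← Nat.lt_size]
    omega
  have hPN : P ^ 30 ≤ N := by
    refine le_trans ?_ hN
    rw [hP, ← pow_mul]
    refine Nat.pow_le_pow_right (by norm_num) ?_
    rw [hm]
    calc C1 * (Nat.sqrt (Nat.size p * Nat.size (Nat.size p)) + 1) * 30
        = (30 * C1) * (Nat.sqrt (Nat.size p * Nat.size (Nat.size p)) + 1) := by ring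
      _ ≤ _ := Nat.mul_le_mul_right _ (by omega)
  have hmC : C1 ≤ m := by
    rw [hm]
    exact Nat.le_mul_of_pos_right _ (Nat.succ_pos _)
  have hP2 : m < P := by
    rw [hP]
    exact Nat.lt_two_pow_self
  have hPn : n1 ≤ P := by omega
  have hP1 : 2 ≤ P := by omega
  have hPR : (2 : ℝ) ≤ P := by exact_mod_cast hP1
  have hlogP : Real.log P = m * Real.log 2 := by
    rw [hP]
    push_cast
    rw [Real.log_pow]
  have hlogP0 : 0 < Real.log P := Real.log_pos (by linarith)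
  have hlog : C0 * Real.sqrt (Real.log p * Real.log (Real.log p)) ≤ Real.log P := by
    have h1 := gene.log_bd hp3
    have h2 : (m : ℝ) = C1 * ((Nat.sqrt (Nat.size p * Nat.size (Nat.size p)) : ℝ) + 1) := by
      rw [hm]; push_cast; ring
    rw [hlogP, h2]
    have h3 : C0 ≤ C1 * Real.log 2 := by
      have h4 : C0 ≤ ⌈C0⌉₊ := Nat.le_ceil C0
      have h5 : (2 * ⌈C0⌉₊ : ℝ) ≤ C1 := by
        rw [hC1]
        push_cast
        have : (0 : ℝ) ≤ n1 := Nat.cast_nonneg _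
        linarith
      have h6 := Real.log_two_gt_d9
      have h7 : (0 : ℝ) ≤ ⌈C0⌉₊ := Nat.cast_nonneg _
      nlinarith
    have h8 : (0 : ℝ) ≤ (Nat.sqrt (Nat.size p * Nat.size (Nat.size p)) : ℝ) + 1 := by positivity
    calc C0 * Real.sqrt (Real.log p * Real.log (Real.log p))
        ≤ C0 * ((Nat.sqrt (Nat.size p * Nat.size (Nat.size p)) : ℝ) + 1) :=
          mul_le_mul_of_nonneg_left h1 (by linarith)
      _ ≤ (C1 * Real.log 2) * ((Nat.sqrt (Nat.size p * Nat.size (Nat.size p)) : ℝ) + 1) :=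
          mul_le_mul_of_nonneg_right h3 h8
      _ = _ := by ring
  -- the larger class
  obtain ⟨Q, hQ1, hQ2, hQ3⟩ : ∃ Q ⊆ prw P, (P : ℝ) / (16 * Real.log P) ≤ Q.card ∧
      ∀ q ∈ Q, ∀ q' ∈ Q, (A q ↔ A q') := by
    have h1 := hn1 P hPn
    have h2 := Finset.card_filter_add_card_filter_not (s := prw P) (p := A)
    have h3 : (((prw P).filter A).card : ℝ) + (((prw P).filter fun q => ¬ A q).card : ℝ) =
        (prw P).card := by exact_mod_cast h2
    have h4 : (P : ℝ) / (16 * Real.log P) * 4 = (P : ℝ) / (4 * Real.log P) := by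
      field_simp
      ring
    have h5 : 0 ≤ (P : ℝ) / (16 * Real.log P) := by positivity
    rcases le_total (((prw P).filter A).card : ℝ) (((prw P).filter fun q => ¬ A q).card : ℝ) with h | h
    · refine ⟨(prw P).filter fun q => ¬ A q, filter_subset _ _, by linarith, ?_⟩
      intro q hq q' hq'
      rw [mem_filter] at hq hq'
      exact iff_of_false hq.2 hq'.2
    · refine ⟨(prw P).filter A, filter_subset _ _, by linarith, ?_⟩
      intro q hq q' hq'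
      rw [mem_filter] at hq hq'
      exact iff_of_true hq.2 hq'.2
  have hQp : ∀ q ∈ Q, q.Prime ∧ q ≤ P := by
    intro q hq
    have := hQ1 hq
    unfold prw at this
    rw [mem_filter, mem_range] at this
    exact ⟨this.2.1, by omega⟩
  have hP30 : P ^ 2 ≤ N := (Nat.pow_le_pow_right (by omega) (by norm_num)).trans hPN
  have hqq : ∀ q ∈ Q, ∀ q' ∈ Q, q * q' ≤ N := by
    intro q hq q' hq'
    refine le_trans ?_ hP30
    rw [pow_two]
    exact Nat.mul_le_mul (hQp q hq).2 (hQp q' hq').2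
  have hc := hcore p hp0 P hlog hPp Q hQ1 hQ2 (fun q q' => r (q * q'))
    (fun q hq q' hq' hne => hr q q' (hQp q hq).1 (hQp q' hq').1 hne (hqq q hq q' hq')
      (hQ3 q hq q' hq'))
  rw [eq_top_iff]
  intro g _
  obtain ⟨k, _, s, u, hs1, hu1, hg⟩ := hc g
  have hsub : {u : (ZMod p)ˣ | ∃ q ∈ Q, ∃ q' ∈ Q, q ≠ q' ∧ u ∈ Sr p (P ^ 30) (r (q * q'))} ⊆
      {u : (ZMod p)ˣ | ∃ (d : ℕ) (x y : ℤ), d ≤ N ∧ |x| ≤ N ∧ |y| ≤ N ∧
        (u : ZMod p) = x + y * r d} := by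
    rintro w ⟨q, hq, q', hq', _, x, y, hx, hy, hw⟩
    refine ⟨q * q', x, y, hqq q hq q' hq', ?_, ?_, hw⟩
    · rw [Int.abs_eq_natAbs]
      exact_mod_cast hx.trans hPN
    · rw [Int.abs_eq_natAbs]
      exact_mod_cast hy.trans hPN
  rw [hg]
  refine Subgroup.mul_mem _ ?_ (Subgroup.inv_mem _ ?_)
  · exact Subgroup.prod_mem _ fun i _ => Subgroup.subset_closure (hsub (hs1 i))
  · exact Subgroup.prod_mem _ fun i _ => Subgroup.subset_closure (hsub (hu1 i))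

end Pool.Agent.LHf
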