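import Pool.Agent.LHf.Defs

/-! MODULE IDN1: eigenvectors of `J` modulo `a`. -/

set_option autoImplicit false

namespace Pool.Agent.LHf

open Finset

private theorem idn1_nf (d1 d2 a m : ℕ) (v : ℤ × ℤ) (h : inL d1 d2 a m v) :
    (a : ℤ) ∣ nf d1 d2 v := by
  obtain ⟨h1, h2⟩ := h
  have : nf d1 d2 v = (d1 * v.1 - m * v.2) * v.1 - (d2 * v.2 - m * v.1) * v.2 := by
    unfold nf; ring
  rw [this]
  exact dvd_sub (h1.mul_right _) (h2.mul_right _)

/-- For a primitive vector `v`: `a ∣ nf v` if and only if `v` is an eigenvector of `J`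
modulo `a`, and then the eigenvalue is unique modulo `a` and is a square root of `d1 d2` modulo `a`.
PROOF. Uniqueness: if `m, m'` are two eigenvalues then `(m - m') v ≡ 0` modulo `a`, and as `v` is
primitive (`Int.gcd_eq_gcd_ab`) `a ∣ m - m'`, so `m = m'` as both are in `[0, a)`.
If `v` is an eigenvector then `a ∣ d1 v1 ^ 2 - d2 v2 ^ 2`: `(d1 v1 - m v2) v1 - (d2 v2 - m v1) v2`.
Existence: let `x v1 + y v2 = 1` and `m ≡ x d2 v2 + y d1 v1` modulo `a` (take it in `[0, a)`).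
Then `m v2 - d1 v1 = x d2 v2 ^ 2 + y d1 v1 v2 - d1 v1 (x v1 + y v2) = x (d2 v2 ^ 2 - d1 v1 ^ 2) ≡ 0`
and `m v1 - d2 v2 = x d2 v1 v2 + y d1 v1 ^ 2 - d2 v2 (x v1 + y v2) = y (d1 v1 ^ 2 - d2 v2 ^ 2) ≡ 0`.
And `m ^ 2 ≡ d1 d2`: `m ^ 2 v ≡ m J v ≡ J J v = d1 d2 v` modulo `a` and `v` is primitive. -/
theorem rho_prim (d1 d2 a : ℕ) (ha : 1 ≤ a) (v : ℤ × ℤ) (hv : cont v = 1) :
    ((rts d1 d2 a).filter fun m => inL d1 d2 a m v).card =
      if (a : ℤ) ∣ nf d1 d2 v then 1 else 0 := by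
  have hb : (1 : ℤ) = v.1 * Int.gcdA v.1 v.2 + v.2 * Int.gcdB v.1 v.2 := by
    rw [← Int.gcd_eq_gcd_ab]
    have : Int.gcd v.1 v.2 = 1 := hv
    rw [this]; rfl
  set x := Int.gcdA v.1 v.2
  set y := Int.gcdB v.1 v.2
  split_ifs with hd
  · have hle : ((rts d1 d2 a).filter fun m => inL d1 d2 a m v).card ≤ 1 := by
      rw [Finset.card_le_one]
      intro m hm m' hm'
      rw [mem_filter] at hm hm'
      have r1 := mem_range.1 (mem_filter.1 hm.1).1
      have r2 := mem_range.1 (mem_filter.1 hm'.1).1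
      obtain ⟨a1, a2⟩ := hm.2
      obtain ⟨b1, b2⟩ := hm'.2
      have h3 : (a : ℤ) ∣ (m : ℤ) - m' := by
        have : (m : ℤ) - m' = (y * ((d1 * v.1 - m' * v.2) - (d1 * v.1 - m * v.2)) +
          x * ((d2 * v.2 - m' * v.1) - (d2 * v.2 - m * v.1))) := by
          have e : y * ((d1 * v.1 - m' * v.2) - (d1 * v.1 - m * v.2)) +
            x * ((d2 * v.2 - m' * v.1) - (d2 * v.2 - m * v.1)) =
              ((m : ℤ) - m') * (v.1 * x + v.2 * y) := by ring
          rw [e, ← hb, mul_one]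
        rw [this]
        exact dvd_add ((dvd_sub b1 a1).mul_left _) ((dvd_sub b2 a2).mul_left _)
      have h4 : (m : ℤ) % a = (m' : ℤ) % a :=
        Int.emod_eq_emod_iff_emod_sub_eq_zero.2 (Int.emod_eq_zero_of_dvd h3)
      have h5 : m % a = m' % a := by exact_mod_cast h4
      rwa [Nat.mod_eq_of_lt r1, Nat.mod_eq_of_lt r2] at h5
    have hge : 0 < ((rts d1 d2 a).filter fun m => inL d1 d2 a m v).card := by
      rw [Finset.card_pos]
      set M : ℤ := x * d2 * v.2 + y * d1 * v.1 with hM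
      have ha0 : (0 : ℤ) < a := by exact_mod_cast (by omega : 0 < a)
      have hn0 : 0 ≤ M % a := Int.emod_nonneg _ ha0.ne'
      obtain ⟨m, hm⟩ := Int.eq_ofNat_of_zero_le hn0
      have hlt : m < a := by
        have := Int.emod_lt_of_pos M ha0
        omega
      have hdm : (a : ℤ) ∣ M - m := by
        rw [← hm]
        exact Int.dvd_self_sub_emod
      have hmem : inL d1 d2 a m v := by
        refine ⟨?_, ?_⟩
        · have e : (d1 : ℤ) * v.1 - m * v.2 = (M - m) * v.2 + x * nf d1 d2 v := by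
            have e2 : (d1 : ℤ) * v.1 = d1 * v.1 * (v.1 * x + v.2 * y) := by rw [← hb, mul_one]
            rw [hM]; unfold nf
            linear_combination e2
          rw [e]
          exact dvd_add (hdm.mul_right _) (hd.mul_left _)
        · have e : (d2 : ℤ) * v.2 - m * v.1 = (M - m) * v.1 - y * nf d1 d2 v := by
            have e2 : (d2 : ℤ) * v.2 = d2 * v.2 * (v.1 * x + v.2 * y) := by rw [← hb, mul_one]
            rw [hM]; unfold nf
            linear_combination e2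
          rw [e]
          exact dvd_sub (hdm.mul_right _) (hd.mul_left _)
      refine ⟨m, ?_⟩
      rw [mem_filter]
      refine ⟨?_, hmem⟩
      unfold rts
      rw [mem_filter]
      refine ⟨mem_range.2 hlt, ?_⟩
      obtain ⟨b1, b2⟩ := hmem
      have e : (m : ℤ) ^ 2 - d1 * d2 =
        -(x * (m * (d2 * v.2 - m * v.1) + d2 * (d1 * v.1 - m * v.2)) +
          y * (m * (d1 * v.1 - m * v.2) + d1 * (d2 * v.2 - m * v.1))) := by
        have e2 : (m : ℤ) ^ 2 - d1 * d2 = (m ^ 2 - d1 * d2) * (v.1 * x + v.2 * y) := by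
          rw [← hb, mul_one]
        linear_combination e2
      rw [e, dvd_neg]
      exact dvd_add ((dvd_add (b2.mul_left _) (b1.mul_left _)).mul_left _)
        ((dvd_add (b1.mul_left _) (b2.mul_left _)).mul_left _)
    omega
  · rw [Finset.card_eq_zero, Finset.filter_eq_empty_iff]
    intro m _ hm
    exact hd (idn1_nf d1 d2 a m v hm)

/-- if `v / g` has an eigenvalue modulo `a / gcd (a, g ^ 2)` then `a ∣ nf v`.
PROOF. With `a' = a / gcd (a, g ^ 2)`, `w = v / g` (so `v = g w`): `a' ∣ nf w` (see IDN1, this part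
does not need that the vector is primitive), so `a = a' gcd (a, g ^ 2)` divides
`g ^ 2 nf w = nf v`. -/
theorem dvd_nf_of_rho (d1 d2 a g : ℕ) (ha : 1 ≤ a) (v : ℤ × ℤ) (hg : g ∣ cont v)
    (h : rho d1 d2 a g v ≠ 0) : (a : ℤ) ∣ nf d1 d2 v := by
  unfold rho at h
  obtain ⟨m, hm⟩ := Finset.card_pos.1 (Nat.pos_of_ne_zero h)
  have h1 := idn1_nf _ _ _ _ _ (mem_filter.1 hm).2
  have g1 : (g : ℤ) ∣ v.1 := (Int.natCast_dvd_natCast.2 hg).trans (Int.gcd_dvd_left _ _)
  have g2 : (g : ℤ) ∣ v.2 := (Int.natCast_dvd_natCast.2 hg).trans (Int.gcd_dvd_right _ _)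
  have h2 : nf d1 d2 v = (g : ℤ) ^ 2 * nf d1 d2 (dv g v) := by
    have e1 : (g : ℤ) * (v.1 / g) = v.1 := Int.mul_ediv_cancel' g1
    have e2 : (g : ℤ) * (v.2 / g) = v.2 := Int.mul_ediv_cancel' g2
    unfold nf dv
    simp only
    calc (d1 : ℤ) * v.1 ^ 2 - d2 * v.2 ^ 2
        = d1 * (g * (v.1 / g)) ^ 2 - d2 * (g * (v.2 / g)) ^ 2 := by rw [e1, e2]
      _ = _ := by ring
  have h3 : (a : ℤ) = (Nat.gcd a (g ^ 2) : ℤ) * (apr a g : ℤ) := by
    have : Nat.gcd a (g ^ 2) * apr a g = a := Nat.mul_div_cancel' (Nat.gcd_dvd_left _ _)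
    exact_mod_cast this.symm
  rw [h2, h3]
  refine mul_dvd_mul ?_ h1
  exact_mod_cast Nat.gcd_dvd_right a (g ^ 2)

end Pool.Agent.LHf
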