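import Pool.Agent.LHf.Idn1

/-! MODULE IDN2: the identity for the indicator of `a ∣ nf v`. -/

set_option autoImplicit false

namespace Pool.Agent.LHf

open Finset

private theorem i2_sum_moebius (n : ℕ) :
    ∑ e ∈ n.divisors, ArithmeticFunction.moebius e = if n = 1 then 1 else 0 := by
  have h := congrArg (fun f : ArithmeticFunction ℤ => f n) ArithmeticFunction.moebius_mul_coe_zeta
  rw [ArithmeticFunction.coe_mul_zeta_apply, ArithmeticFunction.one_apply] at h
  exact h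

private theorem i2_dv {g : ℕ} {v : ℤ × ℤ} (hg : g ∣ cont v) :
    v.1 = g * (dv g v).1 ∧ v.2 = g * (dv g v).2 := by
  have h1 : (g : ℤ) ∣ v.1 := (Int.natCast_dvd_natCast.2 hg).trans (Int.gcd_dvd_left ..)
  have h2 : (g : ℤ) ∣ v.2 := (Int.natCast_dvd_natCast.2 hg).trans (Int.gcd_dvd_right ..)
  exact ⟨(Int.mul_ediv_cancel' h1).symm, (Int.mul_ediv_cancel' h2).symm⟩

private theorem i2_dvd (a s : ℕ) (ha : 1 ≤ a) (n : ℤ) :
    ((a / Nat.gcd a s : ℕ) : ℤ) ∣ n ↔ (a : ℤ) ∣ s * n := by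
  have h0 : ((a / Nat.gcd a s : ℕ) : ℤ) ∣ n ↔ (a / Nat.gcd a s) ∣ n.natAbs := by
    rw [← Int.natCast_dvd_natCast, Int.natCast_natAbs, dvd_abs]
  rw [h0]
  have h2 : (a : ℤ) ∣ s * n ↔ a ∣ s * n.natAbs := by
    rw [← Int.natCast_dvd_natCast, Nat.cast_mul, Int.natCast_natAbs]
    constructor
    · intro h
      have h3 : (s : ℤ) * |n| = |(s : ℤ) * n| := by rw [abs_mul, Nat.abs_cast]
      rw [h3, dvd_abs]
      exact h
    · intro h
      have h3 : (s : ℤ) * |n| = |(s : ℤ) * n| := by rw [abs_mul, Nat.abs_cast]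
      rw [h3, dvd_abs] at h
      exact h
  rw [h2]
  have hpos : 0 < Nat.gcd a s := Nat.gcd_pos_of_pos_left s ha
  obtain ⟨a', ha'⟩ := Nat.gcd_dvd_left a s
  obtain ⟨s', hs'⟩ := Nat.gcd_dvd_right a s
  have hcop : Nat.Coprime a' s' := by
    have h3 := Nat.coprime_div_gcd_div_gcd (m := a) (n := s) hpos
    have h4 : a / Nat.gcd a s = a' := Nat.div_eq_of_eq_mul_right hpos ha'
    have h5 : s / Nat.gcd a s = s' := Nat.div_eq_of_eq_mul_right hpos hs'
    rw [h4, h5] at h3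
    exact h3
  have h4 : a / Nat.gcd a s = a' := by
    have := Nat.div_eq_of_eq_mul_right hpos ha'
    exact this
  rw [h4]
  constructor
  · rintro ⟨k, hk⟩
    rw [hk]
    refine ⟨s' * k, ?_⟩
    calc s * (a' * k) = (Nat.gcd a s * s') * (a' * k) := by rw [← hs']
      _ = (Nat.gcd a s * a') * (s' * k) := by ring
      _ = a * (s' * k) := by rw [← ha']
  · intro h
    have h5 : Nat.gcd a s * a' ∣ Nat.gcd a s * (s' * n.natAbs) := by
      rw [← ha', ← mul_assoc, ← hs']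
      exact h
    exact hcop.dvd_of_dvd_mul_left ((Nat.mul_dvd_mul_iff_left hpos).1 h5)

/-- PROOF. Let `c = cont v ≥ 1`. Interchanging the factors:
`∑ e ∣ c / g, moebius e = [g = c]` (`ArithmeticFunction.coe_mul_zeta_apply`,
`ArithmeticFunction.moebius_mul_coe_zeta`), so the right side is `rho d1 d2 a c v`, which is, by IDN1
for the primitive vector `v / c`, the indicator of `a / gcd (a, c ^ 2) ∣ nf (v / c)`, and this is
equivalent to `a ∣ c ^ 2 nf (v / c) = nf v` (for naturals `a, s ≥ 1` and an integer `n`: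
`a ∣ s n ↔ a / gcd (a, s) ∣ n`). -/
theorem ident (d1 d2 a : ℕ) (ha : 1 ≤ a) (v : ℤ × ℤ) (hv : v ≠ 0) :
    (if (a : ℤ) ∣ nf d1 d2 v then 1 else 0 : ℤ) =
      ∑ g ∈ (cont v).divisors, ∑ e ∈ (cont v / g).divisors,
        ArithmeticFunction.moebius e * (rho d1 d2 a g v : ℤ) := by
  have hc : cont v ≠ 0 := by
    intro h
    apply hv
    obtain ⟨h1, h2⟩ := Int.gcd_eq_zero_iff.1 h
    exact Prod.ext h1 h2
  have hcpos : 0 < cont v := Nat.pos_of_ne_zero hc
  -- the right side is `rho d1 d2 a (cont v) v`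
  have e1 : ∑ g ∈ (cont v).divisors, ∑ e ∈ (cont v / g).divisors,
        ArithmeticFunction.moebius e * (rho d1 d2 a g v : ℤ) = rho d1 d2 a (cont v) v := by
    have e2 : ∀ g ∈ (cont v).divisors, ∑ e ∈ (cont v / g).divisors,
        ArithmeticFunction.moebius e * (rho d1 d2 a g v : ℤ) =
        if g = cont v then (rho d1 d2 a g v : ℤ) else 0 := by
      intro g hg
      have hg1 := Nat.dvd_of_mem_divisors hg
      have hgpos : 0 < g := Nat.pos_of_dvd_of_pos hg1 hcpos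
      have hq : cont v / g ≠ 0 := (Nat.div_pos (Nat.le_of_dvd hcpos hg1) hgpos).ne'
      rw [← Finset.sum_mul, i2_sum_moebius _]
      by_cases h : g = cont v
      · rw [if_pos h, if_pos (by rw [← h, Nat.div_self hgpos]), one_mul]
      · rw [if_neg h, if_neg, zero_mul]
        intro h3
        apply h
        have h4 := Nat.div_mul_cancel hg1
        rw [h3, one_mul] at h4
        exact h4
    rw [Finset.sum_congr rfl e2, Finset.sum_ite_eq', if_pos (Nat.mem_divisors_self _ hc)]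
  rw [e1]
  -- the primitive vector
  obtain ⟨h1, h2⟩ := i2_dv (dvd_refl (cont v))
  have hprim : cont (dv (cont v) v) = 1 := by
    unfold cont dv
    exact Int.gcd_ediv_gcd_ediv_gcd hcpos
  have hapr : 1 ≤ apr a (cont v) := by
    unfold apr
    exact Nat.div_pos (Nat.le_of_dvd ha (Nat.gcd_dvd_left _ _)) (Nat.gcd_pos_of_pos_left _ ha)
  have h3 := rho_prim d1 d2 (apr a (cont v)) hapr (dv (cont v) v) hprim
  have h4 : rho d1 d2 a (cont v) v =
      if ((apr a (cont v) : ℕ) : ℤ) ∣ nf d1 d2 (dv (cont v) v) then 1 else 0 := h3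
  rw [h4]
  have h5 : ((apr a (cont v) : ℕ) : ℤ) ∣ nf d1 d2 (dv (cont v) v) ↔ (a : ℤ) ∣ nf d1 d2 v := by
    unfold apr
    rw [i2_dvd a (cont v ^ 2) ha]
    have h6 : ((cont v ^ 2 : ℕ) : ℤ) * nf d1 d2 (dv (cont v) v) = nf d1 d2 v := by
      have h7 : nf d1 d2 v = d1 * v.1 ^ 2 - d2 * v.2 ^ 2 := rfl
      rw [h7]
      unfold nf
      conv_rhs => rw [h1, h2]
      push_cast
      ring
    rw [h6]
  by_cases h6 : (a : ℤ) ∣ nf d1 d2 v
  · rw [if_pos h6, if_pos (h5.2 h6)]; rfl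
  · rw [if_neg h6, if_neg (fun h => h6 (h5.1 h))]; rfl

end Pool.Agent.LHf
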