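import Pool.Agent.LHf.Cover

/-! MODULE LATC: points of a lattice in a box. -/

set_option autoImplicit false

namespace Pool.Agent.LHf

open Finset

/-- Points of a lattice in a box. `c` gives the class modulo the lattice: `c v = c w` implies
`v - w ∈ L`; there are at most `Q` classes. PROOF. Let `δ = sn b1 + sn b2`. By `cover` every `v` is
`l + u` with `l ∈ L` and `sn u ≤ δ`. For each class `k` in the image of `c` choose one `v_k` and such
a decomposition, and let `u_k` be its `u`; then for every `v` with `c v = k` the vector `v - u_k` is in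
`L` (`v - v_k ∈ L` and `v_k - u_k ∈ L`) and `sn u_k ≤ δ`. Map the integer points `v` of the smaller box
`[x0 + δ, x1 - δ] × [z0 + δ, z1 - δ]` to `v - u_(c v) ∈ L ∩ ([x0, x1] × [z0, z1])`. A fibre of this map
contains at most one `v` for each class, so at most `Q` elements. -/
theorem lat_count (L : AddSubgroup (ℤ × ℤ)) {κ : Type} [Fintype κ] (c : ℤ × ℤ → κ)
    (hc : ∀ v w, c v = c w → v - w ∈ L) (b1 b2 : ℤ × ℤ) (h1 : b1 ∈ L) (h2 : b2 ∈ L)
    (hdet : b1.1 * b2.2 - b1.2 * b2.1 ≠ 0) (δ : ℕ) (hδ : sn b1 + sn b2 ≤ δ) (x0 x1 z0 z1 : ℤ)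
    (S : Finset (ℤ × ℤ)) (hS : ∀ v ∈ L, x0 ≤ v.1 → v.1 ≤ x1 → z0 ≤ v.2 → v.2 ≤ z1 → v ∈ S) :
    (Icc (x0 + δ) (x1 - δ) ×ˢ Icc (z0 + δ) (z1 - δ)).card ≤ Fintype.card κ * S.card := by
  classical
  have hu : ∀ k : κ, ∃ u : ℤ × ℤ, ∀ v, c v = k → v - u ∈ L ∧ sn u ≤ δ := by
    intro k
    by_cases hk : ∃ v, c v = k
    · obtain ⟨v, hv⟩ := hk
      obtain ⟨m1, m2, hm⟩ := cover b1 b2 v hdet
      refine ⟨v - m1 • b1 - m2 • b2, fun w hw => ⟨?_, hm.trans hδ⟩⟩
      have e : w - (v - m1 • b1 - m2 • b2) = (w - v) + m1 • b1 + m2 • b2 := by abel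
      rw [e]
      exact L.add_mem (L.add_mem (hc w v (hw.trans hv.symm)) (L.zsmul_mem h1 _)) (L.zsmul_mem h2 _)
    · exact ⟨0, fun v hv => absurd ⟨v, hv⟩ hk⟩
  choose u hu using hu
  refine Finset.card_le_mul_card_image_of_maps_to (f := fun v => v - u (c v)) ?_ _ ?_
  · intro v hv
    rw [mem_product, mem_Icc, mem_Icc] at hv
    obtain ⟨⟨a1, a2⟩, a3, a4⟩ := hv
    obtain ⟨k1, k2⟩ := hu (c v) v rfl
    have k3 : (u (c v)).1.natAbs ≤ δ := (le_max_left _ _).trans k2
    have k4 : (u (c v)).2.natAbs ≤ δ := (le_max_right _ _).trans k2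
    refine hS _ k1 ?_ ?_ ?_ ?_
    · rw [Prod.fst_sub]; omega
    · rw [Prod.fst_sub]; omega
    · rw [Prod.snd_sub]; omega
    · rw [Prod.snd_sub]; omega
  · intro b _
    refine (Finset.card_le_card_of_injOn c (t := univ) (fun _ _ => by simp) ?_).trans
      (le_of_eq Finset.card_univ)
    intro v hv w hw hvw
    simp only [coe_filter, Set.mem_setOf_eq] at hv hw
    have e1 : v = b + u (c v) := by rw [← hv.2]; abel
    have e2 : w = b + u (c w) := by rw [← hw.2]; abel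
    rw [e1, e2, hvw]

end Pool.Agent.LHf
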