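import Pool.Agent.LHf.Defs

/-! MODULE MULT: few subsets divide a number. -/

set_option autoImplicit false

namespace Pool.Agent.LHf

open Finset

/-- PROOF. Let `V` be the set of the `l ∈ Λ` dividing `m`; as these are different primes
their product divides `m`, so `(B / 8) ^ card V ≤ ∏ V ≤ m`, i.e. `B ^ card V ≤ 8 ^ card V m`. If
`card V ≥ 2 h + 2` choose a subset with `2 h + 2` elements: `B ^ (2 h + 2) ≤ 8 ^ (2 h + 2) m
≤ 64 * 64 ^ h * 9 R ^ 2 ≤ 64 B ^ (2 h + 1) < B ^ (2 h + 2)`, a contradiction. So `card V ≤ 2 h + 1`, and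
the number of `U ⊆ V` with `2 h` elements is at most `choose (2 h + 1) (2 h) = 2 h + 1`. -/
theorem mult {B h R : ℕ} (Λ : Finset ℕ) (hΛ : ∀ l ∈ Λ, l.Prime ∧ B < 8 * l ∧ l ≤ B) (hB : 64 < B)
    (hR : 9 * R ^ 2 * 64 ^ h ≤ B * B ^ (2 * h)) (m : ℕ) (hm : 1 ≤ m) (hm2 : m ≤ 9 * R ^ 2) :
    ((Λ.powersetCard (2 * h)).filter (fun U => ∀ l ∈ U, l ∣ m)).card ≤ 2 * h + 1 := by
  classical
  set V : Finset ℕ := Λ.filter fun l => l ∣ m with hV
  have hVc : V.card ≤ 2 * h + 1 := by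
    by_contra hcon
    have h1 : 2 * h + 2 ≤ V.card := by omega
    obtain ⟨W, hW, hWc⟩ := Finset.exists_subset_card_eq h1
    have h2 : ∀ l ∈ W, l ∈ Λ ∧ l ∣ m := fun l hl => Finset.mem_filter.1 (hW hl)
    have h3 : ∏ l ∈ W, l ∣ m :=
      Finset.prod_primes_dvd m (fun l hl => ((hΛ l (h2 l hl).1).1).prime) fun l hl => (h2 l hl).2
    have h4 : ∏ l ∈ W, l ≤ 9 * R ^ 2 := (Nat.le_of_dvd hm h3).trans hm2
    have h5 : B ^ (2 * h + 2) ≤ 8 ^ (2 * h + 2) * ∏ l ∈ W, l := by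
      rw [← hWc, ← Finset.prod_const, ← Finset.prod_const, ← Finset.prod_mul_distrib]
      exact Finset.prod_le_prod' fun l hl => (hΛ l (h2 l hl).1).2.1.le
    have h6 : (8 : ℕ) ^ (2 * h + 2) = 64 * 64 ^ h := by
      rw [pow_add, pow_mul]
      norm_num
      ring
    have h7 : B ^ (2 * h + 2) ≤ 64 * (B * B ^ (2 * h)) := by
      calc B ^ (2 * h + 2) ≤ 64 * 64 ^ h * ∏ l ∈ W, l := by rw [← h6]; exact h5
        _ ≤ 64 * 64 ^ h * (9 * R ^ 2) := Nat.mul_le_mul_left _ h4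
        _ = 64 * (9 * R ^ 2 * 64 ^ h) := by ring
        _ ≤ 64 * (B * B ^ (2 * h)) := Nat.mul_le_mul_left _ hR
    have h8 : B ^ (2 * h + 2) = B * (B * B ^ (2 * h)) := by ring
    rw [h8] at h7
    have h9 : 0 < B * B ^ (2 * h) := by positivity
    have h10 := Nat.le_of_mul_le_mul_right h7 h9
    omega
  have hsub : (Λ.powersetCard (2 * h)).filter (fun U => ∀ l ∈ U, l ∣ m) ⊆
      V.powersetCard (2 * h) := by
    intro U hU
    rw [Finset.mem_filter, Finset.mem_powersetCard] at hU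
    rw [Finset.mem_powersetCard]
    exact ⟨fun l hl => Finset.mem_filter.2 ⟨hU.1.1 hl, hU.2 l hl⟩, hU.1.2⟩
  refine (Finset.card_le_card hsub).trans ?_
  rw [Finset.card_powersetCard]
  refine (Nat.choose_le_choose (2 * h) hVc).trans ?_
  rw [Nat.choose_succ_self_right]

end Pool.Agent.LHf
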