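import Pool.Agent.LHf.Lbu
import Pool.Agent.LHf.Mult

/-! MODULE LB: many elements with smooth norm. -/

set_option autoImplicit false

namespace Pool.Agent.LHf

open Finset

open Classical in
/-- PROOF. Double counting of the pairs `(U, a)`, `U ⊆ Λ` with `2 h` elements,
`a ∈ ubx R Z ν U`. For each `U` there are at least `R Z / (4 B ^ (2 h))` such `a` (`lbu`; `ν l` from
`hΛ`). If `a ∈ ubx`, then `m = nd d a = a.1 ^ 2 - 4 d a.2 ^ 2` is between `1` and `9 R ^ 2`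
(`a.1 ≥ 3 R / 2`, `4 d a.2 ^ 2 ≤ 4 d (25 / 4) Z ^ 2 ≤ 25 R ^ 2 / 144` by `Zd_sq`), it is divisible by
all `l ∈ U`, so by `Q = ∏ U`, and it is `B`-smooth: `m / Q ≤ 9 R ^ 2 * 8 ^ (2 h) / B ^ (2 h) ≤ B`
(as `8 l > B`, `hR2`), so a prime factor of `m` is in `U` or at most `B`. By `mult` each `a` occurs for
at most `2 h + 1` sets `U`. -/
theorem lb {d B h R : ℕ} (hd : ¬ IsSquare d) (hB : 64 < B) (Λ : Finset ℕ)
    (hΛ : ∀ l ∈ Λ, l.Prime ∧ B < 8 * l ∧ l ≤ B ∧ ∃ n : ℤ, (l : ℤ) ∣ n ^ 2 - 4 * d)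
    (hR1 : 16 * ((1 + 4 * d) * B ^ h) ≤ Zd R d) (hR2 : 9 * R ^ 2 * 64 ^ h ≤ B * B ^ (2 * h)) :
    ((Λ.card.choose (2 * h) : ℕ) : ℝ) * (R * Zd R d) ≤
      4 * (2 * h + 1) * (B : ℝ) ^ (2 * h) *
        ((((ibx R (Zd R d)).filter (fun a => Sm B (nd d a))).card : ℕ) : ℝ) := by
  have hchoose : ∀ l : ℕ, ∃ n : ℤ, l ∈ Λ → (l : ℤ) ∣ n ^ 2 - 4 * d := by
    intro l
    by_cases hl : l ∈ Λ
    · obtain ⟨n, hn⟩ := (hΛ l hl).2.2.2
      exact ⟨n, fun _ => hn⟩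
    · exact ⟨0, fun h => absurd h hl⟩
  choose ν hν using hchoose
  set Z : ℕ := Zd R d with hZ
  have hZR : 12 * Z ≤ R := Zd_le R d
  have hZsq : 144 * d * Z ^ 2 ≤ R ^ 2 := Zd_sq R d
  have hδ1 : 1 ≤ (1 + 4 * d) * B ^ h := Nat.mul_pos (by omega) (pow_pos (by omega) h)
  have hR0 : 0 < R := by omega
  -- facts on the norms
  have hnorm : ∀ a ∈ ibx R Z, 1 ≤ nd d a ∧ nd d a ≤ 9 * (R : ℤ) ^ 2 := by
    intro a ha
    unfold ibx pbx at ha
    rw [Finset.mem_filter, Finset.mem_product, Finset.mem_Icc, Finset.mem_Icc] at ha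
    obtain ⟨⟨⟨h1, h2⟩, h3, h4⟩, ⟨h5, h6⟩, h7, h8⟩ := ha
    have hZ' : 144 * (d : ℤ) * (Z : ℤ) ^ 2 ≤ (R : ℤ) ^ 2 := by exact_mod_cast hZsq
    have hd0 : (0 : ℤ) ≤ d := Int.natCast_nonneg d
    have hRZ : (0 : ℤ) < R := by exact_mod_cast hR0
    have g1 : 9 * (R : ℤ) ^ 2 ≤ 4 * a.1 ^ 2 := by nlinarith
    have g2 : 4 * a.1 ^ 2 ≤ 25 * (R : ℤ) ^ 2 := by nlinarith
    have g3 : 4 * a.2 ^ 2 ≤ 25 * (Z : ℤ) ^ 2 := by nlinarith
    have g4 : (d : ℤ) * (4 * a.2 ^ 2) ≤ d * (25 * (Z : ℤ) ^ 2) := mul_le_mul_of_nonneg_left g3 hd0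
    have g5 : (0 : ℤ) ≤ d * a.2 ^ 2 := mul_nonneg hd0 (sq_nonneg _)
    have g6 : 0 < (R : ℤ) ^ 2 := by positivity
    unfold nd
    constructor
    · nlinarith
    · nlinarith
  have hdvd : ∀ U ∈ Λ.powersetCard (2 * h), ∀ a ∈ ubx R Z ν U, ∀ l ∈ U, (l : ℤ) ∣ nd d a := by
    intro U hU a ha l hl
    have h1 := (Finset.mem_filter.1 ha).2 l hl
    have h2 := hν l ((Finset.mem_powersetCard.1 hU).1 hl)
    have h3 : nd d a = (a.1 - ν l * a.2) * (a.1 + ν l * a.2) + (ν l ^ 2 - 4 * d) * a.2 ^ 2 := by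
      unfold nd
      ring
    rw [h3]
    exact dvd_add (h1.mul_right _) (h2.mul_right _)
  have hsmooth : ∀ U ∈ Λ.powersetCard (2 * h), ∀ a ∈ ubx R Z ν U, Sm B (nd d a) := by
    intro U hU a ha
    have ha' := (Finset.mem_filter.1 ha).1
    obtain ⟨h1, h2⟩ := hnorm a ha'
    refine ⟨by omega, fun q hq hqd => ?_⟩
    obtain ⟨m, hm⟩ : ∃ m : ℕ, m = (nd d a).natAbs := ⟨_, rfl⟩
    have hm1 : (m : ℤ) = nd d a := by
      rw [hm, Int.natCast_natAbs, abs_of_pos (by omega)]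
    have hUΛ := (Finset.mem_powersetCard.1 hU).1
    have hUc := (Finset.mem_powersetCard.1 hU).2
    have h3 : ∀ l ∈ U, l ∣ m := by
      intro l hl
      have := hdvd U hU a ha l hl
      rw [← hm1] at this
      exact_mod_cast this
    have hqm : q ∣ m := by
      rw [← hm1] at hqd
      exact_mod_cast hqd
    have h4 : ∏ l ∈ U, l ∣ m :=
      Finset.prod_primes_dvd m (fun l hl => ((hΛ l (hUΛ hl)).1).prime) h3
    obtain ⟨m', hm'⟩ := h4
    rw [hm'] at hqm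
    rcases (Nat.Prime.dvd_mul hq).1 hqm with h5 | h5
    · obtain ⟨l, hl, hql⟩ := (Prime.dvd_finsetProd_iff hq.prime _).1 h5
      have := (Nat.prime_dvd_prime_iff_eq hq (hΛ l (hUΛ hl)).1).1 hql
      rw [this]
      exact (hΛ l (hUΛ hl)).2.2.1
    · have h6 : B ^ (2 * h) ≤ 64 ^ h * ∏ l ∈ U, l := by
        have h7 : B ^ (2 * h) ≤ 8 ^ (2 * h) * ∏ l ∈ U, l := by
          rw [← hUc, ← Finset.prod_const, ← Finset.prod_const, ← Finset.prod_mul_distrib]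
          exact Finset.prod_le_prod' fun l hl => (hΛ l (hUΛ hl)).2.1.le
        rw [pow_mul 8 2 h] at h7
        exact h7
      have hm2 : m ≤ 9 * R ^ 2 := by
        have : (m : ℤ) ≤ 9 * (R : ℤ) ^ 2 := hm1 ▸ h2
        exact_mod_cast this
      have hm0 : 0 < m := by
        have : (0 : ℤ) < m := by rw [hm1]; omega
        exact_mod_cast this
      have hm'0 : 0 < m' := by
        rcases Nat.eq_zero_or_pos m' with h0 | h0
        · rw [h0, mul_zero] at hm'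
          omega
        · exact h0
      refine (Nat.le_of_dvd hm'0 h5).trans ?_
      have h8 : m' * B ^ (2 * h) ≤ B * B ^ (2 * h) := by
        calc m' * B ^ (2 * h) ≤ m' * (64 ^ h * ∏ l ∈ U, l) := Nat.mul_le_mul_left _ h6
          _ = ((∏ l ∈ U, l) * m') * 64 ^ h := by ring
          _ = m * 64 ^ h := by rw [← hm']
          _ ≤ 9 * R ^ 2 * 64 ^ h := Nat.mul_le_mul_right _ hm2
          _ ≤ B * B ^ (2 * h) := hR2
      exact Nat.le_of_mul_le_mul_right h8 (pow_pos (by omega) _)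
  -- double counting
  have hcount : ∑ U ∈ Λ.powersetCard (2 * h), (ubx R Z ν U).card ≤
      (2 * h + 1) * ((ibx R Z).filter (fun a => Sm B (nd d a))).card := by
    have e1 : ∀ U ∈ Λ.powersetCard (2 * h), (ubx R Z ν U).card =
        ∑ a ∈ (ibx R Z).filter (fun a => Sm B (nd d a)), if a ∈ ubx R Z ν U then 1 else 0 := by
      intro U hU
      rw [← Finset.card_filter]
      congr 1
      ext a
      rw [Finset.mem_filter, Finset.mem_filter]
      constructor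
      · intro ha
        exact ⟨⟨(Finset.mem_filter.1 ha).1, hsmooth U hU a ha⟩, ha⟩
      · intro ha
        exact ha.2
    rw [Finset.sum_congr rfl e1, Finset.sum_comm]
    have e2 : (2 * h + 1) * ((ibx R Z).filter (fun a => Sm B (nd d a))).card =
        ∑ _a ∈ (ibx R Z).filter (fun a => Sm B (nd d a)), (2 * h + 1) := by
      rw [Finset.sum_const, smul_eq_mul, mul_comm]
    rw [e2]
    refine Finset.sum_le_sum fun a ha => ?_
    rw [← Finset.card_filter]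
    obtain ⟨h1, h2⟩ := hnorm a (Finset.mem_filter.1 ha).1
    have hm1 : ((nd d a).natAbs : ℤ) = nd d a := by
      rw [Int.natCast_natAbs, abs_of_pos (by omega)]
    have h3 := mult (B := B) (h := h) (R := R) Λ
      (fun l hl => ⟨(hΛ l hl).1, (hΛ l hl).2.1, (hΛ l hl).2.2.1⟩) hB hR2 (nd d a).natAbs
      (by omega) (by
        have : ((nd d a).natAbs : ℤ) ≤ 9 * (R : ℤ) ^ 2 := hm1 ▸ h2
        exact_mod_cast this)
    refine (Finset.card_le_card ?_).trans h3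
    intro U hU
    rw [Finset.mem_filter] at hU ⊢
    refine ⟨hU.1, fun l hl => ?_⟩
    have h4 := hdvd U hU.1 a hU.2 l hl
    rw [← hm1] at h4
    exact_mod_cast h4
  have hlow : ((Λ.card.choose (2 * h) : ℕ) : ℝ) * (R * Z) ≤
      ∑ U ∈ Λ.powersetCard (2 * h), 4 * (B : ℝ) ^ (2 * h) * (ubx R Z ν U).card := by
    rw [← Finset.card_powersetCard, ← nsmul_eq_mul, ← Finset.sum_const]
    refine Finset.sum_le_sum fun U hU => ?_
    obtain ⟨hU1, hU2⟩ := Finset.mem_powersetCard.1 hU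
    refine lbu hd (by omega) ν U (fun l hl => ⟨?_, (hΛ l (hU1 hl)).2.2.1, hν l (hU1 hl)⟩) hU2 hR1
    exact (hΛ l (hU1 hl)).1.one_le
  refine hlow.trans ?_
  rw [← Finset.mul_sum]
  have hcR : ((∑ U ∈ Λ.powersetCard (2 * h), (ubx R Z ν U).card : ℕ) : ℝ) ≤
      ((2 * h + 1) * ((ibx R Z).filter (fun a => Sm B (nd d a))).card : ℕ) := by
    exact_mod_cast hcount
  push_cast at hcR
  calc 4 * (B : ℝ) ^ (2 * h) * ∑ U ∈ Λ.powersetCard (2 * h), ((ubx R Z ν U).card : ℝ)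
      ≤ 4 * (B : ℝ) ^ (2 * h) *
        ((2 * h + 1) * (((ibx R Z).filter (fun a => Sm B (nd d a))).card : ℝ)) := by
        apply mul_le_mul_of_nonneg_left hcR (by positivity)
    _ = _ := by ring

end Pool.Agent.LHf
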