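import Pool.Agent.LHf.Latc
import Pool.Agent.LHf.Zdb
import Pool.Agent.LHf.Lat

/-! MODULE LBU: points of the box with norm divisible by given primes. -/

set_option autoImplicit false

namespace Pool.Agent.LHf

open Finset

/-- PROOF. Let `L` be the subgroup of all `a` with `l ∣ a.1 - ν l a.2` for all `l ∈ U`,
`Q = ∏ l ∈ U, l ≤ B ^ (2 h)`, `κ = ∀ l : U, ZMod l` and `c a = (a.1 - ν l a.2)_l`; `card κ = Q`.
Pigeonhole: `D = Nat.sqrt Q ≤ B ^ h`; the `(D + 1) ^ 2 > Q` points of `[0, D] ^ 2` do not all have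
different classes: there is `b ∈ L`, `b ≠ 0`, `sn b ≤ D`. `J b = (4 d b2, b1)` is in `L`
(`4 d b2 - ν b1 ≡ ν (ν b2 - b1) ≡ 0`), `sn (J b) ≤ 4 d D`, `det (b, J b) = b1 ^ 2 - 4 d b2 ^ 2 ≠ 0`
because `d` is not a square. So `δ = (1 + 4 d) B ^ h`, `16 δ ≤ Z = Zd R d ≤ R`. `lat_count` with
`x0 = ⌈3 R / 2⌉`, `x1 = ⌊5 R / 2⌋`, `z0 = ⌈3 Z / 2⌉`, `z1 = ⌊5 Z / 2⌋`: the smaller box has at least
`(R - 1 - 2 δ) (Z - 1 - 2 δ) ≥ (R / 2) (Z / 2)` points. -/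
theorem lbu {d B h R : ℕ} (hd : ¬ IsSquare d) (hB : 1 ≤ B) (ν : ℕ → ℤ) (U : Finset ℕ)
    (hU : ∀ l ∈ U, 1 ≤ l ∧ l ≤ B ∧ (l : ℤ) ∣ ν l ^ 2 - 4 * d) (hUc : U.card = 2 * h)
    (hR : 16 * ((1 + 4 * d) * B ^ h) ≤ Zd R d) :
    (R : ℝ) * Zd R d ≤ 4 * (B : ℝ) ^ (2 * h) * (ubx R (Zd R d) ν U).card := by
  classical
  set Z : ℕ := Zd R d with hZ
  have hd1 : 1 ≤ d := by
    rcases Nat.eq_zero_or_pos d with h0 | h0
    · exact absurd (h0 ▸ (⟨0, rfl⟩ : IsSquare 0)) hd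
    · exact h0
  have hZR : 12 * Z ≤ R := Zd_le R d
  set L : AddSubgroup (ℤ × ℤ) :=
    { carrier := {a | ∀ l ∈ U, (l : ℤ) ∣ a.1 - ν l * a.2}
      zero_mem' := by
        intro l _
        simp
      add_mem' := by
        intro a b ha hb l hl
        have h1 : (a + b).1 - ν l * (a + b).2 = (a.1 - ν l * a.2) + (b.1 - ν l * b.2) := by
          rw [Prod.fst_add, Prod.snd_add]; ring
        rw [h1]
        exact dvd_add (ha l hl) (hb l hl)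
      neg_mem' := by
        intro a ha l hl
        have h1 : (-a).1 - ν l * (-a).2 = -(a.1 - ν l * a.2) := by
          rw [Prod.fst_neg, Prod.snd_neg]; ring
        rw [h1]
        exact (dvd_neg).2 (ha l hl) } with hL
  have hLm : ∀ a, a ∈ L ↔ ∀ l ∈ U, (l : ℤ) ∣ a.1 - ν l * a.2 := fun a => Iff.rfl
  have hne : ∀ l : U, NeZero (l : ℕ) := fun l => ⟨by have := (hU l.1 l.2).1; omega⟩
  let c : ℤ × ℤ → ∀ l : U, ZMod (l : ℕ) := fun a l => ((a.1 - ν l * a.2 : ℤ) : ZMod (l : ℕ))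
  have hc : ∀ v w, c v = c w → v - w ∈ L := by
    intro v w hvw l hl
    have h1 : ((v.1 - ν l * v.2 : ℤ) : ZMod l) = ((w.1 - ν l * w.2 : ℤ) : ZMod l) :=
      congrFun hvw ⟨l, hl⟩
    have h2 := (ZMod.intCast_eq_intCast_iff_dvd_sub _ _ _).1 h1
    have h3 : (v - w).1 - ν l * (v - w).2 = -((w.1 - ν l * w.2) - (v.1 - ν l * v.2)) := by
      rw [Prod.fst_sub, Prod.snd_sub]; ring
    rw [h3]
    exact (dvd_neg).2 h2
  have hcard : Fintype.card (∀ l : U, ZMod (l : ℕ)) = ∏ l ∈ U, l := by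
    rw [Fintype.card_pi, ← Finset.prod_coe_sort U fun l => l]
    exact Finset.prod_congr rfl fun l _ => ZMod.card _
  have hQ : Fintype.card (∀ l : U, ZMod (l : ℕ)) ≤ B ^ (2 * h) := by
    rw [hcard, ← hUc]
    exact Finset.prod_le_pow_card U _ B fun l hl => (hU l hl).2.1
  set Q : ℕ := Fintype.card (∀ l : U, ZMod (l : ℕ)) with hQdef
  set D : ℕ := Nat.sqrt Q with hD
  have hDB : D ≤ B ^ h := by
    have h1 : D * D ≤ Q := Nat.sqrt_le Q
    have h2 : D * D ≤ B ^ h * B ^ h := by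
      refine (h1.trans hQ).trans (le_of_eq ?_)
      ring
    exact Nat.mul_self_le_mul_self_iff.1 h2
  obtain ⟨v, hv, w, hw, hvw, hcvw⟩ := Finset.exists_ne_map_eq_of_card_lt_of_maps_to
    (s := Icc (0 : ℤ) D ×ˢ Icc (0 : ℤ) D) (t := (Finset.univ : Finset (∀ l : U, ZMod (l : ℕ))))
    (f := c) (by
      rw [Finset.card_univ, Finset.card_product, Int.card_Icc]
      have h1 : ((D : ℤ) + 1 - 0).toNat = D + 1 := by omega
      rw [h1]
      exact Nat.lt_succ_sqrt Q) (fun _ _ => Finset.mem_coe.2 (Finset.mem_univ _))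
  obtain ⟨b, hb⟩ : ∃ b : ℤ × ℤ, b = v - w := ⟨_, rfl⟩
  have hbL : b ∈ L := hb ▸ hc v w hcvw
  have hb0 : b ≠ 0 := by
    rw [hb]
    exact sub_ne_zero.2 hvw
  rw [Finset.mem_product, Finset.mem_Icc, Finset.mem_Icc] at hv hw
  have hb1 : b.1.natAbs ≤ D := by
    rw [hb, Prod.fst_sub]
    omega
  have hb2 : b.2.natAbs ≤ D := by
    rw [hb, Prod.snd_sub]
    omega
  have hJL : ((4 * (d : ℤ) * b.2, b.1) : ℤ × ℤ) ∈ L := by
    intro l hl
    have h1 := hbL l hl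
    have h2 := (hU l hl).2.2
    have h3 : 4 * (d : ℤ) * b.2 - ν l * b.1 =
        -(ν l * (b.1 - ν l * b.2)) - (ν l ^ 2 - 4 * d) * b.2 := by ring
    change (l : ℤ) ∣ 4 * (d : ℤ) * b.2 - ν l * b.1
    rw [h3]
    exact dvd_sub ((dvd_neg).2 (h1.mul_left _)) (h2.mul_right _)
  have hdet : b.1 * b.1 - b.2 * (4 * (d : ℤ) * b.2) ≠ 0 := by
    intro h0
    by_cases hb20 : b.2 = 0
    · rw [hb20] at h0
      have h1 : b.1 = 0 := by
        have : b.1 * b.1 = 0 := by linarith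
        exact mul_self_eq_zero.1 this
      exact hb0 (Prod.ext h1 hb20)
    · have h1 : b.1 ^ 2 = (d : ℤ) * (2 * b.2) ^ 2 := by linarith
      have h2 : (2 * b.2) ^ 2 ∣ b.1 ^ 2 := ⟨(d : ℤ), by rw [h1]; ring⟩
      rw [Int.pow_dvd_pow_iff (by norm_num)] at h2
      obtain ⟨e, he⟩ := h2
      have h3 : (2 * b.2) ^ 2 ≠ 0 := pow_ne_zero 2 (by omega)
      have h4 : (d : ℤ) = e ^ 2 := by
        have : (2 * b.2) ^ 2 * (d : ℤ) = (2 * b.2) ^ 2 * e ^ 2 := by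
          rw [he] at h1
          linarith
        exact mul_left_cancel₀ h3 this
      apply hd
      refine ⟨e.natAbs, ?_⟩
      have h5 : ((e.natAbs : ℕ) : ℤ) ^ 2 = e ^ 2 := Int.natAbs_sq e
      have h6 : (d : ℤ) = ((e.natAbs * e.natAbs : ℕ) : ℤ) := by
        push_cast
        rw [h4, ← sq, sq_abs]
      exact_mod_cast h6
  set δ : ℕ := (1 + 4 * d) * B ^ h with hδ
  have hsn : sn b + sn (4 * (d : ℤ) * b.2, b.1) ≤ δ := by
    have h1 : sn b ≤ D := max_le hb1 hb2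
    have h2 : sn (4 * (d : ℤ) * b.2, b.1) ≤ 4 * d * D := by
      refine max_le ?_ ?_
      · change (4 * (d : ℤ) * b.2).natAbs ≤ 4 * d * D
        rw [Int.natAbs_mul]
        have : (4 * (d : ℤ)).natAbs = 4 * d := by omega
        rw [this]
        exact Nat.mul_le_mul_left _ hb2
      · change b.1.natAbs ≤ 4 * d * D
        calc b.1.natAbs ≤ D := hb1
          _ = 1 * D := (one_mul D).symm
          _ ≤ 4 * d * D := Nat.mul_le_mul_right _ (by omega)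
    calc sn b + sn (4 * (d : ℤ) * b.2, b.1) ≤ D + 4 * d * D := add_le_add h1 h2
      _ = (1 + 4 * d) * D := by ring
      _ ≤ (1 + 4 * d) * B ^ h := Nat.mul_le_mul_left _ hDB
  have hδZ : 16 * δ ≤ Z := hR
  have hδ1 : 1 ≤ δ := by
    rw [hδ]
    exact Nat.mul_pos (by omega) (pow_pos hB h)
  have key := lat_count L c hc b (4 * (d : ℤ) * b.2, b.1) hbL hJL hdet δ hsn
    ((3 * (R : ℤ) + 1) / 2) (5 * (R : ℤ) / 2) ((3 * (Z : ℤ) + 1) / 2) (5 * (Z : ℤ) / 2)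
    (ubx R Z ν U) (by
      intro a ha h1 h2 h3 h4
      unfold ubx ibx pbx
      rw [Finset.mem_filter, Finset.mem_filter, Finset.mem_product, Finset.mem_Icc,
        Finset.mem_Icc]
      refine ⟨⟨⟨⟨by omega, by push_cast; omega⟩, by omega, by push_cast; omega⟩,
        ⟨by omega, by omega⟩, by omega, by omega⟩, ha⟩)
  rw [Finset.card_product, Int.card_Icc, Int.card_Icc] at key
  have k1 : R ≤ 2 * ((5 * (R : ℤ) / 2 - δ + 1 - ((3 * (R : ℤ) + 1) / 2 + δ)).toNat) := by omega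
  have k2 : Z ≤ 2 * ((5 * (Z : ℤ) / 2 - δ + 1 - ((3 * (Z : ℤ) + 1) / 2 + δ)).toNat) := by omega
  have k3 : R * Z ≤ 4 * (B ^ (2 * h) * (ubx R Z ν U).card) := by
    calc R * Z ≤ (2 * ((5 * (R : ℤ) / 2 - δ + 1 - ((3 * (R : ℤ) + 1) / 2 + δ)).toNat)) *
        (2 * ((5 * (Z : ℤ) / 2 - δ + 1 - ((3 * (Z : ℤ) + 1) / 2 + δ)).toNat)) :=
          Nat.mul_le_mul k1 k2
      _ = 4 * (((5 * (R : ℤ) / 2 - δ + 1 - ((3 * (R : ℤ) + 1) / 2 + δ)).toNat) *
        ((5 * (Z : ℤ) / 2 - δ + 1 - ((3 * (Z : ℤ) + 1) / 2 + δ)).toNat)) := by ring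
      _ ≤ 4 * (Q * (ubx R Z ν U).card) := Nat.mul_le_mul_left _ key
      _ ≤ 4 * (B ^ (2 * h) * (ubx R Z ν U).card) :=
          Nat.mul_le_mul_left _ (Nat.mul_le_mul_right _ hQ)
  have k4 : (R : ℝ) * Z ≤ 4 * ((B : ℝ) ^ (2 * h) * (ubx R Z ν U).card) := by exact_mod_cast k3
  linarith

end Pool.Agent.LHf
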