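import Pool.Agent.LHf.One4
import Pool.Agent.LHf.Idn2
import Pool.Agent.LHf.Cdiv

/-! MODULE ONE5: the sum over all `v` for one `A`. -/

set_option autoImplicit false

namespace Pool.Agent.LHf

open Finset

private noncomputable def one5Q (G : ℕ) : Finset (ℕ × ℕ) :=
  ((Icc 1 G) ×ˢ (Icc 1 G)).filter fun q => q.1 * q.2 ≤ G

private noncomputable def one5F (d1 d2 a G : ℕ) (v : ℤ × ℤ) : ℤ :=
  ∑ q ∈ one5Q G, if q.1 * q.2 ∣ cont v then
    ArithmeticFunction.moebius q.2 * (rho d1 d2 a q.1 v : ℤ) else 0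

private theorem one5_F (d1 d2 a G : ℕ) (ha : 1 ≤ a) (v : ℤ × ℤ) (hv : v ≠ 0) (hc : cont v ≤ G) :
    (if (a : ℤ) ∣ nf d1 d2 v then 1 else 0 : ℤ) = one5F d1 d2 a G v := by
  classical
  rw [ident d1 d2 a ha v hv]
  unfold one5F
  rw [← Finset.sum_filter, Finset.sum_sigma']
  refine Finset.sum_nbij' (fun x => (x.1, x.2)) (fun q => ⟨q.1, q.2⟩) ?_ ?_ ?_ ?_ ?_
  · rintro ⟨g, e⟩ hx
    rw [Finset.mem_sigma, Nat.mem_divisors, Nat.mem_divisors] at hx
    obtain ⟨⟨h1, h2⟩, h3, h4⟩ := hx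
    have h5 : g * e ∣ cont v := Nat.mul_dvd_of_dvd_div h1 h3
    have h6 : g * e ≤ cont v := Nat.le_of_dvd (Nat.pos_of_ne_zero h2) h5
    have h7 : g ≠ 0 := by
      rintro rfl
      exact h2 (Nat.eq_zero_of_zero_dvd h1)
    have h8 : e ≠ 0 := by
      rintro rfl
      exact h4 (Nat.eq_zero_of_zero_dvd h3)
    have h9 : g ≤ g * e := Nat.le_mul_of_pos_right g (Nat.pos_of_ne_zero h8)
    have h10 : e ≤ g * e := Nat.le_mul_of_pos_left e (Nat.pos_of_ne_zero h7)
    unfold one5Q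
    rw [Finset.mem_filter, Finset.mem_filter, Finset.mem_product, mem_Icc, mem_Icc]
    refine ⟨⟨⟨⟨?_, ?_⟩, ?_, ?_⟩, ?_⟩, h5⟩
    · show 1 ≤ g; omega
    · show g ≤ G; omega
    · show 1 ≤ e; omega
    · show e ≤ G; omega
    · show g * e ≤ G; omega
  · rintro ⟨g, e⟩ hx
    rw [Finset.mem_filter] at hx
    obtain ⟨h1, h2⟩ := hx
    have h2' : g * e ∣ cont v := h2
    have hc0 : cont v ≠ 0 := by
      unfold cont
      intro h3
      rw [Int.gcd_eq_zero_iff] at h3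
      exact hv (Prod.ext h3.1 h3.2)
    have h3 : g ∣ cont v := (Dvd.intro _ rfl).trans h2'
    rw [Finset.mem_sigma, Nat.mem_divisors, Nat.mem_divisors]
    refine ⟨⟨h3, hc0⟩, Nat.dvd_div_of_mul_dvd h2', ?_⟩
    show cont v / g ≠ 0
    have h4 : 0 < cont v / g := Nat.div_pos (Nat.le_of_dvd (Nat.pos_of_ne_zero hc0) h3)
      (Nat.pos_of_ne_zero (by rintro rfl; exact hc0 (Nat.eq_zero_of_zero_dvd h3)))
    omega
  · intro x _; rfl
  · intro x _; rfl
  · intro x _; rfl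

/-- PROOF. Let `a = |A|`, `G = t ^ 100`, `N v = nf v`. For every `v` in the box (`v ≠ 0`)
`ident` gives `[A ∣ N v] = ∑ g ∣ c, ∑ e ∣ c / g, μ(e) rho g v`, `c = cont v`, i.e. the sum over the
pairs `(g, e)` with `g e ∣ c` (`g, e ≥ 1`). Split the `v` into `cont v ≤ G` and `cont v > G`.
`∑ v, [A ∣ N v] EA v = ∑ (g, e) with g e ≤ G, μ(e) * (sum of ONE4) + ∑ v with cont v > G, E'(v)`,
where, as for `cont v ≤ G` all pairs have `g e ≤ G`,
`E'(v) = ([A ∣ N v] - ∑ g e ∣ c, g e ≤ G, μ(e) rho g v) EA v`. The first part is at most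
`G ^ 2 * R ^ 2 / (t ^ 380 a) = R ^ 2 / (t ^ 180 a)` (at most `G ^ 2` pairs; `|μ| ≤ 1`). In `E'(v)` all
`rho g v` are zero unless `A ∣ N v` (`dvd_nf_of_rho`), and `rho ≤ card rts ≤ 2 t ^ 3`, the number of
pairs is at most `d(c) ^ 2 ≤ t ^ 2`, `‖EA‖ ≤ 1`: so
`‖E'(v)‖ ≤ [A ∣ N v] (1 + 2 t ^ 5) ≤ [A ∣ N v] t ^ 6`. -/
theorem one_A {p t R d1 d2 : ℕ} [Fact p.Prime] {r1 r2 : ZMod p} (hP : Par p t R)
    (hD : DD p t d1 d2 r1 r2) (χ : MulChar (ZMod p) ℂ) (hχ : χ ≠ 1)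
    {A : ℤ} (hA : GoodA p R A) :
    ‖∑ v ∈ (pbx (3 * Zd R d1) (3 * Zd R d2)).filter (fun v => A ∣ nf d1 d2 v),
      EA χ R d1 d2 r1 r2 A v‖ ≤ (R : ℝ) ^ 2 / (t ^ 180 * |(A : ℝ)|) +
        t ^ 6 * ((((pbx (3 * Zd R d1) (3 * Zd R d2)).filter
          (fun v => A ∣ nf d1 d2 v ∧ t ^ 100 < cont v)).card : ℕ) : ℝ) := by
  classical
  have ht : 1000 ≤ t := hP.ht
  have hp1 : t ^ 1000 ≤ p := hP.htp
  have hp0 : 1 ≤ p := (Fact.out : p.Prime).one_lt.le
  have hpR : p ≤ R := (Nat.le_self_pow (by norm_num) p).trans hP.hR1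
  have hR0 : 0 < R := by omega
  have hR20 : 3 * R ≤ p ^ 20 := by
    calc 3 * R ≤ p * p ^ 6 := by
          apply Nat.mul_le_mul _ hP.hR2
          have : t ≤ t ^ 1000 := Nat.le_self_pow (by omega) t
          omega
      _ = p ^ 7 := by ring
      _ ≤ p ^ 20 := Nat.pow_le_pow_right hp0 (by norm_num)
  have hA0 : A ≠ 0 := by
    rintro rfl
    exact hA.nd (dvd_zero _)
  have hAabs : (A.natAbs : ℤ) = |A| := Int.natCast_natAbs A
  have hAn : A.natAbs ≠ 0 := by rwa [Ne, Int.natAbs_eq_zero]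
  have hdvd : ∀ n : ℤ, ((A.natAbs : ℕ) : ℤ) ∣ n ↔ A ∣ n := fun n => Int.natAbs_dvd
  set G := t ^ 100 with hG
  set B := pbx (3 * Zd R d1) (3 * Zd R d2) with hB
  -- bound for `rho`
  have hrho : ∀ (g : ℕ) (v : ℤ × ℤ), 1 ≤ g → rho d1 d2 A.natAbs g v ≤ 2 * t ^ 3 := by
    intro g v hg
    have ha1 : 1 ≤ apr A.natAbs g := by
      rw [apr]
      apply Nat.div_pos
      · exact Nat.le_of_dvd (by omega) (Nat.gcd_dvd_left _ _)
      · exact Nat.gcd_pos_of_pos_left _ (by omega)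
    have ha2 : apr A.natAbs g ≤ 3 * R := by
      have h1 : apr A.natAbs g ≤ A.natAbs := Nat.div_le_self _ _
      have h2 := hA.hi
      omega
    have h1 := rts_card d1 d2 (apr A.natAbs g) hD.h1 hD.h2 ha1
    have h2 := hP.hdiv (apr A.natAbs g) ha1 (by omega)
    calc rho d1 d2 A.natAbs g v ≤ (rts d1 d2 (apr A.natAbs g)).card := card_filter_le _ _
      _ ≤ 2 * (d1 * d2) * (apr A.natAbs g).divisors.card := h1
      _ ≤ 2 * (t * t) * t := by
          apply Nat.mul_le_mul _ h2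
          exact Nat.mul_le_mul_left _ (Nat.mul_le_mul hD.ht1 hD.ht2)
      _ = 2 * t ^ 3 := by ring
  -- `EA` has norm at most one
  have hEA : ∀ v, ‖EA χ R d1 d2 r1 r2 A v‖ ≤ 1 := by
    intro v
    unfold EA FA
    have h1 : ‖(WA R (Zd R d1) (Zd R d2) d1 d2 A v : ℂ)‖ ≤ 1 := by
      rw [Complex.norm_real, Real.norm_eq_abs, abs_of_nonneg (WA_nonneg _ _ _ _ _ _ _)]
      exact WA_le_one _ _ _ _ _ _ _
    rw [norm_mul, norm_mul, RCLike.norm_conj]
    exact mul_le_one₀ h1 (by positivity) (mul_le_one₀ (DirichletCharacter.norm_le_one χ _)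
      (norm_nonneg _) (DirichletCharacter.norm_le_one χ _))
  have hB0 : ∀ v ∈ B, v ≠ 0 ∧ 1 ≤ cont v ∧ cont v ≤ p ^ 20 := by
    intro v hv
    rw [hB] at hv
    unfold pbx at hv
    rw [mem_product, mem_Icc, mem_Icc] at hv
    obtain ⟨⟨c1, c2⟩, c3, c4⟩ := hv
    have h1 : v ≠ 0 := by
      rintro rfl
      exact absurd c1 (by decide)
    have h2 : cont v ≠ 0 := by
      unfold cont
      intro h3
      rw [Int.gcd_eq_zero_iff] at h3
      omega
    refine ⟨h1, by omega, ?_⟩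
    have h3 : (cont v : ℤ) ≤ v.1 := Int.le_of_dvd (by omega) (Int.gcd_dvd_left _ _)
    have h4 := Zd_le R d1
    push_cast at c2
    omega
  -- the error term
  set E : ℤ × ℤ → ℤ := fun v =>
    (if ((A.natAbs : ℕ) : ℤ) ∣ nf d1 d2 v then 1 else 0 : ℤ) - one5F d1 d2 A.natAbs G v with hE
  have hE0 : ∀ v ∈ B, cont v ≤ G → E v = 0 := by
    intro v hv hc
    show _ - _ = (0 : ℤ)
    rw [one5_F d1 d2 A.natAbs G (by omega) v (hB0 v hv).1 hc, sub_self]
  have hE1 : ∀ v ∈ B, ¬ A ∣ nf d1 d2 v → E v = 0 := by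
    intro v hv hn
    show _ - _ = (0 : ℤ)
    rw [if_neg (by rwa [hdvd]), zero_sub, neg_eq_zero]
    unfold one5F
    apply Finset.sum_eq_zero
    intro q _
    split_ifs with h
    · have h1 : rho d1 d2 A.natAbs q.1 v = 0 := by
        by_contra h2
        exact hn ((hdvd _).1 (dvd_nf_of_rho d1 d2 A.natAbs q.1 (by omega) v
          ((Dvd.intro _ rfl).trans h) h2))
      rw [h1]; simp
    · rfl
  have hE2 : ∀ v ∈ B, |E v| ≤ (t : ℤ) ^ 6 := by
    intro v hv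
    obtain ⟨v0, v1, v2⟩ := hB0 v hv
    have hd : (cont v).divisors.card ≤ t := hP.hdiv _ v1 v2
    have h1 : |one5F d1 d2 A.natAbs G v| ≤ (t : ℤ) ^ 2 * (2 * t ^ 3) := by
      unfold one5F
      rw [← Finset.sum_filter]
      refine (Finset.abs_sum_le_sum_abs _ _).trans ?_
      have h2 : ∀ q ∈ (one5Q G).filter (fun q => q.1 * q.2 ∣ cont v),
          |ArithmeticFunction.moebius q.2 * (rho d1 d2 A.natAbs q.1 v : ℤ)| ≤ 2 * (t : ℤ) ^ 3 := by
        intro q hq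
        have hq1 : 1 ≤ q.1 := by
          have := (mem_filter.1 hq).1
          unfold one5Q at this
          exact (mem_Icc.1 (mem_product.1 (mem_filter.1 this).1).1).1
        rw [abs_mul]
        have h3 : |ArithmeticFunction.moebius q.2| ≤ 1 := ArithmeticFunction.abs_moebius_le_one
        have h4 : |(rho d1 d2 A.natAbs q.1 v : ℤ)| ≤ 2 * (t : ℤ) ^ 3 := by
          rw [abs_of_nonneg (by positivity)]
          exact_mod_cast hrho q.1 v hq1
        calc |ArithmeticFunction.moebius q.2| * |(rho d1 d2 A.natAbs q.1 v : ℤ)| ≤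
              1 * (2 * (t : ℤ) ^ 3) := mul_le_mul h3 h4 (abs_nonneg _) (by norm_num)
          _ = 2 * (t : ℤ) ^ 3 := one_mul _
      refine (Finset.sum_le_card_nsmul _ _ _ h2).trans ?_
      rw [nsmul_eq_mul]
      have h5 : ((one5Q G).filter (fun q => q.1 * q.2 ∣ cont v)).card ≤ t ^ 2 := by
        have h6 : (one5Q G).filter (fun q => q.1 * q.2 ∣ cont v) ⊆
            (cont v).divisors ×ˢ (cont v).divisors := by
          intro q hq
          have h7 := (mem_filter.1 hq).2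
          rw [mem_product, Nat.mem_divisors, Nat.mem_divisors]
          exact ⟨⟨(Dvd.intro _ rfl).trans h7, by omega⟩, (Dvd.intro_left _ rfl).trans h7, by omega⟩
        refine (card_le_card h6).trans ?_
        rw [card_product, sq]
        exact Nat.mul_le_mul hd hd
      have h8 : ((((one5Q G).filter (fun q => q.1 * q.2 ∣ cont v)).card : ℕ) : ℤ) ≤ (t : ℤ) ^ 2 := by
        exact_mod_cast h5
      exact mul_le_mul_of_nonneg_right h8 (by positivity)
    have h2 : |E v| ≤ 1 + (t : ℤ) ^ 2 * (2 * t ^ 3) := by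
      show |_ - _| ≤ _
      refine (abs_sub _ _).trans (add_le_add ?_ h1)
      split_ifs <;> simp
    refine h2.trans ?_
    have h3 : (1000 : ℤ) ≤ t := by exact_mod_cast ht
    have h4 : (1 : ℤ) ≤ t ^ 5 := one_le_pow₀ (by omega)
    nlinarith
  -- the decomposition
  have hdec : ∑ v ∈ B.filter (fun v => A ∣ nf d1 d2 v), EA χ R d1 d2 r1 r2 A v =
      ∑ q ∈ one5Q G, (ArithmeticFunction.moebius q.2 : ℂ) *
        ∑ v ∈ B.filter (fun v => q.1 * q.2 ∣ cont v),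
          (rho d1 d2 A.natAbs q.1 v : ℂ) * EA χ R d1 d2 r1 r2 A v +
      ∑ v ∈ B.filter (fun v => A ∣ nf d1 d2 v ∧ G < cont v),
        (E v : ℂ) * EA χ R d1 d2 r1 r2 A v := by
    have h1 : ∑ q ∈ one5Q G, (ArithmeticFunction.moebius q.2 : ℂ) *
        ∑ v ∈ B.filter (fun v => q.1 * q.2 ∣ cont v),
          (rho d1 d2 A.natAbs q.1 v : ℂ) * EA χ R d1 d2 r1 r2 A v =
        ∑ v ∈ B, (one5F d1 d2 A.natAbs G v : ℂ) * EA χ R d1 d2 r1 r2 A v := by
      have h2 : ∀ q ∈ one5Q G, (ArithmeticFunction.moebius q.2 : ℂ) *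
        ∑ v ∈ B.filter (fun v => q.1 * q.2 ∣ cont v),
          (rho d1 d2 A.natAbs q.1 v : ℂ) * EA χ R d1 d2 r1 r2 A v =
          ∑ v ∈ B, (((if q.1 * q.2 ∣ cont v then
            ArithmeticFunction.moebius q.2 * (rho d1 d2 A.natAbs q.1 v : ℤ) else 0 : ℤ)) : ℂ) *
              EA χ R d1 d2 r1 r2 A v := by
        intro q _
        rw [Finset.sum_filter, Finset.mul_sum]
        apply Finset.sum_congr rfl
        intro v _
        split_ifs
        · push_cast; ring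
        · simp
      rw [Finset.sum_congr rfl h2, Finset.sum_comm]
      apply Finset.sum_congr rfl
      intro v _
      rw [← Finset.sum_mul]
      congr 1
      unfold one5F
      push_cast
      rfl
    rw [h1, Finset.sum_filter, Finset.sum_filter, ← Finset.sum_add_distrib]
    apply Finset.sum_congr rfl
    intro v hv
    have h3 : (one5F d1 d2 A.natAbs G v : ℂ) =
        (if A ∣ nf d1 d2 v then 1 else 0) - (E v : ℂ) := by
      have h4 : one5F d1 d2 A.natAbs G v =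
          (if ((A.natAbs : ℕ) : ℤ) ∣ nf d1 d2 v then 1 else 0 : ℤ) - E v := by
        show _ = _ - (_ - _); ring
      rw [h4]
      simp only [hdvd]
      push_cast
      rfl
    rw [h3]
    by_cases c1 : A ∣ nf d1 d2 v
    · by_cases c2 : G < cont v
      · rw [if_pos c1, if_pos c1, if_pos ⟨c1, c2⟩]; ring
      · rw [if_pos c1, if_pos c1, if_neg (fun h => c2 h.2), hE0 v hv (by omega)]; simp
    · rw [if_neg c1, if_neg c1, if_neg (fun h => c1 h.1), hE1 v hv c1]; simp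
  rw [hdec]
  refine (norm_add_le _ _).trans (add_le_add ?_ ?_)
  · have hAr : (0 : ℝ) < |(A : ℝ)| := abs_pos.2 (by exact_mod_cast hA0)
    have ht0 : (0 : ℝ) < t := by exact_mod_cast (by omega : 0 < t)
    have h1 : ∀ q ∈ one5Q G, ‖(ArithmeticFunction.moebius q.2 : ℂ) *
        ∑ v ∈ B.filter (fun v => q.1 * q.2 ∣ cont v),
          (rho d1 d2 A.natAbs q.1 v : ℂ) * EA χ R d1 d2 r1 r2 A v‖ ≤
        (R : ℝ) ^ 2 / (t ^ 380 * |(A : ℝ)|) := by
      intro q hq
      unfold one5Q at hq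
      rw [mem_filter, mem_product, mem_Icc, mem_Icc] at hq
      have h2 := one_ge hP hD χ hχ hA hq.1.1.1 hq.1.2.1 hq.2
      rw [norm_mul]
      have h3 : ‖(ArithmeticFunction.moebius q.2 : ℂ)‖ ≤ 1 := by
        rw [Complex.norm_intCast]
        exact_mod_cast ArithmeticFunction.abs_moebius_le_one
      calc _ ≤ 1 * ((R : ℝ) ^ 2 / (t ^ 380 * |(A : ℝ)|)) :=
            mul_le_mul h3 h2 (norm_nonneg _) (by norm_num)
        _ = _ := one_mul _
    refine (norm_sum_le _ _).trans ((Finset.sum_le_card_nsmul _ _ _ h1).trans ?_)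
    rw [nsmul_eq_mul]
    have h4 : (one5Q G).card ≤ G * G := by
      unfold one5Q
      refine (card_filter_le _ _).trans ?_
      rw [card_product, Nat.card_Icc, Nat.add_sub_cancel]
    have h5 : (((one5Q G).card : ℕ) : ℝ) ≤ (t : ℝ) ^ 200 := by
      have h6 : G * G = t ^ 200 := by rw [hG, ← pow_add]
      rw [h6] at h4
      exact_mod_cast h4
    calc (((one5Q G).card : ℕ) : ℝ) * ((R : ℝ) ^ 2 / (t ^ 380 * |(A : ℝ)|)) ≤
          (t : ℝ) ^ 200 * ((R : ℝ) ^ 2 / (t ^ 380 * |(A : ℝ)|)) := by gcongr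
      _ = (R : ℝ) ^ 2 / (t ^ 180 * |(A : ℝ)|) := by
          have : (t : ℝ) ^ 380 = t ^ 200 * t ^ 180 := by rw [← pow_add]
          rw [this]
          field_simp
  · have h1 : ∀ v ∈ B.filter (fun v => A ∣ nf d1 d2 v ∧ G < cont v),
        ‖(E v : ℂ) * EA χ R d1 d2 r1 r2 A v‖ ≤ (t : ℝ) ^ 6 := by
      intro v hv
      rw [norm_mul, Complex.norm_intCast]
      have h2 : |((E v : ℤ) : ℝ)| ≤ (t : ℝ) ^ 6 := by exact_mod_cast hE2 v (mem_filter.1 hv).1
      calc |((E v : ℤ) : ℝ)| * ‖EA χ R d1 d2 r1 r2 A v‖ ≤ (t : ℝ) ^ 6 * 1 :=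
            mul_le_mul h2 (hEA v) (norm_nonneg _) (by positivity)
        _ = (t : ℝ) ^ 6 := mul_one _
    refine (norm_sum_le _ _).trans ((Finset.sum_le_card_nsmul _ _ _ h1).trans ?_)
    rw [nsmul_eq_mul, mul_comm]

end Pool.Agent.LHf
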