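import Pool.Agent.LHf.Prm1
import Pool.Agent.LHf.Zdb
import Pool.Agent.LHf.Cdiv

/-! MODULE PRM3: small `A`. -/

set_option autoImplicit false

namespace Pool.Agent.LHf

open Finset

private theorem prm3_card (T : Finset ℤ) (K : ℕ) (h : ∀ a ∈ T, ∀ b ∈ T, b - a ≤ K) :
    T.card ≤ K + 1 := by
  by_cases hT : T.Nonempty
  · have h1 : T ⊆ Icc (T.min' hT) (T.min' hT + K) := by
      intro b hb
      rw [mem_Icc]
      exact ⟨T.min'_le b hb, by have := h _ (T.min'_mem hT) b hb; omega⟩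
    have h2 := card_le_card h1
    rw [Int.card_Icc] at h2
    omega
  · rw [not_nonempty_iff_eq_empty] at hT
    rw [hT]; simp

private theorem prm3_two {d2 t R p Z M : ℕ} (hd2 : 1 ≤ d2) (hM : M = 3 * R * p ^ 3)
    (hR : 0 < R) (hZ : R ≤ 25 * t * Z) {n a b : ℤ} (ha1 : (Z : ℤ) < a) (hb1 : (Z : ℤ) < b)
    (ha : |n - d2 * a ^ 2| < M) (hb : |n - d2 * b ^ 2| < M) : b - a ≤ ((75 * t * p ^ 3 : ℕ) : ℤ) := by
  by_contra hcon
  push Not at hcon
  have h0 : 0 ≤ b - a := by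
    have : (0 : ℤ) ≤ ((75 * t * p ^ 3 : ℕ) : ℤ) := by positivity
    omega
  have h1 := (abs_lt.1 ha).2
  have h2 := (abs_lt.1 hb).1
  have h3 : (d2 : ℤ) * (b ^ 2 - a ^ 2) < 2 * M := by nlinarith
  have h4 : (1 : ℤ) * ((b - a) * (2 * Z)) ≤ (d2 : ℤ) * (b ^ 2 - a ^ 2) := by
    have h5 : b ^ 2 - a ^ 2 = (b - a) * (b + a) := by ring
    rw [h5]
    have h6 : (b - a) * (2 * Z) ≤ (b - a) * (b + a) := mul_le_mul_of_nonneg_left (by omega) h0
    have h7 : (0 : ℤ) ≤ (b - a) * (2 * Z) := by positivity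
    have h8 : (1 : ℤ) ≤ d2 := by exact_mod_cast hd2
    nlinarith
  have h5 : (b - a) * Z < M := by nlinarith
  have h6 : (R : ℤ) ≤ 25 * t * Z := by exact_mod_cast hZ
  have h7 : (b - a) * R ≤ (b - a) * (25 * t * Z) := mul_le_mul_of_nonneg_left h6 h0
  have ht : 0 ≤ (t : ℤ) := by positivity
  have h8 : (b - a) * (25 * t * Z) ≤ 25 * t * M := by nlinarith
  have h9 : (b - a) * R ≤ (75 * t * p ^ 3) * R := by
    rw [hM] at h8
    push_cast at h8
    linarith
  have hR' : (0 : ℤ) < R := by exact_mod_cast hR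
  have h10 := le_of_mul_le_mul_right h9 hR'
  push_cast at hcon
  linarith

/-- MODULE PRM3 (small `A`). PROOF. Every term has norm `≤ 1`, and is zero unless (`TA_supp`)
`A ∣ nf v`, `0 < |nf v| < 3 R |A| ≤ 3 R p ^ 3 =: M`, `Z_i < v.i < 3 Z_i`. For each `v` there are at most
`2 t` values of `A` (`card_div`, `Par.hdiv`; `|nf v| ≤ 9 t R ^ 2 ≤ p ^ 20`). The number of `v`: for fixed
`v1` two solutions `v2 < v2'` have `d2 (v2' ^ 2 - v2 ^ 2) < 2 M`, `v2' + v2 ≥ 2 Z2`, so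
`v2' - v2 < M / (d2 Z2) ≤ 3 R p ^ 3 * 25 t / R = 75 t p ^ 3` (`le_Zd` with `P = t`); so at most
`76 t p ^ 3` values of `v2` for each of the `≤ 3 Z1 ≤ R` values of `v1`. Total
`2 t * 76 t p ^ 3 * R = 152 t ^ 2 p ^ 3 R ≤ 152 t ^ 2 R ^ 2 / p ^ 2 ≤ R ^ 2 / t ^ 20`. -/
theorem small_A {p t R d1 d2 : ℕ} [Fact p.Prime] {r1 r2 : ZMod p} (hP : Par p t R)
    (hD : DD p t d1 d2 r1 r2) (χ : MulChar (ZMod p) ℂ) :
    ∑ A ∈ ((Icc (-((3 * R : ℕ) : ℤ)) ((3 * R : ℕ) : ℤ)).erase 0).filter (fun A => |A| < (p : ℤ) ^ 3),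
      ∑ v ∈ pbx (3 * Zd R d1) (3 * Zd R d2), ‖TA χ R d1 d2 r1 r2 A v‖ ≤ (R : ℝ) ^ 2 / t ^ 20 := by
  classical
  have ht : 1000 ≤ t := hP.ht
  have hp1 : t ^ 1000 ≤ p := hP.htp
  have hp0 : 1 ≤ p := (Fact.out : p.Prime).one_lt.le
  have htp : t ^ 24 ≤ p := (Nat.pow_le_pow_right (by omega) (by norm_num)).trans hp1
  have hpR : p ≤ R := (Nat.le_self_pow (by norm_num) p).trans hP.hR1
  have hR0 : 0 < R := by omega
  have h1200 : 1200 * t ≤ R := by
    have h1 : 1200 * t ≤ t ^ 24 := by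
      calc 1200 * t ≤ t ^ 2 * t := by nlinarith
        _ = t ^ 3 := by ring
        _ ≤ t ^ 24 := Nat.pow_le_pow_right (by omega) (by norm_num)
    omega
  have htt : t ≤ t ^ 2 := Nat.le_self_pow (by norm_num) t
  have hZ1 : R ≤ 25 * t * Zd R d1 := le_Zd (by omega) (hD.ht1.trans htt) h1200
  have hZ2 : R ≤ 25 * t * Zd R d2 := le_Zd (by omega) (hD.ht2.trans htt) h1200
  have hZ1' : 0 < Zd R d1 := by
    rcases Nat.eq_zero_or_pos (Zd R d1) with h | h
    · rw [h, mul_zero] at hZ1; omega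
    · exact h
  have hZ2' : 0 < Zd R d2 := by
    rcases Nat.eq_zero_or_pos (Zd R d2) with h | h
    · rw [h, mul_zero] at hZ2; omega
    · exact h
  rw [Finset.sum_comm]
  set S := ((Icc (-((3 * R : ℕ) : ℤ)) ((3 * R : ℕ) : ℤ)).erase 0).filter
    (fun A => |A| < (p : ℤ) ^ 3) with hS
  set V := (pbx (3 * Zd R d1) (3 * Zd R d2)).filter fun v =>
    |nf d1 d2 v| < ((3 * R * p ^ 3 : ℕ) : ℤ) ∧ (Zd R d2 : ℤ) < v.2 with hV
  have hinner : ∀ v ∈ pbx (3 * Zd R d1) (3 * Zd R d2),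
      ∑ A ∈ S, ‖TA χ R d1 d2 r1 r2 A v‖ ≤ if v ∈ V then (2 * t : ℝ) else 0 := by
    intro v hv
    have hsupp : ∀ A ∈ S, TA χ R d1 d2 r1 r2 A v ≠ 0 → A ∣ nf d1 d2 v ∧ nf d1 d2 v ≠ 0 ∧ v ∈ V := by
      intro A hA hne
      obtain ⟨a1, a2, a3, a4, a5, a6, a7⟩ := TA_supp hR0 hZ1' hZ2' hne
      refine ⟨a1, a5, ?_⟩
      rw [hV, mem_filter]
      refine ⟨hv, ?_, a7.1⟩
      rw [hS, mem_filter] at hA
      refine lt_of_lt_of_le a4 ?_
      push_cast
      have h1 : |A| * (3 * (R : ℤ)) ≤ (p : ℤ) ^ 3 * (3 * R) :=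
        mul_le_mul_of_nonneg_right hA.2.le (by positivity)
      linarith
    by_cases hz : ∀ A ∈ S, TA χ R d1 d2 r1 r2 A v = 0
    · rw [Finset.sum_eq_zero fun A hA => by rw [hz A hA, norm_zero]]
      split_ifs <;> positivity
    · push Not at hz
      obtain ⟨A₀, hA₀, hne⟩ := hz
      obtain ⟨_, hn0, hvV⟩ := hsupp A₀ hA₀ hne
      rw [if_pos hvV]
      have h1 : ∑ A ∈ S, ‖TA χ R d1 d2 r1 r2 A v‖ ≤
          ∑ A ∈ S, if A ∣ nf d1 d2 v then (1 : ℝ) else 0 := by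
        apply Finset.sum_le_sum
        intro A hA
        by_cases h2 : TA χ R d1 d2 r1 r2 A v = 0
        · rw [h2, norm_zero]; split_ifs <;> norm_num
        · rw [if_pos (hsupp A hA h2).1]
          exact TA_norm_le _ _ _ _ _ _ _ _
      refine h1.trans ?_
      rw [← Finset.sum_filter, Finset.sum_const, nsmul_eq_mul, mul_one]
      have h2 : (S.filter fun A => A ∣ nf d1 d2 v) ⊆
          ((Icc (-((3 * R : ℕ) : ℤ)) ((3 * R : ℕ) : ℤ)).erase 0).filter
            (fun A => A ∣ nf d1 d2 v) := by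
        intro A hA
        rw [mem_filter] at hA ⊢
        exact ⟨(mem_filter.1 hA.1).1, hA.2⟩
      have h3 := (card_le_card h2).trans (card_div (3 * R) (nf d1 d2 v) hn0)
      have h4 : (nf d1 d2 v).natAbs.divisors.card ≤ t := by
        apply hP.hdiv
        · exact Nat.one_le_iff_ne_zero.2 (by rwa [Ne, Int.natAbs_eq_zero])
        · have h5 : |nf d1 d2 v| < ((3 * R * p ^ 3 : ℕ) : ℤ) := (mem_filter.1 hvV).2.1
          have h6 : (nf d1 d2 v).natAbs < 3 * R * p ^ 3 := by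
            have := Int.natCast_natAbs (nf d1 d2 v)
            omega
          have h7 : 3 * R * p ^ 3 ≤ p ^ 20 := by
            calc 3 * R * p ^ 3 ≤ p * p ^ 6 * p ^ 3 := by
                  apply Nat.mul_le_mul_right
                  apply Nat.mul_le_mul _ hP.hR2
                  have : t ≤ t ^ 24 := Nat.le_self_pow (by norm_num) t
                  omega
              _ = p ^ 10 := by ring
              _ ≤ p ^ 20 := Nat.pow_le_pow_right hp0 (by norm_num)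
          omega
      have h5 : (S.filter fun A => A ∣ nf d1 d2 v).card ≤ 2 * t := h3.trans (by omega)
      calc ((S.filter fun A => A ∣ nf d1 d2 v).card : ℝ) ≤ ((2 * t : ℕ) : ℝ) := by exact_mod_cast h5
        _ = 2 * t := by push_cast; ring
  refine (Finset.sum_le_sum hinner).trans ?_
  rw [← Finset.sum_filter, Finset.sum_const, nsmul_eq_mul]
  have hVV : (pbx (3 * Zd R d1) (3 * Zd R d2)).filter (fun v => v ∈ V) ⊆ V := by
    intro v hv
    exact (mem_filter.1 hv).2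
  have hcard : V.card ≤ (3 * Zd R d1) * (75 * t * p ^ 3 + 1) := by
    have h1 : V.card ≤ (75 * t * p ^ 3 + 1) * (Icc (1 : ℤ) ((3 * Zd R d1 : ℕ) : ℤ)).card := by
      apply Finset.card_le_mul_card_image_of_maps_to (f := Prod.fst)
      · intro v hv
        exact (mem_product.1 (mem_filter.1 hv).1).1
      · intro n _
        have h2 : (V.filter fun v => v.1 = n).card =
            ((V.filter fun v => v.1 = n).image Prod.snd).card := by
          rw [Finset.card_image_of_injOn]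
          intro v hv w hw hvw
          have hv1 := (mem_filter.1 (mem_coe.1 hv)).2
          have hw1 := (mem_filter.1 (mem_coe.1 hw)).2
          exact Prod.ext (hv1.trans hw1.symm) hvw
        rw [h2]
        apply prm3_card
        intro a ha b hb
        rw [mem_image] at ha hb
        obtain ⟨v, hv, rfl⟩ := ha
        obtain ⟨w, hw, rfl⟩ := hb
        rw [mem_filter, hV, mem_filter] at hv hw
        apply prm3_two (d2 := d2) (t := t) (R := R) (p := p) (Z := Zd R d2) (n := d1 * n ^ 2)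
          (M := 3 * R * p ^ 3) hD.h2 rfl hR0 hZ2 hv.1.2.2 hw.1.2.2
        · have := hv.1.2.1
          unfold nf at this
          rwa [hv.2] at this
        · have := hw.1.2.1
          unfold nf at this
          rwa [hw.2] at this
    rw [Int.card_Icc] at h1
    have h3 : (((3 * Zd R d1 : ℕ) : ℤ) + 1 - 1).toNat = 3 * Zd R d1 := by omega
    rw [h3, mul_comm] at h1
    exact h1
  have hc2 : ((((pbx (3 * Zd R d1) (3 * Zd R d2)).filter (fun v => v ∈ V)).card : ℕ) : ℝ) ≤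
      R * (76 * t * p ^ 3) := by
    have h1 := (card_le_card hVV).trans hcard
    have h2 : (3 * Zd R d1) * (75 * t * p ^ 3 + 1) ≤ R * (76 * t * p ^ 3) := by
      apply Nat.mul_le_mul
      · have := Zd_le R d1; omega
      · have : 1 ≤ t * p ^ 3 := Nat.one_le_iff_ne_zero.2 (by positivity)
        nlinarith
    exact_mod_cast h1.trans h2
  have hf : 152 * t ^ 22 * p ^ 3 ≤ R := by
    calc 152 * t ^ 22 * p ^ 3 ≤ t ^ 24 * p ^ 3 := by
          apply Nat.mul_le_mul_right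
          calc 152 * t ^ 22 ≤ (t ^ 2) * t ^ 22 := by
                apply Nat.mul_le_mul_right; nlinarith
            _ = t ^ 24 := by ring
      _ ≤ p * p ^ 3 := Nat.mul_le_mul_right _ htp
      _ = p ^ 4 := by ring
      _ ≤ p ^ 5 := Nat.pow_le_pow_right hp0 (by norm_num)
      _ ≤ R := hP.hR1
  have hf' : (152 : ℝ) * t ^ 22 * p ^ 3 ≤ R := by exact_mod_cast hf
  have ht0 : (0 : ℝ) < t := by exact_mod_cast (by omega : 0 < t)
  rw [le_div_iff₀ (by positivity)]
  calc ((((pbx (3 * Zd R d1) (3 * Zd R d2)).filter (fun v => v ∈ V)).card : ℕ) : ℝ) * (2 * t) *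
        (t : ℝ) ^ 20 ≤ ((R : ℝ) * (76 * t * p ^ 3)) * (2 * t) * (t : ℝ) ^ 20 := by gcongr
    _ = (R : ℝ) * (152 * t ^ 22 * p ^ 3) := by ring
    _ ≤ (R : ℝ) * R := by gcongr
    _ = (R : ℝ) ^ 2 := by ring

end Pool.Agent.LHf
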