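import Pool.Agent.LHf.Prm1
import Pool.Agent.LHf.Zdb
import Pool.Agent.LHf.Cdiv

/-! MODULE PRM4: multiples of `p`. -/

set_option autoImplicit false

namespace Pool.Agent.LHf

open Finset

private theorem Prm4_class (N : ℕ) {p : ℕ} (hp : 0 < p) (c : ZMod p) :
    (((Icc (1 : ℤ) N).filter (fun z : ℤ => (z : ZMod p) = c)).card : ℝ) ≤ (N : ℝ) / p + 1 := by
  classical
  obtain ⟨v, rfl⟩ := ZMod.intCast_surjective c
  have h1 : (Icc (1 : ℤ) N).filter (fun z : ℤ => (z : ZMod p) = (v : ZMod p)) =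
      (Ioc (0 : ℤ) N).filter (fun z => z ≡ v [ZMOD (p : ℤ)]) := by
    ext z
    rw [mem_filter, mem_filter, mem_Icc, mem_Ioc, ZMod.intCast_eq_intCast_iff]
    constructor
    · rintro ⟨⟨h2, h3⟩, h4⟩
      exact ⟨⟨by omega, h3⟩, h4⟩
    · rintro ⟨⟨h2, h3⟩, h4⟩
      exact ⟨⟨by omega, h3⟩, h4⟩
  rw [h1]
  have hp' : (0 : ℤ) < (p : ℤ) := by exact_mod_cast hp
  have hpr : (0 : ℝ) < (p : ℝ) := by exact_mod_cast hp
  have h2 := Int.Ioc_filter_modEq_card (0 : ℤ) (N : ℤ) hp' v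
  have hpq : (0 : ℚ) < ((p : ℤ) : ℚ) := by exact_mod_cast hp'
  have h3 : ((⌊(((N : ℤ) : ℚ) - v) / ((p : ℤ) : ℚ)⌋ - ⌊(((0 : ℤ) : ℚ) - v) / ((p : ℤ) : ℚ)⌋ : ℤ) : ℚ) ≤
      (N : ℚ) / p + 1 := by
    have h4 := Int.floor_le ((((N : ℤ) : ℚ) - v) / ((p : ℤ) : ℚ))
    have h5 := Int.lt_floor_add_one ((((0 : ℤ) : ℚ) - v) / ((p : ℤ) : ℚ))
    have h6 : (((N : ℤ) : ℚ) - v) / ((p : ℤ) : ℚ) =
        (N : ℚ) / p + (((0 : ℤ) : ℚ) - v) / ((p : ℤ) : ℚ) := by
      push_cast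
      field_simp
      ring
    push_cast at h4 h5 h6 ⊢
    linarith
  have h7 : (((((Ioc (0 : ℤ) N).filter (fun z => z ≡ v [ZMOD (p : ℤ)])).card : ℤ)) : ℚ) ≤
      (N : ℚ) / p + 1 := by
    rw [h2, Int.cast_max]
    apply max_le h3
    rw [Int.cast_zero]
    positivity
  have h8 : ((((Ioc (0 : ℤ) N).filter (fun z => z ≡ v [ZMOD (p : ℤ)])).card : ℚ) : ℝ) ≤
      (((N : ℚ) / p + 1 : ℚ) : ℝ) := by
    rw [Int.cast_natCast] at h7
    exact_mod_cast h7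
  push_cast at h8
  exact h8

private theorem Prm4_r1 {p t d1 d2 : ℕ} [hp : Fact p.Prime] {r1 r2 : ZMod p}
    (hD : DD p t d1 d2 r1 r2) (htp : t < p) : r1 ≠ 0 := by
  rintro h
  have h1 := hD.hr1
  rw [h] at h1
  have h2 : ((d1 : ℕ) : ZMod p) = 0 := by
    rw [← h1]
    ring
  rw [ZMod.natCast_eq_zero_iff] at h2
  have h3 := Nat.le_of_dvd hD.h1 h2
  have h4 := hD.ht1
  omega

private theorem Prm4_count {p t d1 d2 : ℕ} [hp : Fact p.Prime] {r1 r2 : ZMod p}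
    (hD : DD p t d1 d2 r1 r2) (htp : t < p) (Z1 Z2 : ℕ) :
    (((pbx Z1 Z2).filter (fun v => (p : ℤ) ∣ nf d1 d2 v)).card : ℝ) ≤
      Z2 * (2 * ((Z1 : ℝ) / p + 1)) := by
  classical
  have hr1 := Prm4_r1 hD htp
  have hmap : ∀ v ∈ (pbx Z1 Z2).filter (fun v => (p : ℤ) ∣ nf d1 d2 v),
      v.2 ∈ Icc (1 : ℤ) Z2 := by
    intro v hv
    have h1 := (mem_filter.1 hv).1
    unfold pbx at h1
    exact (mem_product.1 h1).2
  rw [card_eq_sum_card_fiberwise hmap]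
  push_cast
  have hfib : ∀ z2 ∈ Icc (1 : ℤ) Z2,
      ((((pbx Z1 Z2).filter (fun v => (p : ℤ) ∣ nf d1 d2 v)).filter
        (fun v => v.2 = z2)).card : ℝ) ≤ 2 * ((Z1 : ℝ) / p + 1) := by
    intro z2 _
    obtain ⟨c, hc⟩ : ∃ c : ZMod p, c = r1⁻¹ * (r2 * (z2 : ZMod p)) := ⟨_, rfl⟩
    have h1 : (((pbx Z1 Z2).filter (fun v => (p : ℤ) ∣ nf d1 d2 v)).filter
        (fun v => v.2 = z2)).card ≤
        ((Icc (1 : ℤ) Z1).filter (fun z : ℤ => (z : ZMod p) = c) ∪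
          (Icc (1 : ℤ) Z1).filter (fun z : ℤ => (z : ZMod p) = -c)).card := by
      refine card_le_card_of_injOn Prod.fst ?_ ?_
      · intro v hv
        rw [mem_coe, mem_filter, mem_filter] at hv
        obtain ⟨⟨hv1, hv2⟩, hv3⟩ := hv
        unfold pbx at hv1
        have hv4 := (mem_product.1 hv1).1
        rw [mem_coe, mem_union, mem_filter, mem_filter]
        have h2 : (r1 * (v.1 : ZMod p)) ^ 2 = (r2 * (z2 : ZMod p)) ^ 2 := by
          rw [← ZMod.intCast_zmod_eq_zero_iff_dvd] at hv2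
          unfold nf at hv2
          push_cast at hv2
          rw [← hD.hr1, ← hD.hr2, hv3] at hv2
          linear_combination hv2
        rcases sq_eq_sq_iff_eq_or_eq_neg.1 h2 with h3 | h3
        · left
          refine ⟨hv4, ?_⟩
          rw [hc, ← h3, inv_mul_cancel_left₀ hr1]
        · right
          refine ⟨hv4, ?_⟩
          rw [hc, ← mul_neg, ← h3, inv_mul_cancel_left₀ hr1]
      · intro v hv w hw hvw
        rw [mem_coe, mem_filter] at hv hw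
        exact Prod.ext hvw (hv.2.trans hw.2.symm)
    have h2 := h1.trans (card_union_le _ _)
    have h3 := Prm4_class Z1 hp.out.pos c
    have h4 := Prm4_class Z1 hp.out.pos (-c)
    have h5 : ((((pbx Z1 Z2).filter (fun v => (p : ℤ) ∣ nf d1 d2 v)).filter
        (fun v => v.2 = z2)).card : ℝ) ≤
        (((Icc (1 : ℤ) Z1).filter (fun z : ℤ => (z : ZMod p) = c)).card : ℝ) +
          (((Icc (1 : ℤ) Z1).filter (fun z : ℤ => (z : ZMod p) = -c)).card : ℝ) := by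
      exact_mod_cast h2
    linarith
  refine (sum_le_sum hfib).trans ?_
  rw [sum_const, nsmul_eq_mul, Int.card_Icc]
  apply le_of_eq
  congr 1
  have : ((Z2 : ℤ) + 1 - 1).toNat = Z2 := by omega
  rw [this]

private theorem Prm4_Zpos {p t R d : ℕ} (hP : Par p t R) (hd : d ≤ t) : 0 < Zd R d := by
  unfold Zd
  apply Nat.div_pos _ (by positivity)
  have h1 : Nat.sqrt d ≤ t := (Nat.sqrt_le_self d).trans hd
  have ht := hP.ht
  have h2 : t ^ 2 ≤ t ^ 1000 := Nat.pow_le_pow_right (by omega) (by norm_num)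
  have h3 : t ^ 1000 ≤ p := hP.htp
  have hp1 : 1 ≤ p := by nlinarith
  have h4 : p ^ 1 ≤ p ^ 5 := Nat.pow_le_pow_right hp1 (by norm_num)
  have h5 := hP.hR1
  calc 12 * (Nat.sqrt d + 1) ≤ 12 * (t + 1) := by omega
    _ ≤ t ^ 2 := by nlinarith
    _ ≤ R := by
        rw [pow_one] at h4
        omega

/-- MODULE PRM4 (`p ∣ A`). PROOF. The norm of a term is `≤ 1`, and the term is zero unless `A ∣ nf v`,
`nf v ≠ 0`; then `p ∣ nf v`. For each `v` at most `2 t` values of `A`. The number of `v` in the box with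
`p ∣ nf v`: in `ZMod p` `(r1 z1) ^ 2 = (r2 z2) ^ 2`, `z1 = ± (r2 / r1) z2` (`r1 ≠ 0` as `1 ≤ d1 ≤ t < p`):
for each `z2` the number `z1 ∈ [1, 3 Z1]` is in one of two classes modulo `p`: at most
`2 (3 Z1 / p + 1)` values. Total `2 t * 3 Z2 * 2 (3 Z1 / p + 1) ≤ 2 t (R ^ 2 / p + R) ≤ R ^ 2 / t ^ 20`.
-/
theorem p_dvd_A {p t R d1 d2 : ℕ} [Fact p.Prime] {r1 r2 : ZMod p} (hP : Par p t R)
    (hD : DD p t d1 d2 r1 r2) (χ : MulChar (ZMod p) ℂ) :
    ∑ A ∈ ((Icc (-((3 * R : ℕ) : ℤ)) ((3 * R : ℕ) : ℤ)).erase 0).filter (fun A => (p : ℤ) ∣ A),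
      ∑ v ∈ pbx (3 * Zd R d1) (3 * Zd R d2), ‖TA χ R d1 d2 r1 r2 A v‖ ≤ (R : ℝ) ^ 2 / t ^ 20 := by
  classical
  have ht := hP.ht
  have htr : (1000 : ℝ) ≤ t := by exact_mod_cast ht
  have hZ1 := Prm4_Zpos hP hD.ht1
  have hZ2 := Prm4_Zpos hP hD.ht2
  have htpN : t ^ 22 ≤ p := (Nat.pow_le_pow_right (by omega) (by norm_num)).trans hP.htp
  have htp : t < p := by
    have h1 : t ^ 2 ≤ t ^ 22 := Nat.pow_le_pow_right (by omega) (by norm_num)
    nlinarith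
  have hp1 : 1 ≤ p := by omega
  have hRp : p ≤ R := by
    have h4 : p ^ 1 ≤ p ^ 5 := Nat.pow_le_pow_right hp1 (by norm_num)
    rw [pow_one] at h4
    exact h4.trans hP.hR1
  have hR0 : 0 < R := by omega
  obtain ⟨Z1, hZ1d⟩ : ∃ Z1, Z1 = Zd R d1 := ⟨_, rfl⟩
  obtain ⟨Z2, hZ2d⟩ : ∃ Z2, Z2 = Zd R d2 := ⟨_, rfl⟩
  -- the divisors of the norm
  have hdiv : ∀ v ∈ pbx (3 * Zd R d1) (3 * Zd R d2), nf d1 d2 v ≠ 0 →
      (nf d1 d2 v).natAbs.divisors.card ≤ t := by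
    intro v hv hv0
    apply hP.hdiv
    · exact Int.natAbs_pos.2 hv0
    · unfold pbx at hv
      rw [mem_product, mem_Icc, mem_Icc] at hv
      obtain ⟨⟨a1, a2⟩, a3, a4⟩ := hv
      have b1 := Zd_sq R d1
      have b2 := Zd_sq R d2
      have c1 : (d1 : ℤ) * v.1 ^ 2 ≤ R ^ 2 := by
        have e1 : v.1 ^ 2 ≤ ((3 * Zd R d1 : ℕ) : ℤ) ^ 2 := pow_le_pow_left₀ (by omega) a2 2
        have e2 : (144 : ℤ) * d1 * (Zd R d1 : ℤ) ^ 2 ≤ (R : ℤ) ^ 2 := by exact_mod_cast b1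
        have e3 : (d1 : ℤ) * v.1 ^ 2 ≤ d1 * ((3 * Zd R d1 : ℕ) : ℤ) ^ 2 :=
          mul_le_mul_of_nonneg_left e1 (by positivity)
        push_cast at e3
        have e4 : (0 : ℤ) ≤ d1 * (Zd R d1 : ℤ) ^ 2 := by positivity
        nlinarith
      have c2 : (d2 : ℤ) * v.2 ^ 2 ≤ R ^ 2 := by
        have e1 : v.2 ^ 2 ≤ ((3 * Zd R d2 : ℕ) : ℤ) ^ 2 := pow_le_pow_left₀ (by omega) a4 2
        have e2 : (144 : ℤ) * d2 * (Zd R d2 : ℤ) ^ 2 ≤ (R : ℤ) ^ 2 := by exact_mod_cast b2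
        have e3 : (d2 : ℤ) * v.2 ^ 2 ≤ d2 * ((3 * Zd R d2 : ℕ) : ℤ) ^ 2 :=
          mul_le_mul_of_nonneg_left e1 (by positivity)
        push_cast at e3
        have e4 : (0 : ℤ) ≤ d2 * (Zd R d2 : ℤ) ^ 2 := by positivity
        nlinarith
      have c3 : (0 : ℤ) ≤ (d1 : ℤ) * v.1 ^ 2 := by positivity
      have c4 : (0 : ℤ) ≤ (d2 : ℤ) * v.2 ^ 2 := by positivity
      have c5 : (nf d1 d2 v).natAbs ≤ R ^ 2 := by
        unfold nf
        zify
        rw [abs_le]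
        constructor <;> linarith
      refine c5.trans ?_
      calc R ^ 2 ≤ (p ^ 6) ^ 2 := Nat.pow_le_pow_left hP.hR2 2
        _ = p ^ 12 := by rw [← pow_mul]
        _ ≤ p ^ 20 := Nat.pow_le_pow_right hp1 (by norm_num)
  rw [sum_comm]
  have hv : ∀ v ∈ pbx (3 * Zd R d1) (3 * Zd R d2),
      ∑ A ∈ ((Icc (-((3 * R : ℕ) : ℤ)) ((3 * R : ℕ) : ℤ)).erase 0).filter (fun A => (p : ℤ) ∣ A),
        ‖TA χ R d1 d2 r1 r2 A v‖ ≤ if (p : ℤ) ∣ nf d1 d2 v then 2 * (t : ℝ) else 0 := by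
    intro v hvm
    by_cases h1 : (p : ℤ) ∣ nf d1 d2 v
    · rw [if_pos h1]
      by_cases h0 : nf d1 d2 v = 0
      · have h2 : ∀ A, TA χ R d1 d2 r1 r2 A v = 0 := by
          intro A
          by_contra h3
          exact (TA_supp hR0 hZ1 hZ2 h3).2.2.2.2.1 h0
        rw [sum_eq_zero fun A _ => by rw [h2, norm_zero]]
        positivity
      · have h2 : ∀ A ∈ ((Icc (-((3 * R : ℕ) : ℤ)) ((3 * R : ℕ) : ℤ)).erase 0).filter
            (fun A => (p : ℤ) ∣ A), ‖TA χ R d1 d2 r1 r2 A v‖ ≤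
            if A ∣ nf d1 d2 v then (1 : ℝ) else 0 := by
          intro A _
          by_cases h3 : A ∣ nf d1 d2 v
          · rw [if_pos h3]
            exact TA_norm_le χ R d1 d2 r1 r2 A v
          · rw [if_neg h3]
            have h4 : TA χ R d1 d2 r1 r2 A v = 0 := by
              by_contra h5
              exact h3 (TA_supp hR0 hZ1 hZ2 h5).1
            rw [h4, norm_zero]
        refine (sum_le_sum h2).trans ?_
        rw [sum_boole]
        have h6 : ((((Icc (-((3 * R : ℕ) : ℤ)) ((3 * R : ℕ) : ℤ)).erase 0).filter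
            (fun A => (p : ℤ) ∣ A)).filter (fun A => A ∣ nf d1 d2 v)).card ≤
            (((Icc (-((3 * R : ℕ) : ℤ)) ((3 * R : ℕ) : ℤ)).erase 0).filter
              (fun A => A ∣ nf d1 d2 v)).card := by
          apply card_le_card
          intro A hA
          rw [mem_filter, mem_filter] at hA
          exact mem_filter.2 ⟨hA.1.1, hA.2⟩
        have h7 := (h6.trans (card_div (3 * R) (nf d1 d2 v) h0)).trans
          (Nat.mul_le_mul_left 2 (hdiv v hvm h0))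
        exact_mod_cast h7
    · rw [if_neg h1]
      apply le_of_eq
      refine sum_eq_zero fun A hA => ?_
      have h2 : TA χ R d1 d2 r1 r2 A v = 0 := by
        by_contra h3
        exact h1 ((mem_filter.1 hA).2.trans (TA_supp hR0 hZ1 hZ2 h3).1)
      rw [h2, norm_zero]
  refine (sum_le_sum hv).trans ?_
  rw [← sum_filter, sum_const, nsmul_eq_mul]
  have hc := Prm4_count hD htp (3 * Zd R d1) (3 * Zd R d2)
  have hz1 : (12 : ℝ) * Zd R d1 ≤ R := by exact_mod_cast Zd_le R d1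
  have hz2 : (12 : ℝ) * Zd R d2 ≤ R := by exact_mod_cast Zd_le R d2
  rw [← hZ1d, ← hZ2d] at hc ⊢
  rw [← hZ1d] at hz1
  rw [← hZ2d] at hz2
  push_cast at hc
  have htr22 : (t : ℝ) ^ 22 ≤ p := by exact_mod_cast htpN
  have hRpr : (p : ℝ) ≤ R := by exact_mod_cast hRp
  have hpr : (0 : ℝ) < p := by exact_mod_cast (by omega : 0 < p)
  have hRr : (0 : ℝ) < R := by exact_mod_cast hR0
  have ht0 : (0 : ℝ) < t := by linarith
  have hZ1r : (0 : ℝ) ≤ Z1 := Nat.cast_nonneg _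
  have hZ2r : (0 : ℝ) ≤ Z2 := Nat.cast_nonneg _
  have k1 : (3 * (Z2 : ℝ)) * (2 * (3 * (Z1 : ℝ) / p + 1)) ≤ R * (R / p + 1) := by
    have k2 : 3 * (Z1 : ℝ) / p ≤ R / p := by
      apply div_le_div_of_nonneg_right _ hpr.le
      linarith
    calc (3 * (Z2 : ℝ)) * (2 * (3 * (Z1 : ℝ) / p + 1))
        = (6 * (Z2 : ℝ)) * (3 * (Z1 : ℝ) / p + 1) := by ring
      _ ≤ R * (R / p + 1) := by
          apply mul_le_mul (by linarith) (by linarith) (by positivity) hRr.le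
  have k3 : R * ((R : ℝ) / p + 1) * (2 * t) ≤ (R : ℝ) ^ 2 / t ^ 20 := by
    rw [le_div_iff₀ (by positivity)]
    have k4 : (R : ℝ) * (R / p + 1) ≤ R ^ 2 * (2 / p) := by
      have k5 : (1 : ℝ) ≤ R / p := by
        rw [le_div_iff₀ hpr]
        linarith
      calc (R : ℝ) * (R / p + 1) ≤ R * (R / p + R / p) :=
            mul_le_mul_of_nonneg_left (by linarith) hRr.le
        _ = R ^ 2 * (2 / p) := by ring
    have k6 : 2 / (p : ℝ) * (2 * t) * t ^ 20 ≤ 1 := by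
      rw [div_mul_eq_mul_div, div_mul_eq_mul_div, div_le_one hpr]
      calc (2 : ℝ) * (2 * (t : ℝ)) * (t : ℝ) ^ 20 = 4 * (t : ℝ) ^ 21 := by ring
        _ ≤ (t : ℝ) * (t : ℝ) ^ 21 := mul_le_mul_of_nonneg_right (by linarith) (by positivity)
        _ = (t : ℝ) ^ 22 := by ring
        _ ≤ (p : ℝ) := htr22
    calc R * ((R : ℝ) / p + 1) * (2 * t) * t ^ 20
        ≤ R ^ 2 * (2 / p) * (2 * t) * t ^ 20 := by
          apply mul_le_mul_of_nonneg_right _ (by positivity)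
          exact mul_le_mul_of_nonneg_right k4 (by positivity)
      _ = R ^ 2 * (2 / (p : ℝ) * (2 * t) * t ^ 20) := by ring
      _ ≤ R ^ 2 * 1 := mul_le_mul_of_nonneg_left k6 (by positivity)
      _ = R ^ 2 := mul_one _
  refine le_trans ?_ k3
  exact mul_le_mul_of_nonneg_right (hc.trans k1) (by positivity)

end Pool.Agent.LHf
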