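import Pool.Agent.LHf.Prm2
import Pool.Agent.LHf.Prm3
import Pool.Agent.LHf.Prm4
import Pool.Agent.LHf.One5

/-! MODULE PRM5: near orthogonality. -/

set_option autoImplicit false

namespace Pool.Agent.LHf

open Finset

private theorem prm5_inv (X : ℕ) :
    ∑ A ∈ (Icc (-(X : ℤ)) (X : ℤ)).erase 0, 1 / |(A : ℝ)| ≤ 2 * (1 + Real.log X) := by
  classical
  have h1 : ∀ A ∈ (Icc (-(X : ℤ)) (X : ℤ)).erase 0, A.natAbs ∈ Icc 1 X := by
    intro A hA
    rw [mem_erase, mem_Icc] at hA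
    rw [mem_Icc]
    omega
  rw [← Finset.sum_fiberwise_of_maps_to h1]
  have h2 : ∀ n ∈ Icc 1 X, ∑ A ∈ ((Icc (-(X : ℤ)) (X : ℤ)).erase 0).filter (fun A => A.natAbs = n),
      1 / |(A : ℝ)| ≤ 2 * (n : ℝ)⁻¹ := by
    intro n _
    have h3 : ∀ A ∈ ((Icc (-(X : ℤ)) (X : ℤ)).erase 0).filter (fun A => A.natAbs = n),
        1 / |(A : ℝ)| = (n : ℝ)⁻¹ := by
      intro A hA
      rw [mem_filter] at hA
      rw [one_div, ← hA.2, Nat.cast_natAbs, Int.cast_abs]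
    rw [Finset.sum_congr rfl h3, Finset.sum_const, nsmul_eq_mul]
    have h4 : (((Icc (-(X : ℤ)) (X : ℤ)).erase 0).filter (fun A => A.natAbs = n)).card ≤ 2 := by
      refine (Finset.card_le_card (t := {(n : ℤ), -(n : ℤ)}) ?_).trans Finset.card_le_two
      intro A hA
      rw [mem_filter] at hA
      rw [mem_insert, mem_singleton]
      omega
    have h5 : ((((Icc (-(X : ℤ)) (X : ℤ)).erase 0).filter (fun A => A.natAbs = n)).card : ℝ) ≤ 2 := by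
      exact_mod_cast h4
    exact mul_le_mul_of_nonneg_right h5 (by positivity)
  refine (Finset.sum_le_sum h2).trans ?_
  rw [← Finset.mul_sum]
  refine mul_le_mul_of_nonneg_left ?_ (by norm_num)
  have h6 := harmonic_le_one_add_log X
  rw [harmonic_eq_sum_Icc] at h6
  push_cast at h6
  exact h6

private theorem prm5_count {p t R d1 d2 : ℕ} {r1 r2 : ZMod p} (hP : Par p t R)
    (hD : DD p t d1 d2 r1 r2) :
    ∑ A ∈ (Icc (-((3 * R : ℕ) : ℤ)) ((3 * R : ℕ) : ℤ)).erase 0,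
      ((((pbx (3 * Zd R d1) (3 * Zd R d2)).filter
          (fun v => A ∣ nf d1 d2 v ∧ t ^ 100 < cont v)).card : ℕ) : ℝ) ≤
      (R : ℝ) ^ 2 / (8 * (t : ℝ) ^ 99) := by
  classical
  have T1000 : (1000 : ℝ) ≤ t := by exact_mod_cast hP.ht
  have hT0 : (0 : ℝ) < t := by linarith
  have ht1 : 1 ≤ t := by have := hP.ht; omega
  have htp : t ≤ p := by
    have h1 : t ^ 1 ≤ t ^ 1000 := Nat.pow_le_pow_right ht1 (by norm_num)
    rw [pow_one] at h1
    exact h1.trans hP.htp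
  have hp10 : 10 ≤ p := by have := hP.ht; omega
  -- interchange
  have h1 : ∑ A ∈ (Icc (-((3 * R : ℕ) : ℤ)) ((3 * R : ℕ) : ℤ)).erase 0,
      ((pbx (3 * Zd R d1) (3 * Zd R d2)).filter
          (fun v => A ∣ nf d1 d2 v ∧ t ^ 100 < cont v)).card =
      ∑ v ∈ (pbx (3 * Zd R d1) (3 * Zd R d2)).filter (fun v => t ^ 100 < cont v),
        (((Icc (-((3 * R : ℕ) : ℤ)) ((3 * R : ℕ) : ℤ)).erase 0).filter
          (fun A => A ∣ nf d1 d2 v)).card := by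
    simp_rw [Finset.card_filter]
    rw [Finset.sum_comm, Finset.sum_filter]
    refine Finset.sum_congr rfl fun v _ => ?_
    by_cases h : t ^ 100 < cont v
    · rw [if_pos h]
      refine Finset.sum_congr rfl fun A _ => ?_
      by_cases h2 : A ∣ nf d1 d2 v
      · rw [if_pos ⟨h2, h⟩, if_pos h2]
      · rw [if_neg (fun h3 => h2 h3.1), if_neg h2]
    · rw [if_neg h]
      refine Finset.sum_eq_zero fun A _ => ?_
      rw [if_neg (fun h3 => h h3.2)]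
  have h2 : ∀ v ∈ (pbx (3 * Zd R d1) (3 * Zd R d2)).filter (fun v => t ^ 100 < cont v),
      (((Icc (-((3 * R : ℕ) : ℤ)) ((3 * R : ℕ) : ℤ)).erase 0).filter
          (fun A => A ∣ nf d1 d2 v)).card ≤ 2 * t := by
    intro v hv
    rw [mem_filter, pbx, mem_product, mem_Icc, mem_Icc] at hv
    obtain ⟨⟨⟨a1, a2⟩, a3, a4⟩, -⟩ := hv
    have hv0 : v ≠ 0 := by
      rintro rfl
      simp at a1
    have hn0 : nf d1 d2 v ≠ 0 := nf_ne_zero hD.h1 hD.hns hv0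
    refine (card_div (3 * R) _ hn0).trans ?_
    refine Nat.mul_le_mul_left 2 (hP.hdiv _ (Int.natAbs_pos.2 hn0) ?_)
    have z1 := Zd_le R d1
    have z2 := Zd_le R d2
    have hsn : sn v ≤ R := by
      rw [sn]
      refine max_le ?_ ?_
      · have : (v.1.natAbs : ℤ) ≤ R := by
          rw [Int.natAbs_of_nonneg (by omega)]
          push_cast at a2
          omega
        exact_mod_cast this
      · have : (v.2.natAbs : ℤ) ≤ R := by
          rw [Int.natAbs_of_nonneg (by omega)]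
          push_cast at a4
          omega
        exact_mod_cast this
    calc (nf d1 d2 v).natAbs ≤ t * sn v ^ 2 := nf_le hD.ht1 hD.ht2 v
      _ ≤ p * (p ^ 6) ^ 2 := Nat.mul_le_mul htp (Nat.pow_le_pow_left (hsn.trans hP.hR2) 2)
      _ = p ^ 13 := by ring
      _ ≤ p ^ 20 := Nat.pow_le_pow_right (by omega) (by norm_num)
  have h3 : ∑ A ∈ (Icc (-((3 * R : ℕ) : ℤ)) ((3 * R : ℕ) : ℤ)).erase 0,
      ((pbx (3 * Zd R d1) (3 * Zd R d2)).filter
          (fun v => A ∣ nf d1 d2 v ∧ t ^ 100 < cont v)).card ≤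
      ((pbx (3 * Zd R d1) (3 * Zd R d2)).filter (fun v => t ^ 100 < cont v)).card * (2 * t) := by
    rw [h1]
    exact Finset.sum_le_card_nsmul _ _ _ h2
  have h4 : ∑ A ∈ (Icc (-((3 * R : ℕ) : ℤ)) ((3 * R : ℕ) : ℤ)).erase 0,
      ((((pbx (3 * Zd R d1) (3 * Zd R d2)).filter
          (fun v => A ∣ nf d1 d2 v ∧ t ^ 100 < cont v)).card : ℕ) : ℝ) ≤
      (((pbx (3 * Zd R d1) (3 * Zd R d2)).filter (fun v => t ^ 100 < cont v)).card : ℝ) *
        (2 * t) := by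
    exact_mod_cast h3
  refine h4.trans ?_
  have h5 := cont_card (Zd R d1) (Zd R d2) (t ^ 100) (Nat.one_le_pow _ _ ht1)
  have z1 : 12 * (Zd R d1 : ℝ) ≤ R := by exact_mod_cast Zd_le R d1
  have z2 : 12 * (Zd R d2 : ℝ) ≤ R := by exact_mod_cast Zd_le R d2
  have y1 : (0 : ℝ) ≤ Zd R d1 := Nat.cast_nonneg _
  have y2 : (0 : ℝ) ≤ Zd R d2 := Nat.cast_nonneg _
  have h6 : 9 * (Zd R d1 : ℝ) * Zd R d2 ≤ R ^ 2 / 16 := by
    have h7 : (12 * (Zd R d1 : ℝ)) * (12 * (Zd R d2 : ℝ)) ≤ R * R :=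
      mul_le_mul z1 z2 (by positivity) (Nat.cast_nonneg _)
    nlinarith
  push_cast at h5
  have h8 : (((pbx (3 * Zd R d1) (3 * Zd R d2)).filter (fun v => t ^ 100 < cont v)).card : ℝ) ≤
      (R : ℝ) ^ 2 / 16 / (t : ℝ) ^ 100 :=
    h5.trans (div_le_div_of_nonneg_right h6 (by positivity))
  calc (((pbx (3 * Zd R d1) (3 * Zd R d2)).filter (fun v => t ^ 100 < cont v)).card : ℝ) *
        (2 * t) ≤ (R : ℝ) ^ 2 / 16 / (t : ℝ) ^ 100 * (2 * t) :=
        mul_le_mul_of_nonneg_right h8 (by positivity)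
    _ = (R : ℝ) ^ 2 / (8 * (t : ℝ) ^ 99) := by
      field_simp
      ring

/-- PROOF. `gram_eq`; split the `A` into `|A| < p ^ 3`, the other ones with `p ∣ A`, and the
rest (`GoodA`): the first two parts are at most `R ^ 2 / t ^ 20` each (`small_A`, `p_dvd_A`,
`norm_sum_le`). For a good `A` the inner sum is the sum of `one_A` (`TA_eq`, `Finset.sum_filter`), at
most `R ^ 2 / (t ^ 180 |A|) + t ^ 6 #{v : A ∣ nf v, cont v > t ^ 100}`. Sum over `A`: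
`∑ 1 / |A| ≤ 2 (1 + log (3 R)) ≤ t ^ 2` (harmonic numbers, `Par.hlog`), and
`∑ A, #{v : A ∣ nf v, cont v > t ^ 100} ≤ 2 t #{v ∈ box : cont v > t ^ 100} ≤ 2 t * 9 Z1 Z2 / t ^ 100
≤ R ^ 2 / t ^ 98` (`card_div`, `cont_card`, `12 Z_i ≤ R`). Total
`≤ R ^ 2 (2 / t ^ 20 + 1 / t ^ 178 + 1 / t ^ 92) ≤ R ^ 2 / t ^ 18`. -/
theorem orth {p t R d1 d2 : ℕ} [Fact p.Prime] {r1 r2 : ZMod p} (hP : Par p t R)
    (hD : DD p t d1 d2 r1 r2) (χ : MulChar (ZMod p) ℂ) (hχ : χ ≠ 1) :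
    ‖Gram χ R d1 d2 r1 r2‖ ≤ (R : ℝ) ^ 2 / t ^ 18 := by
  classical
  have T1000 : (1000 : ℝ) ≤ t := by exact_mod_cast hP.ht
  have hT0 : (0 : ℝ) < t := by linarith
  have ht1 : 1 ≤ t := by have := hP.ht; omega
  have htp : t ≤ p := by
    have h1 : t ^ 1 ≤ t ^ 1000 := Nat.pow_le_pow_right ht1 (by norm_num)
    rw [pow_one] at h1
    exact h1.trans hP.htp
  have hp10 : 10 ≤ p := by have := hP.ht; omega
  have hR0 : 0 < R := by
    have h1 : 1 ≤ p ^ 5 := Nat.one_le_pow _ _ (by omega)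
    have := hP.hR1
    omega
  rw [gram_eq hP hD χ]
  set S := (Icc (-((3 * R : ℕ) : ℤ)) ((3 * R : ℕ) : ℤ)).erase 0 with hS
  set B := pbx (3 * Zd R d1) (3 * Zd R d2) with hB
  refine (norm_sum_le _ _).trans ?_
  -- the bound for one `A`
  have key : ∀ A ∈ S, ‖∑ v ∈ B, TA χ R d1 d2 r1 r2 A v‖ ≤
      ((if |A| < (p : ℤ) ^ 3 then ∑ v ∈ B, ‖TA χ R d1 d2 r1 r2 A v‖ else 0) +
        (if (p : ℤ) ∣ A then ∑ v ∈ B, ‖TA χ R d1 d2 r1 r2 A v‖ else 0)) +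
      ((R : ℝ) ^ 2 / (t : ℝ) ^ 180 * (1 / |(A : ℝ)|) +
        (t : ℝ) ^ 6 * (((B.filter (fun v => A ∣ nf d1 d2 v ∧ t ^ 100 < cont v)).card : ℕ) : ℝ)) := by
    intro A hA
    have hnn : 0 ≤ ∑ v ∈ B, ‖TA χ R d1 d2 r1 r2 A v‖ := Finset.sum_nonneg fun _ _ => norm_nonneg _
    have hn1 : 0 ≤ (R : ℝ) ^ 2 / (t : ℝ) ^ 180 * (1 / |(A : ℝ)|) := by positivity
    have hn2 : 0 ≤ (t : ℝ) ^ 6 *
        (((B.filter (fun v => A ∣ nf d1 d2 v ∧ t ^ 100 < cont v)).card : ℕ) : ℝ) := by positivity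
    have htri : ‖∑ v ∈ B, TA χ R d1 d2 r1 r2 A v‖ ≤ ∑ v ∈ B, ‖TA χ R d1 d2 r1 r2 A v‖ :=
      norm_sum_le _ _
    by_cases h1 : |A| < (p : ℤ) ^ 3
    · rw [if_pos h1]
      have h3 : 0 ≤ (if (p : ℤ) ∣ A then ∑ v ∈ B, ‖TA χ R d1 d2 r1 r2 A v‖ else 0) := by
        split_ifs
        · exact hnn
        · exact le_rfl
      linarith
    · by_cases h2 : (p : ℤ) ∣ A
      · rw [if_neg h1, if_pos h2]
        linarith
      · rw [if_neg h1, if_neg h2, add_zero, zero_add]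
        have hgood : GoodA p R A := by
          refine ⟨not_lt.1 h1, ?_, h2⟩
          rw [hS, mem_erase, mem_Icc] at hA
          rw [abs_le]
          push_cast at hA
          exact ⟨by linarith [hA.2.1], by linarith [hA.2.2]⟩
        have h3 := one_A hP hD χ hχ hgood
        have h4 : ∑ v ∈ B, TA χ R d1 d2 r1 r2 A v =
            ∑ v ∈ B.filter (fun v => A ∣ nf d1 d2 v), EA χ R d1 d2 r1 r2 A v := by
          rw [Finset.sum_filter]
          exact Finset.sum_congr rfl fun v _ => TA_eq hD χ h2 v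
        rw [h4]
        refine h3.trans (le_of_eq ?_)
        rw [← hB]
        congr 1
        rw [div_mul_div_comm, mul_one]
  refine (Finset.sum_le_sum key).trans ?_
  rw [Finset.sum_add_distrib, Finset.sum_add_distrib, Finset.sum_add_distrib, ← Finset.sum_filter,
    ← Finset.sum_filter, ← Finset.mul_sum, ← Finset.mul_sum]
  have e1 := small_A hP hD χ
  have e2 := p_dvd_A hP hD χ
  have e3 := prm5_count hP hD
  have e4 := prm5_inv (3 * R)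
  rw [← hS, ← hB] at e1 e2 e3
  rw [← hS] at e4
  have e5 : 2 * (1 + Real.log ((3 * R : ℕ) : ℝ)) ≤ (t : ℝ) ^ 2 := by
    have h1 : ((3 * R : ℕ) : ℝ) ≤ (p : ℝ) ^ 20 := by
      have h2 : 3 * R ≤ p ^ 20 := by
        calc 3 * R ≤ p * p ^ 6 := Nat.mul_le_mul (by omega) hP.hR2
          _ = p ^ 7 := by ring
          _ ≤ p ^ 20 := Nat.pow_le_pow_right (by omega) (by norm_num)
      exact_mod_cast h2
    have h2 : Real.log ((3 * R : ℕ) : ℝ) ≤ t := by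
      refine (Real.log_le_log ?_ h1).trans hP.hlog
      have : 0 < 3 * R := by omega
      exact_mod_cast this
    nlinarith
  have hR2 : (0 : ℝ) ≤ (R : ℝ) ^ 2 := sq_nonneg _
  have f1 : (R : ℝ) ^ 2 / (t : ℝ) ^ 180 * ∑ A ∈ S, 1 / |(A : ℝ)| ≤ (R : ℝ) ^ 2 / (t : ℝ) ^ 178 := by
    calc (R : ℝ) ^ 2 / (t : ℝ) ^ 180 * ∑ A ∈ S, 1 / |(A : ℝ)| ≤
        (R : ℝ) ^ 2 / (t : ℝ) ^ 180 * (t : ℝ) ^ 2 :=
          mul_le_mul_of_nonneg_left (e4.trans e5) (by positivity)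
      _ = (R : ℝ) ^ 2 / (t : ℝ) ^ 178 := by
        field_simp
  have f2 : (t : ℝ) ^ 6 * ∑ A ∈ S,
      (((B.filter (fun v => A ∣ nf d1 d2 v ∧ t ^ 100 < cont v)).card : ℕ) : ℝ) ≤
      (R : ℝ) ^ 2 / (t : ℝ) ^ 93 := by
    calc (t : ℝ) ^ 6 * ∑ A ∈ S,
        (((B.filter (fun v => A ∣ nf d1 d2 v ∧ t ^ 100 < cont v)).card : ℕ) : ℝ) ≤
        (t : ℝ) ^ 6 * ((R : ℝ) ^ 2 / (8 * (t : ℝ) ^ 99)) :=
          mul_le_mul_of_nonneg_left e3 (by positivity)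
      _ = (R : ℝ) ^ 2 / (t : ℝ) ^ 93 * (1 / 8) := by
        field_simp
      _ ≤ (R : ℝ) ^ 2 / (t : ℝ) ^ 93 * 1 :=
        mul_le_mul_of_nonneg_left (by norm_num) (by positivity)
      _ = (R : ℝ) ^ 2 / (t : ℝ) ^ 93 := mul_one _
  -- the final comparison
  have g : ∀ n : ℕ, 20 ≤ n → (R : ℝ) ^ 2 / (t : ℝ) ^ n ≤ (R : ℝ) ^ 2 / (t : ℝ) ^ 18 * (1 / 4) := by
    intro n hn
    have h1 : (t : ℝ) ^ 20 ≤ (t : ℝ) ^ n := pow_le_pow_right₀ (by linarith) hn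
    calc (R : ℝ) ^ 2 / (t : ℝ) ^ n ≤ (R : ℝ) ^ 2 / (t : ℝ) ^ 20 :=
          div_le_div_of_nonneg_left hR2 (by positivity) h1
      _ = (R : ℝ) ^ 2 / (t : ℝ) ^ 18 * (1 / (t : ℝ) ^ 2) := by
        field_simp
      _ ≤ (R : ℝ) ^ 2 / (t : ℝ) ^ 18 * (1 / 4) := by
        refine mul_le_mul_of_nonneg_left ?_ (by positivity)
        apply one_div_le_one_div_of_le (by norm_num)
        nlinarith
  have g1 := g 20 le_rfl
  have g2 := g 178 (by norm_num)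
  have g3 := g 93 (by norm_num)
  linarith

end Pool.Agent.LHf
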