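import Pool.Agent.LHf.Bess
import Pool.Agent.LHf.Prm5
import Pool.Agent.LHf.Diag2

/-! MODULE MAINM: the large sieve inequality for the characters. -/

set_option autoImplicit false

namespace Pool.Agent.LHf

open Finset

private theorem mainm_par {p t R P : ℕ} (hPar : Par p t R) {D : Finset ℕ} {r : ℕ → ZMod p}
    (hF : Fam p t P D r) : 1200 * P ≤ R ∧ P ≤ t ∧ 1 ≤ R := by
  have h1 := hPar.ht
  have h2 := hPar.htp
  have h3 := hPar.hR1
  have hP := hF.hP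
  have hPt := hF.hPt
  have hPt' : P ≤ t := by nlinarith
  have htp : t ^ 2 ≤ p := (Nat.pow_le_pow_right (by omega) (by norm_num)).trans h2
  have htp' : t ≤ p := by nlinarith
  have hp1 : 1 ≤ p := by omega
  have hp5 : p ^ 2 ≤ p ^ 5 := Nat.pow_le_pow_right hp1 (by norm_num)
  have h4 : 1200 * P ≤ p ^ 2 := by nlinarith
  have h5 : 1 ≤ p ^ 5 := Nat.one_le_pow _ _ hp1
  exact ⟨by omega, hPt', by omega⟩

private theorem mainm_diag {p t R P : ℕ} [Fact p.Prime] (hPar : Par p t R) {D : Finset ℕ}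
    {r : ℕ → ZMod p} (hF : Fam p t P D r) (hlogP : 90 * (1 + Real.log R) ^ 2 ≤ P)
    (χ : MulChar (ZMod p) ℂ) {d : ℕ} (hd : d ∈ D) :
    ‖Gram χ R d d (r d) (r d)‖ ≤ 7 * (R : ℝ) ^ 2 / P := by
  obtain ⟨hR, -, hR1⟩ := mainm_par hPar hF
  have hd1 : 1 ≤ d := by
    have := hF.hlo d hd
    have := hF.hP
    nlinarith
  have hZ : 1 ≤ Zd R d := by
    have h0 := le_Zd hF.hP (hF.hhi d hd) hR
    by_contra hcon
    have h00 : Zd R d = 0 := by omega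
    rw [h00] at h0
    omega
  have h1 := diag hd1 hZ χ (r d)
  have h2 := Zd_le' (R := R) (hF.hlo d hd)
  have h3 := Zd_le R d
  have h4 := hF.hdiv d hd
  have hZ1 : (1 : ℝ) ≤ (Zd R d : ℝ) := by exact_mod_cast hZ
  have hP1 : (1 : ℝ) ≤ P := by exact_mod_cast hF.hP
  have h2' : 3 * (P : ℝ) * (Zd R d : ℝ) ≤ 2 * R := by exact_mod_cast h2
  have h3' : 12 * (Zd R d : ℝ) ≤ R := by exact_mod_cast h3
  set Z : ℝ := (Zd R d : ℝ) with hZdef
  have h4' : (d.divisors.card : ℝ) ≤ 4 := by exact_mod_cast h4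
  have hlog : Real.log (6 * Z) ≤ Real.log R := Real.log_le_log (by linarith) (by linarith)
  have hlog0 : 0 ≤ Real.log (6 * Z) := Real.log_nonneg (by linarith)
  set L : ℝ := (1 + Real.log R) ^ 2 with hL
  have hLL : (1 + Real.log (6 * Z)) ^ 2 ≤ L := by
    rw [hL]
    gcongr
  have hL0 : 0 ≤ L := sq_nonneg _
  have hR0 : (0 : ℝ) ≤ R := Nat.cast_nonneg _
  have e1 : 48 * (d.divisors.card : ℝ) * Z ^ 2 * (1 + Real.log (6 * Z)) ^ 2 ≤
      192 * Z ^ 2 * L := by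
    have : 48 * (d.divisors.card : ℝ) * Z ^ 2 ≤ 192 * Z ^ 2 := by nlinarith [sq_nonneg Z]
    exact mul_le_mul this hLL (sq_nonneg _) (by positivity)
  refine h1.trans ?_
  have hPpos : (0 : ℝ) < P := by linarith
  rw [le_div_iff₀ hPpos]
  have e2 : 9 * R * Z * P ≤ 6 * (R : ℝ) ^ 2 := by nlinarith
  have e3 : (P : ℝ) * Z ≤ 2 / 3 * R := by linarith
  have e4 : (P * Z) ^ 2 ≤ (2 / 3 * R) ^ 2 := by
    have : 0 ≤ (P : ℝ) * Z := by positivity
    gcongr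
  have e5 : 192 * Z ^ 2 * L * P ≤ (R : ℝ) ^ 2 := by
    have e6 : 192 * Z ^ 2 * L * P * 90 ≤ 192 * Z ^ 2 * P * P := by
      have : 192 * Z ^ 2 * P * (90 * L) ≤ 192 * Z ^ 2 * P * P :=
        mul_le_mul_of_nonneg_left hlogP (by positivity)
      linarith
    nlinarith
  nlinarith

private theorem mainm_off {p t R P : ℕ} [Fact p.Prime] (hPar : Par p t R) {D : Finset ℕ}
    {r : ℕ → ZMod p} (hF : Fam p t P D r)
    (χ : MulChar (ZMod p) ℂ) (hχ : χ ≠ 1) {d d' : ℕ} (hd : d ∈ D) (hd' : d' ∈ D) (hne : d ≠ d') :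
    ‖Gram χ R d d' (r d) (r d')‖ ≤ (R : ℝ) ^ 2 / t ^ 18 := by
  have h1 : ∀ e ∈ D, 1 ≤ e ∧ e ≤ t := by
    intro e he
    have h2 := hF.hlo e he
    have h3 := hF.hhi e he
    have h4 := hF.hP
    have h5 := hF.hPt
    exact ⟨by nlinarith, h3.trans h5⟩
  exact orth hPar ⟨(h1 d hd).1, (h1 d' hd').1, (h1 d hd).2, (h1 d' hd').2,
    hF.hns d hd d' hd' hne, hF.hr d hd, hF.hr d' hd'⟩ χ hχ

/-- `T ⊆ [1, 9 R ^ 2]`. PROOF. Apply `bess` to `Ω = {(d, a) : d ∈ D, a ∈ pbx (3R) (3 Zd R d)}`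
(`Finset.sigma`, `ι = Σ d, ℤ × ℤ` or `ℕ × (ℤ × ℤ)` with a filter), `n (d, a) = nd d a`,
`a (d, a) = tm ..`. `card T ≤ 9 R ^ 2`. The double sum is `∑ d, d' ∈ D, Gram χ R d d' (r d) (r d')`.
For `d ≠ d'`: `‖Gram‖ ≤ R ^ 2 / t ^ 18` (`orth`; `DD` from `Fam`: `1 ≤ d` because `P ≥ 1` and
`P ^ 2 ≤ 64 d`). For `d = d'`: `diag`: with `3 P Z ≤ 2 R` (`Zd_le'`) it is at most
`6 R ^ 2 / P + 192 (4 / 9) (R / P) ^ 2 (1 + log R) ^ 2 ≤ 7 R ^ 2 / P` by `hlogP`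
(`6 Z ≤ R`). `Zd R d ≥ 1` by `le_Zd`. Total:
`9 R ^ 2 (card D * 7 R ^ 2 / P + card D ^ 2 R ^ 2 / t ^ 18)`, and
`card D ≤ P ^ 2 ≤ t`, so `card D / t ^ 18 ≤ 1 / P`. -/
theorem mainM {p t R P : ℕ} [Fact p.Prime] (hPar : Par p t R) {D : Finset ℕ} {r : ℕ → ZMod p}
    (hF : Fam p t P D r) (hlogP : 90 * (1 + Real.log R) ^ 2 ≤ P) (χ : MulChar (ZMod p) ℂ)
    (hχ : χ ≠ 1) (T : Finset ℤ) (hT : ∀ m ∈ T, 1 ≤ m ∧ m ≤ 9 * (R : ℤ) ^ 2) :
    ‖∑ d ∈ D, ∑ a ∈ pbx (3 * R) (3 * Zd R d),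
      if nd d a ∈ T then tm χ R (Zd R d) (r d) a else 0‖ ^ 2 ≤
        72 * (R : ℝ) ^ 4 * D.card / P := by
  classical
  obtain ⟨-, hPt, hR1⟩ := mainm_par hPar hF
  have hP1 : (1 : ℝ) ≤ P := by exact_mod_cast hF.hP
  have hPpos : (0 : ℝ) < P := by linarith
  have ht1 : (1 : ℝ) ≤ t := by
    have := hPar.ht
    exact_mod_cast (by omega : 1 ≤ t)
  have hb := bess (ι := Σ _ : ℕ, ℤ × ℤ) (D.sigma fun d => pbx (3 * R) (3 * Zd R d))
    (fun ω => nd ω.1 ω.2) (fun ω => tm χ R (Zd R ω.1) (r ω.1) ω.2) T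
  rw [Finset.sum_sigma, Finset.sum_sigma] at hb
  simp only [Finset.sum_sigma] at hb
  refine hb.trans ?_
  have hdouble : ∑ d ∈ D, ∑ a ∈ pbx (3 * R) (3 * Zd R d), ∑ d' ∈ D,
      ∑ b ∈ pbx (3 * R) (3 * Zd R d'), (if nd d a = nd d' b then
        tm χ R (Zd R d) (r d) a * (starRingEnd ℂ) (tm χ R (Zd R d') (r d') b) else 0) =
      ∑ d ∈ D, ∑ d' ∈ D, Gram χ R d d' (r d) (r d') := by
    refine Finset.sum_congr rfl fun d _ => ?_
    rw [Finset.sum_comm]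
    rfl
  rw [hdouble]
  have hTc : (T.card : ℝ) ≤ 9 * (R : ℝ) ^ 2 := by
    have h1 : T ⊆ Finset.Icc (1 : ℤ) (9 * (R : ℤ) ^ 2) := fun m hm => by
      rw [Finset.mem_Icc]
      exact hT m hm
    have h2 := Finset.card_le_card h1
    rw [Int.card_Icc] at h2
    have h3 : (9 * (R : ℤ) ^ 2 + 1 - 1).toNat = 9 * R ^ 2 := by
      have : (9 * (R : ℤ) ^ 2 + 1 - 1) = ((9 * R ^ 2 : ℕ) : ℤ) := by push_cast; ring
      rw [this, Int.toNat_natCast]
    rw [h3] at h2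
    exact_mod_cast h2
  have hDc : (D.card : ℝ) * P ≤ t ^ 18 := by
    have h1 : D ⊆ Finset.Icc 1 (P ^ 2) := fun d hd => by
      rw [Finset.mem_Icc]
      have h2 := hF.hlo d hd
      have h3 := hF.hhi d hd
      have h4 := hF.hP
      exact ⟨by nlinarith, h3⟩
    have h2 := Finset.card_le_card h1
    rw [Nat.card_Icc] at h2
    have h3 : D.card ≤ t := by
      have := hF.hPt
      omega
    have h4 : D.card * P ≤ t ^ 18 := by
      have h5 : D.card * P ≤ t * t := Nat.mul_le_mul h3 hPt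
      have h6 : t ^ 2 ≤ t ^ 18 := Nat.pow_le_pow_right (by have := hPar.ht; omega) (by norm_num)
      nlinarith
    exact_mod_cast h4
  have hG : ‖∑ d ∈ D, ∑ d' ∈ D, Gram χ R d d' (r d) (r d')‖ ≤
      D.card * (8 * (R : ℝ) ^ 2 / P) := by
    refine (norm_sum_le _ _).trans ?_
    have : ∀ d ∈ D, ‖∑ d' ∈ D, Gram χ R d d' (r d) (r d')‖ ≤ 8 * (R : ℝ) ^ 2 / P := by
      intro d hd
      rw [← Finset.add_sum_erase _ _ hd]
      refine (norm_add_le _ _).trans ?_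
      have h1 := mainm_diag hPar hF hlogP χ hd
      have h2 : ‖∑ d' ∈ D.erase d, Gram χ R d d' (r d) (r d')‖ ≤ (R : ℝ) ^ 2 / P := by
        refine (norm_sum_le _ _).trans ?_
        calc ∑ d' ∈ D.erase d, ‖Gram χ R d d' (r d) (r d')‖ ≤
              ∑ _d' ∈ D.erase d, (R : ℝ) ^ 2 / t ^ 18 := by
              refine Finset.sum_le_sum fun d' hd' => ?_
              exact mainm_off hPar hF χ hχ hd (Finset.mem_of_mem_erase hd')
                (Finset.ne_of_mem_erase hd').symm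
          _ = (D.erase d).card * ((R : ℝ) ^ 2 / t ^ 18) := by simp
          _ ≤ D.card * ((R : ℝ) ^ 2 / t ^ 18) := by
              have : ((D.erase d).card : ℝ) ≤ D.card := by
                exact_mod_cast Finset.card_le_card (Finset.erase_subset _ _)
              gcongr
          _ ≤ (R : ℝ) ^ 2 / P := by
              rw [le_div_iff₀ hPpos]
              have e1 : (D.card : ℝ) * ((R : ℝ) ^ 2 / t ^ 18) * P =
                  (R : ℝ) ^ 2 * ((D.card * P) / t ^ 18) := by ring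
              rw [e1]
              have e2 : (D.card : ℝ) * P / t ^ 18 ≤ 1 := by
                rw [div_le_one (by positivity)]
                exact hDc
              nlinarith [sq_nonneg (R : ℝ)]
      calc _ ≤ 7 * (R : ℝ) ^ 2 / P + (R : ℝ) ^ 2 / P := add_le_add h1 h2
        _ = 8 * (R : ℝ) ^ 2 / P := by ring
    calc _ ≤ ∑ _d ∈ D, 8 * (R : ℝ) ^ 2 / P := Finset.sum_le_sum this
      _ = D.card * (8 * (R : ℝ) ^ 2 / P) := by simp
  calc (T.card : ℝ) * ‖∑ d ∈ D, ∑ d' ∈ D, Gram χ R d d' (r d) (r d')‖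
      ≤ (9 * (R : ℝ) ^ 2) * (D.card * (8 * (R : ℝ) ^ 2 / P)) :=
        mul_le_mul hTc hG (norm_nonneg _) (by positivity)
    _ = 72 * (R : ℝ) ^ 4 * D.card / P := by ring

end Pool.Agent.LHf
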