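import Pool.Agent.LHf.Defs

/-! MODULE MEAN: the mean value of the summand over all pairs of residues. -/

set_option autoImplicit false

namespace Pool.Agent.LHf

open Finset

private theorem mn_norm_le {p : ℕ} [Fact p.Prime] (χ : MulChar (ZMod p) ℂ) (x : ZMod p) :
    ‖χ x‖ ≤ 1 := DirichletCharacter.norm_le_one χ x

private theorem mn_conj {p : ℕ} [Fact p.Prime] (χ : MulChar (ZMod p) ℂ) (x : ZMod p) :
    (starRingEnd ℂ) (χ x) = χ x⁻¹ := by
  have h := MulChar.star_apply' χ x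
  rw [MulChar.inv_apply'] at h
  exact h

theorem FA_norm_le {p : ℕ} [Fact p.Prime] (χ : MulChar (ZMod p) ℂ) (r1 r2 A : ZMod p)
    (c : ZMod p × ZMod p) : ‖FA χ r1 r2 A c‖ ≤ 1 := by
  unfold FA
  rw [norm_mul, RCLike.norm_conj]
  exact mul_le_one₀ (mn_norm_le χ _) (norm_nonneg _) (mn_norm_le χ _)

/-- the sum over `s` -/
private theorem mn_sum {p : ℕ} [Fact p.Prime] (hp : p ≠ 2) (χ : MulChar (ZMod p) ℂ) (hχ : χ ≠ 1)
    (A : ZMod p) (hA : A ≠ 0) : ∑ s : ZMod p, χ (A + s) * χ (s - A)⁻¹ = -1 := by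
  have h2 : (2 : ZMod p) ≠ 0 := by
    intro h
    have h3 : (p : ℕ) ∣ 2 := by
      rw [← ZMod.natCast_eq_zero_iff]
      exact_mod_cast h
    have h4 := (Nat.prime_dvd_prime_iff_eq (Fact.out : p.Prime) Nat.prime_two).1 h3
    exact hp h4
  -- the bijection `s ↦ (s - A)⁻¹`
  have e1 : ∑ s : ZMod p, χ (A + s) * χ (s - A)⁻¹ = ∑ u : ZMod p, χ (A + (u⁻¹ + A)) * χ u := by
    refine Fintype.sum_bijective (fun s : ZMod p => (s - A)⁻¹) ?_ _ _ ?_
    · refine ⟨?_, ?_⟩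
      · intro s s' h
        have h5 : s - A = s' - A := inv_injective h
        exact sub_left_injective h5
      · intro u
        refine ⟨u⁻¹ + A, ?_⟩
        show (u⁻¹ + A - A)⁻¹ = u
        rw [add_sub_cancel_right, inv_inv]
    · intro s
      show χ (A + s) * χ (s - A)⁻¹ = χ (A + (((s - A)⁻¹)⁻¹ + A)) * χ (s - A)⁻¹
      rw [inv_inv, sub_add_cancel]
  have e2 : ∀ u : ZMod p, χ (A + (u⁻¹ + A)) * χ u =
      χ (2 * A * u + 1) - if u = 0 then 1 else 0 := by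
    intro u
    by_cases hu : u = 0
    · subst hu
      rw [if_pos rfl, MulChar.map_zero, mul_zero, mul_zero, zero_add, MulChar.map_one, sub_self]
    · rw [if_neg hu, sub_zero, ← map_mul]
      congr 1
      field_simp
      ring
  rw [e1, Finset.sum_congr rfl fun u _ => e2 u, Finset.sum_sub_distrib, Finset.sum_ite_eq']
  have e3 : ∑ u : ZMod p, χ (2 * A * u + 1) = ∑ y : ZMod p, χ y := by
    refine Fintype.sum_bijective (fun u : ZMod p => 2 * A * u + 1) ?_ _ _ (fun _ => rfl)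
    have h6 : (2 * A : ZMod p) ≠ 0 := mul_ne_zero h2 hA
    refine ⟨?_, ?_⟩
    · intro u u' h
      exact mul_left_cancel₀ h6 (add_right_cancel h)
    · intro y
      refine ⟨(2 * A)⁻¹ * (y - 1), ?_⟩
      show 2 * A * ((2 * A)⁻¹ * (y - 1)) + 1 = y
      rw [mul_inv_cancel_left₀ h6, sub_add_cancel]
  rw [e3, MulChar.sum_eq_zero_of_ne_one hχ]
  simp

/-- PROOF. Replacing `c` by `k c` is a bijection, so `k = 1`. With `s = r1 c1 + r2 c2`,
`t = r1 c1 - r2 c2` (`(c1, c2) ↦ (s, t)` is a bijection of `ZMod p × ZMod p` because `2, r1, r2` are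
invertible) we have `r1^2 c1^2 - r2^2 c2^2 = s t`, `2 c1 r1 = s + t`, `2 c2 r2 = s - t`, so the
arguments of the two characters are `(A + s) (A + t) / A` and `(s - A) (t + A) / A`. So the summand is
`χ (A + s) * conj (χ (s - A)) * |χ (t + A) / χ A| ^ 2 * ...` = `χ (s + A) * conj (χ (s - A))` if
`t ≠ -A` and `0` if `t = -A`. The sum is `(p - 1) * ∑ s, χ (s + A) * conj (χ (s - A))`. In this sum
`s = A` gives zero; for `s ≠ A` the term is `χ ((s + A) / (s - A))` and `s ↦ (s + A) / (s - A)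
= 1 + 2 A / (s - A)` is a bijection from `s ≠ A` to `y ≠ 1`; so it is `∑ y ≠ 1, χ y = - χ 1 = -1`
(`MulChar.sum_eq_zero_of_ne_one`). So the norm is `p - 1`. -/
theorem mean {p : ℕ} [Fact p.Prime] (hp : p ≠ 2) (χ : MulChar (ZMod p) ℂ) (hχ : χ ≠ 1)
    (r1 r2 A k : ZMod p) (h1 : r1 ≠ 0) (h2 : r2 ≠ 0) (hA : A ≠ 0) (hk : k ≠ 0) :
    ‖∑ c : ZMod p × ZMod p, FA χ r1 r2 A (k * c.1, k * c.2)‖ ≤ p := by
  have h20 : (2 : ZMod p) ≠ 0 := by
    intro h
    have h3 : (p : ℕ) ∣ 2 := by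
      rw [← ZMod.natCast_eq_zero_iff]
      exact_mod_cast h
    have h4 := (Nat.prime_dvd_prime_iff_eq (Fact.out : p.Prime) Nat.prime_two).1 h3
    exact hp h4
  set G : ZMod p × ZMod p → ℂ := fun q =>
    (χ (A + q.1) * χ (q.1 - A)⁻¹) * (χ ((A + q.2) * A⁻¹) * χ ((A + q.2) * A⁻¹)⁻¹) with hG
  have e1 : ∑ c : ZMod p × ZMod p, FA χ r1 r2 A (k * c.1, k * c.2) = ∑ q, G q := by
    refine Fintype.sum_bijective
      (fun c : ZMod p × ZMod p => (r1 * (k * c.1) + r2 * (k * c.2), r1 * (k * c.1) - r2 * (k * c.2)))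
      ?_ _ _ ?_
    · refine ⟨?_, ?_⟩
      · rintro ⟨c1, c2⟩ ⟨c3, c4⟩ h
        simp only [Prod.mk.injEq] at h
        obtain ⟨h5, h6⟩ := h
        have h7 : (2 * r1 * k) * c1 = (2 * r1 * k) * c3 := by linear_combination h5 + h6
        have h8 : (2 * r2 * k) * c2 = (2 * r2 * k) * c4 := by linear_combination h5 - h6
        rw [mul_left_cancel₀ (mul_ne_zero (mul_ne_zero h20 h1) hk) h7,
          mul_left_cancel₀ (mul_ne_zero (mul_ne_zero h20 h2) hk) h8]
      · rintro ⟨s, t⟩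
        refine ⟨((s + t) / (2 * r1 * k), (s - t) / (2 * r2 * k)), ?_⟩
        refine Prod.ext ?_ ?_
        · show r1 * (k * ((s + t) / (2 * r1 * k))) + r2 * (k * ((s - t) / (2 * r2 * k))) = s
          field_simp
          ring
        · show r1 * (k * ((s + t) / (2 * r1 * k))) - r2 * (k * ((s - t) / (2 * r2 * k))) = t
          field_simp
          ring
    · rintro ⟨c1, c2⟩
      simp only [hG, FA]
      rw [mn_conj]
      have a1 : A + (r1 ^ 2 * (k * c1) ^ 2 - r2 ^ 2 * (k * c2) ^ 2) * A⁻¹ + 2 * (k * c1) * r1 =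
          (A + (r1 * (k * c1) + r2 * (k * c2))) *
            ((A + (r1 * (k * c1) - r2 * (k * c2))) * A⁻¹) := by
        field_simp
        ring
      have a2 : (r1 ^ 2 * (k * c1) ^ 2 - r2 ^ 2 * (k * c2) ^ 2) * A⁻¹ - A + 2 * (k * c2) * r2 =
          ((r1 * (k * c1) + r2 * (k * c2)) - A) *
            ((A + (r1 * (k * c1) - r2 * (k * c2))) * A⁻¹) := by
        field_simp
        ring
      rw [a1, a2, mul_inv (r1 * (k * c1) + r2 * (k * c2) - A), map_mul, map_mul χ _ (_ * A⁻¹)⁻¹]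
      ring
  rw [e1, Fintype.sum_prod_type]
  simp only [hG]
  rw [show (∑ x : ZMod p, ∑ y : ZMod p, (χ (A + x) * χ (x - A)⁻¹) *
      (χ ((A + y) * A⁻¹) * χ ((A + y) * A⁻¹)⁻¹)) =
      (∑ x : ZMod p, χ (A + x) * χ (x - A)⁻¹) *
        ∑ y : ZMod p, (χ ((A + y) * A⁻¹) * χ ((A + y) * A⁻¹)⁻¹) from by
    rw [Finset.sum_mul_sum]]
  rw [mn_sum hp χ hχ A hA, norm_mul, norm_neg, norm_one, one_mul]
  refine (norm_sum_le _ _).trans ?_
  calc ∑ y : ZMod p, ‖χ ((A + y) * A⁻¹) * χ ((A + y) * A⁻¹)⁻¹‖ ≤ ∑ _y : ZMod p, (1 : ℝ) := by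
        refine Finset.sum_le_sum fun y _ => ?_
        rw [norm_mul]
        exact mul_le_one₀ (mn_norm_le χ _) (norm_nonneg _) (mn_norm_le χ _)
    _ = p := by
        rw [Finset.sum_const, Finset.card_univ, ZMod.card, nsmul_eq_mul, mul_one]

end Pool.Agent.LHf
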