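import Pool.Agent.LHf.Defs

/-! MODULE PACK: a packing bound. -/

set_option autoImplicit false

namespace Pool.Agent.LHf

open Finset

private theorem pack_close {l x y : ℝ} (hl : 0 < l) (hx : 0 ≤ x) (hy : 0 ≤ y)
    (h : ⌊x / l⌋₊ = ⌊y / l⌋₊) : |x - y| < l := by
  have h1 := Nat.floor_le (div_nonneg hx hl.le)
  have h2 := Nat.lt_floor_add_one (x / l)
  have h3 := Nat.floor_le (div_nonneg hy hl.le)
  have h4 := Nat.lt_floor_add_one (y / l)
  rw [h] at h1 h2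
  have h5 : |x / l - y / l| < 1 := by rw [abs_lt]; constructor <;> linarith
  rw [← sub_div, abs_div, abs_of_pos hl, div_lt_one hl] at h5
  exact h5

private theorem pack_coord {K : ℝ} {v : ℤ × ℤ} (h : (sn v : ℝ) ≤ K) :
    (-K ≤ (v.1 : ℝ) ∧ (v.1 : ℝ) ≤ K) ∧ (-K ≤ (v.2 : ℝ) ∧ (v.2 : ℝ) ≤ K) := by
  have h1 : |(v.1 : ℝ)| ≤ K := by
    refine le_trans ?_ h
    have h2 : v.1.natAbs ≤ sn v := le_max_left _ _
    have h3 : ((v.1.natAbs : ℕ) : ℝ) ≤ sn v := by exact_mod_cast h2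
    rwa [Nat.cast_natAbs, Int.cast_abs] at h3
  have h1' : |(v.2 : ℝ)| ≤ K := by
    refine le_trans ?_ h
    have h2 : v.2.natAbs ≤ sn v := le_max_right _ _
    have h3 : ((v.2.natAbs : ℕ) : ℝ) ≤ sn v := by exact_mod_cast h2
    rwa [Nat.cast_natAbs, Int.cast_abs] at h3
  exact ⟨abs_le.1 h1, abs_le.1 h1'⟩

private theorem pack_sn_lt {l : ℝ} {v : ℤ × ℤ} (h1 : |(v.1 : ℝ)| < l) (h2 : |(v.2 : ℝ)| < l) :
    (sn v : ℝ) < l := by
  unfold sn
  rw [Nat.cast_max, Nat.cast_natAbs, Nat.cast_natAbs, Int.cast_abs, Int.cast_abs]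
  exact max_lt h1 h2

/-- PROOF. Let `l = sqrt (a / q) > 0`. Two different points of `P` have sup distance `≥ l`. Map
`v` to `(⌊(v1 + K) / l⌋₊, ⌊(v2 + K) / l⌋₊)`: two points with the same image differ by less than `l`
in both coordinates (`|x - y| < l` if `⌊x / l⌋₊ = ⌊y / l⌋₊`, `x, y ≥ 0`), so the map is injective on
`P`; the values are in `range (⌊2 K / l⌋₊ + 1) ×ˢ range (⌊2 K / l⌋₊ + 1)`. So
`card P ≤ (2 K / l + 1) ^ 2 ≤ 2 (2 K / l) ^ 2 + 2 = 8 K ^ 2 q / a + 2`. -/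
theorem pack (P : Finset (ℤ × ℤ)) (K q a : ℝ) (hK : 0 ≤ K) (hq : 0 < q) (ha : 0 < a)
    (hP : ∀ v ∈ P, (sn v : ℝ) ≤ K)
    (hsep : ∀ v ∈ P, ∀ w ∈ P, v ≠ w → a ≤ q * (sn (v - w) : ℝ) ^ 2) :
    (P.card : ℝ) ≤ 8 * K ^ 2 * q / a + 2 := by
  set l : ℝ := Real.sqrt (a / q) with hl
  have hl0 : 0 < l := Real.sqrt_pos.2 (div_pos ha hq)
  have hl2 : l ^ 2 = a / q := Real.sq_sqrt (div_pos ha hq).le
  set N : ℕ := ⌊2 * K / l⌋₊ with hN
  have hcard : P.card ≤ (range (N + 1) ×ˢ range (N + 1)).card := by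
    refine Finset.card_le_card_of_injOn
      (fun v => (⌊((v.1 : ℝ) + K) / l⌋₊, ⌊((v.2 : ℝ) + K) / l⌋₊)) ?_ ?_
    · intro v hv
      obtain ⟨⟨h1, h2⟩, h3, h4⟩ := pack_coord (hP v hv)
      simp only [coe_product, coe_range, Set.mem_prod, Set.mem_Iio]
      refine ⟨Nat.lt_succ_of_le (Nat.floor_le_floor ?_), Nat.lt_succ_of_le (Nat.floor_le_floor ?_)⟩
      · exact div_le_div_of_nonneg_right (by linarith) hl0.le
      · exact div_le_div_of_nonneg_right (by linarith) hl0.le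
    · intro v hv w hw hvw
      by_contra hne
      obtain ⟨⟨h1, h2⟩, h3, h4⟩ := pack_coord (hP v hv)
      obtain ⟨⟨h1', h2'⟩, h3', h4'⟩ := pack_coord (hP w hw)
      have e1 := congrArg Prod.fst hvw
      have e2 := congrArg Prod.snd hvw
      simp only at e1 e2
      have c1 := pack_close hl0 (by linarith) (by linarith) e1
      have c2 := pack_close hl0 (by linarith) (by linarith) e2
      have c3 : (sn (v - w) : ℝ) < l := by
        apply pack_sn_lt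
        · rw [Prod.fst_sub, Int.cast_sub]
          have : (v.1 : ℝ) - w.1 = (v.1 + K) - (w.1 + K) := by ring
          rw [this]; exact c1
        · rw [Prod.snd_sub, Int.cast_sub]
          have : (v.2 : ℝ) - w.2 = (v.2 + K) - (w.2 + K) := by ring
          rw [this]; exact c2
      have c4 := hsep v hv w hw hne
      have c5 : (sn (v - w) : ℝ) ^ 2 < l ^ 2 := by
        have : (0 : ℝ) ≤ sn (v - w) := Nat.cast_nonneg _
        nlinarith
      rw [hl2, lt_div_iff₀ hq] at c5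
      linarith
  rw [card_product, card_range] at hcard
  have hN' : (N : ℝ) ≤ 2 * K / l := Nat.floor_le (div_nonneg (by linarith) hl0.le)
  have h1 : (P.card : ℝ) ≤ ((N : ℝ) + 1) * ((N : ℝ) + 1) := by exact_mod_cast hcard
  have h2 : (N : ℝ) ^ 2 ≤ (2 * K / l) ^ 2 := by
    have : (0 : ℝ) ≤ N := Nat.cast_nonneg _
    exact pow_le_pow_left₀ this hN' 2
  have h3 : (2 * K / l) ^ 2 = 4 * K ^ 2 * q / a := by
    rw [div_pow, hl2]
    field_simp
    ring
  rw [h3] at h2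
  have h4 : 8 * K ^ 2 * q / a = 2 * (4 * K ^ 2 * q / a) := by ring
  rw [h4]
  nlinarith [sq_nonneg ((N : ℝ) - 1)]

end Pool.Agent.LHf
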