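import Pool.Agent.LHf.Lat
import Pool.Agent.LHf.Pack
import Pool.Agent.LHf.Zdb

/-! MODULE ONE1: counting the points of the lattice. -/

set_option autoImplicit false

namespace Pool.Agent.LHf

open Finset

/-- MODULE ONE1 (counting). PROOF. Let `a = |A|`, `a' = apr a g` (so `a ≤ g ^ 2 a'`, because
`gcd (a, g ^ 2) ≤ g ^ 2`). Apply `pack` with `q = e ^ 2 t`, `a'` and this `K`: if `w ≠ w'` are in the
set then `e (w - w')` is in the lattice, so `a' ∣ nf (e (w - w')) = e ^ 2 nf (w - w')`, which is not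
zero (`nf_ne_zero`), so `a' ≤ e ^ 2 |nf (w - w')| ≤ e ^ 2 t sn (w - w') ^ 2`. -/
theorem one_count {p t R d1 d2 : ℕ} {r1 r2 : ZMod p} (hP : Par p t R) (hD : DD p t d1 d2 r1 r2)
    {A : ℤ} (hA : GoodA p R A) {g e : ℕ} (hg : 1 ≤ g) (he : 1 ≤ e) (m K : ℕ) :
    ((((bx K).filter (fun w => inL d1 d2 (apr A.natAbs g) m ((e : ℤ) • w))).card : ℕ) : ℝ) ≤
      8 * (K : ℝ) ^ 2 * ((e : ℝ) ^ 2 * t) / (apr A.natAbs g : ℝ) + 2 := by
  have ht : 0 < t := by have := hP.ht; omega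
  have hp : 0 < p := lt_of_lt_of_le (pow_pos ht 1000) hP.htp
  have hA0 : 0 < A.natAbs := by
    rw [Int.natAbs_pos]
    intro h
    have h1 := hA.lo
    rw [h, abs_zero] at h1
    have h2 : 0 < (p : ℤ) ^ 3 := by positivity
    omega
  have ha : 0 < apr A.natAbs g := by
    unfold apr
    exact Nat.div_pos (Nat.le_of_dvd hA0 (Nat.gcd_dvd_left _ _))
      (Nat.gcd_pos_of_pos_left _ hA0)
  refine pack _ K ((e : ℝ) ^ 2 * t) (apr A.natAbs g) (by positivity) (by positivity)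
    (by exact_mod_cast ha) ?_ ?_
  · intro v hv
    have h1 := (Finset.mem_filter.1 hv).1
    exact_mod_cast mem_bx.1 h1
  · intro v hv w hw hvw
    have h1 := (Finset.mem_filter.1 hv).2
    have h2 := (Finset.mem_filter.1 hw).2
    have h3 : (e : ℤ) • (v - w) ∈ lam d1 d2 (apr A.natAbs g) m := by
      rw [smul_sub]
      exact (lam d1 d2 (apr A.natAbs g) m).sub_mem (mem_lam.2 h1) (mem_lam.2 h2)
    have h4 := dvd_nf_of_inL (mem_lam.1 h3)
    rw [nf_smul] at h4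
    have h5 : nf d1 d2 (v - w) ≠ 0 := nf_ne_zero hD.h1 hD.hns (sub_ne_zero.2 hvw)
    have he0 : (e : ℤ) ≠ 0 := by
      have : 0 < e := he
      exact_mod_cast this.ne'
    have h6 : (e : ℤ) ^ 2 * nf d1 d2 (v - w) ≠ 0 := mul_ne_zero (pow_ne_zero 2 he0) h5
    have h7 := Int.natAbs_dvd_natAbs.2 h4
    have h8 := Nat.le_of_dvd (Int.natAbs_pos.2 h6) h7
    rw [Int.natAbs_natCast, Int.natAbs_mul, Int.natAbs_pow, Int.natAbs_natCast] at h8
    have h9 := nf_le hD.ht1 hD.ht2 (v - w)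
    have h10 : apr A.natAbs g ≤ e ^ 2 * t * sn (v - w) ^ 2 := by
      calc apr A.natAbs g ≤ e ^ 2 * (nf d1 d2 (v - w)).natAbs := h8
        _ ≤ e ^ 2 * (t * sn (v - w) ^ 2) := Nat.mul_le_mul_left _ h9
        _ = e ^ 2 * t * sn (v - w) ^ 2 := by ring
    exact_mod_cast h10

end Pool.Agent.LHf
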