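import Pool.Agent.LHf.Wvar
import Pool.Agent.LHf.Zdb

/-! MODULE ONE2: the variation in the main range. -/

set_option autoImplicit false

namespace Pool.Agent.LHf

open Finset

private theorem one2_sn (k : ℕ) (u : ℤ × ℤ) : sn ((k : ℤ) • u) = k * sn u := by
  unfold sn
  rw [Prod.smul_fst, Prod.smul_snd, smul_eq_mul, smul_eq_mul, Int.natAbs_mul, Int.natAbs_mul,
    Int.natAbs_natCast, Nat.mul_max_mul_left]

/-- MODULE ONE2 (variation). `k = g e`, `X = k δ`. PROOF. `WA (k (w + u)) - WA (k w)` with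
`sn (k u) ≤ k δ = X`; apply `wvar`. With `d_i ≤ t`, `12 Z_i ≤ R`, `R ≤ 25 t Z_i` (`le_Zd`):
`η ≤ 2 (t R X + 2 t X ^ 2) / (|A| R) + 50 t X / R = 2 t X / |A| + 4 t X ^ 2 / (|A| R) + 50 t X / R`.
Here `X ≤ t ^ 100 * p * (t + t ^ 2) * sqrt |A| ≤ 2 t ^ 102 p sqrt |A|`; `|A| ≥ p ^ 3`, `|A| ≤ 3 R`,
`R ≥ p ^ 5`, `sqrt p ≥ t ^ 500`: `X / |A| ≤ 2 t ^ 102 p / sqrt |A| ≤ 2 t ^ 102 / sqrt p
≤ 2 t ^ (-398)`, `X ^ 2 / (|A| R) ≤ 4 t ^ 204 p ^ 2 / R ≤ 4 t ^ 204 / p ^ 3`,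
`X / R ≤ 2 t ^ 102 p sqrt (3 R) / R ≤ 4 t ^ 102 p / sqrt R ≤ 4 t ^ 102 / p ^ (3 / 2)`. So
`η ≤ t ^ (-395)` (`t ≥ 1000`). -/
theorem one_var {p t R d1 d2 : ℕ} {r1 r2 : ZMod p} (hP : Par p t R) (hD : DD p t d1 d2 r1 r2)
    {A : ℤ} (hA : GoodA p R A) {k δ : ℕ} (hk : 1 ≤ k) (hk2 : k ≤ t ^ 100)
    (hδ : (δ : ℝ) ≤ p * ((t + t ^ 2) * Real.sqrt |(A : ℝ)|)) (w u : ℤ × ℤ) (hu : sn u ≤ δ) :
    |WA R (Zd R d1) (Zd R d2) d1 d2 A ((k : ℤ) • (w + u)) -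
      WA R (Zd R d1) (Zd R d2) d1 d2 A ((k : ℤ) • w)| ≤ 1 / (t : ℝ) ^ 395 := by
  have ht : 1000 ≤ t := hP.ht
  have htR : (1000 : ℝ) ≤ t := by exact_mod_cast ht
  have h352 : (352 : ℝ) ≤ (t : ℝ) ^ 2 := by nlinarith
  have ht0 : (0 : ℝ) < t := by linarith
  have hpt : t ≤ p := le_trans (Nat.le_self_pow (by norm_num) t) hP.htp
  have hp1 : 1 ≤ p := by omega
  have hp0 : 0 < p := hp1
  have hpR : (0 : ℝ) < p := by exact_mod_cast hp0
  have hRp : p ≤ R := le_trans (Nat.le_self_pow (by norm_num) p) hP.hR1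
  have hRt : 1200 * t ≤ R := by
    calc 1200 * t ≤ (t * t) * t := Nat.mul_le_mul_right _ (by nlinarith)
      _ ≤ (p * p) * p := by gcongr
      _ = p ^ 3 := by ring
      _ ≤ p ^ 5 := Nat.pow_le_pow_right hp0 (by norm_num)
      _ ≤ R := hP.hR1
  have hR0 : 0 < R := by omega
  have hRR : (0 : ℝ) < R := by exact_mod_cast hR0
  have e1 : R ≤ 25 * t * Zd R d1 := le_Zd (by omega) (le_trans hD.ht1 (by nlinarith)) hRt
  have e2 : R ≤ 25 * t * Zd R d2 := le_Zd (by omega) (le_trans hD.ht2 (by nlinarith)) hRt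
  have hZ1 : 0 < Zd R d1 := by
    rcases Nat.eq_zero_or_pos (Zd R d1) with h | h
    · rw [h] at e1; omega
    · exact h
  have hZ2 : 0 < Zd R d2 := by
    rcases Nat.eq_zero_or_pos (Zd R d2) with h | h
    · rw [h] at e2; omega
    · exact h
  have f1 := Zd_le R d1
  have f2 := Zd_le R d2
  have hAlo : (p : ℝ) ^ 3 ≤ |(A : ℝ)| := by exact_mod_cast hA.lo
  have hAhi : |(A : ℝ)| ≤ 3 * R := by exact_mod_cast hA.hi
  have hA0 : A ≠ 0 := by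
    rintro rfl
    rw [Int.cast_zero, abs_zero] at hAlo
    have : 0 < (p : ℝ) ^ 3 := by positivity
    linarith
  have h1 := wvar (R := R) (Z1 := Zd R d1) (Z2 := Zd R d2) (d1 := d1) (d2 := d2) (A := A)
    hR0 hZ1 hZ2 hA0 (k * δ) ((k : ℤ) • w) ((k : ℤ) • u) (by
      rw [one2_sn]
      exact Nat.mul_le_mul_left _ hu)
  rw [← smul_add] at h1
  refine h1.trans ?_
  clear h1
  set a : ℝ := |(A : ℝ)| with ha
  set s : ℝ := Real.sqrt a with hs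
  have ha0 : 0 < a := lt_of_lt_of_le (by positivity) hAlo
  have hss : s * s = a := Real.mul_self_sqrt ha0.le
  have hs0 : 0 < s := Real.sqrt_pos.2 ha0
  set X : ℝ := ((k * δ : ℕ) : ℝ) with hX
  have hX0 : 0 ≤ X := by positivity
  have hptR : (t : ℝ) ^ 1000 ≤ p := by exact_mod_cast hP.htp
  have hps : (p : ℝ) * (t : ℝ) ^ 500 ≤ s := by
    apply Real.le_sqrt_of_sq_le
    calc ((p : ℝ) * (t : ℝ) ^ 500) ^ 2 = (p : ℝ) ^ 2 * (t : ℝ) ^ 1000 := by ring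
      _ ≤ (p : ℝ) ^ 2 * p := by gcongr
      _ = (p : ℝ) ^ 3 := by ring
      _ ≤ a := hAlo
  have hkR : (k : ℝ) ≤ (t : ℝ) ^ 100 := by exact_mod_cast hk2
  have hXb : X ≤ 2 * (t : ℝ) ^ 102 * (p * s) := by
    have g1 : X ≤ (t : ℝ) ^ 100 * (p * ((t + t ^ 2) * s)) := by
      rw [hX, Nat.cast_mul]
      exact mul_le_mul hkR hδ (by positivity) (by positivity)
    have g2 : ((t : ℝ) + t ^ 2) ≤ 2 * t ^ 2 := by nlinarith
    calc X ≤ (t : ℝ) ^ 100 * (p * ((t + t ^ 2) * s)) := g1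
      _ ≤ (t : ℝ) ^ 100 * (p * ((2 * t ^ 2) * s)) := by gcongr
      _ = 2 * (t : ℝ) ^ 102 * (p * s) := by ring
  have hXa : X * (t : ℝ) ^ 398 ≤ 2 * a := by
    calc X * (t : ℝ) ^ 398 ≤ 2 * (t : ℝ) ^ 102 * (p * s) * (t : ℝ) ^ 398 := by gcongr
      _ = 2 * ((p * (t : ℝ) ^ 500) * s) := by ring
      _ ≤ 2 * (s * s) := by gcongr
      _ = 2 * a := by rw [hss]
  have hT : (0 : ℝ) < (t : ℝ) ^ 398 := by positivity
  have hα : X / a ≤ 2 / (t : ℝ) ^ 398 := by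
    rw [div_le_div_iff₀ ha0 hT]
    exact hXa
  have hβ : X / R ≤ 6 / (t : ℝ) ^ 398 := by
    rw [div_le_div_iff₀ hRR hT]
    linarith
  have hz1 : (R : ℝ) ≤ 25 * t * Zd R d1 := by exact_mod_cast e1
  have hz2 : (R : ℝ) ≤ 25 * t * Zd R d2 := by exact_mod_cast e2
  have hZ1R : (0 : ℝ) < Zd R d1 := by exact_mod_cast hZ1
  have hZ2R : (0 : ℝ) < Zd R d2 := by exact_mod_cast hZ2
  have k1 : X / (Zd R d1 : ℝ) ≤ 25 * t * (X / R) := by
    rw [div_le_iff₀ hZ1R]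
    calc X = (X / R) * R := by field_simp
      _ ≤ (X / R) * (25 * t * Zd R d1) := by gcongr
      _ = 25 * t * (X / R) * Zd R d1 := by ring
  have k2 : X / (Zd R d2 : ℝ) ≤ 25 * t * (X / R) := by
    rw [div_le_iff₀ hZ2R]
    calc X = (X / R) * R := by field_simp
      _ ≤ (X / R) * (25 * t * Zd R d2) := by gcongr
      _ = 25 * t * (X / R) * Zd R d2 := by ring
  have hd1 : (d1 : ℝ) ≤ t := by exact_mod_cast hD.ht1
  have hd2 : (d2 : ℝ) ≤ t := by exact_mod_cast hD.ht2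
  have f1' : 12 * (Zd R d1 : ℝ) ≤ R := by exact_mod_cast f1
  have f2' : 12 * (Zd R d2 : ℝ) ≤ R := by exact_mod_cast f2
  have k3 : 2 * ((d1 : ℝ) * (6 * Zd R d1 * X + X ^ 2) + d2 * (6 * Zd R d2 * X + X ^ 2)) ≤
      2 * (t * R * X) + 4 * (t * X ^ 2) := by
    have m1 : (d1 : ℝ) * (6 * Zd R d1 * X + X ^ 2) ≤ t * (R / 2 * X + X ^ 2) := by
      apply mul_le_mul hd1 _ (by positivity) ht0.le
      have : 6 * (Zd R d1 : ℝ) * X ≤ R / 2 * X := mul_le_mul_of_nonneg_right (by linarith) hX0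
      linarith
    have m2 : (d2 : ℝ) * (6 * Zd R d2 * X + X ^ 2) ≤ t * (R / 2 * X + X ^ 2) := by
      apply mul_le_mul hd2 _ (by positivity) ht0.le
      have : 6 * (Zd R d2 : ℝ) * X ≤ R / 2 * X := mul_le_mul_of_nonneg_right (by linarith) hX0
      linarith
    have m3 : 0 ≤ (t : ℝ) * R * X := by positivity
    nlinarith
  have k4 : 2 * ((d1 : ℝ) * (6 * Zd R d1 * X + X ^ 2) + d2 * (6 * Zd R d2 * X + X ^ 2)) /
      (a * R) ≤ 2 * t * (X / a) + 4 * t * ((X / a) * (X / R)) := by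
    rw [div_le_iff₀ (by positivity)]
    refine k3.trans (le_of_eq ?_)
    field_simp
  have k5 : (X / a) * (X / R) ≤ (2 / (t : ℝ) ^ 398) * (6 / (t : ℝ) ^ 398) :=
    mul_le_mul hα hβ (by positivity) (by positivity)
  have k6 : (6 : ℝ) / (t : ℝ) ^ 398 ≤ 6 := by
    apply div_le_self (by norm_num)
    exact one_le_pow₀ (by linarith)
  have k7 : (2 / (t : ℝ) ^ 398) * (6 / (t : ℝ) ^ 398) ≤ (2 / (t : ℝ) ^ 398) * 6 := by
    gcongr
  calc 2 * ((d1 : ℝ) * (6 * Zd R d1 * X + X ^ 2) + d2 * (6 * Zd R d2 * X + X ^ 2)) /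
      (a * R) + X / Zd R d1 + X / Zd R d2
      ≤ (2 * t * (X / a) + 4 * t * ((X / a) * (X / R))) + 25 * t * (X / R) +
        25 * t * (X / R) := by linarith
    _ ≤ (2 * t * (2 / (t : ℝ) ^ 398) + 4 * t * ((2 / (t : ℝ) ^ 398) * 6)) +
        25 * t * (6 / (t : ℝ) ^ 398) + 25 * t * (6 / (t : ℝ) ^ 398) := by
      have n1 : 2 * t * (X / a) ≤ 2 * t * (2 / (t : ℝ) ^ 398) := by gcongr
      have n2 : 4 * t * ((X / a) * (X / R)) ≤ 4 * t * ((2 / (t : ℝ) ^ 398) * 6) := by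
        have := k5.trans k7
        gcongr
      have n3 : 25 * t * (X / R) ≤ 25 * t * (6 / (t : ℝ) ^ 398) := by gcongr
      linarith
    _ = 352 * t / (t : ℝ) ^ 398 := by ring
    _ ≤ 1 / (t : ℝ) ^ 395 := by
      rw [div_le_div_iff₀ hT (by positivity), one_mul]
      calc 352 * (t : ℝ) * (t : ℝ) ^ 395 = 352 * (t : ℝ) ^ 396 := by ring
        _ ≤ (t : ℝ) ^ 2 * (t : ℝ) ^ 396 := by
          exact mul_le_mul_of_nonneg_right h352 (by positivity)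
        _ = (t : ℝ) ^ 398 := by ring

end Pool.Agent.LHf
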