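import Pool.Agent.LHf.Cover
import Pool.Agent.LHf.Lat

/-! MODULE REPS: small representatives of all pairs of residues. -/

set_option autoImplicit false

namespace Pool.Agent.LHf

open Finset

private theorem reps_sn (p : ℕ) (v : ℤ × ℤ) : sn ((p : ℤ) • v) = p * sn v := by
  unfold sn
  rw [Prod.smul_fst, Prod.smul_snd, smul_eq_mul, smul_eq_mul, Int.natAbs_mul, Int.natAbs_mul,
    Int.natAbs_natCast, Nat.mul_max_mul_left]

/-- PROOF. Let `c` be a pair of residues. As `p` does not divide `a` there is `k` with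
`a k ≡ c` (componentwise, in `ZMod p` divide by `a`, take representatives); `a k ∈ L` has the right
residues. Reduce it with `cover` modulo `p b1, p b2`, which are in `L`, have residues zero, and are
independent: `u = a k - m1 (p b1) - m2 (p b2)`, `sn u ≤ sn (p b1) + sn (p b2) = p (sn b1 + sn b2)`.
-/
theorem reps (p : ℕ) [Fact p.Prime] (L : AddSubgroup (ℤ × ℤ)) (a : ℕ) (ha : ¬ p ∣ a)
    (hL : ∀ v : ℤ × ℤ, (a : ℤ) • v ∈ L) (b1 b2 : ℤ × ℤ) (h1 : b1 ∈ L) (h2 : b2 ∈ L)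
    (hdet : b1.1 * b2.2 - b1.2 * b2.1 ≠ 0) (c : ZMod p × ZMod p) :
    ∃ u ∈ L, (((u.1 : ZMod p), (u.2 : ZMod p)) : ZMod p × ZMod p) = c ∧
      sn u ≤ p * (sn b1 + sn b2) := by
  have hp : p.Prime := Fact.out
  have ha' : (a : ZMod p) ≠ 0 := by
    rw [Ne, ZMod.natCast_eq_zero_iff]; exact ha
  have hp0 : (p : ℤ) ≠ 0 := by exact_mod_cast hp.ne_zero
  obtain ⟨k1, hk1⟩ := ZMod.intCast_surjective (c.1 / (a : ZMod p))
  obtain ⟨k2, hk2⟩ := ZMod.intCast_surjective (c.2 / (a : ZMod p))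
  have hdet' : ((p : ℤ) • b1).1 * ((p : ℤ) • b2).2 - ((p : ℤ) • b1).2 * ((p : ℤ) • b2).1 ≠ 0 := by
    simp only [Prod.smul_fst, Prod.smul_snd, smul_eq_mul]
    have h3 : (p : ℤ) * b1.1 * (p * b2.2) - p * b1.2 * (p * b2.1) =
        (p * p) * (b1.1 * b2.2 - b1.2 * b2.1) := by ring
    rw [h3]
    exact mul_ne_zero (mul_ne_zero hp0 hp0) hdet
  obtain ⟨m1, m2, hm⟩ := cover ((p : ℤ) • b1) ((p : ℤ) • b2) ((a : ℤ) • (k1, k2)) hdet'
  refine ⟨(a : ℤ) • (k1, k2) - m1 • ((p : ℤ) • b1) - m2 • ((p : ℤ) • b2), ?_, ?_, ?_⟩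
  · exact L.sub_mem (L.sub_mem (hL _) (L.zsmul_mem (L.zsmul_mem h1 _) _))
      (L.zsmul_mem (L.zsmul_mem h2 _) _)
  · refine Prod.ext ?_ ?_
    · simp only [Prod.fst_sub, Prod.smul_fst, smul_eq_mul, Int.cast_sub, Int.cast_mul,
        Int.cast_natCast, hk1, CharP.cast_eq_zero, zero_mul, mul_zero, sub_zero]
      rw [mul_div_cancel₀ _ ha']
    · simp only [Prod.snd_sub, Prod.smul_snd, smul_eq_mul, Int.cast_sub, Int.cast_mul,
        Int.cast_natCast, hk2, CharP.cast_eq_zero, zero_mul, mul_zero, sub_zero]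
      rw [mul_div_cancel₀ _ ha']
  · refine hm.trans ?_
    rw [reps_sn, reps_sn]
    exact le_of_eq (by ring)

end Pool.Agent.LHf
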