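import Pool.Agent.LHf.Defs

/-! MODULE RTS: the number of square roots of `d1 d2` modulo `a`. -/

set_option autoImplicit false

namespace Pool.Agent.LHf

open Finset

/-- numbers below `f * b` in one class modulo `b` -/
private theorem rts_class (f b : ℕ) (S : Finset ℕ)
    (h1 : ∀ m ∈ S, m < f * b) (h2 : ∀ m ∈ S, ∀ m' ∈ S, (b : ℤ) ∣ (m : ℤ) - m') : S.card ≤ f := by
  have h3 : S.card ≤ (range f).card := by
    refine Finset.card_le_card_of_injOn (fun m => m / b) ?_ ?_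
    · intro m hm
      have := h1 m hm
      simp only [coe_range, Set.mem_Iio]
      exact Nat.div_lt_of_lt_mul (by rw [mul_comm]; exact this)
    · intro m hm m' hm' he
      have h4 := h2 m hm m' hm'
      have h5 : m % b = m' % b := by
        have : (m : ℤ) % b = (m' : ℤ) % b :=
          Int.emod_eq_emod_iff_emod_sub_eq_zero.2 (Int.emod_eq_zero_of_dvd h4)
        exact_mod_cast this
      have he' : m / b = m' / b := he
      rw [← Nat.div_add_mod m b, ← Nat.div_add_mod m' b, he', h5]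
  simpa using h3

private theorem rts_aux (a : ℕ) (ha : 1 ≤ a) (D : ℤ) (m n : ℤ)
    (hm : (a : ℤ) ∣ m ^ 2 - D) (hn : (a : ℤ) ∣ n ^ 2 - D) :
    ((a / Int.gcd (m - n) a : ℕ) : ℤ) ∣ m + n := by
  have hg : 0 < Int.gcd (m - n) a := by
    rw [Int.gcd_pos_iff]; right; exact_mod_cast (by omega : a ≠ 0)
  obtain ⟨k, l, hkl, h1, h2⟩ := Int.exists_gcd_one hg
  set g := Int.gcd (m - n) a with hgdef
  have h3 : ((a / g : ℕ) : ℤ) = l := by
    have e1 : ((a / g : ℕ) : ℤ) = (a : ℤ) / (g : ℤ) := Int.natCast_div a g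
    rw [e1]
    exact Int.ediv_eq_of_eq_mul_left (by exact_mod_cast hg.ne') h2
  rw [h3]
  have h4 : (a : ℤ) ∣ (m - n) * (m + n) := by
    have : (m - n) * (m + n) = (m ^ 2 - D) - (n ^ 2 - D) := by ring
    rw [this]; exact dvd_sub hm hn
  rw [h1, h2] at h4
  have h5 : l ∣ k * (m + n) := by
    have h6 : (g : ℤ) * l ∣ (g : ℤ) * (k * (m + n)) := by
      have e1 : (g : ℤ) * l = l * g := by ring
      have e2 : (g : ℤ) * (k * (m + n)) = k * g * (m + n) := by ring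
      rw [e1, e2]; exact h4
    exact Int.dvd_of_mul_dvd_mul_left (by exact_mod_cast hg.ne') h6
  exact (Int.isCoprime_iff_gcd_eq_one.2 (by rw [Int.gcd_comm]; exact hkl)).dvd_of_dvd_mul_left h5

/-- PROOF. Write `D = d1 d2 ≥ 1`. If there is no root there is nothing to do; otherwise fix a root
`n`. Map each root `m` to `a0 = gcd (m - n, a)`, a divisor of `a`. It is enough to show that each
fibre has at most `2 D` elements (`Finset.card_le_mul_card_image` or `card_eq_sum_card_fiberwise`).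
Let `m, m'` be in the fibre of `a0`, put `a1 = a / a0`. From `a ∣ m ^ 2 - n ^ 2 = (m - n) (m + n)`
and `gcd ((m - n) / a0, a1) = 1` we get `a1 ∣ m + n`; the same for `m'`. So `m - m'` is divisible
by `a0` and by `a1`, so by `lcm (a0, a1) = a / f` with `f = gcd (a0, a1)`. So the elements of the
fibre, which are in `[0, a)`, are in one residue class modulo `a / f`: at most `f` of them. Finally
`f ∣ a0 ∣ m - n` and `f ∣ a1 ∣ m + n`, so `f ∣ 2 n`, `f ^ 2 ∣ 4 n ^ 2`, and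
`f ^ 2 ∣ a0 a1 = a ∣ n ^ 2 - D`, so `f ^ 2 ∣ 4 D`, so `f ^ 2 ≤ 4 D ≤ (2 D) ^ 2`, `f ≤ 2 D`. -/
theorem rts_card (d1 d2 a : ℕ) (h1 : 1 ≤ d1) (h2 : 1 ≤ d2) (ha : 1 ≤ a) :
    (rts d1 d2 a).card ≤ 2 * (d1 * d2) * a.divisors.card := by
  rcases (rts d1 d2 a).eq_empty_or_nonempty with h0 | ⟨n, hn⟩
  · rw [h0]; simp
  have hD : 1 ≤ d1 * d2 := Nat.mul_pos h1 h2
  have hn' : (a : ℤ) ∣ (n : ℤ) ^ 2 - d1 * d2 := (mem_filter.1 hn).2
  refine Finset.card_le_mul_card_image_of_maps_to (f := fun m : ℕ => Int.gcd ((m : ℤ) - n) a)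
    (t := a.divisors) ?_ _ ?_
  · intro m _
    rw [Nat.mem_divisors]
    refine ⟨?_, by omega⟩
    exact_mod_cast (Int.gcd_dvd_right ((m : ℤ) - n) (a : ℤ))
  intro a0 ha0
  obtain ⟨a1, rfl⟩ := (Nat.mem_divisors.1 ha0).1
  have hp0 : 0 < a0 := Nat.pos_of_ne_zero (by rintro rfl; simp at ha)
  have hp1 : 0 < a1 := Nat.pos_of_ne_zero (by rintro rfl; simp at ha)
  rcases (Finset.filter (fun m : ℕ => Int.gcd ((m : ℤ) - n) ((a0 * a1 : ℕ) : ℤ) = a0)
    (rts d1 d2 (a0 * a1))).eq_empty_or_nonempty with h00 | ⟨m0, hm0⟩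
  · rw [h00]; simp
  have key : ∀ m ∈ (Finset.filter (fun m : ℕ => Int.gcd ((m : ℤ) - n) ((a0 * a1 : ℕ) : ℤ) = a0)
      (rts d1 d2 (a0 * a1))), (a0 : ℤ) ∣ (m : ℤ) - n ∧ (a1 : ℤ) ∣ (m : ℤ) + n := by
    intro m hm
    rw [mem_filter] at hm
    refine ⟨?_, ?_⟩
    · have := Int.gcd_dvd_left ((m : ℤ) - n) ((a0 * a1 : ℕ) : ℤ)
      rwa [hm.2] at this
    · have h5 := rts_aux (a0 * a1) ha (d1 * d2 : ℤ) m n (mem_filter.1 hm.1).2 hn'
      rw [hm.2, Nat.mul_div_cancel_left _ hp0] at h5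
      exact h5
  set f := Nat.gcd a0 a1 with hf
  have hfp : 0 < f := Nat.gcd_pos_of_pos_left _ hp0
  have hlcm : f * Nat.lcm a0 a1 = a0 * a1 := Nat.gcd_mul_lcm a0 a1
  have hcard : (Finset.filter (fun m : ℕ => Int.gcd ((m : ℤ) - n) ((a0 * a1 : ℕ) : ℤ) = a0)
      (rts d1 d2 (a0 * a1))).card ≤ f := by
    refine rts_class f (Nat.lcm a0 a1) _ ?_ ?_
    · intro m hm
      rw [hlcm]
      exact mem_range.1 (mem_filter.1 (mem_filter.1 hm).1).1
    · intro m hm m' hm'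
      have e1 := key m hm
      have e2 := key m' hm'
      have e3 : (a0 : ℤ) ∣ (m : ℤ) - m' := by
        have : (m : ℤ) - m' = (m - n) - (m' - n) := by ring
        rw [this]; exact dvd_sub e1.1 e2.1
      have e4 : (a1 : ℤ) ∣ (m : ℤ) - m' := by
        have : (m : ℤ) - m' = (m + n) - (m' + n) := by ring
        rw [this]; exact dvd_sub e1.2 e2.2
      have e5 : Nat.lcm a0 a1 ∣ ((m : ℤ) - m').natAbs :=
        Nat.lcm_dvd (Int.natCast_dvd.1 e3) (Int.natCast_dvd.1 e4)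
      exact Int.natCast_dvd.2 e5
  refine hcard.trans ?_
  -- f ≤ 2 D
  have k0 := key m0 hm0
  have hf0 : (f : ℤ) ∣ a0 := by exact_mod_cast Nat.gcd_dvd_left a0 a1
  have hf1 : (f : ℤ) ∣ a1 := by exact_mod_cast Nat.gcd_dvd_right a0 a1
  have hf2 : (f : ℤ) ∣ 2 * n := by
    have : (2 * n : ℤ) = (m0 + n) - (m0 - n) := by ring
    rw [this]
    exact dvd_sub (hf1.trans k0.2) (hf0.trans k0.1)
  have hf3 : (f : ℤ) ^ 2 ∣ 4 * (n : ℤ) ^ 2 := by
    have : (4 * (n : ℤ) ^ 2) = (2 * n) ^ 2 := by ring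
    rw [this]
    exact pow_dvd_pow_of_dvd hf2 2
  have hf4 : (f : ℤ) ^ 2 ∣ (n : ℤ) ^ 2 - d1 * d2 := by
    refine Dvd.dvd.trans ?_ hn'
    have : (f : ℤ) ^ 2 = f * f := by ring
    rw [this]; push_cast
    exact mul_dvd_mul hf0 hf1
  have hf5 : (f : ℤ) ^ 2 ∣ 4 * (d1 * d2 : ℤ) := by
    have : 4 * (d1 * d2 : ℤ) = 4 * (n : ℤ) ^ 2 - 4 * ((n : ℤ) ^ 2 - d1 * d2) := by ring
    rw [this]
    exact dvd_sub hf3 (hf4.mul_left 4)
  have hf6 : f ^ 2 ∣ 4 * (d1 * d2) := by exact_mod_cast hf5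
  have hf7 : f ^ 2 ≤ 4 * (d1 * d2) := Nat.le_of_dvd (by omega) hf6
  by_contra hc
  push Not at hc
  nlinarith [hc, hf7, hD]

end Pool.Agent.LHf
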