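import Pool.Agent.LHf.Defs

/-! MODULE SHIFT: the averaging lemma. -/

set_option autoImplicit false

namespace Pool.Agent.LHf

open Finset

open Classical in
/-- PROOF. Let `G v = φ v * F (v1, v2)` (zero unless `sn v ≤ K`), `S` the sum on the left. Choose for
each pair of residues `c` a vector `u c` as in `hrep`. For each `c` the map `v ↦ v + u c` gives
`S = ∑ v ∈ bx (K + δ), v ∈ L, φ (v + u c) F (v + u c)` (if `G (v + u c) ≠ 0` then `sn (v + u c) ≤ K`,
so `sn v ≤ K + δ`; conversely every `w ∈ L` with `G w ≠ 0` is `v + u c` with `v = w - u c ∈ L`,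
`sn v ≤ K + δ`). Sum over the `p ^ 2` classes `c`:
`p ^ 2 S = ∑ v, φ v ∑ c, F (v + u c) + ∑ v, ∑ c, (φ (v + u c) - φ v) F (v + u c)`,
`v` running through `L ∩ bx (K + δ)`. As `c ↦ (residues of v) + c` is a bijection the first inner sum is
`∑ c, F c`, of absolute value `≤ p`; so the first part is at most `p * card` and the second at most
`p ^ 2 η card`. Divide by `p ^ 2`. -/
theorem shift (p : ℕ) [Fact p.Prime] (L : AddSubgroup (ℤ × ℤ)) (F : ZMod p × ZMod p → ℂ)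
    (hF : ∀ c, ‖F c‖ ≤ 1) (hF2 : ‖∑ c, F c‖ ≤ p) (φ : ℤ × ℤ → ℝ) (h0 : ∀ v, 0 ≤ φ v)
    (h1 : ∀ v, φ v ≤ 1) (K δ : ℕ) (hK : ∀ v, φ v ≠ 0 → sn v ≤ K) (η : ℝ)
    (hη : ∀ v u : ℤ × ℤ, sn u ≤ δ → |φ (v + u) - φ v| ≤ η)
    (hrep : ∀ c : ZMod p × ZMod p, ∃ u ∈ L,
      (((u.1 : ZMod p), (u.2 : ZMod p)) : ZMod p × ZMod p) = c ∧ sn u ≤ δ) :
    ‖∑ v ∈ (bx K).filter (fun v => v ∈ L), (φ v : ℂ) * F ((v.1 : ZMod p), (v.2 : ZMod p))‖ ≤
      (1 / p + η) * (((bx (K + δ)).filter (fun v => v ∈ L)).card : ℝ) := by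
  classical
  choose u huL huc huδ using hrep
  obtain ⟨B, hB⟩ : ∃ B, B = (bx (K + δ)).filter (fun v => v ∈ L) := ⟨_, rfl⟩
  obtain ⟨S, hS⟩ : ∃ S, S = ∑ v ∈ (bx K).filter (fun v => v ∈ L),
    (φ v : ℂ) * F ((v.1 : ZMod p), (v.2 : ZMod p)) := ⟨_, rfl⟩
  have hp : 0 < p := (Fact.out : p.Prime).pos
  have hpR : (0 : ℝ) < p := by exact_mod_cast hp
  rw [← hB, ← hS]
  -- the shifted sums
  have hshift : ∀ c, ∑ v ∈ B, (φ (v + u c) : ℂ) *
      F (((v.1 : ZMod p), (v.2 : ZMod p)) + c) = S := by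
    intro c
    have h2 : ∀ v : ℤ × ℤ, (((v.1 : ZMod p), (v.2 : ZMod p)) : ZMod p × ZMod p) + c =
        (((v + u c).1 : ZMod p), ((v + u c).2 : ZMod p)) := by
      intro v
      conv_lhs => rw [← huc c]
      rw [Prod.mk_add_mk, Prod.fst_add, Prod.snd_add, Int.cast_add, Int.cast_add]
    have h3 : ∑ v ∈ B, (φ (v + u c) : ℂ) * F (((v.1 : ZMod p), (v.2 : ZMod p)) + c) =
        ∑ w ∈ B.image (fun v => v + u c), (φ w : ℂ) * F ((w.1 : ZMod p), (w.2 : ZMod p)) := by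
      rw [sum_image (fun v _ v' _ h => add_right_cancel h)]
      exact sum_congr rfl fun v _ => by rw [h2]
    rw [h3, hS]
    symm
    apply sum_subset
    · intro w hw
      rw [mem_filter, mem_bx] at hw
      refine mem_image.2 ⟨w - u c, ?_, sub_add_cancel _ _⟩
      rw [hB, mem_filter, mem_bx]
      refine ⟨?_, L.sub_mem hw.2 (huL c)⟩
      have h4 := hw.1
      have h5 := huδ c
      unfold sn at h4 h5 ⊢
      rw [max_le_iff] at h4 h5 ⊢
      refine ⟨?_, ?_⟩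
      · show (w.1 - (u c).1).natAbs ≤ _
        omega
      · show (w.2 - (u c).2).natAbs ≤ _
        omega
    · intro w hw hw'
      obtain ⟨v, hv, rfl⟩ := mem_image.1 hw
      rw [hB, mem_filter] at hv
      have h4 : φ (v + u c) = 0 := by
        by_contra h5
        apply hw'
        rw [mem_filter, mem_bx]
        exact ⟨hK _ h5, L.add_mem hv.2 (huL c)⟩
      rw [h4, Complex.ofReal_zero, zero_mul]
  -- sum over the classes
  have hcard : (Fintype.card (ZMod p × ZMod p) : ℂ) = (p : ℂ) ^ 2 := by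
    rw [Fintype.card_prod, ZMod.card]
    push_cast
    ring
  have hsum : (p : ℂ) ^ 2 * S = ∑ v ∈ B, ∑ c : ZMod p × ZMod p, (φ (v + u c) : ℂ) *
      F (((v.1 : ZMod p), (v.2 : ZMod p)) + c) := by
    rw [sum_comm, sum_congr rfl (fun c _ => hshift c), sum_const, nsmul_eq_mul, card_univ, hcard]
  have hterm : ∀ v : ℤ × ℤ, ‖∑ c : ZMod p × ZMod p, (φ (v + u c) : ℂ) *
      F (((v.1 : ZMod p), (v.2 : ZMod p)) + c)‖ ≤ p + (p : ℝ) ^ 2 * η := by
    intro v
    have e : ∑ c : ZMod p × ZMod p, (φ (v + u c) : ℂ) *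
        F (((v.1 : ZMod p), (v.2 : ZMod p)) + c) =
        (φ v : ℂ) * ∑ c : ZMod p × ZMod p, F c +
          ∑ c : ZMod p × ZMod p, ((φ (v + u c) - φ v : ℝ) : ℂ) *
            F (((v.1 : ZMod p), (v.2 : ZMod p)) + c) := by
      rw [← Equiv.sum_comp (Equiv.addLeft (((v.1 : ZMod p), (v.2 : ZMod p)) : ZMod p × ZMod p)) F,
        mul_sum, ← sum_add_distrib]
      refine sum_congr rfl fun c _ => ?_
      rw [Equiv.coe_addLeft]
      push_cast
      ring
    rw [e]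
    refine (norm_add_le _ _).trans (add_le_add ?_ ?_)
    · rw [norm_mul, Complex.norm_real, Real.norm_eq_abs, abs_of_nonneg (h0 v)]
      calc φ v * ‖∑ c, F c‖ ≤ 1 * p :=
            mul_le_mul (h1 v) hF2 (norm_nonneg _) zero_le_one
        _ = p := one_mul _
    · refine (norm_sum_le _ _).trans ?_
      have h3 : ∀ c ∈ (univ : Finset (ZMod p × ZMod p)), ‖((φ (v + u c) - φ v : ℝ) : ℂ) *
          F (((v.1 : ZMod p), (v.2 : ZMod p)) + c)‖ ≤ η := by
        intro c _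
        rw [norm_mul, Complex.norm_real, Real.norm_eq_abs]
        calc |φ (v + u c) - φ v| * ‖F (((v.1 : ZMod p), (v.2 : ZMod p)) + c)‖ ≤
              |φ (v + u c) - φ v| * 1 := mul_le_mul_of_nonneg_left (hF _) (abs_nonneg _)
          _ = |φ (v + u c) - φ v| := mul_one _
          _ ≤ η := hη v (u c) (huδ c)
      refine (sum_le_card_nsmul _ _ _ h3).trans (le_of_eq ?_)
      rw [card_univ, nsmul_eq_mul, Fintype.card_prod, ZMod.card]
      push_cast
      ring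
  have hmain : (p : ℝ) ^ 2 * ‖S‖ ≤ (B.card : ℝ) * (p + (p : ℝ) ^ 2 * η) := by
    have h3 : (p : ℝ) ^ 2 * ‖S‖ = ‖(p : ℂ) ^ 2 * S‖ := by
      rw [norm_mul, norm_pow, Complex.norm_natCast]
    rw [h3, hsum]
    refine (norm_sum_le _ _).trans ((sum_le_card_nsmul _ _ _ (fun v _ => hterm v)).trans
      (le_of_eq ?_))
    rw [nsmul_eq_mul]
  have h4 : (B.card : ℝ) * (p + (p : ℝ) ^ 2 * η) =
      (p : ℝ) ^ 2 * ((1 / p + η) * (B.card : ℝ)) := by
    field_simp
  rw [h4] at hmain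
  exact le_of_mul_le_mul_left hmain (by positivity)

end Pool.Agent.LHf
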