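import Pool.Agent.LHf.One1
import Pool.Agent.LHf.One2
import Pool.Agent.LHf.Reps
import Pool.Agent.LHf.Shift
import Pool.Agent.LHf.Mean
import Pool.Agent.LHf.Rts

/-! MODULE ONE3: the sum over one lattice. -/

set_option autoImplicit false

namespace Pool.Agent.LHf

open Finset

/-- PROOF. Let `a = |A|`, `a' = apr a g ≤ a`, `k = g e`, `L` the subgroup of the `w` with
`e w ∈ lam d1 d2 a' m` (comap of `lam`). By `short_vec` there is `b ≠ 0` in `lam`, so in `L`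
(`inL_smul`), `sn b ≤ d1 sqrt a' ≤ t sqrt a`, `J b ∈ L`, `sn (J b) ≤ t sn b ≤ t ^ 2 sqrt a`,
`det (b, J b) = nf b ≠ 0`. `a' v ∈ L` for all `v`, and `p` does not divide `a'` (`a' ∣ a`, GoodA.nd).
So `reps` gives vectors `u ∈ L` for all pairs of residues with `sn u ≤ δ := p (sn b + sn (J b))`.
Apply `shift` with `φ w = WA (k w)`, `F c = FA χ r1 r2 A (k c)` (its sum is bounded by `mean`;
`k ≤ t ^ 100 < p` is not divisible by `p`; `r1, r2 ≠ 0` because `1 ≤ d_i ≤ t < p`; `p ≠ 2`), `η` from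
ONE2, and `K` = the integer part of `3 max (Z1, Z2) / k` (if `WA (k w) ≠ 0` then
`k sn w ≤ 3 max (Z1, Z2)`); the sum over `bx (3 R)` in the statement is the sum over `bx K`
(`K ≤ 3 R`, the other terms are zero). The bound is
`(1 / p + t ^ (-395)) * card`, and by ONE1 with `K + δ`:
`card ≤ 16 K ^ 2 e ^ 2 t / a' + 16 δ ^ 2 e ^ 2 t / a' + 2`. First term: `K ≤ (R / 4) / (g e)`,
`a ≤ g ^ 2 a'`: at most `R ^ 2 t / a`. Second: with the sharper `δ ≤ p (t + t ^ 2) sqrt a'` it is at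
most `16 * 4 p ^ 2 t ^ 4 * e ^ 2 * t ≤ 64 p ^ 2 t ^ 205`, much smaller than `R ^ 2 t / a ≥ R t / 3`
(`R ≥ p ^ 5`, `p ≥ t ^ 1000`). So `card ≤ 2 R ^ 2 t / a`, and
`(1 / p + t ^ (-395)) 2 R ^ 2 t / a ≤ R ^ 2 / (t ^ 390 a)`. -/
theorem one_root {p t R d1 d2 : ℕ} [Fact p.Prime] {r1 r2 : ZMod p} (hP : Par p t R)
    (hD : DD p t d1 d2 r1 r2) (χ : MulChar (ZMod p) ℂ) (hχ : χ ≠ 1)
    {A : ℤ} (hA : GoodA p R A) {g e : ℕ} (hg : 1 ≤ g) (he : 1 ≤ e) (hge : g * e ≤ t ^ 100)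
    {m : ℕ} (hm : m ∈ rts d1 d2 (apr A.natAbs g)) :
    ‖∑ w ∈ (bx (3 * R)).filter (fun w => inL d1 d2 (apr A.natAbs g) m ((e : ℤ) • w)),
      EA χ R d1 d2 r1 r2 A (((g * e : ℕ) : ℤ) • w)‖ ≤ (R : ℝ) ^ 2 / (t ^ 390 * |(A : ℝ)|) := by
  classical
  obtain ⟨a, haA⟩ : ∃ a : ℕ, a = A.natAbs := ⟨_, rfl⟩
  obtain ⟨k, hk⟩ : ∃ k : ℕ, k = g * e := ⟨_, rfl⟩
  obtain ⟨a', ha'⟩ : ∃ a' : ℕ, a' = apr A.natAbs g := ⟨_, rfl⟩
  rw [← hk, ← ha']
  rw [← hk] at hge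
  rw [← ha'] at hm
  have hA0 : A ≠ 0 := by
    rintro rfl
    exact hA.nd (dvd_zero _)
  have ha1 : 1 ≤ a := by rw [haA]; exact Int.natAbs_pos.2 hA0
  have haR : (a : ℝ) = |(A : ℝ)| := by
    rw [haA, Nat.cast_natAbs, Int.cast_abs]
  rw [← haR]
  have hk1 : 1 ≤ k := by rw [hk]; exact Nat.mul_pos hg he
  have htp : t < p := by
    have h1 : t ^ 1 < t ^ 1000 := Nat.pow_lt_pow_right (by have := hP.ht; omega) (by norm_num)
    rw [pow_one] at h1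
    exact h1.trans_le hP.htp
  have hkp : k < p := by
    have h1 : t ^ 100 < t ^ 1000 := Nat.pow_lt_pow_right (by have := hP.ht; omega) (by norm_num)
    exact (hge.trans_lt h1).trans_le hP.htp
  have hp2 : p ≠ 2 := by
    have := hP.ht
    omega
  -- the number `a'`
  have hgcd : 0 < Nat.gcd a (g ^ 2) := Nat.gcd_pos_of_pos_left _ ha1
  have ha'e : a' = a / Nat.gcd a (g ^ 2) := by rw [ha', haA, apr]
  have hda : Nat.gcd a (g ^ 2) * a' = a := by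
    rw [ha'e]
    exact Nat.mul_div_cancel' (Nat.gcd_dvd_left _ _)
  have ha'1 : 1 ≤ a' := by
    rcases Nat.eq_zero_or_pos a' with h | h
    · rw [h, mul_zero] at hda
      omega
    · exact h
  have ha'a : a' ≤ a := by
    calc a' = 1 * a' := (one_mul _).symm
      _ ≤ Nat.gcd a (g ^ 2) * a' := Nat.mul_le_mul_right _ hgcd
      _ = a := hda
  have haga : a ≤ g ^ 2 * a' := by
    calc a = Nat.gcd a (g ^ 2) * a' := hda.symm
      _ ≤ g ^ 2 * a' := Nat.mul_le_mul_right _ (Nat.gcd_le_right _ (by positivity))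
  have hpa' : ¬ p ∣ a' := by
    intro h
    apply hA.nd
    have h1 : p ∣ a := h.trans (Dvd.intro_left _ hda)
    rw [haA] at h1
    exact Int.natCast_dvd.2 h1
  -- the lattice
  let L : AddSubgroup (ℤ × ℤ) := (lam d1 d2 a' m).comap (DistribSMul.toAddMonoidHom (ℤ × ℤ) (e : ℤ))
  have hL : ∀ v : ℤ × ℤ, v ∈ L ↔ inL d1 d2 a' m ((e : ℤ) • v) := fun v => Iff.rfl
  obtain ⟨b, hbL, hb0, hbs⟩ := short_vec hD.h1 ha'1 hm
  have hb1 : b ∈ L := (hL b).2 (inL_smul _ hbL)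
  have hb2 : jop d1 d2 b ∈ L := (hL _).2 (inL_smul _ (inL_jop hbL))
  have hdet : b.1 * (jop d1 d2 b).2 - b.2 * (jop d1 d2 b).1 ≠ 0 := by
    rw [det_jop]
    exact nf_ne_zero hD.h1 hD.hns hb0
  have hsL : ∀ v : ℤ × ℤ, (a' : ℤ) • v ∈ L := by
    intro v
    rw [hL, smul_comm]
    exact inL_self_smul _
  have hrep := reps p L a' hpa' hsL b (jop d1 d2 b) hb1 hb2 hdet
  obtain ⟨δ, hδ⟩ : ∃ δ : ℕ, δ = p * (sn b + sn (jop d1 d2 b)) := ⟨_, rfl⟩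
  rw [← hδ] at hrep
  -- the bound for `δ`
  have T1000 : (1000 : ℝ) ≤ t := by exact_mod_cast hP.ht
  have hT0 : (0 : ℝ) < t := by linarith
  have hPT : (t : ℝ) ^ 1000 ≤ p := by exact_mod_cast hP.htp
  have hp0 : (0 : ℝ) < p := lt_of_lt_of_le (by positivity) hPT
  have hδa : (δ : ℝ) ≤ p * ((t + t ^ 2) * Real.sqrt a') := by
    have h1 : (sn b : ℝ) ≤ t * Real.sqrt a' := by
      have h2 : (sn b : ℝ) ≤ d1 * (Nat.sqrt a' : ℝ) := by exact_mod_cast hbs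
      have h3 : (d1 : ℝ) ≤ t := by exact_mod_cast hD.ht1
      exact h2.trans (mul_le_mul h3 (Real.nat_sqrt_le_real_sqrt) (Nat.cast_nonneg _) hT0.le)
    have h4 : (sn (jop d1 d2 b) : ℝ) ≤ t * (sn b : ℝ) := by
      exact_mod_cast sn_jop_le hD.ht1 hD.ht2 b
    rw [hδ]
    push_cast
    refine mul_le_mul_of_nonneg_left ?_ hp0.le
    nlinarith
  have hδA : (δ : ℝ) ≤ p * ((t + t ^ 2) * Real.sqrt |(A : ℝ)|) := by
    refine hδa.trans ?_
    refine mul_le_mul_of_nonneg_left ?_ hp0.le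
    refine mul_le_mul_of_nonneg_left ?_ (by positivity)
    apply Real.sqrt_le_sqrt
    rw [← haR]
    exact_mod_cast ha'a
  -- the function
  let φ : ℤ × ℤ → ℝ := fun w => WA R (Zd R d1) (Zd R d2) d1 d2 A ((k : ℤ) • w)
  let G : ZMod p × ZMod p → ℂ := fun c => FA χ r1 r2 (A : ZMod p) ((k : ZMod p) * c.1, (k : ZMod p) * c.2)
  have hRbig : 1200 * t ≤ R := by
    have h1 : t ^ 2 ≤ t ^ 1000 := Nat.pow_le_pow_right (by have := hP.ht; omega) (by norm_num)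
    have h2 : p ^ 1 ≤ p ^ 5 := Nat.pow_le_pow_right (by have := hP.ht; omega) (by norm_num)
    have h3 : p ^ 2 ≤ p ^ 5 := Nat.pow_le_pow_right (by have := hP.ht; omega) (by norm_num)
    have h4 : 1200 * t ≤ p * p := Nat.mul_le_mul (by
      have h5 : t ^ 2 ≤ p := h1.trans hP.htp
      have h6 : 1000 * 1000 ≤ t ^ 2 := by
        have := Nat.mul_le_mul hP.ht hP.ht
        rw [pow_two]
        exact this
      omega) htp.le
    calc 1200 * t ≤ p * p := h4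
      _ = p ^ 2 := (pow_two p).symm
      _ ≤ p ^ 5 := h3
      _ ≤ R := hP.hR1
  have hR0 : 0 < R := by
    have := hP.ht
    omega
  have hZ : ∀ d : ℕ, d ≤ t → 0 < Zd R d := by
    intro d hd
    have h1 : d ≤ t ^ 2 := hd.trans (by
      have := hP.ht
      nlinarith)
    have h2 := le_Zd (R := R) (d := d) (P := t) (by have := hP.ht; omega) h1 hRbig
    rcases Nat.eq_zero_or_pos (Zd R d) with h | h
    · rw [h, mul_zero] at h2
      omega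
    · exact h
  obtain ⟨K, hK⟩ : ∃ K : ℕ, K = R / (4 * k) := ⟨_, rfl⟩
  have hsupp : ∀ w : ℤ × ℤ, φ w ≠ 0 → sn w ≤ K := by
    intro w hw
    obtain ⟨⟨h1, h2⟩, ⟨h3, h4⟩, -⟩ := WA_supp hR0 (hZ d1 hD.ht1) (hZ d2 hD.ht2) hw
    have z1 := Zd_le R d1
    have z2 := Zd_le R d2
    have e1 : (((k : ℤ) • w).1 : ℤ) = (k : ℤ) * w.1 := by simp
    have e2 : (((k : ℤ) • w).2 : ℤ) = (k : ℤ) * w.2 := by simp
    rw [e1] at h1 h2
    rw [e2] at h3 h4
    have h1' : (Zd R d1 : ℤ) < (k : ℤ) * w.1 := by exact_mod_cast h1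
    have h2' : (k : ℤ) * w.1 < 3 * (Zd R d1 : ℤ) := by exact_mod_cast h2
    have h3' : (Zd R d2 : ℤ) < (k : ℤ) * w.2 := by exact_mod_cast h3
    have h4' : (k : ℤ) * w.2 < 3 * (Zd R d2 : ℤ) := by exact_mod_cast h4
    have hk0 : (0 : ℤ) < k := by exact_mod_cast hk1
    have w1 : 0 < w.1 := by
      by_contra hcon
      push Not at hcon
      have := mul_nonpos_of_nonneg_of_nonpos hk0.le hcon
      omega
    have w2 : 0 < w.2 := by
      by_contra hcon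
      push Not at hcon
      have := mul_nonpos_of_nonneg_of_nonpos hk0.le hcon
      omega
    rw [hK, Nat.le_div_iff_mul_le (by positivity)]
    have hcase : ∀ x : ℤ, 0 < x → (k : ℤ) * x * 4 ≤ R → x.natAbs * (4 * k) ≤ R := by
      intro x hx hxR
      have e3 : (x.natAbs : ℤ) = x := Int.natAbs_of_nonneg hx.le
      have : ((x.natAbs * (4 * k) : ℕ) : ℤ) ≤ R := by
        rw [Nat.cast_mul, e3]
        push_cast
        linarith
      exact_mod_cast this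
    rw [sn]
    rcases max_cases w.1.natAbs w.2.natAbs with ⟨h5, -⟩ | ⟨h5, -⟩
    · rw [h5]
      apply hcase _ w1
      omega
    · rw [h5]
      apply hcase _ w2
      omega
  have hη : ∀ v u : ℤ × ℤ, sn u ≤ δ → |φ (v + u) - φ v| ≤ 1 / (t : ℝ) ^ 395 :=
    fun v u hu => one_var hP hD hA hk1 hge hδA v u hu
  have hAp : (A : ZMod p) ≠ 0 := by
    rw [Ne, ZMod.intCast_zmod_eq_zero_iff_dvd]
    exact hA.nd
  have hnat : ∀ n : ℕ, 1 ≤ n → n < p → (n : ZMod p) ≠ 0 := by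
    intro n h1 h2 h3
    rw [ZMod.natCast_eq_zero_iff] at h3
    have := Nat.le_of_dvd h1 h3
    omega
  have hr1 : r1 ≠ 0 := by
    rintro rfl
    apply hnat d1 hD.h1 (hD.ht1.trans_lt htp)
    rw [← hD.hr1]
    simp
  have hr2 : r2 ≠ 0 := by
    rintro rfl
    apply hnat d2 hD.h2 (hD.ht2.trans_lt htp)
    rw [← hD.hr2]
    simp
  have hmean : ‖∑ c, G c‖ ≤ p := mean hp2 χ hχ r1 r2 (A : ZMod p) (k : ZMod p) hr1 hr2 hAp
    (hnat k hk1 hkp)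
  have hsh := shift p L G (fun c => FA_norm_le χ r1 r2 _ _) hmean φ
    (fun w => WA_nonneg _ _ _ _ _ _ _) (fun w => WA_le_one _ _ _ _ _ _ _) K δ hsupp
    (1 / (t : ℝ) ^ 395) hη hrep
  -- the two sums
  have hsum : ∑ w ∈ (bx (3 * R)).filter (fun w => inL d1 d2 a' m ((e : ℤ) • w)),
      EA χ R d1 d2 r1 r2 A ((k : ℤ) • w) =
      ∑ v ∈ (bx K).filter (fun v => v ∈ L), (φ v : ℂ) * G ((v.1 : ZMod p), (v.2 : ZMod p)) := by
    have hE : ∀ w : ℤ × ℤ, EA χ R d1 d2 r1 r2 A ((k : ℤ) • w) =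
        (φ w : ℂ) * G ((w.1 : ZMod p), (w.2 : ZMod p)) := by
      intro w
      simp only [EA, φ, G, Prod.smul_fst, Prod.smul_snd, smul_eq_mul, Int.cast_mul,
        Int.cast_natCast]
    rw [Finset.sum_congr rfl fun w _ => hE w]
    symm
    refine Finset.sum_subset ?_ ?_
    · intro v hv
      rw [mem_filter, mem_bx] at hv ⊢
      refine ⟨hv.1.trans ?_, hv.2⟩
      rw [hK]
      exact (Nat.div_le_self _ _).trans (by omega)
    · intro v hv hv'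
      rw [mem_filter] at hv hv'
      have h0 : φ v = 0 := by
        by_contra hne
        exact hv' ⟨mem_bx.2 (hsupp v hne), hv.2⟩
      rw [h0]
      simp
  rw [hsum]
  refine hsh.trans ?_
  -- the count
  have hcnt := one_count hP hD hA hg he m (K + δ)
  rw [← ha'] at hcnt
  have hset : (bx (K + δ)).filter (fun v => v ∈ L) =
      (bx (K + δ)).filter (fun w => inL d1 d2 a' m ((e : ℤ) • w)) := by
    ext v
    rw [mem_filter, mem_filter, hL]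
  rw [hset]
  have ha0 : (0 : ℝ) < a := by exact_mod_cast ha1
  have ha'0 : (0 : ℝ) < a' := by exact_mod_cast ha'1
  have hRr : (0 : ℝ) < R := by exact_mod_cast hR0
  have hgr : (0 : ℝ) < g := by exact_mod_cast hg
  have her : (0 : ℝ) < e := by exact_mod_cast he
  have hKr : (K : ℝ) ≤ R / (4 * (g * e)) := by
    have h1 : (K : ℝ) ≤ (R : ℝ) / ((4 * k : ℕ) : ℝ) := by
      rw [hK]
      exact Nat.cast_div_le
    rw [hk] at h1
    push_cast at h1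
    exact h1
  have e1 : (K : ℝ) ^ 2 * ((e : ℝ) ^ 2 * t) / a' ≤ R ^ 2 * t / (16 * a) := by
    have h1 : (K : ℝ) ^ 2 ≤ (R / (4 * (g * e))) ^ 2 :=
      pow_le_pow_left₀ (Nat.cast_nonneg _) hKr 2
    have h2 : (K : ℝ) ^ 2 * ((e : ℝ) ^ 2 * t) / a' ≤
        (R / (4 * (g * e))) ^ 2 * ((e : ℝ) ^ 2 * t) / a' := by
      gcongr
    refine h2.trans ?_
    have h3 : (R / (4 * (g * e)) : ℝ) ^ 2 * ((e : ℝ) ^ 2 * t) / a' =
        R ^ 2 * t / (16 * (g ^ 2 * a')) := by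
      field_simp
      ring
    rw [h3]
    have h4 : (a : ℝ) ≤ g ^ 2 * a' := by exact_mod_cast haga
    gcongr
  have e2 : (δ : ℝ) ^ 2 * ((e : ℝ) ^ 2 * t) / a' ≤ 4 * p ^ 2 * t ^ 205 := by
    have h1 : (δ : ℝ) ^ 2 ≤ (p * ((t + t ^ 2) * Real.sqrt a')) ^ 2 :=
      pow_le_pow_left₀ (Nat.cast_nonneg _) hδa 2
    have h2 : (δ : ℝ) ^ 2 * ((e : ℝ) ^ 2 * t) / a' ≤
        (p * ((t + t ^ 2) * Real.sqrt a')) ^ 2 * ((e : ℝ) ^ 2 * t) / a' := by
      gcongr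
    refine h2.trans ?_
    have h3 : (p * ((t + t ^ 2) * Real.sqrt a') : ℝ) ^ 2 * ((e : ℝ) ^ 2 * t) / a' =
        p ^ 2 * ((t + t ^ 2) ^ 2 * ((e : ℝ) ^ 2 * t)) := by
      rw [mul_pow, mul_pow, Real.sq_sqrt ha'0.le]
      field_simp
    rw [h3]
    have h4 : (t + t ^ 2 : ℝ) ≤ 2 * t ^ 2 := by nlinarith
    have h5 : (e : ℝ) ≤ t ^ 100 := by
      have h6 : e ≤ t ^ 100 := by
        calc e = 1 * e := (one_mul _).symm
          _ ≤ g * e := Nat.mul_le_mul_right _ hg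
          _ = k := hk.symm
          _ ≤ t ^ 100 := hge
      exact_mod_cast h6
    have h7 : (t + t ^ 2 : ℝ) ^ 2 * ((e : ℝ) ^ 2 * t) ≤ (2 * t ^ 2) ^ 2 * ((t ^ 100) ^ 2 * t) := by
      gcongr
    calc (p : ℝ) ^ 2 * ((t + t ^ 2) ^ 2 * ((e : ℝ) ^ 2 * t)) ≤
        (p : ℝ) ^ 2 * ((2 * (t : ℝ) ^ 2) ^ 2 * (((t : ℝ) ^ 100) ^ 2 * t)) := by gcongr
      _ = 4 * (p : ℝ) ^ 2 * (t : ℝ) ^ 205 := by ring
  have hPR : (p : ℝ) ^ 5 ≤ R := by exact_mod_cast hP.hR1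
  have haR3 : (a : ℝ) ≤ 3 * R := by
    rw [haR]
    have := hA.hi
    have h1 : ((|A| : ℤ) : ℝ) ≤ ((3 * R : ℤ) : ℝ) := by exact_mod_cast this
    push_cast at h1
    exact h1
  have hp1 : (1 : ℝ) ≤ p := by exact_mod_cast (Fact.out : p.Prime).one_le
  have e3 : 64 * (p : ℝ) ^ 2 * t ^ 205 + 2 ≤ R ^ 2 * t / a := by
    have h1 : (R : ℝ) * t / 3 ≤ R ^ 2 * t / a := by
      rw [div_le_div_iff₀ (by norm_num) ha0]
      calc (R : ℝ) * t * a ≤ (R : ℝ) * t * (3 * R) := by gcongr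
        _ = (R : ℝ) ^ 2 * t * 3 := by ring
    refine le_trans ?_ h1
    have h2 : 195 * (t : ℝ) ^ 204 ≤ p ^ 3 := by
      calc 195 * (t : ℝ) ^ 204 ≤ (t : ℝ) * (t : ℝ) ^ 204 := by gcongr; linarith
        _ = (t : ℝ) ^ 205 := by ring
        _ ≤ (t : ℝ) ^ 1000 := pow_le_pow_right₀ (by linarith) (by norm_num)
        _ ≤ (p : ℝ) := hPT
        _ = (p : ℝ) ^ 1 := (pow_one _).symm
        _ ≤ (p : ℝ) ^ 3 := pow_le_pow_right₀ hp1 (by norm_num)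
    have h3 : (2 : ℝ) ≤ p ^ 2 * t ^ 205 := by
      have h4 : (1 : ℝ) ≤ p ^ 2 := one_le_pow₀ hp1
      have h5 : (t : ℝ) ^ 1 ≤ t ^ 205 := pow_le_pow_right₀ (by linarith) (by norm_num)
      rw [pow_one] at h5
      calc (2 : ℝ) ≤ 1 * (t : ℝ) := by linarith
        _ ≤ (p : ℝ) ^ 2 * (t : ℝ) ^ 205 := mul_le_mul h4 h5 hT0.le (by positivity)
    have h6 : 195 * (p : ℝ) ^ 2 * t ^ 205 ≤ R * t := by
      calc 195 * (p : ℝ) ^ 2 * (t : ℝ) ^ 205 = (195 * (t : ℝ) ^ 204) * ((p : ℝ) ^ 2 * t) := by ring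
        _ ≤ (p : ℝ) ^ 3 * ((p : ℝ) ^ 2 * t) := by gcongr
        _ = (p : ℝ) ^ 5 * t := by ring
        _ ≤ (R : ℝ) * t := by gcongr
    linarith
  have hcard : ((((bx (K + δ)).filter (fun w => inL d1 d2 a' m ((e : ℤ) • w))).card : ℕ) : ℝ) ≤
      2 * (R ^ 2 * t / a) := by
    refine hcnt.trans ?_
    have h1 : (((K + δ : ℕ) : ℝ)) ^ 2 ≤ 2 * (K : ℝ) ^ 2 + 2 * (δ : ℝ) ^ 2 := by
      push_cast
      nlinarith [sq_nonneg ((K : ℝ) - δ)]
    have h2 : 8 * ((K + δ : ℕ) : ℝ) ^ 2 * ((e : ℝ) ^ 2 * t) / (a' : ℝ) ≤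
        8 * (2 * (K : ℝ) ^ 2 + 2 * (δ : ℝ) ^ 2) * ((e : ℝ) ^ 2 * t) / a' := by
      gcongr
    have h3 : 8 * (2 * (K : ℝ) ^ 2 + 2 * (δ : ℝ) ^ 2) * ((e : ℝ) ^ 2 * t) / a' =
        16 * ((K : ℝ) ^ 2 * ((e : ℝ) ^ 2 * t) / a') + 16 * ((δ : ℝ) ^ 2 * ((e : ℝ) ^ 2 * t) / a') := by
      ring
    have h4 : 16 * (R ^ 2 * t / (16 * a) : ℝ) = R ^ 2 * t / a := by
      field_simp
    linarith
  have hpt : 1 / (p : ℝ) ≤ 1 / t ^ 395 := by
    apply one_div_le_one_div_of_le (by positivity)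
    exact (pow_le_pow_right₀ (by linarith) (by norm_num)).trans hPT
  calc (1 / (p : ℝ) + 1 / t ^ 395) *
      ((((bx (K + δ)).filter (fun w => inL d1 d2 a' m ((e : ℤ) • w))).card : ℕ) : ℝ) ≤
      (1 / (t : ℝ) ^ 395 + 1 / (t : ℝ) ^ 395) * (2 * ((R : ℝ) ^ 2 * t / a)) := by gcongr
    _ = (R : ℝ) ^ 2 / (t ^ 390 * a) * (4 / t ^ 4) := by
      field_simp
      ring
    _ ≤ (R : ℝ) ^ 2 / (t ^ 390 * a) * 1 := by
      refine mul_le_mul_of_nonneg_left ?_ (by positivity)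
      rw [div_le_one (by positivity)]
      calc (4 : ℝ) ≤ (t : ℝ) ^ 1 := by rw [pow_one]; linarith
        _ ≤ (t : ℝ) ^ 4 := pow_le_pow_right₀ (by linarith) (by norm_num)
    _ = (R : ℝ) ^ 2 / (t ^ 390 * a) := mul_one _

end Pool.Agent.LHf
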