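import Pool.Agent.LHf.One3
import Pool.Agent.LHf.Idn1

/-! MODULE ONE4: the sum over all lattices, for one pair `g, e`. -/

set_option autoImplicit false

namespace Pool.Agent.LHf

open Finset

private theorem one4_dv {g e : ℕ} (hg : 1 ≤ g) (w : ℤ × ℤ) :
    dv g (((g * e : ℕ) : ℤ) • w) = (e : ℤ) • w := by
  have hg' : (g : ℤ) ≠ 0 := by exact_mod_cast (by omega : g ≠ 0)
  unfold dv
  apply Prod.ext
  · show ((g * e : ℕ) : ℤ) * w.1 / g = e * w.1
    push_cast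
    rw [mul_assoc, Int.mul_ediv_cancel_left _ hg']
  · show ((g * e : ℕ) : ℤ) * w.2 / g = e * w.2
    push_cast
    rw [mul_assoc, Int.mul_ediv_cancel_left _ hg']

private theorem one4_cont {k : ℕ} {v : ℤ × ℤ} (h : k ∣ cont v) :
    ∃ w : ℤ × ℤ, v = (k : ℤ) • w := by
  unfold cont at h
  have h1 : (k : ℤ) ∣ v.1 := (Int.natCast_dvd_natCast.2 h).trans (Int.gcd_dvd_left _ _)
  have h2 : (k : ℤ) ∣ v.2 := (Int.natCast_dvd_natCast.2 h).trans (Int.gcd_dvd_right _ _)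
  obtain ⟨a, ha⟩ := h1
  obtain ⟨b, hb⟩ := h2
  exact ⟨(a, b), Prod.ext ha hb⟩

private theorem one4_cont' {k : ℕ} (w : ℤ × ℤ) : k ∣ cont ((k : ℤ) • w) := by
  unfold cont
  apply Int.natCast_dvd_natCast.1
  apply Int.dvd_coe_gcd
  · exact Dvd.intro _ rfl
  · exact Dvd.intro _ rfl

/-- PROOF. Interchange: `rho` is the number of `m ∈ rts d1 d2 (apr a g)` with
`inL .. m (v / g)`. The `v` with `g e ∣ cont v` are the `(g e) w`, `w ∈ ℤ × ℤ`, and then
`v / g = e w` (`dv g v = e • w`). So the sum is `∑ m ∈ rts, ∑ w, ...` of ONE3 (the summand `EA`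
vanishes if `v` is outside the box `pbx (3 Z1) (3 Z2)`, `WA_supp`; `w` in `bx (3 R)` because
`sn w ≤ sn v ≤ 3 R`). The number of `m` is at most `2 (d1 d2) d(a') ≤ 2 t ^ 2 t = 2 t ^ 3` (`rts_card`,
`Par.hdiv`, `a' ≤ 3 R ≤ p ^ 20`). -/
theorem one_ge {p t R d1 d2 : ℕ} [Fact p.Prime] {r1 r2 : ZMod p} (hP : Par p t R)
    (hD : DD p t d1 d2 r1 r2) (χ : MulChar (ZMod p) ℂ) (hχ : χ ≠ 1)
    {A : ℤ} (hA : GoodA p R A) {g e : ℕ} (hg : 1 ≤ g) (he : 1 ≤ e) (hge : g * e ≤ t ^ 100) :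
    ‖∑ v ∈ (pbx (3 * Zd R d1) (3 * Zd R d2)).filter (fun v => g * e ∣ cont v),
      (rho d1 d2 A.natAbs g v : ℂ) * EA χ R d1 d2 r1 r2 A v‖ ≤
        (R : ℝ) ^ 2 / (t ^ 380 * |(A : ℝ)|) := by
  classical
  have ht : 1000 ≤ t := hP.ht
  have hp1 : t ^ 1000 ≤ p := hP.htp
  have hp0 : 1 ≤ p := (Fact.out : p.Prime).one_lt.le
  have hpR : p ≤ R := (Nat.le_self_pow (by norm_num) p).trans hP.hR1
  have hR0 : 0 < R := by omega
  have h1200 : 1200 * t ≤ R := by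
    have h1 : 1200 * t ≤ t ^ 1000 := by
      calc 1200 * t ≤ t ^ 2 * t := by nlinarith
        _ = t ^ 3 := by ring
        _ ≤ t ^ 1000 := Nat.pow_le_pow_right (by omega) (by omega)
    omega
  have htt : t ≤ t ^ 2 := Nat.le_self_pow (by norm_num) t
  have hZ1 : R ≤ 25 * t * Zd R d1 := le_Zd (by omega) (hD.ht1.trans htt) h1200
  have hZ2 : R ≤ 25 * t * Zd R d2 := le_Zd (by omega) (hD.ht2.trans htt) h1200
  have hZ1' : 0 < Zd R d1 := by
    rcases Nat.eq_zero_or_pos (Zd R d1) with h | h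
    · rw [h, mul_zero] at hZ1; omega
    · exact h
  have hZ2' : 0 < Zd R d2 := by
    rcases Nat.eq_zero_or_pos (Zd R d2) with h | h
    · rw [h, mul_zero] at hZ2; omega
    · exact h
  have hA0 : A ≠ 0 := by
    rintro rfl
    exact hA.nd (dvd_zero _)
  have hAabs : (A.natAbs : ℤ) = |A| := Int.natCast_natAbs A
  have hAn : A.natAbs ≠ 0 := by rwa [Ne, Int.natAbs_eq_zero]
  set a' := apr A.natAbs g with ha'
  have ha1 : 1 ≤ a' := by
    rw [ha', apr]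
    apply Nat.div_pos
    · exact Nat.le_of_dvd (by omega) (Nat.gcd_dvd_left _ _)
    · exact Nat.gcd_pos_of_pos_left _ (by omega)
  have ha2 : a' ≤ 3 * R := by
    have h1 : a' ≤ A.natAbs := Nat.div_le_self _ _
    have h2 := hA.hi
    omega
  have ha3 : a' ≤ p ^ 20 := by
    have h1 : 3 * R ≤ p ^ 20 := by
      calc 3 * R ≤ p * p ^ 6 := by
            apply Nat.mul_le_mul _ hP.hR2
            have : t ≤ t ^ 1000 := Nat.le_self_pow (by norm_num) t
            omega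
        _ = p ^ 7 := by ring
        _ ≤ p ^ 20 := Nat.pow_le_pow_right hp0 (by norm_num)
    omega
  have hrts : (rts d1 d2 a').card ≤ 2 * t ^ 3 := by
    have h1 := rts_card d1 d2 a' hD.h1 hD.h2 ha1
    have h2 := hP.hdiv a' ha1 ha3
    calc (rts d1 d2 a').card ≤ 2 * (d1 * d2) * a'.divisors.card := h1
      _ ≤ 2 * (t * t) * t := by
          apply Nat.mul_le_mul _ h2
          exact Nat.mul_le_mul_left _ (Nat.mul_le_mul hD.ht1 hD.ht2)
      _ = 2 * t ^ 3 := by ring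
  -- the support of `EA`
  have hsupp : ∀ v : ℤ × ℤ, EA χ R d1 d2 r1 r2 A v ≠ 0 →
      v ∈ pbx (3 * Zd R d1) (3 * Zd R d2) := by
    intro v hv
    have hW : WA R (Zd R d1) (Zd R d2) d1 d2 A v ≠ 0 := by
      intro h0
      apply hv
      unfold EA
      rw [h0, Complex.ofReal_zero, zero_mul]
    obtain ⟨⟨a1, a2⟩, ⟨b1, b2⟩, _⟩ := WA_supp hR0 hZ1' hZ2' hW
    have e1 : (Zd R d1 : ℤ) < v.1 := by exact_mod_cast a1
    have e2 : v.1 < 3 * (Zd R d1 : ℤ) := by exact_mod_cast a2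
    have e3 : (Zd R d2 : ℤ) < v.2 := by exact_mod_cast b1
    have e4 : v.2 < 3 * (Zd R d2 : ℤ) := by exact_mod_cast b2
    unfold pbx
    rw [mem_product, mem_Icc, mem_Icc]
    refine ⟨⟨?_, ?_⟩, ?_, ?_⟩ <;> push_cast <;> omega
  have hge0 : ((g * e : ℕ) : ℤ) ≠ 0 := by
    have : 0 < g * e := by positivity
    exact_mod_cast this.ne'
  -- one root
  have hone : ∀ m ∈ rts d1 d2 a',
      ‖∑ v ∈ ((pbx (3 * Zd R d1) (3 * Zd R d2)).filter (fun v => g * e ∣ cont v)).filter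
        (fun v => inL d1 d2 a' m (dv g v)), EA χ R d1 d2 r1 r2 A v‖ ≤
        (R : ℝ) ^ 2 / (t ^ 390 * |(A : ℝ)|) := by
    intro m hm
    have h1 := one_root hP hD χ hχ hA hg he hge hm
    rw [← ha'] at h1
    refine le_of_eq_of_le ?_ h1
    congr 1
    have hinj : Set.InjOn (fun w : ℤ × ℤ => ((g * e : ℕ) : ℤ) • w)
        (((bx (3 * R)).filter (fun w => inL d1 d2 a' m ((e : ℤ) • w)) : Finset (ℤ × ℤ)) :
          Set (ℤ × ℤ)) := by
      intro v _ w _ hvw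
      have e1 : ((g * e : ℕ) : ℤ) * v.1 = ((g * e : ℕ) : ℤ) * w.1 := congrArg Prod.fst hvw
      have e2 : ((g * e : ℕ) : ℤ) * v.2 = ((g * e : ℕ) : ℤ) * w.2 := congrArg Prod.snd hvw
      exact Prod.ext (mul_left_cancel₀ hge0 e1) (mul_left_cancel₀ hge0 e2)
    rw [← Finset.sum_image (f := fun v => EA χ R d1 d2 r1 r2 A v) hinj]
    apply Finset.sum_subset
    · intro v hv
      rw [mem_filter, mem_filter] at hv
      obtain ⟨⟨hv1, hv2⟩, hv3⟩ := hv
      obtain ⟨w, rfl⟩ := one4_cont hv2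
      rw [mem_image]
      refine ⟨w, ?_, rfl⟩
      rw [mem_filter]
      rw [one4_dv hg] at hv3
      refine ⟨?_, hv3⟩
      unfold pbx at hv1
      rw [mem_product, mem_Icc, mem_Icc] at hv1
      obtain ⟨⟨c1, c2⟩, c3, c4⟩ := hv1
      rw [mem_bx]
      have hk : (1 : ℤ) ≤ ((g * e : ℕ) : ℤ) := by
        have : 0 < g * e := by positivity
        exact_mod_cast this
      have d1' : ((g * e : ℕ) : ℤ) * w.1 ≤ ((3 * Zd R d1 : ℕ) : ℤ) := c2
      have d2' : ((g * e : ℕ) : ℤ) * w.2 ≤ ((3 * Zd R d2 : ℕ) : ℤ) := c4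
      have d3' : 1 ≤ ((g * e : ℕ) : ℤ) * w.1 := c1
      have d4' : 1 ≤ ((g * e : ℕ) : ℤ) * w.2 := c3
      have z1 := Zd_le R d1
      have z2 := Zd_le R d2
      have w1 : 0 < w.1 :=
        (mul_pos_iff_of_pos_left (by omega : (0 : ℤ) < ((g * e : ℕ) : ℤ))).1 (by omega)
      have w2 : 0 < w.2 :=
        (mul_pos_iff_of_pos_left (by omega : (0 : ℤ) < ((g * e : ℕ) : ℤ))).1 (by omega)
      have w3 : w.1 ≤ ((g * e : ℕ) : ℤ) * w.1 := le_mul_of_one_le_left w1.le hk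
      have w4 : w.2 ≤ ((g * e : ℕ) : ℤ) * w.2 := le_mul_of_one_le_left w2.le hk
      unfold sn
      exact max_le (by omega) (by omega)
    · intro v hv hv'
      by_contra hne
      apply hv'
      rw [mem_image] at hv
      obtain ⟨w, hw, rfl⟩ := hv
      rw [mem_filter] at hw
      rw [mem_filter, mem_filter]
      refine ⟨⟨hsupp _ hne, one4_cont' w⟩, ?_⟩
      rw [one4_dv hg]
      exact hw.2
  have hsum : ∑ v ∈ (pbx (3 * Zd R d1) (3 * Zd R d2)).filter (fun v => g * e ∣ cont v),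
      (rho d1 d2 A.natAbs g v : ℂ) * EA χ R d1 d2 r1 r2 A v =
      ∑ m ∈ rts d1 d2 a',
        ∑ v ∈ ((pbx (3 * Zd R d1) (3 * Zd R d2)).filter (fun v => g * e ∣ cont v)).filter
          (fun v => inL d1 d2 a' m (dv g v)), EA χ R d1 d2 r1 r2 A v := by
    simp_rw [Finset.sum_filter (fun v => inL d1 d2 a' _ (dv g v))]
    rw [Finset.sum_comm]
    apply Finset.sum_congr rfl
    intro v _
    rw [← Finset.sum_filter, Finset.sum_const, nsmul_eq_mul]
    rfl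
  rw [hsum]
  refine (norm_sum_le _ _).trans ((Finset.sum_le_sum hone).trans ?_)
  rw [Finset.sum_const, nsmul_eq_mul]
  have hAr : (0 : ℝ) < |(A : ℝ)| := abs_pos.2 (by exact_mod_cast hA0)
  have ht0 : (0 : ℝ) < t := by exact_mod_cast (by omega : 0 < t)
  have ht1 : (2 : ℝ) * t ^ 3 ≤ t ^ 10 := by
    have : 2 * t ^ 3 ≤ t ^ 10 := by
      calc 2 * t ^ 3 ≤ t * t ^ 3 := Nat.mul_le_mul_right _ (by omega)
        _ = t ^ 4 := by ring
        _ ≤ t ^ 10 := Nat.pow_le_pow_right (by omega) (by norm_num)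
    exact_mod_cast this
  have hrts' : ((rts d1 d2 a').card : ℝ) ≤ t ^ 10 := by
    refine le_trans ?_ ht1
    exact_mod_cast hrts
  calc ((rts d1 d2 a').card : ℝ) * ((R : ℝ) ^ 2 / (t ^ 390 * |(A : ℝ)|)) ≤
        (t : ℝ) ^ 10 * ((R : ℝ) ^ 2 / (t ^ 390 * |(A : ℝ)|)) := by gcongr
    _ = (R : ℝ) ^ 2 / (t ^ 380 * |(A : ℝ)|) := by
        have : (t : ℝ) ^ 390 = t ^ 10 * t ^ 380 := by ring
        rw [this]
        field_simp

end Pool.Agent.LHf
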