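import Pool.Agent.LHf.Defs

/-! MODULE PAIRS: many good pairs of vectors. -/

set_option autoImplicit false

namespace Pool.Agent.LHf

open Finset

/-- `v q l` real numbers with absolute value `≤ 1`, `m = card Q ≥ 12`, `N = card Λ`. PROOF.
`∑ q, q' ∈ Q, ∑ l, v q l v q' l = ∑ l, (∑ q, v q l) ^ 2 ≥ 0`, the terms with `q = q'` contribute at
most `m N`, so the sum over the ordered pairs `q ≠ q'` of `s(q, q') = ∑ l, v q l v q' l` is at least
`- m N`. Let `b` be the number of ordered pairs `q ≠ q'` with `s < - N / 2` and `g` the number of the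
others: `- m N ≤ - b N / 2 + g N`, `b + g = m (m - 1)`. If `N > 0`: `b / 2 ≤ g + m`, so
`m (m - 1) = b + g ≤ 3 g + 2 m`, `g ≥ (m ^ 2 - 3 m) / 3 ≥ m ^ 2 / 4` for `m ≥ 12`. (If `N = 0` all
`s = 0 ≥ - N / 2`.) -/
theorem pairs (Q Λ : Finset ℕ) (v : ℕ → ℕ → ℝ) (hv : ∀ q l, |v q l| ≤ 1) (hQ : 12 ≤ Q.card) :
    (Q.card : ℝ) ^ 2 / 4 ≤ ((((Q ×ˢ Q).filter (fun x => x.1 ≠ x.2 ∧
      -((Λ.card : ℝ) / 2) ≤ ∑ l ∈ Λ, v x.1 l * v x.2 l)).card : ℕ) : ℝ) := by
  classical
  set N : ℝ := (Λ.card : ℝ) with hN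
  have hN0 : 0 ≤ N := Nat.cast_nonneg _
  set s : ℕ × ℕ → ℝ := fun x => ∑ l ∈ Λ, v x.1 l * v x.2 l with hs
  set A := (Q ×ˢ Q).filter (fun x => x.1 ≠ x.2 ∧ -(N / 2) ≤ s x) with hA
  set B := (Q ×ˢ Q).filter (fun x => x.1 ≠ x.2 ∧ ¬ -(N / 2) ≤ s x) with hB
  set C := (Q ×ˢ Q).filter (fun x => ¬ x.1 ≠ x.2) with hC
  have hsle : ∀ x, s x ≤ N := by
    intro x
    simp only [hs, hN]
    calc ∑ l ∈ Λ, v x.1 l * v x.2 l ≤ ∑ _l ∈ Λ, (1 : ℝ) := by
          refine Finset.sum_le_sum fun l _ => ?_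
          have h1 := hv x.1 l
          have h2 := hv x.2 l
          calc v x.1 l * v x.2 l ≤ |v x.1 l * v x.2 l| := le_abs_self _
            _ = |v x.1 l| * |v x.2 l| := abs_mul _ _
            _ ≤ 1 * 1 := mul_le_mul h1 h2 (abs_nonneg _) (by norm_num)
            _ = 1 := by norm_num
      _ = Λ.card := by simp
  have h0 : 0 ≤ ∑ x ∈ Q ×ˢ Q, s x := by
    have : ∑ x ∈ Q ×ˢ Q, s x = ∑ l ∈ Λ, (∑ q ∈ Q, v q l) ^ 2 := by
      simp only [hs]
      rw [Finset.sum_comm]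
      refine Finset.sum_congr rfl fun l _ => ?_
      rw [Finset.sum_product, sq, Finset.sum_mul_sum]
    rw [this]
    exact Finset.sum_nonneg fun _ _ => sq_nonneg _
  have hsplit : ∑ x ∈ Q ×ˢ Q, s x = ∑ x ∈ A, s x + ∑ x ∈ B, s x + ∑ x ∈ C, s x := by
    rw [← Finset.sum_filter_add_sum_filter_not (Q ×ˢ Q) (fun x => x.1 ≠ x.2) s,
      ← Finset.sum_filter_add_sum_filter_not ((Q ×ˢ Q).filter (fun x => x.1 ≠ x.2))
        (fun x => -(N / 2) ≤ s x) s, Finset.filter_filter, Finset.filter_filter]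
  have hcard : A.card + B.card + C.card = Q.card * Q.card := by
    rw [← Finset.card_product, ← Finset.card_filter_add_card_filter_not (s := Q ×ˢ Q)
      (fun x => x.1 ≠ x.2), ← Finset.card_filter_add_card_filter_not
        (s := (Q ×ˢ Q).filter (fun x => x.1 ≠ x.2)) (fun x => -(N / 2) ≤ s x),
      Finset.filter_filter, Finset.filter_filter]
  have hCc : C.card = Q.card := by
    have : C = Q.image (fun q => (q, q)) := by
      ext x
      simp only [hC, Finset.mem_filter, Finset.mem_product, Finset.mem_image, not_not]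
      constructor
      · rintro ⟨⟨h1, -⟩, h2⟩
        exact ⟨x.1, h1, Prod.ext rfl h2⟩
      · rintro ⟨q, hq, rfl⟩
        exact ⟨⟨hq, hq⟩, rfl⟩
    rw [this, Finset.card_image_of_injective _ (fun a b h => (Prod.mk.inj h).1)]
  have hsA : ∑ x ∈ A, s x ≤ A.card * N := by
    calc ∑ x ∈ A, s x ≤ ∑ _x ∈ A, N := Finset.sum_le_sum fun x _ => hsle x
      _ = A.card * N := by simp
  have hsC : ∑ x ∈ C, s x ≤ C.card * N := by
    calc ∑ x ∈ C, s x ≤ ∑ _x ∈ C, N := Finset.sum_le_sum fun x _ => hsle x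
      _ = C.card * N := by simp
  have hsB : ∑ x ∈ B, s x ≤ B.card * (-(N / 2)) := by
    calc ∑ x ∈ B, s x ≤ ∑ _x ∈ B, (-(N / 2)) := Finset.sum_le_sum fun x hx => by
          have := (Finset.mem_filter.1 hx).2.2
          exact (not_le.1 this).le
      _ = B.card * (-(N / 2)) := by simp
  have hm : (12 : ℝ) ≤ Q.card := by exact_mod_cast hQ
  have hcard' : (A.card : ℝ) + B.card + C.card = Q.card * Q.card := by exact_mod_cast hcard
  have hCc' : (C.card : ℝ) = Q.card := by exact_mod_cast hCc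
  rw [hCc'] at hsC hcard'
  change (Q.card : ℝ) ^ 2 / 4 ≤ (A.card : ℝ)
  rcases hN0.eq_or_lt with hz | hz
  · have hBe : B.card = 0 := by
      rw [Finset.card_eq_zero, hB, Finset.filter_eq_empty_iff]
      rintro x - ⟨-, h⟩
      apply h
      have hL : Λ = ∅ := by
        rw [← Finset.card_eq_zero]
        have : (Λ.card : ℝ) = 0 := hz.symm
        exact_mod_cast this
      simp only [hs, hL, Finset.sum_empty]
      rw [← hz]
      simp
    rw [hBe] at hcard'
    push_cast at hcard'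
    nlinarith
  · have h5 : 0 ≤ (A.card + Q.card - (B.card : ℝ) / 2) * N := by nlinarith
    have h6 : 0 ≤ (A.card : ℝ) + Q.card - (B.card : ℝ) / 2 := by
      by_contra hcon
      push Not at hcon
      nlinarith
    nlinarith

end Pool.Agent.LHf
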