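import Pool.Agent.LHf.Lat
import Pool.Agent.LHf.Tent

/-! MODULE PRM1: the true summand. -/

set_option autoImplicit false

namespace Pool.Agent.LHf

open Finset

theorem TA_norm_le {p : ℕ} [Fact p.Prime] (χ : MulChar (ZMod p) ℂ) (R d1 d2 : ℕ) (r1 r2 : ZMod p)
    (A : ℤ) (v : ℤ × ℤ) : ‖TA χ R d1 d2 r1 r2 A v‖ ≤ 1 := by
  unfold TA
  split_ifs with h
  · have h1 : ‖(WA R (Zd R d1) (Zd R d2) d1 d2 A v : ℂ)‖ ≤ 1 := by
      rw [Complex.norm_real, Real.norm_eq_abs, abs_of_nonneg (WA_nonneg _ _ _ _ _ _ _)]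
      exact WA_le_one _ _ _ _ _ _ _
    rw [norm_mul, norm_mul, RCLike.norm_conj]
    have h2 := DirichletCharacter.norm_le_one χ
      (((A + nf d1 d2 v / A : ℤ) : ZMod p) + 2 * (v.1 : ZMod p) * r1)
    have h3 := DirichletCharacter.norm_le_one χ
      (((nf d1 d2 v / A - A : ℤ) : ZMod p) + 2 * (v.2 : ZMod p) * r2)
    have h4 := mul_le_one₀ h2 (norm_nonneg _) h3
    exact mul_le_one₀ h1 (by positivity) h4
  · rw [norm_zero]; exact zero_le_one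

/-- PROOF. If `TA ≠ 0` then `A ∣ nf v` and `WA ≠ 0`; `A ≠ 0` (real division by zero gives
`tent R 0 = 0`). `WA_supp`: with the real number `C = nf v / A`: `A + C < 3 R`, `C - A < 3 R`,
`A + C > R`, `C - A > R`; so `R < C < 3 R`, `|A| < R`, `nf v = A C`. -/
theorem TA_supp {p R d1 d2 : ℕ} {χ : MulChar (ZMod p) ℂ} {r1 r2 : ZMod p} {A : ℤ} {v : ℤ × ℤ}
    (hR : 0 < R) (hZ1 : 0 < Zd R d1) (hZ2 : 0 < Zd R d2) (h : TA χ R d1 d2 r1 r2 A v ≠ 0) :
    A ∣ nf d1 d2 v ∧ A ≠ 0 ∧ |A| < R ∧ |nf d1 d2 v| < |A| * (3 * R) ∧ nf d1 d2 v ≠ 0 ∧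
      ((Zd R d1 : ℤ) < v.1 ∧ v.1 < 3 * Zd R d1) ∧ ((Zd R d2 : ℤ) < v.2 ∧ v.2 < 3 * Zd R d2) := by
  unfold TA at h
  split_ifs at h with hd
  · have hW : WA R (Zd R d1) (Zd R d2) d1 d2 A v ≠ 0 := by
      intro h0
      apply h
      rw [h0, Complex.ofReal_zero, zero_mul]
    obtain ⟨⟨a1, a2⟩, ⟨b1, b2⟩, c1, c2, c3, c4⟩ := WA_supp hR hZ1 hZ2 hW
    have hR' : (0 : ℝ) < R := by exact_mod_cast hR
    have hA : A ≠ 0 := by
      rintro rfl
      simp at c1 c3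
      linarith
    obtain ⟨C, hC⟩ := hd
    have hA' : (A : ℝ) ≠ 0 := by exact_mod_cast hA
    have hCr : (nf d1 d2 v : ℝ) / A = C := by
      rw [hC]; push_cast; field_simp
    rw [hCr] at c1 c2 c3 c4
    have e1 : (R : ℤ) < A + C := by exact_mod_cast c1
    have e2 : A + C < 3 * R := by exact_mod_cast c2
    have e3 : (R : ℤ) < C - A := by exact_mod_cast c3
    have e4 : C - A < 3 * R := by exact_mod_cast c4
    have f1 : (0 : ℤ) < |A| := abs_pos.2 hA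
    have f2 : |C| = C := abs_of_nonneg (by omega)
    have f3 : C < 3 * R := by omega
    refine ⟨⟨C, hC⟩, hA, abs_lt.2 ⟨by omega, by omega⟩, ?_, ?_, ⟨?_, ?_⟩, ?_, ?_⟩
    · rw [hC, abs_mul, f2]
      exact mul_lt_mul_of_pos_left f3 f1
    · rw [hC]
      exact mul_ne_zero hA (by omega)
    · exact_mod_cast a1
    · exact_mod_cast a2
    · exact_mod_cast b1
    · exact_mod_cast b2
  · exact absurd rfl h

/-- If `p` does not divide `A` then the true summand is `EA` (in `ZMod p` the integer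
`nf v / A` is `(r1 ^ 2 z1 ^ 2 - r2 ^ 2 z2 ^ 2) * A⁻¹`). -/
theorem TA_eq {p t R d1 d2 : ℕ} [Fact p.Prime] {r1 r2 : ZMod p} (hD : DD p t d1 d2 r1 r2)
    (χ : MulChar (ZMod p) ℂ) {A : ℤ} (hA : ¬ (p : ℤ) ∣ A) (v : ℤ × ℤ) :
    TA χ R d1 d2 r1 r2 A v = if A ∣ nf d1 d2 v then EA χ R d1 d2 r1 r2 A v else 0 := by
  unfold TA
  split_ifs with h
  · obtain ⟨C, hC⟩ := h
    have hA0 : A ≠ 0 := by
      rintro rfl
      exact hA (dvd_zero _)
    have hAp : (A : ZMod p) ≠ 0 := by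
      rwa [Ne, ZMod.intCast_zmod_eq_zero_iff_dvd]
    have h1 : nf d1 d2 v / A = C := by rw [hC, Int.mul_ediv_cancel_left _ hA0]
    have h2 : (r1 ^ 2 * (v.1 : ZMod p) ^ 2 - r2 ^ 2 * (v.2 : ZMod p) ^ 2) * (A : ZMod p)⁻¹ = C := by
      have h3 : ((nf d1 d2 v : ℤ) : ZMod p) = A * C := by rw [hC]; push_cast; ring
      unfold nf at h3
      push_cast at h3
      rw [hD.hr1, hD.hr2, h3, mul_comm (A : ZMod p), mul_assoc, mul_inv_cancel₀ hAp, mul_one]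
    unfold EA FA
    simp only [h1, h2]
    push_cast
    rfl
  · rfl

end Pool.Agent.LHf
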