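import Pool.Agent.LHf.Prm1
import Pool.Agent.LHf.Zdb

/-! MODULE PRM2: the inner product as a sum over `A` and `v`. -/

set_option autoImplicit false

namespace Pool.Agent.LHf

open Finset

private theorem prm2_quad (n : ℤ) (hn : n ≠ 0) (M : ℤ) (f : ℤ → ℤ → ℂ)
    (hf : ∀ x y, f x y ≠ 0 → (1 ≤ x ∧ x ≤ M) ∧ (1 ≤ y ∧ y ≤ M)) :
    ∑ x ∈ Icc 1 M, ∑ y ∈ Icc 1 M, (if x ^ 2 - y ^ 2 = 4 * n then f x y else 0) =
      ∑ A ∈ (Icc (-M) M).erase 0, (if A ∣ n then f (A + n / A) (n / A - A) else 0) := by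
  classical
  rw [← Finset.sum_product']
  rw [← Finset.sum_filter_ne_zero (s := Icc 1 M ×ˢ Icc 1 M),
    ← Finset.sum_filter_ne_zero (s := (Icc (-M) M).erase 0)]
  refine Finset.sum_bij' (fun a _ => (a.1 - a.2) / 2) (fun A _ => (A + n / A, n / A - A)) ?_ ?_ ?_ ?_ ?_
  · rintro ⟨x, y⟩ h
    rw [mem_filter, mem_product, mem_Icc, mem_Icc] at h
    obtain ⟨⟨⟨h1, h2⟩, h3, h4⟩, h5⟩ := h
    simp only at h1 h2 h3 h4 h5 ⊢
    have h6 : x ^ 2 - y ^ 2 = 4 * n := by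
      by_contra h6
      rw [if_neg h6] at h5
      exact h5 rfl
    rw [if_pos h6] at h5
    obtain ⟨A, C, hx, hy⟩ : ∃ A C : ℤ, x = A + C ∧ y = C - A := by
      have h7 : (x - y) % 2 = 0 := by
        rcases Int.even_or_odd x with ⟨a, ha⟩ | ⟨a, ha⟩ <;> rcases Int.even_or_odd y with ⟨b, hb⟩ | ⟨b, hb⟩
        · omega
        · exfalso
          have : x ^ 2 - y ^ 2 = 2 * (2 * a ^ 2 - 2 * b ^ 2 - 2 * b) - 1 := by rw [ha, hb]; ring
          omega
        · exfalso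
          have : x ^ 2 - y ^ 2 = 2 * (2 * a ^ 2 - 2 * b ^ 2 + 2 * a) + 1 := by rw [ha, hb]; ring
          omega
        · omega
      exact ⟨(x - y) / 2, (x + y) / 2, by omega, by omega⟩
    have hAC : A * C = n := by
      have : 4 * (A * C) = 4 * n := by rw [← h6, hx, hy]; ring
      linarith
    have hA0 : A ≠ 0 := by
      rintro rfl
      rw [zero_mul] at hAC
      exact hn hAC.symm
    have hxy : (x - y) / 2 = A := by omega
    have hnA : n / A = C := by rw [← hAC, Int.mul_ediv_cancel_left _ hA0]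
    rw [hxy, mem_filter, mem_erase, mem_Icc]
    refine ⟨⟨hA0, by omega, by omega⟩, ?_⟩
    rw [if_pos ⟨C, hAC.symm⟩, hnA, ← hx, ← hy]
    exact h5
  · intro A h
    rw [mem_filter, mem_erase, mem_Icc] at h
    obtain ⟨⟨hA0, h1, h2⟩, h3⟩ := h
    have h4 : A ∣ n := by
      by_contra h4
      rw [if_neg h4] at h3
      exact h3 rfl
    rw [if_pos h4] at h3
    obtain ⟨C, hC⟩ := h4
    have hnA : n / A = C := by rw [hC, Int.mul_ediv_cancel_left _ hA0]
    obtain ⟨h5, h6⟩ := hf _ _ h3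
    rw [mem_filter, mem_product, mem_Icc, mem_Icc]
    refine ⟨⟨h5, h6⟩, ?_⟩
    have h7 : (A + n / A, n / A - A).1 ^ 2 - (A + n / A, n / A - A).2 ^ 2 = 4 * n := by
      simp only
      rw [hnA, hC]
      ring
    rw [if_pos h7]
    exact h3
  · rintro ⟨x, y⟩ h
    rw [mem_filter, mem_product, mem_Icc, mem_Icc] at h
    obtain ⟨⟨⟨h1, h2⟩, h3, h4⟩, h5⟩ := h
    simp only at h1 h2 h3 h4 h5 ⊢
    have h6 : x ^ 2 - y ^ 2 = 4 * n := by
      by_contra h6
      rw [if_neg h6] at h5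
      exact h5 rfl
    obtain ⟨A, C, hx, hy⟩ : ∃ A C : ℤ, x = A + C ∧ y = C - A := by
      have h7 : (x - y) % 2 = 0 := by
        rcases Int.even_or_odd x with ⟨a, ha⟩ | ⟨a, ha⟩ <;> rcases Int.even_or_odd y with ⟨b, hb⟩ | ⟨b, hb⟩
        · omega
        · exfalso
          have : x ^ 2 - y ^ 2 = 2 * (2 * a ^ 2 - 2 * b ^ 2 - 2 * b) - 1 := by rw [ha, hb]; ring
          omega
        · exfalso
          have : x ^ 2 - y ^ 2 = 2 * (2 * a ^ 2 - 2 * b ^ 2 + 2 * a) + 1 := by rw [ha, hb]; ring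
          omega
        · omega
      exact ⟨(x - y) / 2, (x + y) / 2, by omega, by omega⟩
    have hAC : A * C = n := by
      have : 4 * (A * C) = 4 * n := by rw [← h6, hx, hy]; ring
      linarith
    have hA0 : A ≠ 0 := by
      rintro rfl
      rw [zero_mul] at hAC
      exact hn hAC.symm
    have hxy : (x - y) / 2 = A := by omega
    have hnA : n / A = C := by rw [← hAC, Int.mul_ediv_cancel_left _ hA0]
    rw [hxy, hnA, ← hx, ← hy]
  · intro A h
    simp only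
    omega
  · rintro ⟨x, y⟩ h
    rw [mem_filter, mem_product, mem_Icc, mem_Icc] at h
    obtain ⟨⟨⟨h1, h2⟩, h3, h4⟩, h5⟩ := h
    simp only at h1 h2 h3 h4 h5 ⊢
    have h6 : x ^ 2 - y ^ 2 = 4 * n := by
      by_contra h6
      rw [if_neg h6] at h5
      exact h5 rfl
    obtain ⟨A, C, hx, hy⟩ : ∃ A C : ℤ, x = A + C ∧ y = C - A := by
      have h7 : (x - y) % 2 = 0 := by
        rcases Int.even_or_odd x with ⟨a, ha⟩ | ⟨a, ha⟩ <;> rcases Int.even_or_odd y with ⟨b, hb⟩ | ⟨b, hb⟩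
        · omega
        · exfalso
          have : x ^ 2 - y ^ 2 = 2 * (2 * a ^ 2 - 2 * b ^ 2 - 2 * b) - 1 := by rw [ha, hb]; ring
          omega
        · exfalso
          have : x ^ 2 - y ^ 2 = 2 * (2 * a ^ 2 - 2 * b ^ 2 + 2 * a) + 1 := by rw [ha, hb]; ring
          omega
        · omega
      exact ⟨(x - y) / 2, (x + y) / 2, by omega, by omega⟩
    have hAC : A * C = n := by
      have : 4 * (A * C) = 4 * n := by rw [← h6, hx, hy]; ring
      linarith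
    have hA0 : A ≠ 0 := by
      rintro rfl
      rw [zero_mul] at hAC
      exact hn hAC.symm
    have hxy : (x - y) / 2 = A := by omega
    have hnA : n / A = C := by rw [← hAC, Int.mul_ediv_cancel_left _ hA0]
    rw [if_pos h6, hxy, hnA, if_pos ⟨C, hAC.symm⟩, ← hx, ← hy]

/-- PROOF. The left side is the sum over `(x1, z1, x2, z2)` in the boxes with
`x1 ^ 2 - 4 d1 z1 ^ 2 = x2 ^ 2 - 4 d2 z2 ^ 2` of
`tent R x1 tent Z1 z1 tent R x2 tent Z2 z2 χ(x1 + 2 z1 r1) conj χ(x2 + 2 z2 r2)`. Then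
`(x1 - x2) (x1 + x2) = 4 nf (z1, z2)`, so `x1, x2` have the same parity (both factors have the same
parity and the product is even, so both are even), `A = (x1 - x2) / 2`, `C = (x1 + x2) / 2`,
`A C = nf (z1, z2)`. `A ≠ 0` as `nf ≠ 0` (`nf_ne_zero`, `z1 ≥ 1`). So `C = nf / A`, and the term is
`TA A (z1, z2)`. Conversely for `A ≠ 0` and `v = (z1, z2)` in the box with `TA A v ≠ 0` put
`x1 = A + C`, `x2 = C - A` (in `[1, 3 R]` by `WA_supp`). Use `Finset.sum_bij_ne_zero` or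
`Finset.sum_nbij'` after restricting both sides to the nonzero terms; it is convenient to fix
`z1, z2` first (interchange the sums) and to compare
`∑ x1, ∑ x2, [x1 ^ 2 - x2 ^ 2 = 4 n] f x1 x2` with
`∑ A ≠ 0, [A ∣ n] f (A + n / A) (n / A - A)` for `n ≠ 0` and a function `f` which vanishes unless
`1 ≤ x1, x2 ≤ 3 R`. -/
theorem gram_eq {p t R d1 d2 : ℕ} [Fact p.Prime] {r1 r2 : ZMod p} (hP : Par p t R)
    (hD : DD p t d1 d2 r1 r2) (χ : MulChar (ZMod p) ℂ) :
    Gram χ R d1 d2 r1 r2 = ∑ A ∈ (Icc (-((3 * R : ℕ) : ℤ)) ((3 * R : ℕ) : ℤ)).erase 0,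
      ∑ v ∈ pbx (3 * Zd R d1) (3 * Zd R d2), TA χ R d1 d2 r1 r2 A v := by
  classical
  have ht : 1000 ≤ t := hP.ht
  have hp5 := hP.hR1
  have hpt := hP.htp
  have hp1 : 1 ≤ p := (Fact.out : p.Prime).one_lt.le
  have htp : t ≤ p := (Nat.le_self_pow (by norm_num) t).trans hpt
  have hRt : 1200 * t ≤ R := by
    have h1 : t ^ 2 ≤ p ^ 2 := Nat.pow_le_pow_left htp 2
    have h2 : p ^ 2 * p ^ 3 ≤ R := by
      refine le_trans (le_of_eq ?_) hp5
      ring
    have h3 : t ^ 2 * 1000 ≤ R := by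
      refine le_trans (Nat.mul_le_mul h1 ?_) h2
      exact ht.trans (htp.trans (Nat.le_self_pow (by norm_num) p))
    nlinarith
  have hR0 : 0 < R := by omega
  have hZpos : ∀ d, d ≤ t → 0 < Zd R d := by
    intro d hd
    have h1 := le_Zd (R := R) (d := d) (P := t) (by omega) (by nlinarith) hRt
    rcases Nat.eq_zero_or_pos (Zd R d) with h | h
    · rw [h, mul_zero] at h1
      omega
    · exact h
  have hZ1 := hZpos d1 hD.ht1
  have hZ2 := hZpos d2 hD.ht2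
  have hRR : (0 : ℝ) < R := by exact_mod_cast hR0
  -- the function for fixed z1, z2
  obtain ⟨f, hfdef⟩ : ∃ f : ℤ → ℤ → ℤ → ℤ → ℂ, ∀ z1 z2 x y, f z1 z2 x y =
      tm χ R (Zd R d1) r1 (x, z1) * (starRingEnd ℂ) (tm χ R (Zd R d2) r2 (y, z2)) :=
    ⟨fun z1 z2 x y => _, fun _ _ _ _ => rfl⟩
  have hfsupp : ∀ z1 z2 x y, f z1 z2 x y ≠ 0 →
      (1 ≤ x ∧ x ≤ ((3 * R : ℕ) : ℤ)) ∧ (1 ≤ y ∧ y ≤ ((3 * R : ℕ) : ℤ)) := by
    intro z1 z2 x y h
    rw [hfdef] at h
    have h1 : tm χ R (Zd R d1) r1 (x, z1) ≠ 0 := left_ne_zero_of_mul h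
    have h2 : tm χ R (Zd R d2) r2 (y, z2) ≠ 0 := by
      intro h0
      rw [h0, map_zero, mul_zero] at h
      exact h rfl
    have key : ∀ (Z : ℕ) (r : ZMod p) (x z : ℤ), tm χ R Z r (x, z) ≠ 0 →
        1 ≤ x ∧ x ≤ ((3 * R : ℕ) : ℤ) := by
      intro Z r x z h
      unfold tm at h
      have h3 : (tent R (x, z).1 * tent Z (x, z).2 : ℝ) ≠ 0 := by
        intro h0
        rw [h0, Complex.ofReal_zero, zero_mul] at h
        exact h rfl
      have h4 : tent R x ≠ 0 := left_ne_zero_of_mul h3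
      obtain ⟨h5, h6⟩ := tent_supp hRR h4
      have h7 : (R : ℤ) < x := by exact_mod_cast h5
      have h8 : x < 3 * (R : ℤ) := by exact_mod_cast h6
      push_cast
      omega
    exact ⟨key _ _ _ _ h1, key _ _ _ _ h2⟩
  -- left side
  have hL : Gram χ R d1 d2 r1 r2 =
      ∑ v ∈ pbx (3 * Zd R d1) (3 * Zd R d2),
        ∑ x ∈ Icc (1 : ℤ) ((3 * R : ℕ) : ℤ), ∑ y ∈ Icc (1 : ℤ) ((3 * R : ℕ) : ℤ),
          (if x ^ 2 - y ^ 2 = 4 * nf d1 d2 v then f v.1 v.2 x y else 0) := by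
    unfold Gram pbx
    rw [Finset.sum_product]
    simp_rw [Finset.sum_product]
    rw [Finset.sum_comm]
    refine Finset.sum_congr rfl fun z1 _ => ?_
    -- now  ∑ x, ∑ x2, ∑ z2
    rw [Finset.sum_comm (s := Icc (1 : ℤ) ((3 * Zd R d2 : ℕ) : ℤ))]
    refine Finset.sum_congr rfl fun x _ => ?_
    rw [Finset.sum_comm]
    refine Finset.sum_congr rfl fun z2 _ => ?_
    refine Finset.sum_congr rfl fun y _ => ?_
    have hiff : (nd d1 (x, z1) = nd d2 (y, z2)) ↔ (x ^ 2 - y ^ 2 = 4 * nf d1 d2 (z1, z2)) := by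
      unfold nd nf
      simp only
      constructor <;> intro h <;> linarith
    simp only [hiff, hfdef]
  rw [hL, Finset.sum_comm (s := (Icc (-((3 * R : ℕ) : ℤ)) ((3 * R : ℕ) : ℤ)).erase 0)]
  refine Finset.sum_congr rfl fun v hv => ?_
  unfold pbx at hv
  rw [mem_product, mem_Icc, mem_Icc] at hv
  have hv0 : v ≠ 0 := by
    intro h0
    rw [h0] at hv
    simp at hv
  have hn := nf_ne_zero hD.h1 hD.hns hv0
  rw [prm2_quad (nf d1 d2 v) hn _ (f v.1 v.2) (hfsupp v.1 v.2)]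
  refine Finset.sum_congr rfl fun A hA => ?_
  rw [mem_erase] at hA
  unfold TA
  by_cases hdvd : A ∣ nf d1 d2 v
  · rw [if_pos hdvd, if_pos hdvd, hfdef]
    have hA' : (A : ℝ) ≠ 0 := by exact_mod_cast hA.1
    have hq : ((nf d1 d2 v / A : ℤ) : ℝ) = (nf d1 d2 v : ℝ) / A := by
      rw [Int.cast_div hdvd hA']
    unfold tm WA
    simp only
    rw [map_mul, Complex.conj_ofReal]
    push_cast
    have e1 : (((nf d1 d2 v / A : ℤ) : ℝ)) = (nf d1 d2 v : ℝ) / A := hq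
    rw [e1]
    ring
  · rw [if_neg hdvd, if_neg hdvd]

end Pool.Agent.LHf
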