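import Pool.Agent.LHf.Defs

/-! MODULE QUO: quotients of products. -/

set_option autoImplicit false

namespace Pool.Agent.LHf

open Finset

theorem Quo.mul {G : Type} [CommGroup G] {S : Set G} {j k : ℕ} {a b : G} (ha : Quo S j a)
    (hb : Quo S k b) : Quo S (j + k) (a * b) := by
  obtain ⟨s, t, hs, ht, rfl⟩ := ha
  obtain ⟨s', t', hs', ht', rfl⟩ := hb
  refine ⟨Fin.append s s', Fin.append t t', ?_, ?_, ?_⟩
  · intro i
    refine Fin.addCases (fun i => ?_) (fun i => ?_) i
    · rw [Fin.append_left]; exact hs i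
    · rw [Fin.append_right]; exact hs' i
  · intro i
    refine Fin.addCases (fun i => ?_) (fun i => ?_) i
    · rw [Fin.append_left]; exact ht i
    · rw [Fin.append_right]; exact ht' i
  · rw [Fin.prod_univ_add, Fin.prod_univ_add]
    simp only [Fin.append_left, Fin.append_right, mul_inv]
    exact mul_mul_mul_comm _ _ _ _

theorem Quo.mono {G : Type} [CommGroup G] {S : Set G} (h1 : (1 : G) ∈ S) {j k : ℕ} (h : j ≤ k)
    {a : G} (ha : Quo S j a) : Quo S k a := by
  obtain ⟨m, rfl⟩ := Nat.exists_eq_add_of_le h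
  have h2 : Quo S m (1 : G) := ⟨fun _ => 1, fun _ => 1, fun _ => h1, fun _ => h1, by simp⟩
  have h3 := ha.mul h2
  rwa [mul_one] at h3

theorem Quo.subset {G : Type} [CommGroup G] {S S' : Set G} (h : S ⊆ S') {k : ℕ} {a : G}
    (ha : Quo S k a) : Quo S' k a := by
  obtain ⟨s, t, hs, ht, e⟩ := ha
  exact ⟨s, t, fun i => h (hs i), fun i => h (ht i), e⟩

theorem Quo.of_mem {G : Type} [CommGroup G] {S : Set G} (h1 : (1 : G) ∈ S) {a : G} (ha : a ∈ S) :
    Quo S 1 a :=
  ⟨fun _ => a, fun _ => 1, fun _ => ha, fun _ => h1, by simp⟩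

theorem Quo.div_mem {G : Type} [CommGroup G] {S : Set G} {a b : G} (ha : a ∈ S) (hb : b ∈ S) :
    Quo S 1 (a * b⁻¹) :=
  ⟨fun _ => a, fun _ => b, fun _ => ha, fun _ => hb, by simp⟩

end Pool.Agent.LHf
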