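import Pool.Agent.LHf.Tent

/-! MODULE WVAR: the variation of the weight. -/

set_option autoImplicit false

namespace Pool.Agent.LHf

open Finset

/-- the variation of the weight. PROOF. If both values are zero there is nothing to prove (all terms
on the right are nonnegative). Otherwise one of `v, v + u` is in the support, so has coordinates
`|z1| ≤ 3 Z1`, `|z2| ≤ 3 Z2` (`WA_supp`), hence
`|nf (v + u) - nf v| ≤ d1 (6 Z1 X + X ^ 2) + d2 (6 Z2 X + X ^ 2)` (if `w` is this one and the other one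
is `w ± u`, then `(w1 ± u1) ^ 2 - w1 ^ 2 = ± 2 w1 u1 + u1 ^ 2`). `WA` is a product of four factors in
`[0, 1]`, so the difference of the two values is at most the sum of the differences of the factors;
use `tent_lip`: two of the factors change by at most `|nf (v + u) - nf v| / (|A| R)`, the other two by
at most `X / Z1` and `X / Z2`. -/
theorem wvar {R Z1 Z2 d1 d2 : ℕ} {A : ℤ} (hR : 0 < R) (h1 : 0 < Z1) (h2 : 0 < Z2) (hA : A ≠ 0)
    (X : ℕ) (v u : ℤ × ℤ) (hu : sn u ≤ X) :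
    |WA R Z1 Z2 d1 d2 A (v + u) - WA R Z1 Z2 d1 d2 A v| ≤
      2 * ((d1 : ℝ) * (6 * Z1 * X + X ^ 2) + d2 * (6 * Z2 * X + X ^ 2)) / (|(A : ℝ)| * R) +
        X / Z1 + X / Z2 := by
  have hR' : (0 : ℝ) < R := by exact_mod_cast hR
  have h1' : (0 : ℝ) < Z1 := by exact_mod_cast h1
  have h2' : (0 : ℝ) < Z2 := by exact_mod_cast h2
  have hA' : (0 : ℝ) < |(A : ℝ)| := abs_pos.2 (by exact_mod_cast hA)
  have hX' : (0 : ℝ) ≤ X := by positivity
  have hu1 : |(u.1 : ℝ)| ≤ X := by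
    have h3 : u.1.natAbs ≤ X := (le_max_left _ _).trans hu
    have h4 : ((u.1.natAbs : ℕ) : ℝ) ≤ X := by exact_mod_cast h3
    rwa [Nat.cast_natAbs, Int.cast_abs] at h4
  have hu2 : |(u.2 : ℝ)| ≤ X := by
    have h3 : u.2.natAbs ≤ X := (le_max_right _ _).trans hu
    have h4 : ((u.2.natAbs : ℕ) : ℝ) ≤ X := by exact_mod_cast h3
    rwa [Nat.cast_natAbs, Int.cast_abs] at h4
  -- the bound for a support point
  have key : ∀ w s : ℤ × ℤ, (∃ c : ℝ, (c = 1 ∨ c = -1) ∧ (s.1 : ℝ) = c * u.1 ∧ (s.2 : ℝ) = c * u.2) →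
      WA R Z1 Z2 d1 d2 A w ≠ 0 →
      |(nf d1 d2 (w + s) : ℝ) - (nf d1 d2 w : ℝ)| ≤
        (d1 : ℝ) * (6 * Z1 * X + X ^ 2) + d2 * (6 * Z2 * X + X ^ 2) := by
    rintro w s ⟨c, hc, hs1, hs2⟩ hw
    obtain ⟨⟨a1, a2⟩, ⟨b1, b2⟩, -⟩ := WA_supp hR h1 h2 hw
    have e : (nf d1 d2 (w + s) : ℝ) - (nf d1 d2 w : ℝ) =
        (d1 : ℝ) * (2 * w.1 * s.1 + (s.1 : ℝ) ^ 2) - d2 * (2 * w.2 * s.2 + (s.2 : ℝ) ^ 2) := by
      unfold nf
      push_cast [Prod.fst_add, Prod.snd_add]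
      ring
    rw [e]
    have hs1' : |(s.1 : ℝ)| ≤ X := by
      rw [hs1, abs_mul]
      rcases hc with rfl | rfl <;> simpa using hu1
    have hs2' : |(s.2 : ℝ)| ≤ X := by
      rw [hs2, abs_mul]
      rcases hc with rfl | rfl <;> simpa using hu2
    have f1 : |2 * (w.1 : ℝ) * s.1 + (s.1 : ℝ) ^ 2| ≤ (6 * Z1 * X + X ^ 2 : ℝ) := by
      refine (abs_add_le _ _).trans ?_
      have g1 : |2 * (w.1 : ℝ) * s.1| ≤ (6 * Z1 * X : ℝ) := by
        rw [abs_mul, abs_mul, abs_of_pos (by norm_num : (0 : ℝ) < 2), abs_of_pos (by linarith)]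
        have : 2 * (w.1 : ℝ) ≤ 6 * Z1 := by linarith
        exact mul_le_mul this hs1' (abs_nonneg _) (by positivity)
      have g2 : |(s.1 : ℝ) ^ 2| ≤ (X : ℝ) ^ 2 := by
        rw [abs_pow]
        exact pow_le_pow_left₀ (abs_nonneg _) hs1' 2
      linarith
    have f2 : |2 * (w.2 : ℝ) * s.2 + (s.2 : ℝ) ^ 2| ≤ (6 * Z2 * X + X ^ 2 : ℝ) := by
      refine (abs_add_le _ _).trans ?_
      have g1 : |2 * (w.2 : ℝ) * s.2| ≤ (6 * Z2 * X : ℝ) := by
        rw [abs_mul, abs_mul, abs_of_pos (by norm_num : (0 : ℝ) < 2), abs_of_pos (by linarith)]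
        have : 2 * (w.2 : ℝ) ≤ 6 * Z2 := by linarith
        exact mul_le_mul this hs2' (abs_nonneg _) (by positivity)
      have g2 : |(s.2 : ℝ) ^ 2| ≤ (X : ℝ) ^ 2 := by
        rw [abs_pow]
        exact pow_le_pow_left₀ (abs_nonneg _) hs2' 2
      linarith
    refine (abs_sub _ _).trans ?_
    rw [abs_mul, abs_mul, abs_of_nonneg (Nat.cast_nonneg d1 : (0 : ℝ) ≤ d1),
      abs_of_nonneg (Nat.cast_nonneg d2 : (0 : ℝ) ≤ d2)]
    exact add_le_add (mul_le_mul_of_nonneg_left f1 (Nat.cast_nonneg _))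
      (mul_le_mul_of_nonneg_left f2 (Nat.cast_nonneg _))
  have hN : 0 ≤ (d1 : ℝ) * (6 * Z1 * X + X ^ 2) + d2 * (6 * Z2 * X + X ^ 2) := by positivity
  by_cases h0 : WA R Z1 Z2 d1 d2 A (v + u) = 0 ∧ WA R Z1 Z2 d1 d2 A v = 0
  · rw [h0.1, h0.2, sub_zero, abs_zero]
    positivity
  have hD : |(nf d1 d2 (v + u) : ℝ) - (nf d1 d2 v : ℝ)| ≤
      (d1 : ℝ) * (6 * Z1 * X + X ^ 2) + d2 * (6 * Z2 * X + X ^ 2) := by
    by_cases hv : WA R Z1 Z2 d1 d2 A v = 0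
    · have hvu : WA R Z1 Z2 d1 d2 A (v + u) ≠ 0 := fun h => h0 ⟨h, hv⟩
      have := key (v + u) (-u) ⟨-1, Or.inr rfl, by simp, by simp⟩ hvu
      rw [add_neg_cancel_right, abs_sub_comm] at this
      exact this
    · exact key v u ⟨1, Or.inl rfl, by simp, by simp⟩ hv
  set D := (d1 : ℝ) * (6 * Z1 * X + X ^ 2) + d2 * (6 * Z2 * X + X ^ 2) with hDdef
  have hfrac : |(nf d1 d2 (v + u) : ℝ) / A - (nf d1 d2 v : ℝ) / A| ≤ D / |(A : ℝ)| := by
    rw [← sub_div, abs_div]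
    exact div_le_div_of_nonneg_right hD hA'.le
  -- the four factors
  have t1 : |tent R ((A : ℝ) + (nf d1 d2 (v + u) : ℝ) / A) - tent R ((A : ℝ) + (nf d1 d2 v : ℝ) / A)| ≤
      D / |(A : ℝ)| / R := by
    refine (tent_lip hR' _ _).trans ?_
    apply div_le_div_of_nonneg_right _ hR'.le
    have e : (A : ℝ) + (nf d1 d2 (v + u) : ℝ) / A - ((A : ℝ) + (nf d1 d2 v : ℝ) / A) =
      (nf d1 d2 (v + u) : ℝ) / A - (nf d1 d2 v : ℝ) / A := by ring
    rw [e]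
    exact hfrac
  have t3 : |tent R ((nf d1 d2 (v + u) : ℝ) / A - A) - tent R ((nf d1 d2 v : ℝ) / A - A)| ≤
      D / |(A : ℝ)| / R := by
    refine (tent_lip hR' _ _).trans ?_
    apply div_le_div_of_nonneg_right _ hR'.le
    have e : (nf d1 d2 (v + u) : ℝ) / A - A - ((nf d1 d2 v : ℝ) / A - A) =
      (nf d1 d2 (v + u) : ℝ) / A - (nf d1 d2 v : ℝ) / A := by ring
    rw [e]
    exact hfrac
  have t2 : |tent Z1 ((v + u).1 : ℤ) - tent Z1 (v.1 : ℤ)| ≤ X / Z1 := by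
    refine (tent_lip h1' _ _).trans ?_
    apply div_le_div_of_nonneg_right _ h1'.le
    rw [Prod.fst_add]
    push_cast
    rw [add_sub_cancel_left]
    exact hu1
  have t4 : |tent Z2 ((v + u).2 : ℤ) - tent Z2 (v.2 : ℤ)| ≤ X / Z2 := by
    refine (tent_lip h2' _ _).trans ?_
    apply div_le_div_of_nonneg_right _ h2'.le
    rw [Prod.snd_add]
    push_cast
    rw [add_sub_cancel_left]
    exact hu2
  have hprod : ∀ a b c d a' b' c' d' : ℝ, 0 ≤ a → a ≤ 1 → 0 ≤ b → b ≤ 1 → 0 ≤ c → c ≤ 1 →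
      0 ≤ d → d ≤ 1 → 0 ≤ a' → a' ≤ 1 → 0 ≤ b' → b' ≤ 1 → 0 ≤ c' → c' ≤ 1 → 0 ≤ d' → d' ≤ 1 →
      |(a * b) * (c * d) - (a' * b') * (c' * d')| ≤ |a - a'| + |b - b'| + (|c - c'| + |d - d'|) := by
    have h2f : ∀ a b a' b' : ℝ, 0 ≤ b → b ≤ 1 → 0 ≤ a' → a' ≤ 1 →
        |a * b - a' * b'| ≤ |a - a'| + |b - b'| := by
      intro a b a' b' hb hb1 ha' ha1'
      have e : a * b - a' * b' = (a - a') * b + a' * (b - b') := by ring
      rw [e]
      refine (abs_add_le _ _).trans ?_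
      rw [abs_mul, abs_mul, abs_of_nonneg hb, abs_of_nonneg ha']
      exact add_le_add (mul_le_of_le_one_right (abs_nonneg _) hb1)
        (mul_le_of_le_one_left (abs_nonneg _) ha1')
    intro a b c d a' b' c' d' ha ha1 hb hb1 hc hc1 hd hd1 ha' ha1' hb' hb1' hc' hc1' hd' hd1'
    refine (h2f (a * b) (c * d) (a' * b') (c' * d') (mul_nonneg hc hd) (mul_le_one₀ hc1 hd hd1)
      (mul_nonneg ha' hb') (mul_le_one₀ ha1' hb' hb1')).trans ?_
    exact add_le_add (h2f a b a' b' hb hb1 ha' ha1') (h2f c d c' d' hd hd1 hc' hc1')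
  unfold WA
  refine (hprod _ _ _ _ _ _ _ _ (tent_nonneg _ _) (tent_le_one _ _) (tent_nonneg _ _)
    (tent_le_one _ _) (tent_nonneg _ _) (tent_le_one _ _) (tent_nonneg _ _) (tent_le_one _ _)
    (tent_nonneg _ _) (tent_le_one _ _) (tent_nonneg _ _) (tent_le_one _ _) (tent_nonneg _ _)
    (tent_le_one _ _) (tent_nonneg _ _) (tent_le_one _ _)).trans ?_
  have e : 2 * D / (|(A : ℝ)| * R) = D / |(A : ℝ)| / R + D / |(A : ℝ)| / R := by
    rw [div_div]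
    ring
  rw [e]
  linarith

end Pool.Agent.LHf
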